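import Pool.Agent.W_MP_d8b8b7_G1.Base

set_option autoImplicit false

/-!
# (G1) Tangent: the derivative of the retraction is the projection onto the tangent space

`z` in the open unit ball, `x = ψ z`.
* `D_psi`: `ρ (ψ z') = ψ z'` for `z'` in the ball; differentiate.
* `psi_kap_D`: for `y` near `x` one has `y ∈ U` and `ρ y ∈ X ∩ V` (continuity, `ρ x = x ∈ V`), so
  `ρ y = ψ (κ (ρ y))` (`LChart.kap_mem`); differentiate at `x`: `D = Dψ(κ x) ∘ Dκ(x) ∘ D`, `κ x = z`.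
* `D_D`: from these two.  `tan_iff`: `D x v = v ↔ ∃ w, Dψ(z) w = v`.
-/

namespace Pool.Agent.W_MP_d8b8b7_G1

open Pool.Agent.W_MP_d8b8b7_gt
open MeasureTheory Set Filter Topology
open scoped Manifold ContDiff

variable {N : ℕ} {X U : Set (EN N)} {ρ : EN N → EN N} {ψ : EN 4 → EN N} {κ : EN N → EN 4}
  {V : Set (EN N)}

theorem D_psi (h : LChart X ψ κ V) (hρ : IsRetr X U ρ) {z : EN 4}
    (hz : z ∈ Metric.ball (0 : EN 4) 1) (w : EN 4) :
    fderiv ℝ ρ (ψ z) (fderiv ℝ ψ z w) = fderiv ℝ ψ z w := by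
  have hψ : HasFDerivAt ψ (fderiv ℝ ψ z) z :=
    ((h.smooth_psi.differentiable (by simp)) z).hasFDerivAt
  have h1 : HasFDerivAt (fun y => ρ (ψ y)) ((fderiv ℝ ρ (ψ z)).comp (fderiv ℝ ψ z)) z :=
    ((hρ.smooth.differentiable (by simp)) (ψ z)).hasFDerivAt.comp z hψ
  have h2 : (fun y => ρ (ψ y)) =ᶠ[𝓝 z] ψ := by
    filter_upwards [Metric.isOpen_ball.mem_nhds hz] with y hy
    exact hρ.fix _ (h.psi_mem hy).1
  have h3 : HasFDerivAt ψ ((fderiv ℝ ρ (ψ z)).comp (fderiv ℝ ψ z)) z :=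
    h1.congr_of_eventuallyEq h2.symm
  have h4 := h3.unique hψ
  have h5 := congrArg (fun A : EN 4 →L[ℝ] EN N => A w) h4
  exact h5

theorem psi_kap_D (h : LChart X ψ κ V) (hρ : IsRetr X U ρ) {z : EN 4}
    (hz : z ∈ Metric.ball (0 : EN 4) 1) (v : EN N) :
    fderiv ℝ ψ z (fderiv ℝ κ (ψ z) (fderiv ℝ ρ (ψ z) v)) = fderiv ℝ ρ (ψ z) v := by
  have hx := h.psi_mem hz
  have hρx : ρ (ψ z) = ψ z := hρ.fix _ hx.1
  have hρd : HasFDerivAt ρ (fderiv ℝ ρ (ψ z)) (ψ z) :=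
    ((hρ.smooth.differentiable (by simp)) (ψ z)).hasFDerivAt
  have hκd : HasFDerivAt κ (fderiv ℝ κ (ψ z)) (ρ (ψ z)) := by
    rw [hρx]
    exact ((h.smooth_kap.differentiable (by simp)) (ψ z)).hasFDerivAt
  have hψd : HasFDerivAt ψ (fderiv ℝ ψ z) (κ (ρ (ψ z))) := by
    rw [hρx, h.kap_psi z hz]
    exact ((h.smooth_psi.differentiable (by simp)) z).hasFDerivAt
  have h1 : HasFDerivAt (fun y => κ (ρ y))
      ((fderiv ℝ κ (ψ z)).comp (fderiv ℝ ρ (ψ z))) (ψ z) := hκd.comp (ψ z) hρd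
  have h2 : HasFDerivAt (fun y => ψ (κ (ρ y)))
      ((fderiv ℝ ψ z).comp ((fderiv ℝ κ (ψ z)).comp (fderiv ℝ ρ (ψ z)))) (ψ z) :=
    HasFDerivAt.comp (g := ψ) (f := fun y => κ (ρ y)) (ψ z) hψd h1
  have h3 : (fun y => ψ (κ (ρ y))) =ᶠ[𝓝 (ψ z)] ρ := by
    have hc : ContinuousAt ρ (ψ z) := hρ.smooth.continuous.continuousAt
    have hV : V ∈ 𝓝 (ρ (ψ z)) := by
      rw [hρx]
      exact h.openV.mem_nhds hx.2
    filter_upwards [hρ.openU.mem_nhds (hρ.subU hx.1), hc hV] with y hy hy'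
    exact (h.kap_mem (hρ.mem y hy) hy').2
  have h4 := (h2.congr_of_eventuallyEq h3.symm).unique hρd
  have h5 := congrArg (fun A : EN N →L[ℝ] EN N => A v) h4
  exact h5

theorem tan_iff (h : LChart X ψ κ V) (hρ : IsRetr X U ρ) {z : EN 4}
    (hz : z ∈ Metric.ball (0 : EN 4) 1) (v : EN N) :
    fderiv ℝ ρ (ψ z) v = v ↔ ∃ w, fderiv ℝ ψ z w = v := by
  constructor
  · intro hv
    refine ⟨fderiv ℝ κ (ψ z) (fderiv ℝ ρ (ψ z) v), ?_⟩
    rw [psi_kap_D h hρ hz, hv]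
  · rintro ⟨w, rfl⟩
    exact D_psi h hρ hz w

theorem D_D (hX : IsSub X) (hρ : IsRetr X U ρ) {x : EN N} (hx : x ∈ X) (v : EN N) :
    fderiv ℝ ρ x (fderiv ℝ ρ x v) = fderiv ℝ ρ x v := by
  obtain ⟨ψ, κ, V, h, rfl⟩ := hX.chart x hx
  have h0 : (0 : EN 4) ∈ Metric.ball (0 : EN 4) 1 := Metric.mem_ball_self one_pos
  exact (tan_iff h hρ h0 _).2 ⟨_, psi_kap_D h hρ h0 v⟩

/-- the tangent space is four dimensional -/
theorem finrank_range_D (hX : IsSub X) (hρ : IsRetr X U ρ) {x : EN N} (hx : x ∈ X) :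
    Module.finrank ℝ (LinearMap.range (fderiv ℝ ρ x).toLinearMap) = 4 := by
  obtain ⟨ψ, κ, V, h, rfl⟩ := hX.chart x hx
  have h0 : (0 : EN 4) ∈ Metric.ball (0 : EN 4) 1 := Metric.mem_ball_self one_pos
  have h1 : LinearMap.range (fderiv ℝ ρ (ψ 0)).toLinearMap =
      LinearMap.range (fderiv ℝ ψ 0).toLinearMap := by
    ext v
    constructor
    · rintro ⟨w, rfl⟩
      exact ⟨_, psi_kap_D h hρ h0 w⟩
    · rintro ⟨w, rfl⟩
      exact ⟨_, D_psi h hρ h0 w⟩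
  have h2 : Function.Injective (fderiv ℝ ψ 0).toLinearMap := h.fderiv_psi_injective h0
  rw [h1, LinearMap.finrank_range_of_inj h2]
  simp

end Pool.Agent.W_MP_d8b8b7_G1
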