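import Pool.Agent.W_MP_d8b8b7_G1.GeomAlg
import Pool.Agent.W_MP_d8b8b7_G1.Tangent

set_option autoImplicit false

/-!
# (G1) FrameDef: unitary frames at a point, lower bound of the metric

Notation `g(v, w) = G.F x v (G.J x w)` at `x ∈ X`; symmetric, `J`-invariant, positive on tangent vectors
(`GeomAlg`).
* `orth_of`: if `f0, f2` are tangent, `g(f0,f0) = g(f2,f2) = 1`, `g(f0,f2) = 0`, `g(f0, J f2) = 0`, then
  `f0, J f0, f2, J f2` is orthonormal.
* `span_of`: an orthonormal family of four tangent vectors is a basis of the tangent space (dimension 4,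
  `finrank_range_D` with `ga_retr`; linear independence from orthonormality), so
  `D v = ∑ a, g(v, f a) • f a` (for `v` with `D v` instead of `v`: `ga_F_D_left`).
* `g_lower`: the set `{(x, v) | x ∈ X, D x v = v, ‖v‖ = 1}` is compact and `g(v, v) > 0` on it (if the set is empty
  take `c = 1`); homogeneity.
* `comp6_F`: `F(f0,f1) = g(f0,f0) = 1`, `F(f0,f2) = - F(f0, J f3) = 0` (because `J f3 = J J f2 = - f2`), etc.
* `wedge_om`: for `a = comp6 (om x) f`: `a 0 = a 5 = 1`, `a 4 = - a 1`, `a 3 = a 2`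
  (`F` is the `J`-invariant part of `om` and has components `Fc`), so `wedge a a = 2 + 2 (a 1)^2 + 2 (a 2)^2`.
-/

namespace Pool.Agent.W_MP_d8b8b7_G1

open Pool.Agent.W_MP_d8b8b7_gt
open MeasureTheory Set Filter Topology
open scoped Manifold ContDiff

variable {N : ℕ}

/-- Borel unitary frame -/
structure IsFrame (G : Geom N) (fr : Fin 4 → EN N → EN N) : Prop where
  meas : ∀ a, Measurable (fr a)
  tan : ∀ x ∈ G.X, ∀ a, G.D x (fr a x) = fr a x
  J0 : ∀ x ∈ G.X, G.J x (fr 0 x) = fr 1 x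
  J2 : ∀ x ∈ G.X, G.J x (fr 2 x) = fr 3 x
  orth : ∀ x ∈ G.X, ∀ a b, G.F x (fr a x) (G.J x (fr b x)) = if a = b then 1 else 0
  span : ∀ x ∈ G.X, ∀ v, G.D x v = ∑ a, G.F x v (G.J x (fr a x)) • fr a x

variable (G : Geom N) {x : EN N}

theorem orth_of (hx : x ∈ G.X) (f0 f2 : EN N) (h00 : G.F x f0 (G.J x f0) = 1)
    (h22 : G.F x f2 (G.J x f2) = 1) (h02 : G.F x f0 (G.J x f2) = 0)
    (h03 : G.F x f0 (G.J x (G.J x f2)) = 0) (a b : Fin 4) :
    G.F x (![f0, G.J x f0, f2, G.J x f2] a) (G.J x (![f0, G.J x f0, f2, G.J x f2] b)) =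
      if a = b then 1 else 0 := by
  have e02 : G.F x f0 f2 = 0 := by
    rw [ga_J_J G hx, Bil.neg_right, ga_F_D_right G hx] at h03
    linarith
  have e20 : G.F x f2 f0 = 0 := by
    rw [ga_F_antisymm, e02, neg_zero]
  have c01 : G.F x f0 (G.J x (G.J x f0)) = 0 := ga_g_orth G hx f0
  have c10 : G.F x (G.J x f0) (G.J x f0) = 0 := ga_F_alt G x _
  have c11 : G.F x (G.J x f0) (G.J x (G.J x f0)) = 1 := by rw [ga_F_J G hx, h00]
  have c12 : G.F x (G.J x f0) (G.J x f2) = 0 := by rw [ga_F_J G hx, e02]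
  have c13 : G.F x (G.J x f0) (G.J x (G.J x f2)) = 0 := by rw [ga_F_J G hx, h02]
  have c20 : G.F x f2 (G.J x f0) = 0 := by rw [ga_g_symm G hx, h02]
  have c21 : G.F x f2 (G.J x (G.J x f0)) = 0 := by rw [ga_g_symm G hx, c12]
  have c23 : G.F x f2 (G.J x (G.J x f2)) = 0 := ga_g_orth G hx f2
  have c30 : G.F x (G.J x f2) (G.J x f0) = 0 := by rw [ga_F_J G hx, e20]
  have c31 : G.F x (G.J x f2) (G.J x (G.J x f0)) = 0 := by rw [ga_F_J G hx, c20]
  have c32 : G.F x (G.J x f2) (G.J x f2) = 0 := ga_F_alt G x _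
  have c33 : G.F x (G.J x f2) (G.J x (G.J x f2)) = 1 := by rw [ga_F_J G hx, h22]
  fin_cases a <;> fin_cases b
  · simpa using h00
  · simpa using c01
  · simpa using h02
  · simpa using h03
  · simpa using c10
  · simpa using c11
  · simpa using c12
  · simpa using c13
  · simpa using c20
  · simpa using c21
  · simpa using h22
  · simpa using c23
  · simpa using c30
  · simpa using c31
  · simpa using c32
  · simpa using c33

theorem span_of (hX : IsSub G.X) (hx : x ∈ G.X) (f : Fin 4 → EN N) (ht : ∀ a, G.D x (f a) = f a)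
    (ho : ∀ a b, G.F x (f a) (G.J x (f b)) = if a = b then 1 else 0) (v : EN N) :
    G.D x v = ∑ a, G.F x v (G.J x (f a)) • f a := by
  have hcoef : ∀ (c : Fin 4 → ℝ) (b : Fin 4), G.F x (∑ a, c a • f a) (G.J x (f b)) = c b := by
    intro c b
    rw [Bil.sum_left]
    simp only [Bil.smul_left, ho]
    simp
  have hli : LinearIndependent ℝ f := by
    rw [Fintype.linearIndependent_iff]
    intro c hc b
    have h1 := hcoef c b
    rw [hc, Bil.zero_left] at h1
    exact h1.symm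
  have hle : Submodule.span ℝ (Set.range f) ≤ LinearMap.range (fderiv ℝ G.rho x).toLinearMap := by
    rw [Submodule.span_le]
    rintro _ ⟨a, rfl⟩
    exact ⟨f a, ht a⟩
  have hfr : Module.finrank ℝ (Submodule.span ℝ (Set.range f)) =
      Module.finrank ℝ (LinearMap.range (fderiv ℝ G.rho x).toLinearMap) := by
    rw [finrank_span_eq_card hli, finrank_range_D hX (ga_retr G) hx]
    simp
  have heq := Submodule.eq_of_le_of_finrank_eq hle hfr
  have hv : G.D x v ∈ Submodule.span ℝ (Set.range f) := by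
    rw [heq]
    exact ⟨v, rfl⟩
  obtain ⟨c, hc⟩ := (Submodule.mem_span_range_iff_exists_fun ℝ).mp hv
  have hcb : ∀ b, G.F x v (G.J x (f b)) = c b := by
    intro b
    rw [← hcoef c b, hc, ga_F_D_left G hx]
  simp only [hcb]
  exact hc.symm

/-- uniform positivity of the metric -/
theorem g_lower : ∃ c : ℝ, 0 < c ∧ ∀ x ∈ G.X, ∀ v, G.D x v = v →
    c * ‖v‖ ^ 2 ≤ G.F x v (G.J x v) := by
  have hDc : Continuous G.D := (ga_smooth_D G).continuous
  have hJc : Continuous G.J := G.smooth_J.continuous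
  have hFc : Continuous (fun y => Bil.toCLM (G.F y)) :=
    Bil.toCLM.continuous.comp (ga_smooth_F G).continuous
  let K : Set (EN N × EN N) := {z | z.1 ∈ G.X ∧ z.2 ∈ Metric.sphere (0 : EN N) 1 ∧
    G.D z.1 z.2 = z.2}
  have hK : IsCompact K := by
    have h1 : IsCompact (G.X ×ˢ Metric.sphere (0 : EN N) 1) :=
      G.cptX.prod (isCompact_sphere _ _)
    have h2 : IsClosed {z : EN N × EN N | G.D z.1 z.2 = z.2} :=
      isClosed_eq ((hDc.comp continuous_fst).clm_apply continuous_snd) continuous_snd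
    have h3 : K = (G.X ×ˢ Metric.sphere (0 : EN N) 1) ∩ {z : EN N × EN N | G.D z.1 z.2 = z.2} := by
      ext z
      simp only [K, Set.mem_ofPred_eq, mem_inter_iff, mem_prod]
      tauto
    rw [h3]
    exact h1.inter_right h2
  have hcont : Continuous (fun z : EN N × EN N => G.F z.1 z.2 (G.J z.1 z.2)) :=
    ((hFc.comp continuous_fst).clm_apply continuous_snd).clm_apply
      ((hJc.comp continuous_fst).clm_apply continuous_snd)
  have hmain : ∃ c : ℝ, 0 < c ∧ ∀ z ∈ K, c ≤ G.F z.1 z.2 (G.J z.1 z.2) := by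
    rcases K.eq_empty_or_nonempty with he | hne
    · refine ⟨1, one_pos, fun z hz => ?_⟩
      rw [he] at hz
      exact absurd hz (Set.notMem_empty z)
    · obtain ⟨z0, hz0, hmin⟩ := hK.exists_isMinOn hne hcont.continuousOn
      refine ⟨G.F z0.1 z0.2 (G.J z0.1 z0.2), ?_, fun z hz => hmin hz⟩
      refine ga_g_pos G hz0.1 z0.2 hz0.2.2 ?_
      intro h0
      have h1 := hz0.2.1
      rw [h0] at h1
      simp at h1
  obtain ⟨c, hc, hcK⟩ := hmain
  refine ⟨c, hc, fun x hx v hv => ?_⟩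
  by_cases h0 : v = 0
  · subst h0
    simp
  · have hn : 0 < ‖v‖ := norm_pos_iff.mpr h0
    have hzK : ((x, ‖v‖⁻¹ • v) : EN N × EN N) ∈ K := by
      refine ⟨hx, ?_, ?_⟩
      · simp only [mem_sphere_iff_norm, sub_zero]
        rw [norm_smul, norm_inv, norm_norm, inv_mul_cancel₀ hn.ne']
      · change G.D x (‖v‖⁻¹ • v) = ‖v‖⁻¹ • v
        rw [map_smul, hv]
    have h1 := hcK _ hzK
    simp only [map_smul, Bil.smul_left, Bil.smul_right] at h1
    have h2 : ‖v‖⁻¹ * (‖v‖⁻¹ * G.F x v (G.J x v)) * ‖v‖ ^ 2 = G.F x v (G.J x v) := by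
      field_simp
    calc c * ‖v‖ ^ 2 ≤ ‖v‖⁻¹ * (‖v‖⁻¹ * G.F x v (G.J x v)) * ‖v‖ ^ 2 :=
          mul_le_mul_of_nonneg_right h1 (by positivity)
      _ = G.F x v (G.J x v) := h2

theorem IsFrame.bound {G : Geom N} {fr : Fin 4 → EN N → EN N} (h : IsFrame G fr) :
    ∃ C : ℝ, 0 ≤ C ∧ ∀ x ∈ G.X, ∀ a, ‖fr a x‖ ≤ C := by
  obtain ⟨c, hc, hg⟩ := g_lower G
  refine ⟨Real.sqrt c⁻¹, Real.sqrt_nonneg _, fun x hx a => ?_⟩
  have h1 := hg x hx (fr a x) (h.tan x hx a)
  rw [h.orth x hx a a, if_pos rfl] at h1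
  refine Real.le_sqrt_of_sq_le ?_
  rw [inv_eq_one_div, le_div_iff₀ hc]
  linarith

theorem IsFrame.comp6_F {G : Geom N} {fr : Fin 4 → EN N → EN N} (h : IsFrame G fr) {x : EN N}
    (hx : x ∈ G.X) : comp6 (G.F x) (fun a => fr a x) = Fc := by
  have o : ∀ a b, G.F x (fr a x) (G.J x (fr b x)) = if a = b then 1 else 0 := h.orth x hx
  have j0 := h.J0 x hx
  have j2 := h.J2 x hx
  have j3 : G.J x (fr 3 x) = - fr 2 x := by
    rw [← j2, ga_J_J G hx, h.tan x hx 2]
  have h01 : G.F x (fr 0 x) (fr 1 x) = 1 := by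
    have := o 0 0
    rwa [j0, if_pos rfl] at this
  have h02 : G.F x (fr 0 x) (fr 2 x) = 0 := by
    have := o 0 3
    rw [j3, Bil.neg_right, if_neg (by decide)] at this
    linarith
  have h03 : G.F x (fr 0 x) (fr 3 x) = 0 := by
    have := o 0 2
    rwa [j2, if_neg (by decide)] at this
  have h12 : G.F x (fr 1 x) (fr 2 x) = 0 := by
    have := o 1 3
    rw [j3, Bil.neg_right, if_neg (by decide)] at this
    linarith
  have h13 : G.F x (fr 1 x) (fr 3 x) = 0 := by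
    have := o 1 2
    rwa [j2, if_neg (by decide)] at this
  have h23 : G.F x (fr 2 x) (fr 3 x) = 1 := by
    have := o 2 2
    rwa [j2, if_pos rfl] at this
  simp only [comp6, Fc, h01, h02, h03, h12, h13, h23]

theorem IsFrame.wedge_om {G : Geom N} {fr : Fin 4 → EN N → EN N} (h : IsFrame G fr) {x : EN N}
    (hx : x ∈ G.X) :
    2 ≤ wedge (comp6 (G.om x) (fun a => fr a x)) (comp6 (G.om x) (fun a => fr a x)) := by
  have t : ∀ a, G.D x (fr a x) = fr a x := h.tan x hx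
  have j0 := h.J0 x hx
  have j2 := h.J2 x hx
  have j1 : G.J x (fr 1 x) = - fr 0 x := by
    rw [← j0, ga_J_J G hx, t 0]
  have j3 : G.J x (fr 3 x) = - fr 2 x := by
    rw [← j2, ga_J_J G hx, t 2]
  have hF := h.comp6_F hx
  have c : ∀ i : Fin 6, comp6 (G.F x) (fun a => fr a x) i = Fc i := fun i => by rw [hF]
  have e0 : G.F x (fr 0 x) (fr 1 x) = 1 := c 0
  have e1 : G.F x (fr 0 x) (fr 2 x) = 0 := c 1
  have e2 : G.F x (fr 0 x) (fr 3 x) = 0 := c 2
  have e5 : G.F x (fr 2 x) (fr 3 x) = 1 := c 5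
  rw [ga_F_apply, t, t, j0, j1, Bil.neg_right, ga_om_antisymm G x (fr 1 x)] at e0
  rw [ga_F_apply, t, t, j0, j2] at e1
  rw [ga_F_apply, t, t, j0, j3, Bil.neg_right] at e2
  rw [ga_F_apply, t, t, j2, j3, Bil.neg_right, ga_om_antisymm G x (fr 3 x)] at e5
  have w : wedge (comp6 (G.om x) (fun a => fr a x)) (comp6 (G.om x) (fun a => fr a x)) =
      G.om x (fr 0 x) (fr 1 x) * G.om x (fr 2 x) (fr 3 x)
      - G.om x (fr 0 x) (fr 2 x) * G.om x (fr 1 x) (fr 3 x)
      + G.om x (fr 0 x) (fr 3 x) * G.om x (fr 1 x) (fr 2 x)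
      + G.om x (fr 1 x) (fr 2 x) * G.om x (fr 0 x) (fr 3 x)
      - G.om x (fr 1 x) (fr 3 x) * G.om x (fr 0 x) (fr 2 x)
      + G.om x (fr 2 x) (fr 3 x) * G.om x (fr 0 x) (fr 1 x) := rfl
  have f0 : G.om x (fr 0 x) (fr 1 x) = 1 := by linarith
  have f5 : G.om x (fr 2 x) (fr 3 x) = 1 := by linarith
  have f4 : G.om x (fr 1 x) (fr 3 x) = - G.om x (fr 0 x) (fr 2 x) := by linarith
  have f3 : G.om x (fr 1 x) (fr 2 x) = G.om x (fr 0 x) (fr 3 x) := by linarith
  rw [w, f0, f5, f4, f3]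
  nlinarith [sq_nonneg (G.om x (fr 0 x) (fr 2 x)), sq_nonneg (G.om x (fr 0 x) (fr 3 x))]

end Pool.Agent.W_MP_d8b8b7_G1
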