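import Pool.Agent.W_MP_d8b8b7_G1.Base

set_option autoImplicit false

/-!
# (G1) WedgeDet: change of frame

`wedge (comp6 b f) (comp6 c f)` is the value of the 4-form `b ∧ c` on `f`, so it is multiplied by `det m` when
`f` is replaced by `m f`.  Proof by computation: expand `b (∑ a, m i a • f a) (∑ a, m j a • f a)` with the six
numbers `b (f a) (f b)`, `a < b` (antisymmetry), and `Matrix.det_succ_row_zero` (or `Matrix.det_apply'`
for `Fin 4`), `ring`.  Suggestion: first a purely real lemma with matrix entries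
`m00 ... m33`, `b01 ... b23`, `c01 ... c23`.
-/

namespace Pool.Agent.W_MP_d8b8b7_G1

open Pool.Agent.W_MP_d8b8b7_gt
open MeasureTheory Set Filter Topology
open scoped Manifold ContDiff

variable {N : ℕ}

/-- The component of a bilinear alternating form in a new frame. -/
theorem WedgeDet_comp (b : Bil N) (hb : ∀ v, b v v = 0) (f : Fin 4 → EN N)
    (p q : Fin 4 → ℝ) :
    b (∑ a, p a • f a) (∑ a, q a • f a) =
      (p 0 * q 1 - p 1 * q 0) * b (f 0) (f 1) + (p 0 * q 2 - p 2 * q 0) * b (f 0) (f 2) +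
      (p 0 * q 3 - p 3 * q 0) * b (f 0) (f 3) + (p 1 * q 2 - p 2 * q 1) * b (f 1) (f 2) +
      (p 1 * q 3 - p 3 * q 1) * b (f 1) (f 3) + (p 2 * q 3 - p 3 * q 2) * b (f 2) (f 3) := by
  have hs : ∀ u v, b v u = -b u v := by
    intro u v
    have h := hb (u + v)
    rw [Bil.add_left, Bil.add_right, Bil.add_right, hb, hb] at h
    linarith
  simp only [Fin.sum_univ_four, Bil.add_left, Bil.add_right, Bil.smul_left, Bil.smul_right, hb]
  rw [hs (f 0) (f 1), hs (f 0) (f 2), hs (f 0) (f 3), hs (f 1) (f 2), hs (f 1) (f 3),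
    hs (f 2) (f 3)]
  ring

theorem WedgeDet_real (m00 m01 m02 m03 m10 m11 m12 m13 m20 m21 m22 m23 m30 m31 m32 m33
    b01 b02 b03 b12 b13 b23 c01 c02 c03 c12 c13 c23 : ℝ) :
    ((m00 * m11 - m01 * m10) * b01 + (m00 * m12 - m02 * m10) * b02 +
      (m00 * m13 - m03 * m10) * b03 + (m01 * m12 - m02 * m11) * b12 +
      (m01 * m13 - m03 * m11) * b13 + (m02 * m13 - m03 * m12) * b23) *
    ((m20 * m31 - m21 * m30) * c01 + (m20 * m32 - m22 * m30) * c02 +
      (m20 * m33 - m23 * m30) * c03 + (m21 * m32 - m22 * m31) * c12 +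
      (m21 * m33 - m23 * m31) * c13 + (m22 * m33 - m23 * m32) * c23) -
    ((m00 * m21 - m01 * m20) * b01 + (m00 * m22 - m02 * m20) * b02 +
      (m00 * m23 - m03 * m20) * b03 + (m01 * m22 - m02 * m21) * b12 +
      (m01 * m23 - m03 * m21) * b13 + (m02 * m23 - m03 * m22) * b23) *
    ((m10 * m31 - m11 * m30) * c01 + (m10 * m32 - m12 * m30) * c02 +
      (m10 * m33 - m13 * m30) * c03 + (m11 * m32 - m12 * m31) * c12 +
      (m11 * m33 - m13 * m31) * c13 + (m12 * m33 - m13 * m32) * c23) +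
    ((m00 * m31 - m01 * m30) * b01 + (m00 * m32 - m02 * m30) * b02 +
      (m00 * m33 - m03 * m30) * b03 + (m01 * m32 - m02 * m31) * b12 +
      (m01 * m33 - m03 * m31) * b13 + (m02 * m33 - m03 * m32) * b23) *
    ((m10 * m21 - m11 * m20) * c01 + (m10 * m22 - m12 * m20) * c02 +
      (m10 * m23 - m13 * m20) * c03 + (m11 * m22 - m12 * m21) * c12 +
      (m11 * m23 - m13 * m21) * c13 + (m12 * m23 - m13 * m22) * c23) +
    ((m10 * m21 - m11 * m20) * b01 + (m10 * m22 - m12 * m20) * b02 +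
      (m10 * m23 - m13 * m20) * b03 + (m11 * m22 - m12 * m21) * b12 +
      (m11 * m23 - m13 * m21) * b13 + (m12 * m23 - m13 * m22) * b23) *
    ((m00 * m31 - m01 * m30) * c01 + (m00 * m32 - m02 * m30) * c02 +
      (m00 * m33 - m03 * m30) * c03 + (m01 * m32 - m02 * m31) * c12 +
      (m01 * m33 - m03 * m31) * c13 + (m02 * m33 - m03 * m32) * c23) -
    ((m10 * m31 - m11 * m30) * b01 + (m10 * m32 - m12 * m30) * b02 +
      (m10 * m33 - m13 * m30) * b03 + (m11 * m32 - m12 * m31) * b12 +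
      (m11 * m33 - m13 * m31) * b13 + (m12 * m33 - m13 * m32) * b23) *
    ((m00 * m21 - m01 * m20) * c01 + (m00 * m22 - m02 * m20) * c02 +
      (m00 * m23 - m03 * m20) * c03 + (m01 * m22 - m02 * m21) * c12 +
      (m01 * m23 - m03 * m21) * c13 + (m02 * m23 - m03 * m22) * c23) +
    ((m20 * m31 - m21 * m30) * b01 + (m20 * m32 - m22 * m30) * b02 +
      (m20 * m33 - m23 * m30) * b03 + (m21 * m32 - m22 * m31) * b12 +
      (m21 * m33 - m23 * m31) * b13 + (m22 * m33 - m23 * m32) * b23) *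
    ((m00 * m11 - m01 * m10) * c01 + (m00 * m12 - m02 * m10) * c02 +
      (m00 * m13 - m03 * m10) * c03 + (m01 * m12 - m02 * m11) * c12 +
      (m01 * m13 - m03 * m11) * c13 + (m02 * m13 - m03 * m12) * c23) =
    (m00 * (m11 * (m22 * m33 - m23 * m32) - m12 * (m21 * m33 - m23 * m31) +
        m13 * (m21 * m32 - m22 * m31)) -
      m01 * (m10 * (m22 * m33 - m23 * m32) - m12 * (m20 * m33 - m23 * m30) +
        m13 * (m20 * m32 - m22 * m30)) +
      m02 * (m10 * (m21 * m33 - m23 * m31) - m11 * (m20 * m33 - m23 * m30) +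
        m13 * (m20 * m31 - m21 * m30)) -
      m03 * (m10 * (m21 * m32 - m22 * m31) - m11 * (m20 * m32 - m22 * m30) +
        m12 * (m20 * m31 - m21 * m30))) *
    (b01 * c23 - b02 * c13 + b03 * c12 + b12 * c03 - b13 * c02 + b23 * c01) := by
  ring

theorem WedgeDet_det4 (m : Matrix (Fin 4) (Fin 4) ℝ) :
    m.det = m 0 0 * (m 1 1 * (m 2 2 * m 3 3 - m 2 3 * m 3 2) -
        m 1 2 * (m 2 1 * m 3 3 - m 2 3 * m 3 1) + m 1 3 * (m 2 1 * m 3 2 - m 2 2 * m 3 1)) -
      m 0 1 * (m 1 0 * (m 2 2 * m 3 3 - m 2 3 * m 3 2) -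
        m 1 2 * (m 2 0 * m 3 3 - m 2 3 * m 3 0) + m 1 3 * (m 2 0 * m 3 2 - m 2 2 * m 3 0)) +
      m 0 2 * (m 1 0 * (m 2 1 * m 3 3 - m 2 3 * m 3 1) -
        m 1 1 * (m 2 0 * m 3 3 - m 2 3 * m 3 0) + m 1 3 * (m 2 0 * m 3 1 - m 2 1 * m 3 0)) -
      m 0 3 * (m 1 0 * (m 2 1 * m 3 2 - m 2 2 * m 3 1) -
        m 1 1 * (m 2 0 * m 3 2 - m 2 2 * m 3 0) + m 1 2 * (m 2 0 * m 3 1 - m 2 1 * m 3 0)) := by
  rw [Matrix.det_succ_row_zero]
  simp [Fin.sum_univ_four, Matrix.det_fin_three, Matrix.submatrix_apply, Fin.succAbove]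
  ring

theorem wedge_det (b c : Bil N) (hb : ∀ v, b v v = 0) (hc : ∀ v, c v v = 0)
    (f : Fin 4 → EN N) (m : Matrix (Fin 4) (Fin 4) ℝ) :
    wedge (comp6 b (fun i => ∑ a, m i a • f a)) (comp6 c (fun i => ∑ a, m i a • f a)) =
      m.det * wedge (comp6 b f) (comp6 c f) := by
  have e0 : ∀ (b : Bil N) (g : Fin 4 → EN N), comp6 b g 0 = b (g 0) (g 1) := fun _ _ => rfl
  have e1 : ∀ (b : Bil N) (g : Fin 4 → EN N), comp6 b g 1 = b (g 0) (g 2) := fun _ _ => rfl
  have e2 : ∀ (b : Bil N) (g : Fin 4 → EN N), comp6 b g 2 = b (g 0) (g 3) := fun _ _ => rfl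
  have e3 : ∀ (b : Bil N) (g : Fin 4 → EN N), comp6 b g 3 = b (g 1) (g 2) := fun _ _ => rfl
  have e4 : ∀ (b : Bil N) (g : Fin 4 → EN N), comp6 b g 4 = b (g 1) (g 3) := fun _ _ => rfl
  have e5 : ∀ (b : Bil N) (g : Fin 4 → EN N), comp6 b g 5 = b (g 2) (g 3) := fun _ _ => rfl
  unfold wedge
  simp only [e0, e1, e2, e3, e4, e5, WedgeDet_comp b hb, WedgeDet_comp c hc]
  rw [WedgeDet_det4]
  exact WedgeDet_real _ _ _ _ _ _ _ _ _ _ _ _ _ _ _ _ _ _ _ _ _ _ _ _ _ _ _ _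

/-- pull back by an endomorphism of `R^4` -/
theorem wedge_pull (A : EN 4 →L[ℝ] EN 4) (b c : Bil 4)
    (hb : ∀ v, b v v = 0) (hc : ∀ v, c v v = 0) :
    wedge (comp6 (Bil.pull A b) std4) (comp6 (Bil.pull A c) std4) =
      A.det * wedge (comp6 b std4) (comp6 c std4) := by
  have hsum : ∀ v : EN 4, v = ∑ a, v a • std4 a := by
    intro v
    ext i
    fin_cases i <;> simp [Fin.sum_univ_four, std4]
  have h1 : ∀ b : Bil 4, comp6 (Bil.pull A b) std4 =
      comp6 b (fun i => ∑ a, (A (std4 i)) a • std4 a) := by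
    intro b
    have h2 : (fun i => ∑ a, (A (std4 i)) a • std4 a) = fun i => A (std4 i) := by
      funext i
      exact (hsum _).symm
    rw [h2]
    rfl
  have hdet : (Matrix.of fun i a => (A (std4 i)) a).det = A.det := by
    have h3 : A.det = LinearMap.det (A : EN 4 →ₗ[ℝ] EN 4) := rfl
    rw [h3, ← LinearMap.det_toMatrix (EuclideanSpace.basisFun (Fin 4) ℝ).toBasis,
      ← Matrix.det_transpose]
    congr 1
  rw [h1 b, h1 c, ← hdet]
  exact wedge_det b c hb hc std4 (Matrix.of fun i a => (A (std4 i)) a)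

end Pool.Agent.W_MP_d8b8b7_G1
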