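import Pool.Agent.W_MP_d8b8b7_G1.Model
import Pool.Agent.W_MP_d8b8b7_G1.FrameDef
import Pool.Agent.W_MP_d8b8b7_G1.WedgeDet

set_option autoImplicit false

/-!
# (G1) Ratio: `wedgeRatio` on `M` in terms of the frame

`q : M`, `x = e q`, `A i = de e q (std4 i)` is tangent at `x`, so `A i = ∑ a, m i a • fr a x` (`IsFrame.span`).
For `β, γ` alternating: `wedge4 (pb2 e β q) (pb2 e γ q) = wedge (comp6 (β x) A) (comp6 (γ x) A)
= det m * wedge (comp6 (β x) fr) (comp6 (γ x) fr)` (`pb2_apply`, `wedge_det`; `wedge4` is the same expression in the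
six components on the standard basis `EuclideanSpace.single i 1 = std4 i`), also for `β = γ = om`
(`pb2 e om = Ω`, `form2_ext`); `det m ≠ 0` because `de e q` is injective.  `wedge (om, om) ≥ 2` (`wedge_om`).
-/

namespace Pool.Agent.W_MP_d8b8b7_G1

open Pool.Agent.W_MP_d8b8b7_gt
open MeasureTheory Set Filter Topology
open scoped Manifold ContDiff ENNReal

variable {M : Type*} [TopologicalSpace M] [ChartedSpace E4 M] {N : ℕ} {Ω : Form M 2}
  {J : EndoField M} {G : Geom N} {e : M → EN N} {fr : Fin 4 → EN N → EN N}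

theorem IsModel.pb2_om (h : IsModel Ω J G e) : pb2 e G.om = Ω := by
  apply form2_ext
  intro q u v
  rw [pb2_apply e G.om_alt, h.om_eq]

/-- `wedge4` of two pull backs in the six components -/
theorem ratio_wedge4 (e : M → EN N) {β γ : EN N → Bil N}
    (hβ : ∀ x v, β x v v = 0) (hγ : ∀ x v, γ x v v = 0) (q : M) :
    wedge4 (pb2 e β q) (pb2 e γ q) =
      wedge (comp6 (β (e q)) (fun i => de e q (std4 i)))
        (comp6 (γ (e q)) (fun i => de e q (std4 i))) := by
  have h1 : ∀ i j : Fin 4, pb2 e β q ![std4 i, std4 j] =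
      β (e q) (de e q (std4 i)) (de e q (std4 j)) := fun i j => pb2_apply e hβ q _ _
  have h2 : ∀ i j : Fin 4, pb2 e γ q ![std4 i, std4 j] =
      γ (e q) (de e q (std4 i)) (de e q (std4 j)) := fun i j => pb2_apply e hγ q _ _
  have h3 : wedge4 (pb2 e β q) (pb2 e γ q) =
      pb2 e β q ![std4 0, std4 1] * pb2 e γ q ![std4 2, std4 3] -
      pb2 e β q ![std4 0, std4 2] * pb2 e γ q ![std4 1, std4 3] +
      pb2 e β q ![std4 0, std4 3] * pb2 e γ q ![std4 1, std4 2] +
      pb2 e β q ![std4 1, std4 2] * pb2 e γ q ![std4 0, std4 3] -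
      pb2 e β q ![std4 1, std4 3] * pb2 e γ q ![std4 0, std4 2] +
      pb2 e β q ![std4 2, std4 3] * pb2 e γ q ![std4 0, std4 1] := rfl
  rw [h3]
  simp only [h1, h2]
  rfl

/-- the matrix of `de e q` in the frame -/
theorem ratio_mat (h : IsModel Ω J G e) (hf : IsFrame G fr) (q : M) :
    ∃ m : Matrix (Fin 4) (Fin 4) ℝ, m.det ≠ 0 ∧
      ∀ i, de e q (std4 i) = ∑ a, m i a • fr a (e q) := by
  have hx : e q ∈ G.X := by
    rw [← h.range_e]
    exact ⟨q, rfl⟩
  obtain ⟨m, hm⟩ : ∃ m : Matrix (Fin 4) (Fin 4) ℝ,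
      ∀ i, de e q (std4 i) = ∑ a, m i a • fr a (e q) := by
    refine ⟨fun i a => G.F (e q) (de e q (std4 i)) (G.J (e q) (fr a (e q))), fun i => ?_⟩
    have h1 : G.D (e q) (de e q (std4 i)) = de e q (std4 i) := h.tan q _
    have h2 := hf.span (e q) hx (de e q (std4 i))
    exact h1.symm.trans h2
  refine ⟨m, ?_, hm⟩
  intro hdet
  obtain ⟨w, hw0, hw⟩ := Matrix.exists_vecMul_eq_zero_iff.2 hdet
  have h3 : de e q (∑ i, w i • std4 i) = 0 := by
    rw [map_sum]
    simp only [map_smul, hm, Finset.smul_sum, smul_smul]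
    rw [Finset.sum_comm]
    refine Finset.sum_eq_zero fun a _ => ?_
    rw [← Finset.sum_smul]
    have h4 : ∑ i, w i * m i a = 0 := congrFun hw a
    rw [h4, zero_smul]
  have h5 : ∑ i, w i • std4 i = 0 := by
    apply h.emb.inj q
    exact h3.trans (map_zero (de e q)).symm
  apply hw0
  funext j
  have h6 := congrArg (fun z : EN 4 => z j) h5
  have h7 : (∑ i, w i • std4 i : EN 4) j = w j := by
    simp [std4, Finset.sum_apply, Pi.single_apply]
  exact h7.symm.trans h6

theorem ratio_eq (h : IsModel Ω J G e) (hf : IsFrame G fr) {β γ : EN N → Bil N}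
    (hβ : ∀ x v, β x v v = 0) (hγ : ∀ x v, γ x v v = 0) (q : M) :
    wedgeRatio Ω (pb2 e β) (pb2 e γ) q *
        wedge (comp6 (G.om (e q)) (fun a => fr a (e q))) (comp6 (G.om (e q)) (fun a => fr a (e q))) =
      wedge (comp6 (β (e q)) (fun a => fr a (e q))) (comp6 (γ (e q)) (fun a => fr a (e q))) := by
  have hx : e q ∈ G.X := by
    rw [← h.range_e]
    exact ⟨q, rfl⟩
  obtain ⟨m, hm, hA⟩ := ratio_mat h hf q
  have hA' : (fun i => de e q (std4 i)) = fun i => ∑ a, m i a • fr a (e q) := funext hA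
  have h0 : wedge (comp6 (G.om (e q)) (fun a => fr a (e q)))
      (comp6 (G.om (e q)) (fun a => fr a (e q))) ≠ 0 := by
    have := hf.wedge_om hx
    intro h3
    rw [h3] at this
    norm_num at this
  have h1 : wedge4 (pb2 e β q) (pb2 e γ q) = m.det * wedge (comp6 (β (e q)) (fun a => fr a (e q)))
      (comp6 (γ (e q)) (fun a => fr a (e q))) := by
    rw [ratio_wedge4 e hβ hγ, hA', wedge_det _ _ (hβ _) (hγ _)]
  have h2 : wedge4 (Ω q) (Ω q) = m.det * wedge (comp6 (G.om (e q)) (fun a => fr a (e q)))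
      (comp6 (G.om (e q)) (fun a => fr a (e q))) := by
    have h4 : wedge4 (pb2 e G.om q) (pb2 e G.om q) = m.det *
        wedge (comp6 (G.om (e q)) (fun a => fr a (e q)))
          (comp6 (G.om (e q)) (fun a => fr a (e q))) := by
      rw [ratio_wedge4 e G.om_alt G.om_alt, hA', wedge_det _ _ (G.om_alt _) (G.om_alt _)]
    rw [h.pb2_om] at h4
    exact h4
  unfold wedgeRatio
  rw [h1, h2]
  field_simp

end Pool.Agent.W_MP_d8b8b7_G1
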