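import Pool.Agent.W_MP_d8b8b7_G1.SetupOf
import Pool.Agent.W_MP_d8b8b7_G1.Ratio

set_option autoImplicit false

/-!
# (G1) BPlus: transfer of the hypothesis `b⁺ = 1`

`S : Setup N`, `e : M → EN N` with `IsModel Ω J S.toGeom e`, `fr = S.fr` is a frame (`isFrame_setup`),
`w x = wedge (cp om x) (cp om x) ≥ 2` on `X`.  `inv = Function.invFun e` (`inv (e q) = q`),
`Λ f = ∫ x, f (inv x) * w x ∂S.nu`.
* `isIntegral`: for `f` smooth, `f ∘ inv` is continuous on `X = range e` (closed embedding), so
  `f (inv x) * w x` is integrable: bounded and a.e. measurable on `X` (`S.nu Xᶜ = 0`, finite measure).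
  `add`, `smul`: linearity.  `pos`: `f ∘ inv ≥ 0`, positive near some `e q`; every neighbourhood of a point of `X`
  has positive `nu` measure (chart: `lint` of `S.charts` with indicator functions, `h > 0`).
  `stokes`: `σ` has an extension `α` (`exists_ext1`, `pb1 e α = σ` by `form1_ext`), `β` has an extension `β'`
  (`exists_ext2`, `pb2 e β' = β`), closed on `X` by `closed_pb2` and `IsModel.tan_surj`;
  `τ = pb2 e (dOne α)` by `dOne_of_isExtDeriv`, `form2_ext`; so `Λ (wedgeRatio Ω τ β) =
  ∫ wedge (cp (dOne α)) (cp β') dnu = 0` (`ratio_eq`, `S.stokes`).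
* `not_pos_plane`: apply `BPlusOne` to `Λ` and `pb2 e β`, `pb2 e γ` (smooth by `smooth_pb2`, closed by
  `closed_pb2`); `s • pb2 e β q + t • pb2 e γ q = pb2 e (s β + t γ) q`, `ratio_eq`.
-/

namespace Pool.Agent.W_MP_d8b8b7_G1

open Pool.Agent.W_MP_d8b8b7_gt
open MeasureTheory Set Filter Topology
open scoped Manifold ContDiff ENNReal

variable {M : Type*} [TopologicalSpace M] [ChartedSpace E4 M] [IsManifold 𝓘(ℝ, E4) ∞ M] {N : ℕ}
  {Ω : Form M 2} {J : EndoField M} {S : Setup N} {e : M → EN N}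

theorem isFrame_setup (S : Setup N) : IsFrame S.toGeom S.fr :=
  ⟨S.meas_fr, S.fr_tan, S.fr_J0, S.fr_J2, S.fr_orth, S.fr_span⟩

/-- almost every point belongs to `X` -/
theorem BPlus_ae (S : Setup N) : ∀ᵐ x ∂S.nu, x ∈ S.X := by
  rw [ae_iff]
  exact S.nu_compl

/-- nonempty open subsets of `X` have positive volume -/
theorem nu_pos (S : Setup N) {W : Set (EN N)} (hW : IsOpen W) {x : EN N} (hx : x ∈ S.X)
    (hxW : x ∈ W) : 0 < S.nu W := by
  obtain ⟨ψ, κ, V, h, σ, hc, h0⟩ := S.charts x hx
  have hmeas : Measurable (W.indicator (fun _ : EN N => (1 : ℝ≥0∞))) :=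
    measurable_const.indicator hW.measurableSet
  have h1 := hc.lint _ hmeas
  have h2 : (∫⁻ y in V, W.indicator (fun _ : EN N => (1 : ℝ≥0∞)) y ∂S.nu) ≤ S.nu W := by
    rw [lintegral_indicator hW.measurableSet, lintegral_const, one_mul,
      Measure.restrict_apply MeasurableSet.univ, univ_inter]
    exact Measure.restrict_apply_le _ _
  refine lt_of_lt_of_le ?_ h2
  rw [h1]
  have hopen : IsOpen (ψ ⁻¹' W ∩ Metric.ball (0 : EN 4) 1) :=
    (hW.preimage hc.smooth_psi.continuous).inter Metric.isOpen_ball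
  have hne : (ψ ⁻¹' W ∩ Metric.ball (0 : EN 4) 1).Nonempty :=
    ⟨0, by rw [mem_preimage, h0]; exact hxW, Metric.mem_ball_self one_pos⟩
  have hpos : 0 < volume (ψ ⁻¹' W ∩ Metric.ball (0 : EN 4) 1) := hopen.measure_pos volume hne
  have hm2 : Measurable fun y : EN 4 =>
      W.indicator (fun _ : EN N => (1 : ℝ≥0∞)) (ψ y) * ENNReal.ofReal (h y) :=
    (hmeas.comp hc.smooth_psi.continuous.measurable).mul
      (ENNReal.measurable_ofReal.comp hc.smooth_h.continuous.measurable)
  rw [pos_iff_ne_zero, Ne, lintegral_eq_zero_iff hm2]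
  intro hz
  rw [Filter.EventuallyEq, ae_restrict_iff' Metric.isOpen_ball.measurableSet] at hz
  have h3 : volume (ψ ⁻¹' W ∩ Metric.ball (0 : EN 4) 1) = 0 := by
    refine measure_mono_null ?_ (ae_iff.1 hz)
    rintro y ⟨hy1, hy2⟩
    simp only [mem_ofPred_eq, not_forall]
    refine ⟨hy2, ?_⟩
    rw [indicator_of_mem (show ψ y ∈ W from hy1)]
    have h4 := hc.h_pos y hy2
    simp only [one_mul, Pi.zero_apply, ENNReal.ofReal_eq_zero, not_le]
    exact h4
  exact hpos.ne' h3

/-- integration against `Ω ∧ Ω` -/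
noncomputable def Lam [Nonempty M] (S : Setup N) (e : M → EN N) (f : M → ℝ) : ℝ :=
  ∫ x, f (Function.invFun e x) * wedge (S.cp S.om x) (S.cp S.om x) ∂S.nu

theorem BPlus_meas_bil (S : Setup N) {β : EN N → Bil N} (hβ : Continuous β) (a b : Fin 4) :
    Measurable fun x => β x (S.fr a x) (S.fr b x) := by
  have h1 : Continuous fun p : EN N × EN N × EN N => Bil.toCLM (β p.1) p.2.1 p.2.2 :=
    (((Bil.toCLM.continuous.comp hβ).comp continuous_fst).clm_apply
      (continuous_fst.comp continuous_snd)).clm_apply (continuous_snd.comp continuous_snd)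
  exact h1.measurable.comp (measurable_id.prodMk ((S.meas_fr a).prodMk (S.meas_fr b)))

theorem BPlus_bound_bil (S : Setup N) {β : EN N → Bil N} (hβ : Continuous β) :
    ∃ C, 0 ≤ C ∧ ∀ x ∈ S.X, ∀ a b, |β x (S.fr a x) (S.fr b x)| ≤ C := by
  obtain ⟨R, hR, hfr⟩ := (isFrame_setup S).bound
  obtain ⟨B, hB⟩ := S.cptX.exists_bound_of_continuousOn hβ.continuousOn
  refine ⟨|B| * R * R, by positivity, fun x hx a b => ?_⟩
  refine (Bil.abs_apply_le _ _ _).trans ?_
  gcongr
  · exact (hB x hx).trans (le_abs_self B)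
  · exact hfr x hx a
  · exact hfr x hx b

theorem BPlus_int_mul (S : Setup N) {β γ : EN N → Bil N} (hβ : Continuous β) (hγ : Continuous γ)
    (a b c d : Fin 4) :
    Integrable (fun x => β x (S.fr a x) (S.fr b x) * γ x (S.fr c x) (S.fr d x)) S.nu := by
  obtain ⟨C, h0, hC⟩ := BPlus_bound_bil S hβ
  obtain ⟨C', h0', hC'⟩ := BPlus_bound_bil S hγ
  refine Integrable.of_bound
    ((BPlus_meas_bil S hβ a b).mul (BPlus_meas_bil S hγ c d)).aestronglyMeasurable (C * C') ?_
  filter_upwards [BPlus_ae S] with x hx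
  rw [Real.norm_eq_abs, abs_mul]
  exact mul_le_mul (hC x hx a b) (hC' x hx c d) (abs_nonneg _) h0

theorem BPlus_int_wedge (S : Setup N) {β γ : EN N → Bil N} (hβ : Continuous β)
    (hγ : Continuous γ) : Integrable (fun x => wedge (S.cp β x) (S.cp γ x)) S.nu := by
  have h := (((((BPlus_int_mul S hβ hγ 0 1 2 3).sub (BPlus_int_mul S hβ hγ 0 2 1 3)).add
    (BPlus_int_mul S hβ hγ 0 3 1 2)).add (BPlus_int_mul S hβ hγ 1 2 0 3)).sub
    (BPlus_int_mul S hβ hγ 1 3 0 2)).add (BPlus_int_mul S hβ hγ 2 3 0 1)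
  exact h

/-- integrability of the integrand of `Lam` -/
theorem BPlus_int [Nonempty M] [CompactSpace M] (h : IsModel Ω J S.toGeom e)
    {f : M → ℝ} (hf : Continuous f) :
    Integrable (fun x => f (Function.invFun e x) * wedge (S.cp S.om x) (S.cp S.om x)) S.nu := by
  have hw := BPlus_int_wedge S S.smooth_om.continuous S.smooth_om.continuous
  have hcont : ContinuousOn (fun x => f (Function.invFun e x)) S.X := by
    rw [← h.range_e, continuousOn_iff_continuous_domRestrict]
    have hE : Function.Injective e := h.emb.emb.injective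
    let E := h.emb.emb.isEmbedding.toHomeomorph
    have h1 : (range e).domRestrict (fun x => f (Function.invFun e x)) = fun x => f (E.symm x) := by
      funext x
      obtain ⟨q, hq⟩ := E.surjective x
      have hx : (x : EN N) = e q := by rw [← hq]; rfl
      rw [domRestrict_apply, hx, Function.leftInverse_invFun hE q, ← hq, E.symm_apply_apply]
    rw [h1]
    exact hf.comp E.symm.continuous
  have hbd : ∃ C, ∀ q : M, ‖f q‖ ≤ C := by
    obtain ⟨C, hC⟩ := isCompact_univ.exists_bound_of_continuousOn (f := f) hf.continuousOn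
    exact ⟨C, fun q => hC q (mem_univ q)⟩
  obtain ⟨C, hC⟩ := hbd
  have hres : S.nu.restrict S.X = S.nu := Measure.restrict_eq_self_of_ae_mem (BPlus_ae S)
  have hmeas : AEStronglyMeasurable (fun x => f (Function.invFun e x)) S.nu := by
    rw [← hres]
    exact hcont.aestronglyMeasurable S.cptX.isClosed.measurableSet
  exact hw.bdd_mul hmeas (Eventually.of_forall fun x => hC _)

/-- two integrands which agree on `X` -/
theorem BPlus_congr [Nonempty M] (h : IsModel Ω J S.toGeom e) {f : M → ℝ} {g : EN N → ℝ}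
    (hfg : ∀ q, f q * wedge (S.cp S.om (e q)) (S.cp S.om (e q)) = g (e q)) :
    Lam S e f = ∫ x, g x ∂S.nu := by
  unfold Lam
  apply integral_congr_ae
  filter_upwards [BPlus_ae S] with x hx
  rw [← h.range_e] at hx
  obtain ⟨q, rfl⟩ := hx
  rw [Function.leftInverse_invFun h.emb.emb.injective q]
  exact hfg q

theorem isIntegral_Lam [Nonempty M] [CompactSpace M] [T2Space M] (h : IsModel Ω J S.toGeom e)
    (hΩ : IsSymplectic Ω) : IsIntegral Ω (Lam S e) := by
  have _ := hΩ
  refine ⟨?_, ?_, ?_, ?_⟩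
  · intro f g hf hg
    unfold Lam
    rw [← integral_add (BPlus_int h hf.continuous) (BPlus_int h hg.continuous)]
    congr 1
    funext x
    rw [Pi.add_apply, add_mul]
  · intro c f hf
    have _ := hf
    unfold Lam
    rw [← integral_const_mul]
    congr 1
    funext x
    rw [Pi.smul_apply, smul_eq_mul, mul_assoc]
  · intro f hf h0 hne
    obtain ⟨q, hq⟩ := hne
    have hwpos : ∀ x ∈ S.X, 0 < wedge (S.cp S.om x) (S.cp S.om x) := fun x hx =>
      lt_of_lt_of_le two_pos ((isFrame_setup S).wedge_om hx)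
    have hnn : 0 ≤ᵐ[S.nu] fun x =>
        f (Function.invFun e x) * wedge (S.cp S.om x) (S.cp S.om x) := by
      filter_upwards [BPlus_ae S] with x hx
      exact mul_nonneg (h0 _) (hwpos x hx).le
    unfold Lam
    rw [integral_pos_iff_support_of_nonneg_ae hnn (BPlus_int h hf.continuous)]
    -- an open set of `R^N` around `e q` where `f` is nonzero
    have hopen : IsOpen {p : M | f p ≠ 0} := isOpen_ne_fun hf.continuous continuous_const
    obtain ⟨W, hW, hWe⟩ := h.emb.emb.isEmbedding.isInducing.isOpen_iff.1 hopen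
    have hqW : e q ∈ W := by
      have : q ∈ e ⁻¹' W := by rw [hWe]; exact hq
      exact this
    have hqX : e q ∈ S.X := by rw [← h.range_e]; exact ⟨q, rfl⟩
    have h1 : 0 < S.nu (W ∩ S.X) := by
      have h2 : S.nu (W ∩ S.X) = S.nu W := by
        rw [← Measure.restrict_apply' S.cptX.isClosed.measurableSet,
          Measure.restrict_eq_self_of_ae_mem (BPlus_ae S)]
      rw [h2]
      exact nu_pos S hW hqX hqW
    refine lt_of_lt_of_le h1 (measure_mono ?_)
    rintro x ⟨hxW, hxX⟩
    have hxX' := hxX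
    rw [← h.range_e] at hxX'
    obtain ⟨p, rfl⟩ := hxX'
    have hp : f p ≠ 0 := by
      have : p ∈ e ⁻¹' W := hxW
      rw [hWe] at this
      exact this
    rw [Function.mem_support, Function.leftInverse_invFun h.emb.emb.injective p]
    exact mul_ne_zero hp (hwpos _ hxX).ne'
  · intro σ τ β hσ hτ hβ hcl
    obtain ⟨α, hα, hασ⟩ := exists_ext1 h.emb hσ
    obtain ⟨β', hβ', hβe⟩ := exists_ext2 h.emb hβ
    have hp1 : pb1 e α = σ := by
      apply form1_ext
      intro q v
      rw [pb1_apply]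
      exact hασ q v
    have hp2 : pb2 e β' = β := by
      apply form2_ext
      intro q u v
      rw [pb2_apply e hβ'.alt]
      exact hβe q u v
    have hdalt : ∀ x v, dOne α x v v = 0 := by
      intro x v
      rw [dOne_apply, sub_self]
    have hp3 : pb2 e (dOne α) = τ := by
      apply form2_ext
      intro q u v
      rw [pb2_apply e hdalt]
      exact dOne_of_isExtDeriv h.emb.smooth hα (by rw [hp1]; exact hτ) q u v
    have hcl' : S.toGeom.Closed β' := by
      intro x hx u v w hu hv hw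
      rw [← h.range_e] at hx
      obtain ⟨q, rfl⟩ := hx
      obtain ⟨u', rfl⟩ := h.tan_surj q u hu
      obtain ⟨v', rfl⟩ := h.tan_surj q v hv
      obtain ⟨w', rfl⟩ := h.tan_surj q w hw
      exact (closed_pb2 h.emb.smooth hβ').1 (by rw [hp2]; exact hcl) q u' v' w'
    have hst := S.stokes α β' hα hβ' hcl'
    have hcg := BPlus_congr h (f := wedgeRatio Ω τ β)
      (g := fun x => wedge (comp6 (dOne α x) (fun a => S.fr a x))
        (comp6 (β' x) (fun a => S.fr a x))) (by
      intro q
      rw [← hp3, ← hp2]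
      exact ratio_eq h (isFrame_setup S) hdalt hβ'.alt q)
    rw [hcg, hst]

theorem not_pos_plane [Nonempty M] [CompactSpace M] [T2Space M] (h : IsModel Ω J S.toGeom e)
    (hΩ : IsSymplectic Ω) (hb : BPlusOne Ω) (β γ : EN N → Bil N) (hβ : IsForm β)
    (hγ : IsForm γ) (hβc : S.Closed β) (hγc : S.Closed γ)
    (hpos : ∀ s t : ℝ, (s, t) ≠ (0, 0) → 0 < S.B (S.cp (fun x => s • β x + t • γ x))
      (S.cp (fun x => s • β x + t • γ x))) : False := by
  have hX : ∀ q, e q ∈ S.X := by
    intro q
    rw [← h.range_e]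
    exact ⟨q, rfl⟩
  have hcl : ∀ β : EN N → Bil N, IsForm β → S.Closed β → ClosedForm (pb2 e β) := by
    intro β hβ hβc
    rw [closed_pb2 h.emb.smooth hβ]
    intro q u v w
    exact hβc (e q) (hX q) _ _ _ (h.tan q u) (h.tan q v) (h.tan q w)
  refine hb (Lam S e) (isIntegral_Lam h hΩ) ⟨pb2 e β, pb2 e γ, smooth_pb2 h.emb.smooth hβ,
    hcl β hβ hβc, smooth_pb2 h.emb.smooth hγ, hcl γ hγ hγc, ?_⟩
  intro s t hst
  have halt : ∀ x v, (fun x => s • β x + t • γ x) x v v = 0 := by
    intro x v
    show (s • β x + t • γ x) v v = 0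
    rw [Bil.add_apply, Bil.smul_apply, Bil.smul_apply, hβ.alt, hγ.alt, mul_zero, mul_zero,
      add_zero]
  have hsum : (fun q => s • pb2 e β q + t • pb2 e γ q) = pb2 e (fun x => s • β x + t • γ x) := by
    apply form2_ext
    intro q u v
    rw [pb2_apply e halt]
    show s • (pb2 e β q ![u, v]) + t • (pb2 e γ q ![u, v]) =
      (s • β (e q) + t • γ (e q)) (de e q u) (de e q v)
    rw [pb2_apply e hβ.alt, pb2_apply e hγ.alt, Bil.add_apply, Bil.smul_apply, Bil.smul_apply,
      smul_eq_mul, smul_eq_mul]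
  have hcg := BPlus_congr h
    (f := wedgeRatio Ω (fun q => s • pb2 e β q + t • pb2 e γ q)
      (fun q => s • pb2 e β q + t • pb2 e γ q))
    (g := fun x => wedge (S.cp (fun x => s • β x + t • γ x) x)
      (S.cp (fun x => s • β x + t • γ x) x)) (by
    intro q
    rw [hsum]
    exact ratio_eq h (isFrame_setup S) halt halt q)
  rw [hcg]
  exact hpos s t hst

end Pool.Agent.W_MP_d8b8b7_G1
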