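import Pool.Agent.W_MP_d8b8b7_G1.AltD

set_option autoImplicit false

/-!
# (G1) PullSmooth: pull backs of smooth forms are smooth, exterior derivatives

`f = e ∘ φ.symm` is smooth on the open set `φ.target` (`contDiffOn_comp`, `isOpen_target`).
* smoothness: by `locForm_pb1/2` the local expression is, on `φ.target`, equal to
  `covOfL ((α (f y)).comp (fderiv f y))`, `altOfL (pull (fderiv f y) (β (f y)))` (`covOf_comp`,
  `altOf_comp`); `y ↦ fderiv f y` is `ContDiffOn ℝ ∞` on the open set (`ContDiffOn.fderiv_of_isOpen`), and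
  `pull A b` is smooth in `(A, b)` (`b.bilinearComp A A`, e.g. `contDiff_clm_apply` or
  `ContinuousLinearMap.compL`, `flip`).
* exterior derivative: near `y` (`φ.target` is open) the local expression is given by
  `locForm_pb1/2` (`Filter.EventuallyEq.extDeriv_eq`), then `extDeriv_pullback`, `extDeriv_covOf`,
  `extDeriv_altOf`.
-/

namespace Pool.Agent.W_MP_d8b8b7_G1

open Pool.Agent.W_MP_d8b8b7_gt
open MeasureTheory Set Filter Topology
open scoped Manifold ContDiff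

variable {M : Type*} [TopologicalSpace M] [ChartedSpace E4 M] [IsManifold 𝓘(ℝ, E4) ∞ M] {N : ℕ}
  {e : M → EN N}

theorem PullSmooth_two_le : minSmoothness ℝ 2 ≤ (∞ : WithTop ℕ∞) := by
  rw [minSmoothness_of_isRCLikeNormedField]
  exact WithTop.coe_le_coe.mpr le_top

theorem PullSmooth_fderiv (he : ContMDiff 𝓘(ℝ, E4) 𝓘(ℝ, EN N) ∞ e) (p : M) :
    ContDiffOn ℝ ∞ (fderiv ℝ (fun y => e ((extChartAt 𝓘(ℝ, E4) p).symm y)))
      (extChartAt 𝓘(ℝ, E4) p).target :=
  (contDiffOn_comp he p).fderiv_of_isOpen (isOpen_target p) (by simp)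

theorem smooth_pb1 (he : ContMDiff 𝓘(ℝ, E4) 𝓘(ℝ, EN N) ∞ e) {α : EN N → Cov N} (hα : IsOne α) :
    SmoothForm (pb1 e α) := by
  intro c
  have h1 : ContDiffOn ℝ ∞ (fun y => α (e ((extChartAt 𝓘(ℝ, E4) c).symm y)))
      (extChartAt 𝓘(ℝ, E4) c).target := ContDiff.comp_contDiffOn hα (contDiffOn_comp he c)
  have h2 := h1.clm_comp (PullSmooth_fderiv he c)
  have h3 := (covOfL (E := EN 4)).contDiff (n := ∞).comp_contDiffOn h2
  refine h3.congr fun y hy => ?_
  rw [locForm_pb1 he α c hy, covOf_comp]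
  rfl

theorem PullSmooth_pull (he : ContMDiff 𝓘(ℝ, E4) 𝓘(ℝ, EN N) ∞ e) {β : EN N → Bil N}
    (hβ : ContDiff ℝ ∞ β) (c : M) :
    ContDiffOn ℝ ∞ (fun y => Bil.toCLM (Bil.pull
      (fderiv ℝ (fun y => e ((extChartAt 𝓘(ℝ, E4) c).symm y)) y)
      (β (e ((extChartAt 𝓘(ℝ, E4) c).symm y))))) (extChartAt 𝓘(ℝ, E4) c).target := by
  have h1 : ContDiffOn ℝ ∞ (fun y => β (e ((extChartAt 𝓘(ℝ, E4) c).symm y)))
      (extChartAt 𝓘(ℝ, E4) c).target := ContDiff.comp_contDiffOn hβ (contDiffOn_comp he c)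
  have h2 := (PullSmooth_fderiv he c).prodMk h1
  have h3 : ContDiff ℝ ∞ (fun z : (EN 4 →L[ℝ] EN N) × Bil N => Bil.pull z.1 z.2) :=
    Bil.contDiff_pull contDiff_snd contDiff_fst
  have h4 := h3.comp_contDiffOn h2
  exact h4

theorem smooth_pb2 (he : ContMDiff 𝓘(ℝ, E4) 𝓘(ℝ, EN N) ∞ e) {β : EN N → Bil N}
    (hβ : IsForm β) : SmoothForm (pb2 e β) := by
  intro c
  have h3 := (altOfL (E := EN 4)).contDiff (n := ∞).comp_contDiffOn
    (PullSmooth_pull he hβ.smooth c)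
  refine h3.congr fun y hy => ?_
  rw [locForm_pb2 he β c hy, altOf_comp]
  rfl

theorem PullSmooth_contDiffAt (he : ContMDiff 𝓘(ℝ, E4) 𝓘(ℝ, EN N) ∞ e) (p : M) {y : EN 4}
    (hy : y ∈ (extChartAt 𝓘(ℝ, E4) p).target) :
    ContDiffAt ℝ ∞ (fun y => e ((extChartAt 𝓘(ℝ, E4) p).symm y)) y :=
  (contDiffOn_comp he p).contDiffAt ((isOpen_target p).mem_nhds hy)

theorem isExtDeriv_pb1 (he : ContMDiff 𝓘(ℝ, E4) 𝓘(ℝ, EN N) ∞ e) {α : EN N → Cov N}
    (hα : IsOne α) : IsExtDeriv (pb1 e α) (pb2 e (dOne α)) := by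
  intro c y hy
  have h1 : locForm (pb1 e α) c =ᶠ[𝓝 y] fun y =>
      (covOf (α (e ((extChartAt 𝓘(ℝ, E4) c).symm y)))).compContinuousLinearMap
        (fderiv ℝ (fun y => e ((extChartAt 𝓘(ℝ, E4) c).symm y)) y) := by
    filter_upwards [(isOpen_target c).mem_nhds hy] with z hz
    exact locForm_pb1 he α c hz
  have hd : DifferentiableAt ℝ α (e ((extChartAt 𝓘(ℝ, E4) c).symm y)) :=
    (ContDiff.differentiable hα (by simp)) _
  have hω : DifferentiableAt ℝ (fun x => covOf (α x)) (e ((extChartAt 𝓘(ℝ, E4) c).symm y)) :=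
    (covOfL (E := EN N)).differentiableAt.comp _ hd
  have h2 : extDeriv (fun y => (covOf (α (e ((extChartAt 𝓘(ℝ, E4) c).symm
      y)))).compContinuousLinearMap (fderiv ℝ (fun y => e ((extChartAt 𝓘(ℝ, E4) c).symm y)) y)) y =
      (extDeriv (fun x => covOf (α x)) (e ((extChartAt 𝓘(ℝ, E4) c).symm
      y))).compContinuousLinearMap (fderiv ℝ (fun y => e ((extChartAt 𝓘(ℝ, E4) c).symm y)) y) :=
    extDeriv_pullback (f := fun y => e ((extChartAt 𝓘(ℝ, E4) c).symm y)) (r := ∞) hω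
      (PullSmooth_contDiffAt he c hy) PullSmooth_two_le
  rw [h1.extDeriv_eq, h2, extDeriv_covOf α _ hd]
  rw [locForm_pb2 he (dOne α) c hy]

/-- the exterior derivative of `pb2 e β` in the chart at `p` -/
theorem extDeriv_pb2 (he : ContMDiff 𝓘(ℝ, E4) 𝓘(ℝ, EN N) ∞ e) {β : EN N → Bil N}
    (hβ : IsForm β) (p : M) {y : EN 4} (hy : y ∈ (extChartAt 𝓘(ℝ, E4) p).target) (u v w : EN 4) :
    extDeriv (locForm (pb2 e β) p) y ![u, v, w] =
      dTwo β (e ((extChartAt 𝓘(ℝ, E4) p).symm y))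
        (de e ((extChartAt 𝓘(ℝ, E4) p).symm y) (dsymm p y u))
        (de e ((extChartAt 𝓘(ℝ, E4) p).symm y) (dsymm p y v))
        (de e ((extChartAt 𝓘(ℝ, E4) p).symm y) (dsymm p y w)) := by
  have h1 : locForm (pb2 e β) p =ᶠ[𝓝 y] fun y =>
      (altOf (β (e ((extChartAt 𝓘(ℝ, E4) p).symm y)))).compContinuousLinearMap
        (fderiv ℝ (fun y => e ((extChartAt 𝓘(ℝ, E4) p).symm y)) y) := by
    filter_upwards [(isOpen_target p).mem_nhds hy] with z hz
    exact locForm_pb2 he β p hz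
  have hd : DifferentiableAt ℝ β (e ((extChartAt 𝓘(ℝ, E4) p).symm y)) :=
    (ContDiff.differentiable hβ.smooth (by simp)) _
  have hd' : DifferentiableAt ℝ (fun x => Bil.toCLM (β x))
      (e ((extChartAt 𝓘(ℝ, E4) p).symm y)) := hd
  have hL := (altOfL (E := EN N)).differentiableAt
    (x := Bil.toCLM (β (e ((extChartAt 𝓘(ℝ, E4) p).symm y))))
  have hω' : DifferentiableAt ℝ (fun x => altOfL (Bil.toCLM (β x)))
      (e ((extChartAt 𝓘(ℝ, E4) p).symm y)) :=
    DifferentiableAt.comp (e ((extChartAt 𝓘(ℝ, E4) p).symm y)) hL hd'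
  have hω : DifferentiableAt ℝ (fun x => altOf (β x)) (e ((extChartAt 𝓘(ℝ, E4) p).symm y)) :=
    hω'
  have h2 : extDeriv (fun y => (altOf (β (e ((extChartAt 𝓘(ℝ, E4) p).symm
      y)))).compContinuousLinearMap (fderiv ℝ (fun y => e ((extChartAt 𝓘(ℝ, E4) p).symm y)) y)) y =
      (extDeriv (fun x => altOf (β x)) (e ((extChartAt 𝓘(ℝ, E4) p).symm
      y))).compContinuousLinearMap (fderiv ℝ (fun y => e ((extChartAt 𝓘(ℝ, E4) p).symm y)) y) :=
    extDeriv_pullback (f := fun y => e ((extChartAt 𝓘(ℝ, E4) p).symm y)) (r := ∞) hω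
      (PullSmooth_contDiffAt he p hy) PullSmooth_two_le
  rw [h1.extDeriv_eq, h2]
  have h3 : ((extDeriv (fun x => altOf (β x))
      (e ((extChartAt 𝓘(ℝ, E4) p).symm y))).compContinuousLinearMap
      (fderiv ℝ (fun y => e ((extChartAt 𝓘(ℝ, E4) p).symm y)) y)) ![u, v, w] =
      extDeriv (fun x => altOf (β x)) (e ((extChartAt 𝓘(ℝ, E4) p).symm y))
        ![fderiv ℝ (fun y => e ((extChartAt 𝓘(ℝ, E4) p).symm y)) y u,
          fderiv ℝ (fun y => e ((extChartAt 𝓘(ℝ, E4) p).symm y)) y v,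
          fderiv ℝ (fun y => e ((extChartAt 𝓘(ℝ, E4) p).symm y)) y w] := by
    rw [ContinuousAlternatingMap.compContinuousLinearMap_apply]
    congr 1
    funext i
    fin_cases i <;> rfl
  rw [h3, extDeriv_altOf β hβ.alt _ hd, fderiv_comp he p hy, fderiv_comp he p hy,
    fderiv_comp he p hy]

/-- closedness of the pull back -/
theorem closed_pb2 (he : ContMDiff 𝓘(ℝ, E4) 𝓘(ℝ, EN N) ∞ e) {β : EN N → Bil N}
    (hβ : IsForm β) : ClosedForm (pb2 e β) ↔
      ∀ (q : M) (u v w : EN 4), dTwo β (e q) (de e q u) (de e q v) (de e q w) = 0 := by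
  constructor
  · intro h q u v w
    have hq : q ∈ (extChartAt 𝓘(ℝ, E4) q).source := mem_extChartAt_source q
    have hy : extChartAt 𝓘(ℝ, E4) q q ∈ (extChartAt 𝓘(ℝ, E4) q).target :=
      (extChartAt 𝓘(ℝ, E4) q).map_source hq
    have h1 := extDeriv_pb2 he hβ q hy (dext q q u) (dext q q v) (dext q q w)
    rw [dsymm_dext q q hq, dsymm_dext q q hq, dsymm_dext q q hq,
      (extChartAt 𝓘(ℝ, E4) q).left_inv hq] at h1
    rw [← h1, h q _ hy]
    rfl
  · intro h c y hy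
    ext v
    have hv : v = ![v 0, v 1, v 2] := by
      funext i
      fin_cases i <;> rfl
    rw [hv, extDeriv_pb2 he hβ c hy, h]
    rfl

/-- the exterior derivative determines `dOne` on tangent vectors -/
theorem dOne_of_isExtDeriv (he : ContMDiff 𝓘(ℝ, E4) 𝓘(ℝ, EN N) ∞ e) {α : EN N → Cov N}
    (hα : IsOne α) {τ : Form M 2} (h : IsExtDeriv (pb1 e α) τ) (q : M) (u v : EN 4) :
    dOne α (e q) (de e q u) (de e q v) = τ q ![u, v] := by
  have hq : q ∈ (extChartAt 𝓘(ℝ, E4) q).source := mem_extChartAt_source q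
  have hy : extChartAt 𝓘(ℝ, E4) q q ∈ (extChartAt 𝓘(ℝ, E4) q).target :=
    (extChartAt 𝓘(ℝ, E4) q).map_source hq
  have h1 : locForm (pb2 e (dOne α)) q (extChartAt 𝓘(ℝ, E4) q q) =
      locForm τ q (extChartAt 𝓘(ℝ, E4) q q) := by
    rw [← isExtDeriv_pb1 he hα q _ hy, h q _ hy]
  have h2 : ∀ η : Form M 2, locForm η q (extChartAt 𝓘(ℝ, E4) q q) ![dext q q u, dext q q v] =
      η q ![u, v] := by
    intro η
    have h3 : ∀ q' : M, q' = q → ∀ a b : EN 4, a = u → b = v → η q' ![a, b] = η q ![u, v] := by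
      rintro q' rfl a b rfl rfl
      rfl
    have h4 : locForm η q (extChartAt 𝓘(ℝ, E4) q q) ![dext q q u, dext q q v] =
        η ((extChartAt 𝓘(ℝ, E4) q).symm (extChartAt 𝓘(ℝ, E4) q q))
          ![dsymm q (extChartAt 𝓘(ℝ, E4) q q) (dext q q u),
            dsymm q (extChartAt 𝓘(ℝ, E4) q q) (dext q q v)] := by
      unfold locForm
      rw [ContinuousAlternatingMap.compContinuousLinearMap_apply]
      congr 1
      funext i
      fin_cases i <;> rfl
    rw [h4]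
    exact h3 _ ((extChartAt 𝓘(ℝ, E4) q).left_inv hq) _ _ (dsymm_dext q q hq u)
      (dsymm_dext q q hq v)
  have h5 := h2 (pb2 e (dOne α))
  have h6 := h2 τ
  rw [h1] at h5
  rw [← h6, h5]
  have hal : ∀ x v, dOne α x v v = 0 := by
    intro x v
    rw [dOne_apply, sub_self]
  exact (pb2_apply e hal q u v).symm

end Pool.Agent.W_MP_d8b8b7_G1
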