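import Pool.Agent.W_MP_d8b8b7_G1.Base

set_option autoImplicit false

/-!
# (G1) BilOf: the bilinear form of an alternating 2-form, the covector of a 1-form, smoothness

`contDiffOn_bilOf`: `contDiffOn_clm_apply` (finite dimension) twice; for fixed `u, v` the function
`y ↦ c y ![u, v]` is the composition of `c` with a continuous linear map (evaluation of a continuous
alternating map at a fixed vector).
-/

namespace Pool.Agent.W_MP_d8b8b7_G1

open Pool.Agent.W_MP_d8b8b7_gt
open MeasureTheory Set Filter Topology
open scoped Manifold ContDiff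

variable {E : Type*} [NormedAddCommGroup E] [NormedSpace ℝ E] [FiniteDimensional ℝ E]

omit [NormedAddCommGroup E] [NormedSpace ℝ E] [FiniteDimensional ℝ E] in
theorem upd1 (u x z : E) : Function.update ![u, x] 1 z = ![u, z] := by
  ext i
  fin_cases i <;> simp

omit [NormedAddCommGroup E] [NormedSpace ℝ E] [FiniteDimensional ℝ E] in
theorem upd0 (u x z : E) : Function.update ![u, x] 0 z = ![z, x] := by
  ext i
  fin_cases i <;> simp

omit [NormedAddCommGroup E] [NormedSpace ℝ E] [FiniteDimensional ℝ E] in
theorem upd (x z : E) : Function.update ![x] 0 z = ![z] := by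
  ext i
  fin_cases i
  simp

/-- `bilOf w u v = w ![u, v]` -/
noncomputable def bilOf (w : E [⋀^Fin 2]→L[ℝ] ℝ) : E →L[ℝ] E →L[ℝ] ℝ :=
  LinearMap.toContinuousLinearMap
    { toFun := fun u => LinearMap.toContinuousLinearMap
        { toFun := fun v => w ![u, v]
          map_add' := fun x y => by
            have h := w.map_update_add ![u, x] 1 x y
            rw [upd1, upd1, upd1] at h
            exact h
          map_smul' := fun c x => by
            have h := w.map_update_smul ![u, x] 1 c x
            rw [upd1, upd1] at h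
            exact h }
      map_add' := fun x y => by
        ext v
        have h := w.map_update_add ![x, v] 0 x y
        rw [upd0, upd0, upd0] at h
        exact h
      map_smul' := fun c x => by
        ext v
        have h := w.map_update_smul ![x, v] 0 c x
        rw [upd0, upd0] at h
        exact h }

theorem bilOf_apply (w : E [⋀^Fin 2]→L[ℝ] ℝ) (u v : E) : bilOf w u v = w ![u, v] := rfl

theorem bilOf_alt (w : E [⋀^Fin 2]→L[ℝ] ℝ) (v : E) : bilOf w v v = 0 := by
  rw [bilOf_apply]
  exact w.map_eq_zero_of_eq ![v, v] (i := 0) (j := 1) rfl (by decide)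

theorem BilOf_contDiffOn_eval {n : ℕ} {F : Type*} [NormedAddCommGroup F] [NormedSpace ℝ F]
    {c : F → E [⋀^Fin n]→L[ℝ] ℝ} {s : Set F} (h : ContDiffOn ℝ ∞ c s) (m : Fin n → E) :
    ContDiffOn ℝ ∞ (fun y => c y m) s :=
  (ContinuousAlternatingMap.apply ℝ E ℝ m).contDiff.comp_contDiffOn h

theorem contDiffOn_bilOf {F : Type*} [NormedAddCommGroup F] [NormedSpace ℝ F]
    {c : F → E [⋀^Fin 2]→L[ℝ] ℝ} {s : Set F} (h : ContDiffOn ℝ ∞ c s) :
    ContDiffOn ℝ ∞ (fun y => bilOf (c y)) s := by
  rw [contDiffOn_clm_apply]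
  intro u
  rw [contDiffOn_clm_apply]
  intro v
  exact BilOf_contDiffOn_eval h ![u, v]

/-- the covector of a 1-form -/
noncomputable def linOf (w : E [⋀^Fin 1]→L[ℝ] ℝ) : E →L[ℝ] ℝ :=
  LinearMap.toContinuousLinearMap
    { toFun := fun v => w ![v]
      map_add' := fun x y => by
        have h := w.map_update_add ![x] 0 x y
        rw [upd, upd, upd] at h
        exact h
      map_smul' := fun c x => by
        have h := w.map_update_smul ![x] 0 c x
        rw [upd, upd] at h
        exact h }

theorem linOf_apply (w : E [⋀^Fin 1]→L[ℝ] ℝ) (v : E) : linOf w v = w ![v] := rfl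

theorem contDiffOn_linOf {F : Type*} [NormedAddCommGroup F] [NormedSpace ℝ F]
    {c : F → E [⋀^Fin 1]→L[ℝ] ℝ} {s : Set F} (h : ContDiffOn ℝ ∞ c s) :
    ContDiffOn ℝ ∞ (fun y => linOf (c y)) s := by
  rw [contDiffOn_clm_apply]
  intro v
  exact BilOf_contDiffOn_eval h ![v]

end Pool.Agent.W_MP_d8b8b7_G1
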