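import Pool.Agent.W_MP_d8b8b7_G1.Base

set_option autoImplicit false

/-!
# (G1) MFacts: relations between the chart of `M` at `p` and the chart `ψ, κ, V` of `range e`

Notation: `φ = extChartAt 𝓘(ℝ, E4) p`, `y0 = φ p`, `IsMChart e p ψ κ V r`, and a point `q` of `M` with
`e q ∈ V`.
* `src`: `e q ∈ range e ∩ V = ψ '' ball 0 1`, so `e q = ψ z = e (φ.symm (y0 + r z))`, `z = κ (e q)`,
  and `q = φ.symm (y0 + r z)` because `e` is injective; hence `q ∈ φ.source`, `φ q = y0 + r z`.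
* `fderiv_psi`: `ψ z = (e ∘ φ.symm) (y0 + r z)` for `z` in the open unit ball; chain rule.
* `kap_de`: near `q` one has `κ (e q') = r⁻¹ • (φ q' - y0)` (by `src` and continuity of `e`), chain
  rule.  (`mfderiv` of a map between vector spaces is `fderiv`, `mfderiv_eq_fderiv`.)
* `dsymm_dext`: `φ.symm ∘ φ = id` near `q`, `φ ∘ φ.symm = id` near `φ q`
  (`mfderiv_extChartAt_comp_mfderivWithin_extChartAt_symm` and similar lemmas, `range I = univ`).
* `psi_dext`: from `fderiv_psi` and `dsymm_dext`.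
-/

namespace Pool.Agent.W_MP_d8b8b7_G1

open Pool.Agent.W_MP_d8b8b7_gt
open MeasureTheory Set Filter Topology
open scoped Manifold ContDiff

variable {M : Type*} [TopologicalSpace M] [ChartedSpace E4 M] [IsManifold 𝓘(ℝ, E4) ∞ M] {N : ℕ}

/-- derivative of the chart at `p`, at the point `q` -/
noncomputable def dext (p q : M) : EN 4 →L[ℝ] EN 4 :=
  mfderiv 𝓘(ℝ, E4) 𝓘(ℝ, E4) (extChartAt 𝓘(ℝ, E4) p) q

/-- derivative of the inverse chart at `p`, at the point `y` -/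
noncomputable def dsymm (p : M) (y : EN 4) : EN 4 →L[ℝ] EN 4 :=
  mfderiv 𝓘(ℝ, E4) 𝓘(ℝ, E4) (extChartAt 𝓘(ℝ, E4) p).symm y

theorem dext_dsymm (p : M) {y : EN 4} (hy : y ∈ (extChartAt 𝓘(ℝ, E4) p).target) (a : EN 4) :
    dext p ((extChartAt 𝓘(ℝ, E4) p).symm y) (dsymm p y a) = a := by
  have hM : IsManifold 𝓘(ℝ, E4) 1 M := IsManifold.of_le (n := ∞) (by norm_cast)
  have h := mfderiv_extChartAt_comp_mfderivWithin_extChartAt_symm (I := 𝓘(ℝ, E4)) (x := p) hy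
  have hr : Set.range 𝓘(ℝ, E4) = Set.univ := ModelWithCorners.range_eq_univ _
  rw [hr, mfderivWithin_univ] at h
  have h2 := congrArg (fun A : EN 4 →L[ℝ] EN 4 => A a) h
  exact h2

theorem dsymm_dext (p q : M) (hq : q ∈ (extChartAt 𝓘(ℝ, E4) p).source) (a : EN 4) :
    dsymm p (extChartAt 𝓘(ℝ, E4) p q) (dext p q a) = a := by
  have hM : IsManifold 𝓘(ℝ, E4) 1 M := IsManifold.of_le (n := ∞) (by norm_cast)
  have h := mfderivWithin_extChartAt_symm_comp_mfderiv_extChartAt' (I := 𝓘(ℝ, E4)) (x := p) hq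
  have hr : Set.range 𝓘(ℝ, E4) = Set.univ := ModelWithCorners.range_eq_univ _
  rw [hr, mfderivWithin_univ] at h
  have h2 := congrArg (fun A : EN 4 →L[ℝ] EN 4 => A a) h
  exact h2

/-- the function `e ∘ φ.symm` is smooth on the target of the chart -/
theorem contDiffOn_comp {e : M → EN N} (he : ContMDiff 𝓘(ℝ, E4) 𝓘(ℝ, EN N) ∞ e) (p : M) :
    ContDiffOn ℝ ∞ (fun y => e ((extChartAt 𝓘(ℝ, E4) p).symm y))
      (extChartAt 𝓘(ℝ, E4) p).target := by
  rw [← contMDiffOn_iff_contDiffOn]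
  exact he.comp_contMDiffOn (contMDiffOn_extChartAt_symm p)

theorem isOpen_target (p : M) : IsOpen (extChartAt 𝓘(ℝ, E4) p).target := by
  exact isOpen_extChartAt_target p

/-- derivative of `e ∘ φ.symm` -/
theorem fderiv_comp {e : M → EN N} (he : ContMDiff 𝓘(ℝ, E4) 𝓘(ℝ, EN N) ∞ e) (p : M)
    {y : EN 4} (hy : y ∈ (extChartAt 𝓘(ℝ, E4) p).target) (a : EN 4) :
    fderiv ℝ (fun y => e ((extChartAt 𝓘(ℝ, E4) p).symm y)) y a =
      de e ((extChartAt 𝓘(ℝ, E4) p).symm y) (dsymm p y a) := by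
  have hM : IsManifold 𝓘(ℝ, E4) 1 M := IsManifold.of_le (n := ∞) (by norm_cast)
  rw [← mfderiv_eq_fderiv]
  have h1 : MDifferentiableAt 𝓘(ℝ, E4) 𝓘(ℝ, EN N) e ((extChartAt 𝓘(ℝ, E4) p).symm y) :=
    (he.mdifferentiable (by simp)) _
  have h2 : MDifferentiableAt 𝓘(ℝ, E4) 𝓘(ℝ, E4) (extChartAt 𝓘(ℝ, E4) p).symm y := by
    have h := mdifferentiableWithinAt_extChartAt_symm (I := 𝓘(ℝ, E4)) (x := p) hy
    have hr : Set.range 𝓘(ℝ, E4) = Set.univ := ModelWithCorners.range_eq_univ _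
    rw [hr, mdifferentiableWithinAt_univ] at h
    exact h
  have h3 := mfderiv_comp y h1 h2
  have h4 := congrArg (fun A : EN 4 →L[ℝ] EN N => A a) h3
  exact h4

variable {e : M → EN N} {p : M} {ψ : EN 4 → EN N} {κ : EN N → EN 4} {V : Set (EN N)} {r : ℝ}

theorem IsMChart.src (he : IsEmb e) (h : IsMChart e p ψ κ V r) {q : M} (hq : e q ∈ V) :
    q ∈ (extChartAt 𝓘(ℝ, E4) p).source ∧ κ (e q) ∈ Metric.ball (0 : EN 4) 1 ∧
      extChartAt 𝓘(ℝ, E4) p q = extChartAt 𝓘(ℝ, E4) p p + r • κ (e q) ∧ ψ (κ (e q)) = e q := by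
  have h1 : e q ∈ ψ '' Metric.ball 0 1 := by
    rw [← h.chart.image]
    exact ⟨⟨q, rfl⟩, hq⟩
  obtain ⟨z, hz, hzq⟩ := h1
  have h2 : κ (e q) = z := by
    rw [← hzq]
    exact h.chart.kap_psi z hz
  have h3 : q = (extChartAt 𝓘(ℝ, E4) p).symm (extChartAt 𝓘(ℝ, E4) p p + r • z) := by
    apply he.emb.injective
    rw [← hzq]
    exact h.psi_eq z hz
  have h4 := h.target z hz
  refine ⟨?_, ?_, ?_, ?_⟩
  · rw [h3]
    exact (extChartAt 𝓘(ℝ, E4) p).map_target h4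
  · rw [h2]
    exact hz
  · rw [h2]
    conv_lhs => rw [h3]
    exact (extChartAt 𝓘(ℝ, E4) p).right_inv h4
  · rw [h2]
    exact hzq

theorem IsMChart.fderiv_psi (he : IsEmb e) (h : IsMChart e p ψ κ V r) {z : EN 4}
    (hz : z ∈ Metric.ball (0 : EN 4) 1) (a : EN 4) :
    fderiv ℝ ψ z a =
      de e ((extChartAt 𝓘(ℝ, E4) p).symm (extChartAt 𝓘(ℝ, E4) p p + r • z))
        (dsymm p (extChartAt 𝓘(ℝ, E4) p p + r • z) (r • a)) := by
  have h4 := h.target z hz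
  have hF : ψ =ᶠ[𝓝 z] fun z => (fun y => e ((extChartAt 𝓘(ℝ, E4) p).symm y))
      (extChartAt 𝓘(ℝ, E4) p p + r • z) := by
    filter_upwards [Metric.isOpen_ball.mem_nhds hz] with w hw
    exact h.psi_eq w hw
  have h5 : DifferentiableAt ℝ (fun y => e ((extChartAt 𝓘(ℝ, E4) p).symm y))
      (extChartAt 𝓘(ℝ, E4) p p + r • z) :=
    ((contDiffOn_comp he.smooth p).differentiableOn (by simp) _ h4).differentiableAt
      ((isOpen_target p).mem_nhds h4)
  have h6 : HasFDerivAt (fun z : EN 4 => extChartAt 𝓘(ℝ, E4) p p + r • z)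
      (r • ContinuousLinearMap.id ℝ (EN 4)) z :=
    ((hasFDerivAt_id z).const_smul r).const_add _
  have h7 := h5.hasFDerivAt.comp z h6
  rw [hF.fderiv_eq]
  have h8 := congrArg (fun A : EN 4 →L[ℝ] EN N => A a) h7.fderiv
  refine h8.trans ?_
  exact fderiv_comp he.smooth p h4 (r • a)

theorem IsMChart.kap_de (he : IsEmb e) (h : IsMChart e p ψ κ V r) {q : M} (hq : e q ∈ V)
    (v : EN 4) : fderiv ℝ κ (e q) (de e q v) = r⁻¹ • dext p q v := by
  obtain ⟨h1, h2, h3, h4⟩ := h.src he hq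
  have h5 := h.fderiv_psi he h2 (r⁻¹ • dext p q v)
  have h6 := h.chart.fderiv_kap_psi h2 (r⁻¹ • dext p q v)
  have h7 : fderiv ℝ ψ (κ (e q)) (r⁻¹ • dext p q v) = de e q v := by
    rw [h5, ← h3, smul_inv_smul₀ h.r_pos.ne', (extChartAt 𝓘(ℝ, E4) p).left_inv h1,
      dsymm_dext p q h1]
  rw [h7, h4] at h6
  exact h6

theorem IsMChart.psi_dext (he : IsEmb e) (h : IsMChart e p ψ κ V r) {q : M} (hq : e q ∈ V)
    (v : EN 4) : fderiv ℝ ψ (κ (e q)) (r⁻¹ • dext p q v) = de e q v := by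
  obtain ⟨h1, h2, h3, -⟩ := h.src he hq
  have h5 := h.fderiv_psi he h2 (r⁻¹ • dext p q v)
  rw [h5, ← h3, smul_inv_smul₀ h.r_pos.ne', (extChartAt 𝓘(ℝ, E4) p).left_inv h1,
    dsymm_dext p q h1]

end Pool.Agent.W_MP_d8b8b7_G1
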