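import Pool.Agent.W_MP_d8b8b7_G1.Base

set_option autoImplicit false

/-!
# (G1) Stokes4: Stokes theorem in `R^4`

Let `∂ i f y = fderiv ℝ f y (std4 i)`, `a i y = a y (std4 i)`, `b i j y = b y (std4 i) (std4 j)`.
`dOne a (i, j) = ∂ i (a j) - ∂ j (a i)`.  Then
`wedge (comp6 (dOne a) std4) (comp6 b std4) = (∂0 a1 - ∂1 a0) b23 - (∂0 a2 - ∂2 a0) b13 + (∂0 a3 - ∂3 a0) b12
 + (∂1 a2 - ∂2 a1) b03 - (∂1 a3 - ∂3 a1) b02 + (∂2 a3 - ∂3 a2) b01`
`= ∂0 (a1 b23 - a2 b13 + a3 b12) + ∂1 (- a0 b23 + a2 b03 - a3 b02) + ∂2 (a0 b13 - a1 b03 + a3 b01)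
 + ∂3 (- a0 b12 + a1 b02 - a2 b01) + (terms a_i * (db)_{jkl})`, and the last terms vanish because `a y = 0` or
`dTwo b y = 0` (`dTwo b y u v w = ∂u b v w - ∂v b u w + ∂w b u v`).
`∫ ∂ i f = 0` for `f` smooth with compact support (`integral_fderiv_eq_zero`-type lemma, e.g.
`integral_mul_fderiv_eq_neg_fderiv_mul_of_integrable` with the constant function 1, or
`MeasureTheory.integral_bilinear_hasLineDerivAt_right_eq_neg_left_of_integrable`).
-/

namespace Pool.Agent.W_MP_d8b8b7_G1

open Pool.Agent.W_MP_d8b8b7_gt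
open MeasureTheory Set Filter Topology
open scoped Manifold ContDiff

theorem Stokes4_integrable (f : EN 4 → ℝ) (hf : ContDiff ℝ 1 f) (hs : HasCompactSupport f)
    (v : EN 4) : Integrable (fun y => fderiv ℝ f y v) := by
  have hc : Continuous (fun y => fderiv ℝ f y v) :=
    (hf.continuous_fderiv (by simp)).clm_apply continuous_const
  exact hc.integrable_of_hasCompactSupport (hs.fderiv_apply (𝕜 := ℝ) v)

theorem integral_fderiv_zero (f : EN 4 → ℝ) (hf : ContDiff ℝ 1 f) (hs : HasCompactSupport f)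
    (v : EN 4) : ∫ y, fderiv ℝ f y v = 0 := by
  have h := integral_mul_fderiv_eq_neg_fderiv_mul_of_integrable (μ := (volume : Measure (EN 4)))
    (𝕜 := ℝ) (f := fun _ : EN 4 => (1 : ℝ)) (g := f) (v := v)
    (by simp) (by simpa using Stokes4_integrable f hf hs v)
    (by simpa using hf.continuous.integrable_of_hasCompactSupport hs)
    (fun x _ => differentiableAt_const _)
    (fun x _ => (hf.differentiable (by simp)) x)
  simpa using h

theorem stokes4 (a : EN 4 → Cov 4) (b : EN 4 → Bil 4) (ha : ContDiff ℝ ∞ a) (hb : ContDiff ℝ ∞ b)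
    (hs : HasCompactSupport a) (halt : ∀ y v, b y v v = 0)
    (hcl : ∀ y, a y ≠ 0 → ∀ u v w, dTwo b y u v w = 0) :
    ∫ y, wedge (comp6 (dOne a y) std4) (comp6 (b y) std4) = 0 := by
  classical
  set A : Fin 4 → EN 4 → ℝ := fun j y => a y (std4 j) with hA
  set B : Fin 4 → Fin 4 → EN 4 → ℝ := fun j k y => b y (std4 j) (std4 k) with hB
  have hA1 : ∀ j, ContDiff ℝ 1 (A j) := fun j =>
    ((ha.of_le (by simp)).clm_apply contDiff_const)
  have hB1 : ∀ j k, ContDiff ℝ 1 (B j k) := fun j k =>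
    Bil.contDiff_apply (hb.of_le (by simp)) contDiff_const contDiff_const
  have hda : ∀ y, DifferentiableAt ℝ a y := fun y => (ha.differentiable (by simp)) y
  have hdb : ∀ y, DifferentiableAt ℝ b y := fun y => (hb.differentiable (by simp)) y
  have hdA : ∀ i j y, fderiv ℝ (A j) y (std4 i) = fderiv ℝ a y (std4 i) (std4 j) := by
    intro i j y
    have h1 : HasFDerivAt (A j) ((ContinuousLinearMap.apply ℝ ℝ (std4 j)).comp (fderiv ℝ a y)) y :=
      (ContinuousLinearMap.apply ℝ ℝ (std4 j)).hasFDerivAt.comp y (hda y).hasFDerivAt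
    rw [h1.fderiv]
    rfl
  have hdB : ∀ i j k y, fderiv ℝ (B j k) y (std4 i) = fderiv ℝ b y (std4 i) (std4 j) (std4 k) := by
    intro i j k y
    exact Bil.fderiv_apply (hdb y) _ _ _
  have hP1 : ∀ j k l, ContDiff ℝ 1 (fun y => A j y * B k l y) := fun j k l =>
    (hA1 j).mul (hB1 k l)
  have hPs : ∀ j k l, HasCompactSupport (fun y => A j y * B k l y) := by
    intro j k l
    refine hs.mono ?_
    intro y hy
    simp only [Function.mem_support] at hy ⊢
    intro h0
    apply hy
    simp [hA, h0]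
  have hPd : ∀ i j k l y, fderiv ℝ (fun y => A j y * B k l y) y (std4 i) =
      A j y * fderiv ℝ b y (std4 i) (std4 k) (std4 l) +
        fderiv ℝ a y (std4 i) (std4 j) * B k l y := by
    intro i j k l y
    have h1 := (((hA1 j).differentiable (by simp)) y).hasFDerivAt.mul
      (((hB1 k l).differentiable (by simp)) y).hasFDerivAt
    have h2 : fderiv ℝ (fun y => A j y * B k l y) y = _ := h1.fderiv
    rw [h2]
    simp only [_root_.add_apply, _root_.smul_apply, smul_eq_mul,
      hdA, hdB]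
    ring
  have hI : ∀ i j k l, Integrable (fun y => fderiv ℝ (fun y => A j y * B k l y) y (std4 i)) :=
    fun i j k l => Stokes4_integrable _ (hP1 j k l) (hPs j k l) _
  have hZ : ∀ i j k l, ∫ y, fderiv ℝ (fun y => A j y * B k l y) y (std4 i) = 0 :=
    fun i j k l => integral_fderiv_zero _ (hP1 j k l) (hPs j k l) _
  have key : ∀ y, wedge (comp6 (dOne a y) std4) (comp6 (b y) std4) =
      fderiv ℝ (fun y => A 1 y * B 2 3 y) y (std4 0)
      - fderiv ℝ (fun y => A 2 y * B 1 3 y) y (std4 0)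
      + fderiv ℝ (fun y => A 3 y * B 1 2 y) y (std4 0)
      - fderiv ℝ (fun y => A 0 y * B 2 3 y) y (std4 1)
      + fderiv ℝ (fun y => A 2 y * B 0 3 y) y (std4 1)
      - fderiv ℝ (fun y => A 3 y * B 0 2 y) y (std4 1)
      + fderiv ℝ (fun y => A 0 y * B 1 3 y) y (std4 2)
      - fderiv ℝ (fun y => A 1 y * B 0 3 y) y (std4 2)
      + fderiv ℝ (fun y => A 3 y * B 0 1 y) y (std4 2)
      - fderiv ℝ (fun y => A 0 y * B 1 2 y) y (std4 3)
      + fderiv ℝ (fun y => A 1 y * B 0 2 y) y (std4 3)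
      - fderiv ℝ (fun y => A 2 y * B 0 1 y) y (std4 3) := by
    intro y
    simp only [hPd]
    have hcl' : ∀ m i j k, A m y * dTwo b y (std4 i) (std4 j) (std4 k) = 0 := by
      intro m i j k
      by_cases h0 : a y = 0
      · simp [hA, h0]
      · rw [hcl y h0, mul_zero]
    have e1 := hcl' 1 0 2 3
    have e2 := hcl' 2 0 1 3
    have e3 := hcl' 3 0 1 2
    have e0 := hcl' 0 1 2 3
    simp only [dTwo] at e0 e1 e2 e3
    simp only [wedge, comp6, dOne_apply, PiLp.toLp_apply]
    simp only [Matrix.cons_val, Matrix.cons_val_zero, Matrix.cons_val_one, hB]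
    simp only [hA] at e0 e1 e2 e3 ⊢
    linear_combination e0 - e1 + e2 - e3
  rw [integral_congr_ae (Filter.Eventually.of_forall key)]
  rw [integral_sub, integral_add, integral_sub, integral_add, integral_sub, integral_add,
    integral_sub, integral_add, integral_sub, integral_add, integral_sub]
  · simp only [hZ]
    simp
  all_goals
    repeat'
      first
        | exact hI _ _ _ _
        | refine Integrable.sub ?_ ?_
        | refine Integrable.add ?_ ?_

end Pool.Agent.W_MP_d8b8b7_G1
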