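import Pool.Agent.W_MP_d8b8b7_G1.PullDefs

set_option autoImplicit false

/-!
# (G1) AltD: exterior derivative of Mathlib in terms of `dOne`, `dTwo`

`extDeriv_apply` of Mathlib; the derivative of `y ↦ altOf (β y) ![v, w]` is `β' u v w` for `β` alternating
(`altOf_apply`), etc.  `DifferentiableAt` of `fun y => altOf (β y)` from `altOfL`.
`dOne α x` is alternating.
-/

namespace Pool.Agent.W_MP_d8b8b7_G1

open Pool.Agent.W_MP_d8b8b7_gt
open MeasureTheory Set Filter Topology
open scoped Manifold ContDiff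

variable {N : ℕ}

theorem AltD_dOne_apply (α : EN N → Cov N) (x u v : EN N) :
    dOne α x u v = fderiv ℝ α x u v - fderiv ℝ α x v u := rfl

theorem AltD_dOne_self (α : EN N → Cov N) (x v : EN N) : dOne α x v v = 0 := by
  rw [AltD_dOne_apply, sub_self]

theorem AltD_fderiv_eval1 (α : EN N → Cov N) (x : EN N) (hα : DifferentiableAt ℝ α x) (u v : EN N) :
    fderiv ℝ (fun y => α y v) x u = fderiv ℝ α x u v := by
  have h : HasFDerivAt (fun y => α y v) ((fderiv ℝ α x).flip v) x := by
    have := hα.hasFDerivAt.clm_apply (hasFDerivAt_const v x)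
    refine this.congr_fderiv ?_
    ext w
    simp
  rw [h.fderiv]
  rfl

theorem AltD_fderiv_eval2 (β : EN N → Bil N) (x : EN N) (hβ : DifferentiableAt ℝ β x) (u v w : EN N) :
    fderiv ℝ (fun y => β y v w) x u = fderiv ℝ β x u v w := by
  exact Bil.fderiv_apply hβ u v w

theorem AltD_two_le : (2 : WithTop ℕ∞) ≤ ∞ := by
  exact WithTop.coe_le_coe.2 (le_top : (2 : ℕ∞) ≤ ⊤)

theorem AltD_lin {V W : Type*} [NormedAddCommGroup V] [NormedSpace ℝ V] [NormedAddCommGroup W]
    [NormedSpace ℝ W] (L : V →L[ℝ] W) (β : EN N → V) (x : EN N) (hd : DifferentiableAt ℝ β x) :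
    DifferentiableAt ℝ (fun y => L (β y)) x :=
  (L.hasFDerivAt.comp x hd.hasFDerivAt).differentiableAt

theorem AltD_diff_altOf (β : EN N → Bil N) (x : EN N) (hd : DifferentiableAt ℝ β x) :
    DifferentiableAt ℝ (fun y => altOf (β y)) x :=
  AltD_lin (altOfL (E := EN N)) β x hd

theorem AltD_fderiv_diff {K : ℕ} (f : EN K → EN N) (x : EN K) (hf : ContDiffAt ℝ ∞ f x) :
    DifferentiableAt ℝ (fderiv ℝ f) x := by
  have h : ContDiffAt ℝ 1 (fderiv ℝ f) x := by
    apply hf.fderiv_right
    have : (1 : WithTop ℕ∞) + 1 = 2 := by norm_num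
    rw [this]
    exact AltD_two_le
  exact h.differentiableAt (by simp)

theorem AltD_comp {K : ℕ} {V : Type*} [NormedAddCommGroup V] [NormedSpace ℝ V] (f : EN K → EN N)
    (β : EN N → V) (x : EN K) (hf : ContDiffAt ℝ ∞ f x) (hd : DifferentiableAt ℝ β (f x)) :
    DifferentiableAt ℝ (fun y => β (f y)) x := by
  have hfd : DifferentiableAt ℝ f x := hf.differentiableAt (by simp)
  exact (hd.hasFDerivAt.comp x hfd.hasFDerivAt).differentiableAt

theorem extDeriv_covOf (α : EN N → Cov N) (x : EN N) (hα : DifferentiableAt ℝ α x) :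
    extDeriv (fun y => covOf (α y)) x = altOf (dOne α x) := by
  have hd : DifferentiableAt ℝ (fun y => covOf (α y)) x :=
    (covOfL (E := EN N)).differentiableAt.comp x hα
  ext v
  rw [extDeriv_apply hd, Fin.sum_univ_two]
  have e0 : (fun y => covOf (α y) ((0 : Fin 2).removeNth v)) = fun y => α y (v 1) := rfl
  have e1 : (fun y => covOf (α y) ((1 : Fin 2).removeNth v)) = fun y => α y (v 0) := rfl
  rw [e0, e1, AltD_fderiv_eval1 α x hα, AltD_fderiv_eval1 α x hα]
  change _ = (dOne α x (v 0) (v 1) - dOne α x (v 1) (v 0)) / 2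
  rw [AltD_dOne_apply, AltD_dOne_apply]
  simp
  ring

theorem extDeriv_altOf (β : EN N → Bil N) (hβ : ∀ y v, β y v v = 0) (x : EN N)
    (hd : DifferentiableAt ℝ β x) (u v w : EN N) :
    extDeriv (fun y => altOf (β y)) x ![u, v, w] = dTwo β x u v w := by
  have hd' : DifferentiableAt ℝ (fun y => altOf (β y)) x := AltD_diff_altOf β x hd
  have hsw : ∀ y a b, (β y a b - β y b a) / 2 = β y a b := by
    intro y a b
    have h := hβ y (a + b)
    simp only [Bil.add_left, Bil.add_right, hβ y a, hβ y b] at h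
    linarith
  rw [extDeriv_apply hd', Fin.sum_univ_three]
  have e0 : (fun y => altOf (β y) ((0 : Fin 3).removeNth ![u, v, w])) = fun y => β y v w := by
    funext y
    exact hsw y v w
  have e1 : (fun y => altOf (β y) ((1 : Fin 3).removeNth ![u, v, w])) = fun y => β y u w := by
    funext y
    exact hsw y u w
  have e2 : (fun y => altOf (β y) ((2 : Fin 3).removeNth ![u, v, w])) = fun y => β y u v := by
    funext y
    exact hsw y u v
  rw [e0, e1, e2, AltD_fderiv_eval2 β x hd, AltD_fderiv_eval2 β x hd, AltD_fderiv_eval2 β x hd]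
  unfold dTwo
  simp
  ring

theorem AltD_pull_apply {E E' : Type*} [NormedAddCommGroup E] [NormedSpace ℝ E]
    [NormedAddCommGroup E'] [NormedSpace ℝ E'] (A : E' →L[ℝ] E) (b : E →L[ℝ] E →L[ℝ] ℝ) (u v : E') :
    pull A b u v = b (A u) (A v) := rfl

/-- `d` commutes with pull back, 2-forms -/
theorem dTwo_pull {K : ℕ} (f : EN K → EN N) (β : EN N → Bil N) (hβ : ∀ y v, β y v v = 0)
    (x : EN K) (hf : ContDiffAt ℝ ∞ f x) (hd : DifferentiableAt ℝ β (f x)) (u v w : EN K) :
    dTwo (fun y => pull (fderiv ℝ f y) (β (f y))) x u v w =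
      dTwo β (f x) (fderiv ℝ f x u) (fderiv ℝ f x v) (fderiv ℝ f x w) := by
  have hf' : DifferentiableAt ℝ (fderiv ℝ f) x := AltD_fderiv_diff f x hf
  have hβf : DifferentiableAt ℝ (fun y => β (f y)) x := AltD_comp f β x hf hd
  have hpd : DifferentiableAt ℝ (fun y => pull (fderiv ℝ f y) (β (f y))) x := by
    have e : (fun y => pull (fderiv ℝ f y) (β (f y))) = fun y =>
        ((ContinuousLinearMap.compL ℝ (EN K) (EN N) ℝ).flip (fderiv ℝ f y)).comp
          ((β (f y)).comp (fderiv ℝ f y)) := by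
      funext y
      rfl
    rw [e]
    exact (((ContinuousLinearMap.compL ℝ (EN K) (EN N) ℝ).flip.differentiableAt).comp x hf').clm_comp
      (hβf.clm_comp hf')
  rw [← extDeriv_altOf (fun y => pull (fderiv ℝ f y) (β (f y)))
    (fun y v => hβ (f y) (fderiv ℝ f y v)) x hpd]
  have e : (fun y => altOf (pull (fderiv ℝ f y) (β (f y)))) = fun y =>
      ((fun z => altOf (β z)) (f y)).compContinuousLinearMap (fderiv ℝ f y) := by
    funext y
    exact (altOf_comp _ _).symm
  have hda : DifferentiableAt ℝ (fun z => altOf (β z)) (f x) := AltD_diff_altOf β (f x) hd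
  rw [e, extDeriv_pullback (r := ∞) hda hf (by simpa using AltD_two_le)]
  rw [ContinuousAlternatingMap.compContinuousLinearMap_apply]
  have e2 : (fderiv ℝ f x) ∘ ![u, v, w] = ![fderiv ℝ f x u, fderiv ℝ f x v, fderiv ℝ f x w] := by
    funext i
    fin_cases i <;> rfl
  rw [e2]
  exact extDeriv_altOf β hβ (f x) hd _ _ _

/-- `d` commutes with pull back, 1-forms -/
theorem dOne_pull {K : ℕ} (f : EN K → EN N) (α : EN N → Cov N) (x : EN K)
    (hf : ContDiffAt ℝ ∞ f x) (hd : DifferentiableAt ℝ α (f x)) :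
    dOne (fun y => (α (f y)).comp (fderiv ℝ f y)) x = pull (fderiv ℝ f x) (dOne α (f x)) := by
  have hf' : DifferentiableAt ℝ (fderiv ℝ f) x := AltD_fderiv_diff f x hf
  have hαf : DifferentiableAt ℝ (fun y => α (f y)) x := AltD_comp f α x hf hd
  have hc : DifferentiableAt ℝ (fun y => (α (f y)).comp (fderiv ℝ f y)) x := hαf.clm_comp hf'
  have h1 := extDeriv_covOf (fun y => (α (f y)).comp (fderiv ℝ f y)) x hc
  have hda : DifferentiableAt ℝ (fun z => covOf (α z)) (f x) :=
    (covOfL (E := EN N)).differentiableAt.comp (f x) hd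
  have h2 := extDeriv_pullback (r := ∞) hda hf (by simpa using AltD_two_le)
  have e : (fun y => covOf ((α (f y)).comp (fderiv ℝ f y))) = fun y =>
      ((fun z => covOf (α z)) (f y)).compContinuousLinearMap (fderiv ℝ f y) := by
    funext y
    exact (covOf_comp _ _).symm
  rw [e, h2, extDeriv_covOf α (f x) hd] at h1
  have h4 : (altOf (dOne α (f x))).compContinuousLinearMap (fderiv ℝ f x) =
      altOf (pull (fderiv ℝ f x) (dOne α (f x))) := altOf_comp _ _
  have h5 := h4.symm.trans h1
  refine Bil.ext fun u v => ?_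
  have h3 := congrArg (fun b : EN K [⋀^Fin 2]→L[ℝ] ℝ => b ![u, v]) h5
  exact ((altOf_apply _ (fun v => AltD_dOne_self α (f x) (fderiv ℝ f x v)) u v).symm.trans
    (h3.trans (altOf_apply _ (fun v => AltD_dOne_self _ _ _) u v))).symm

end Pool.Agent.W_MP_d8b8b7_G1
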