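import Pool.Agent.W_MP_d8b8b7_gt.Setup
import Pool.Agent.W_MP_d8b8b7_gt.Statement

set_option autoImplicit false

/-!
# (G1) Base: definitions for the construction of a `Setup` from a closed manifold

* `LChart X ψ κ V`: local chart of the subset `X` of `R^N`, with globally smooth `ψ : R^4 → R^N` and
  left inverse `κ : R^N → R^4`.
* `IsSub X`: compact non-empty four dimensional submanifold.
* `IsRetr X U ρ`: `ρ` is smooth on `R^N` and maps the open neighbourhood `U` of `X` to `X`, identity on `X`.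
* `IsEmb e`: smooth closed embedding of the manifold `M`.
* `IsMChart e p ψ κ V r`: `ψ z = e (φ⁻¹ (φ p + r z))`, `φ` the chart of `M` at `p`.
-/

namespace Pool.Agent.W_MP_d8b8b7_G1

open Pool.Agent.W_MP_d8b8b7_gt
open MeasureTheory Set Filter Topology
open scoped Manifold ContDiff

/-- local chart of `X` -/
structure LChart {N : ℕ} (X : Set (EN N)) (ψ : EN 4 → EN N) (κ : EN N → EN 4)
    (V : Set (EN N)) : Prop where
  smooth_psi : ContDiff ℝ ∞ ψ
  smooth_kap : ContDiff ℝ ∞ κ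
  openV : IsOpen V
  image : X ∩ V = ψ '' Metric.ball 0 1
  kap_psi : ∀ z ∈ Metric.ball (0 : EN 4) 1, κ (ψ z) = z

/-- compact four dimensional submanifold -/
structure IsSub {N : ℕ} (X : Set (EN N)) : Prop where
  cpt : IsCompact X
  ne : X.Nonempty
  chart : ∀ x₀ ∈ X, ∃ (ψ : EN 4 → EN N) (κ : EN N → EN 4) (V : Set (EN N)),
    LChart X ψ κ V ∧ ψ 0 = x₀

/-- smooth retraction onto `X` -/
structure IsRetr {N : ℕ} (X U : Set (EN N)) (ρ : EN N → EN N) : Prop where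
  openU : IsOpen U
  subU : X ⊆ U
  smooth : ContDiff ℝ ∞ ρ
  mem : ∀ y ∈ U, ρ y ∈ X
  fix : ∀ x ∈ X, ρ x = x

namespace LChart

variable {N : ℕ} {X : Set (EN N)} {ψ : EN 4 → EN N} {κ : EN N → EN 4} {V : Set (EN N)}

theorem psi_mem (h : LChart X ψ κ V) {z : EN 4} (hz : z ∈ Metric.ball (0 : EN 4) 1) :
    ψ z ∈ X ∧ ψ z ∈ V := by
  have : ψ z ∈ X ∩ V := by
    rw [h.image]
    exact ⟨z, hz, rfl⟩
  exact this

theorem kap_mem (h : LChart X ψ κ V) {x : EN N} (hx : x ∈ X) (hV : x ∈ V) :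
    κ x ∈ Metric.ball (0 : EN 4) 1 ∧ ψ (κ x) = x := by
  have : x ∈ ψ '' Metric.ball 0 1 := by
    rw [← h.image]
    exact ⟨hx, hV⟩
  obtain ⟨z, hz, rfl⟩ := this
  rw [h.kap_psi z hz]
  exact ⟨hz, rfl⟩

theorem fderiv_kap_psi (h : LChart X ψ κ V) {z : EN 4} (hz : z ∈ Metric.ball (0 : EN 4) 1)
    (w : EN 4) : fderiv ℝ κ (ψ z) (fderiv ℝ ψ z w) = w := by
  have h1 : HasFDerivAt (fun y => κ (ψ y)) ((fderiv ℝ κ (ψ z)).comp (fderiv ℝ ψ z)) z :=
    ((h.smooth_kap.differentiable (by simp)) (ψ z)).hasFDerivAt.comp z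
      ((h.smooth_psi.differentiable (by simp)) z).hasFDerivAt
  have h2 : (fun y => κ (ψ y)) =ᶠ[𝓝 z] id := by
    filter_upwards [Metric.isOpen_ball.mem_nhds hz] with y hy
    exact h.kap_psi y hy
  have h3 : HasFDerivAt (id : EN 4 → EN 4) ((fderiv ℝ κ (ψ z)).comp (fderiv ℝ ψ z)) z :=
    h1.congr_of_eventuallyEq h2.symm
  have h4 := h3.unique (hasFDerivAt_id z)
  have h5 := congrArg (fun A : EN 4 →L[ℝ] EN 4 => A w) h4
  exact h5

theorem fderiv_psi_injective (h : LChart X ψ κ V) {z : EN 4}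
    (hz : z ∈ Metric.ball (0 : EN 4) 1) : Function.Injective (fderiv ℝ ψ z) :=
  Function.LeftInverse.injective (g := fderiv ℝ κ (ψ z)) (h.fderiv_kap_psi hz)

end LChart

section Mfd

variable {M : Type*} [TopologicalSpace M] [ChartedSpace E4 M] {N : ℕ}

/-- smooth closed embedding -/
structure IsEmb (e : M → EN N) : Prop where
  smooth : ContMDiff 𝓘(ℝ, E4) 𝓘(ℝ, EN N) ∞ e
  emb : Topology.IsClosedEmbedding e
  inj : ∀ p, Function.Injective (mfderiv 𝓘(ℝ, E4) 𝓘(ℝ, EN N) e p)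

/-- chart of `range e` coming from the chart of `M` at `p` -/
structure IsMChart (e : M → EN N) (p : M) (ψ : EN 4 → EN N) (κ : EN N → EN 4)
    (V : Set (EN N)) (r : ℝ) : Prop where
  chart : LChart (Set.range e) ψ κ V
  r_pos : 0 < r
  target : ∀ z ∈ Metric.ball (0 : EN 4) 1,
    extChartAt 𝓘(ℝ, E4) p p + r • z ∈ (extChartAt 𝓘(ℝ, E4) p).target
  psi_eq : ∀ z ∈ Metric.ball (0 : EN 4) 1,
    ψ z = e ((extChartAt 𝓘(ℝ, E4) p).symm (extChartAt 𝓘(ℝ, E4) p p + r • z))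

/-- the derivative of `e` at `p` as a continuous linear map `R^4 → R^N` -/
noncomputable def de (e : M → EN N) (p : M) : EN 4 →L[ℝ] EN N :=
  mfderiv 𝓘(ℝ, E4) 𝓘(ℝ, EN N) e p

end Mfd

end Pool.Agent.W_MP_d8b8b7_G1
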