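import Pool.Agent.W_MP_d8b8b7_G1.Dens

set_option autoImplicit false

/-!
# (G1) ChartChange: the volume does not depend on the chart

`A ⊆ V ∩ V'` Borel.  Only the points of `A ∩ X` matter.  Let `S = {z ∈ ball 0 1 | ψ z ∈ A}`,
`S' = {z ∈ ball 0 1 | ψ' z ∈ A}` (measurable), `τ = κ' ∘ ψ`.  Then `τ` maps `S` bijectively to `S'` with inverse
`κ ∘ ψ'`, `ψ' (τ z) = ψ z` for `z ∈ S`, and for `z ∈ S` even `ψ = ψ' ∘ τ` near `z` (`ψ z' ∈ X ∩ V'` for `z'` near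
`z`), so `dn G ψ z = det Dτ(z) * dn G ψ' (τ z)` (`dn_change`) and
`∫_S f (ψ z) |dn G ψ z| dz = ∫_S |det Dτ(z)| * (f (ψ' (τ z)) * |dn G ψ' (τ z)|) dz =
∫_{S'} f (ψ' z') |dn G ψ' z'| dz'` by `lintegral_image_eq_lintegral_abs_det_fderiv_mul`.
(`ENNReal.ofReal_mul`, `abs_mul`.)
-/

namespace Pool.Agent.W_MP_d8b8b7_G1

open Pool.Agent.W_MP_d8b8b7_gt
open MeasureTheory Set Filter Topology
open scoped Manifold ContDiff ENNReal

variable {N : ℕ} {G : Geom N} {ψ ψ' : EN 4 → EN N} {κ κ' : EN N → EN 4} {V V' : Set (EN N)}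

theorem chartChange_ind (ψ : EN 4 → EN N) (hψ : Continuous ψ) {A : Set (EN N)}
    (hA : MeasurableSet A) (f : EN N → ℝ≥0∞) (g : EN 4 → ℝ≥0∞) :
    ∫⁻ z in Metric.ball (0 : EN 4) 1, A.indicator f (ψ z) * g z =
      ∫⁻ z in ψ ⁻¹' A ∩ Metric.ball (0 : EN 4) 1, f (ψ z) * g z := by
  have hm : MeasurableSet (ψ ⁻¹' A) := hψ.measurable hA
  rw [← setLIntegral_indicator hm]
  refine lintegral_congr (fun z => ?_)
  by_cases hz : ψ z ∈ A
  · rw [indicator_of_mem hz, indicator_of_mem (show z ∈ ψ ⁻¹' A from hz)]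
  · rw [indicator_of_notMem hz, indicator_of_notMem (show z ∉ ψ ⁻¹' A from hz), zero_mul]

theorem chartChange_abs {X : Set (EN N)} (h : LChart X ψ κ V) (h' : LChart X ψ' κ' V')
    {A : Set (EN N)} (hA : MeasurableSet A) (hAV : A ⊆ V ∩ V') (f : EN N → ℝ≥0∞)
    (D D' : EN 4 → ℝ) (hD : ∀ z ∈ Metric.ball (0 : EN 4) 1,
      ψ =ᶠ[𝓝 z] (fun y => ψ' (κ' (ψ y))) →
        D z = (fderiv ℝ (fun y => κ' (ψ y)) z).det * D' (κ' (ψ z))) :
    ∫⁻ z in Metric.ball (0 : EN 4) 1, A.indicator f (ψ z) * ENNReal.ofReal |D z| =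
      ∫⁻ z in Metric.ball (0 : EN 4) 1, A.indicator f (ψ' z) * ENNReal.ofReal |D' z| := by
  have hψc := h.smooth_psi.continuous
  have hψc' := h'.smooth_psi.continuous
  rw [chartChange_ind ψ hψc hA, chartChange_ind ψ' hψc' hA]
  set S : Set (EN 4) := ψ ⁻¹' A ∩ Metric.ball (0 : EN 4) 1 with hS
  have hSm : MeasurableSet S := (hψc.measurable hA).inter Metric.isOpen_ball.measurableSet
  have hτ : Differentiable ℝ (fun y => κ' (ψ y)) :=
    (h'.smooth_kap.comp h.smooth_psi).differentiable (by simp)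
  have key : ∀ z ∈ S, κ' (ψ z) ∈ Metric.ball (0 : EN 4) 1 ∧ ψ' (κ' (ψ z)) = ψ z := by
    intro z hz
    exact h'.kap_mem (h.psi_mem hz.2).1 (hAV hz.1).2
  have himg : ψ' ⁻¹' A ∩ Metric.ball (0 : EN 4) 1 = (fun y => κ' (ψ y)) '' S := by
    ext w
    constructor
    · rintro ⟨hw1, hw2⟩
      have h1 := h.kap_mem (h'.psi_mem hw2).1 (hAV hw1).1
      refine ⟨κ (ψ' w), ⟨?_, h1.1⟩, ?_⟩
      · change ψ (κ (ψ' w)) ∈ A
        rw [h1.2]
        exact hw1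
      · change κ' (ψ (κ (ψ' w))) = w
        rw [h1.2]
        exact h'.kap_psi w hw2
    · rintro ⟨z, hz, rfl⟩
      have h1 := key z hz
      refine ⟨?_, h1.1⟩
      change ψ' (κ' (ψ z)) ∈ A
      rw [h1.2]
      exact hz.1
  have hinj : InjOn (fun y => κ' (ψ y)) S := by
    intro z1 h1 z2 h2 h12
    have h3 : ψ z1 = ψ z2 := by
      rw [← (key z1 h1).2, ← (key z2 h2).2]
      exact congrArg ψ' h12
    rw [← h.kap_psi z1 h1.2, ← h.kap_psi z2 h2.2, h3]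
  rw [himg, lintegral_image_eq_lintegral_abs_det_fderiv_mul volume hSm
    (fun z _ => (hτ z).hasFDerivAt.hasFDerivWithinAt) hinj]
  refine setLIntegral_congr_fun hSm (fun z hz => ?_)
  have h1 := key z hz
  have hev : ψ =ᶠ[𝓝 z] (fun y => ψ' (κ' (ψ y))) := by
    have hV' : ∀ᶠ y in 𝓝 z, ψ y ∈ V' :=
      hψc.continuousAt.eventually (h'.openV.mem_nhds (hAV hz.1).2)
    filter_upwards [Metric.isOpen_ball.mem_nhds hz.2, hV'] with y hy hyV
    exact (h'.kap_mem (h.psi_mem hy).1 hyV).2.symm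
  have h2 := hD z hz.2 hev
  change f (ψ z) * ENNReal.ofReal |D z| = _
  rw [h2, abs_mul, ENNReal.ofReal_mul (abs_nonneg _), h1.2]
  ring

theorem chart_change (h : LChart G.X ψ κ V) (h' : LChart G.X ψ' κ' V') {A : Set (EN N)}
    (hA : MeasurableSet A) (hAV : A ⊆ V ∩ V') (f : EN N → ℝ≥0∞) (hf : Measurable f) :
    ∫⁻ z in Metric.ball (0 : EN 4) 1, A.indicator f (ψ z) * ENNReal.ofReal |dn G ψ z| =
      ∫⁻ z in Metric.ball (0 : EN 4) 1, A.indicator f (ψ' z) * ENNReal.ofReal |dn G ψ' z| :=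
  chartChange_abs h h' hA hAV f (dn G ψ) (dn G ψ') (fun z _ hev =>
    dn_change (((h'.smooth_kap.comp h.smooth_psi).differentiable (by simp)) z)
      ((h'.smooth_psi.differentiable (by simp)) _) hev)

end Pool.Agent.W_MP_d8b8b7_G1
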