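import Pool.Agent.W_MP_d8b8b7_G1.FrameEx
import Pool.Agent.W_MP_d8b8b7_G1.WedgeDet

set_option autoImplicit false

/-!
# (G1) Dens: signed density of the Riemannian volume in a chart

`dn G ψ z = ω(z) / 2`, `ω(z)` the value of `(ψ^* F) ∧ (ψ^* F)` on the standard basis.
Let `z` be in the unit ball, `A = fderiv ψ z` (injective, image in the tangent space, `tan_iff`/`D_psi`),
`A (std4 i) = ∑ a, m i a • fr a (ψ z)` with `m i a = g(A (std4 i), fr a)` (`IsFrame.span`).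
* `dn_orient`: `comp6 (Bil.pull A b) std4 = comp6 b (fun i => A (std4 i))`, `wedge_det`; for `b = c = F` one gets
  `dn = det m` (`comp6_F`, `wedge Fc Fc = 2`).
* `dn_ne_zero`: `det m ≠ 0`, otherwise a nontrivial combination of the `A (std4 i)` vanishes
  (`exists_frame` gives a frame).
* `dn_sign`: `dn` is continuous and nonzero on the ball, which is preconnected (convex).
* `dn_smooth`: `ga_smooth_F`, `ga_smooth_pull`; `comp6` and `wedge` are polynomial.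
* `dn_change`: if `ψ = ψ' ∘ τ` near `z` then `ψ^* F = τ^* (ψ'^* F)`, `wedge_pull`.
-/

namespace Pool.Agent.W_MP_d8b8b7_G1

open Pool.Agent.W_MP_d8b8b7_gt
open MeasureTheory Set Filter Topology
open scoped Manifold ContDiff

variable {N : ℕ}

/-- signed density of the volume in the parametrisation `ψ` -/
noncomputable def dn (G : Geom N) (ψ : EN 4 → EN N) (z : EN 4) : ℝ :=
  wedge (comp6 (Bil.pull (fderiv ℝ ψ z) (G.F (ψ z))) std4)
    (comp6 (Bil.pull (fderiv ℝ ψ z) (G.F (ψ z))) std4) / 2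

variable {G : Geom N} {fr : Fin 4 → EN N → EN N} {ψ : EN 4 → EN N} {κ : EN N → EN 4}
  {V : Set (EN N)}

/-- value of the wedge -/
theorem Dens_wedge_comp6 {M : ℕ} (b c : Bil M) (f : Fin 4 → EN M) :
    wedge (comp6 b f) (comp6 c f) =
      b (f 0) (f 1) * c (f 2) (f 3) - b (f 0) (f 2) * c (f 1) (f 3) +
      b (f 0) (f 3) * c (f 1) (f 2) + b (f 1) (f 2) * c (f 0) (f 3) -
      b (f 1) (f 3) * c (f 0) (f 2) + b (f 2) (f 3) * c (f 0) (f 1) := rfl

/-- one component of `ψ^* F` -/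
noncomputable def Dens_t (G : Geom N) (ψ : EN 4 → EN N) (i j : Fin 4) (z : EN 4) : ℝ :=
  G.F (ψ z) (fderiv ℝ ψ z (std4 i)) (fderiv ℝ ψ z (std4 j))

theorem Dens_t_smooth (G : Geom N) (hψ : ContDiff ℝ ∞ ψ) (i j : Fin 4) :
    ContDiff ℝ ∞ (Dens_t G ψ i j) := by
  have h1 : ContDiff ℝ ∞ (fun z => fderiv ℝ ψ z) := hψ.fderiv_right (m := ∞) (by simp)
  exact Bil.contDiff_apply ((ga_smooth_F G).comp hψ) (h1.clm_apply contDiff_const)
    (h1.clm_apply contDiff_const)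

theorem Dens_dn_eq (G : Geom N) (ψ : EN 4 → EN N) : dn G ψ = fun z =>
    (Dens_t G ψ 0 1 z * Dens_t G ψ 2 3 z - Dens_t G ψ 0 2 z * Dens_t G ψ 1 3 z +
      Dens_t G ψ 0 3 z * Dens_t G ψ 1 2 z + Dens_t G ψ 1 2 z * Dens_t G ψ 0 3 z -
      Dens_t G ψ 1 3 z * Dens_t G ψ 0 2 z + Dens_t G ψ 2 3 z * Dens_t G ψ 0 1 z) / 2 := rfl

theorem dn_smooth (G : Geom N) (hψ : ContDiff ℝ ∞ ψ) : ContDiff ℝ ∞ (dn G ψ) := by
  rw [Dens_dn_eq]
  have t := Dens_t_smooth G hψ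
  exact ((((((t 0 1).mul (t 2 3)).sub ((t 0 2).mul (t 1 3))).add ((t 0 3).mul (t 1 2))).add
    ((t 1 2).mul (t 0 3))).sub ((t 1 3).mul (t 0 2))).add ((t 2 3).mul (t 0 1)) |>.div_const 2

/-- coefficients of the images of the standard basis in the frame -/
noncomputable def Dens_m (G : Geom N) (fr : Fin 4 → EN N → EN N) (ψ : EN 4 → EN N) (z : EN 4) :
    Matrix (Fin 4) (Fin 4) ℝ :=
  fun i a => G.F (ψ z) (fderiv ℝ ψ z (std4 i)) (G.J (ψ z) (fr a (ψ z)))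

theorem Dens_expand (hf : IsFrame G fr) (h : LChart G.X ψ κ V) {z : EN 4}
    (hz : z ∈ Metric.ball (0 : EN 4) 1) (i : Fin 4) :
    fderiv ℝ ψ z (std4 i) = ∑ a, Dens_m G fr ψ z i a • fr a (ψ z) := by
  have h1 := hf.span (ψ z) (h.psi_mem hz).1 (fderiv ℝ ψ z (std4 i))
  have h2 : G.D (ψ z) (fderiv ℝ ψ z (std4 i)) = fderiv ℝ ψ z (std4 i) :=
    D_psi h (ga_retr G) hz _
  rw [h2] at h1
  exact h1

theorem Dens_pull (hf : IsFrame G fr) (h : LChart G.X ψ κ V) {z : EN 4}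
    (hz : z ∈ Metric.ball (0 : EN 4) 1) (b c : Bil N) (hb : ∀ v, b v v = 0)
    (hc : ∀ v, c v v = 0) :
    wedge (comp6 (Bil.pull (fderiv ℝ ψ z) b) std4) (comp6 (Bil.pull (fderiv ℝ ψ z) c) std4) =
      (Dens_m G fr ψ z).det *
        wedge (comp6 b (fun a => fr a (ψ z))) (comp6 c (fun a => fr a (ψ z))) := by
  have h1 : ∀ b : Bil N, comp6 (Bil.pull (fderiv ℝ ψ z) b) std4 =
      comp6 b (fun i => ∑ a, Dens_m G fr ψ z i a • fr a (ψ z)) := by
    intro b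
    have h2 : (fun i => ∑ a, Dens_m G fr ψ z i a • fr a (ψ z)) =
        fun i => fderiv ℝ ψ z (std4 i) := by
      funext i
      exact (Dens_expand hf h hz i).symm
    rw [h2]
    rfl
  rw [h1 b, h1 c]
  exact wedge_det b c hb hc (fun a => fr a (ψ z)) (Dens_m G fr ψ z)

theorem Dens_wedge_Fc : wedge Fc Fc = 2 := by
  have e0 : Fc 0 = 1 := rfl
  have e1 : Fc 1 = 0 := rfl
  have e2 : Fc 2 = 0 := rfl
  have e3 : Fc 3 = 0 := rfl
  have e4 : Fc 4 = 0 := rfl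
  have e5 : Fc 5 = 1 := rfl
  simp only [wedge, e0, e1, e2, e3, e4, e5]
  norm_num

theorem Dens_det (hf : IsFrame G fr) (h : LChart G.X ψ κ V) {z : EN 4}
    (hz : z ∈ Metric.ball (0 : EN 4) 1) : dn G ψ z = (Dens_m G fr ψ z).det := by
  unfold dn
  rw [Dens_pull hf h hz _ _ (ga_F_alt G _) (ga_F_alt G _), hf.comp6_F (h.psi_mem hz).1,
    Dens_wedge_Fc]
  ring

theorem dn_orient (hf : IsFrame G fr) (h : LChart G.X ψ κ V) {z : EN 4}
    (hz : z ∈ Metric.ball (0 : EN 4) 1) (b c : Bil N) (hb : ∀ v, b v v = 0)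
    (hc : ∀ v, c v v = 0) :
    wedge (comp6 b (fun a => fr a (ψ z))) (comp6 c (fun a => fr a (ψ z))) * dn G ψ z =
      wedge (comp6 (Bil.pull (fderiv ℝ ψ z) b) std4) (comp6 (Bil.pull (fderiv ℝ ψ z) c) std4) := by
  rw [Dens_pull hf h hz b c hb hc, Dens_det hf h hz, mul_comm]

theorem dn_ne_zero (hX : IsSub G.X) (h : LChart G.X ψ κ V) {z : EN 4}
    (hz : z ∈ Metric.ball (0 : EN 4) 1) : dn G ψ z ≠ 0 := by
  obtain ⟨fr, hf⟩ := exists_frame G hX
  rw [Dens_det hf h hz]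
  intro h0
  obtain ⟨v, hv, hv0⟩ := Matrix.exists_vecMul_eq_zero_iff.2 h0
  have h1 : fderiv ℝ ψ z (∑ i, v i • std4 i) = 0 := by
    rw [map_sum]
    simp only [map_smul]
    have h2 : ∀ i, v i • fderiv ℝ ψ z (std4 i) =
        ∑ a, (v i * Dens_m G fr ψ z i a) • fr a (ψ z) := by
      intro i
      rw [Dens_expand hf h hz i, Finset.smul_sum]
      simp only [smul_smul]
    simp only [h2]
    rw [Finset.sum_comm]
    refine Finset.sum_eq_zero fun a _ => ?_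
    rw [← Finset.sum_smul]
    have h3 : ∑ i, v i * Dens_m G fr ψ z i a = 0 := congrFun hv0 a
    rw [h3, zero_smul]
  have h4 : (∑ i, v i • std4 i : EN 4) = 0 :=
    h.fderiv_psi_injective hz (by rw [h1, map_zero])
  apply hv
  funext j
  have h5 := congrArg (fun w : EN 4 => w j) h4
  have h6 : (∑ i, v i • std4 i : EN 4) j = v j := by
    fin_cases j <;> simp [Fin.sum_univ_four, std4]
  exact h6.symm.trans h5

theorem Dens_sign_aux {f : EN 4 → ℝ} (hf : Continuous f)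
    (h0 : ∀ z ∈ Metric.ball (0 : EN 4) 1, f z ≠ 0) (hp : 0 < f 0) :
    ∀ z ∈ Metric.ball (0 : EN 4) 1, 0 < f z := by
  intro z hz
  by_contra hn
  have h1 : f z ≤ 0 := not_lt.1 hn
  have h2 := (convex_ball (0 : EN 4) 1).isPreconnected.intermediate_value hz
    (Metric.mem_ball_self one_pos) hf.continuousOn
  obtain ⟨y, hy, hy0⟩ := h2 ⟨h1, hp.le⟩
  exact h0 y hy hy0

theorem dn_sign (hX : IsSub G.X) (h : LChart G.X ψ κ V) :
    ∃ σ : ℝ, (σ = 1 ∨ σ = -1) ∧ ∀ z ∈ Metric.ball (0 : EN 4) 1, 0 < σ * dn G ψ z := by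
  have hc : Continuous (dn G ψ) := (dn_smooth G h.smooth_psi).continuous
  have hne : ∀ z ∈ Metric.ball (0 : EN 4) 1, dn G ψ z ≠ 0 := fun z hz => dn_ne_zero hX h hz
  rcases lt_or_gt_of_ne (hne 0 (Metric.mem_ball_self one_pos)) with h1 | h1
  · refine ⟨-1, Or.inr rfl, ?_⟩
    refine Dens_sign_aux (f := fun z => -1 * dn G ψ z) (continuous_const.mul hc)
      (fun z hz => mul_ne_zero (by norm_num) (hne z hz)) ?_
    linarith
  · refine ⟨1, Or.inl rfl, ?_⟩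
    refine Dens_sign_aux (f := fun z => 1 * dn G ψ z) (continuous_const.mul hc)
      (fun z hz => mul_ne_zero (by norm_num) (hne z hz)) ?_
    linarith

theorem dn_change {ψ' : EN 4 → EN N} {τ : EN 4 → EN 4} {z : EN 4}
    (hτ : DifferentiableAt ℝ τ z) (hψ' : DifferentiableAt ℝ ψ' (τ z))
    (h : ψ =ᶠ[𝓝 z] fun y => ψ' (τ y)) : dn G ψ z = (fderiv ℝ τ z).det * dn G ψ' (τ z) := by
  have h1 : fderiv ℝ ψ z = (fderiv ℝ ψ' (τ z)).comp (fderiv ℝ τ z) := by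
    rw [h.fderiv_eq]
    exact fderiv_comp z hψ' hτ
  have h2 : ψ z = ψ' (τ z) := h.eq_of_nhds
  have h3 := wedge_pull (fderiv ℝ τ z) (Bil.pull (fderiv ℝ ψ' (τ z)) (G.F (ψ' (τ z))))
    (Bil.pull (fderiv ℝ ψ' (τ z)) (G.F (ψ' (τ z)))) (fun v => ga_F_alt G _ _)
    (fun v => ga_F_alt G _ _)
  unfold dn
  rw [h1, h2, mul_div_assoc', ← h3]
  rfl

end Pool.Agent.W_MP_d8b8b7_G1
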