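import Pool.Agent.W_MP_d8b8b7_G1.Base

set_option autoImplicit false

/-!
# (G1) Embed: local charts of an embedded manifold

Notation: `φ = extChartAt 𝓘(ℝ, E4) p`, `y0 = φ p`, `f = e ∘ φ.symm : E4 → EN N`.

`exists_isEmb`: `exists_embedding_euclidean_of_compact` of Mathlib.

`embed_local`: the Euclidean part (left inverse of the derivative, inverse function theorem, bump functions).

`exists_mchart`: `ψ '' ball 0 1 = e '' (φ.source ∩ φ ⁻¹' ball y0 r)` and the set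
`φ.source ∩ φ ⁻¹' ball y0 r` is open in `M`, so, `e` being an embedding, it is `e ⁻¹' V` with `V` open
in `EN N`; then `range e ∩ V = ψ '' ball 0 1`.

`isSub_range`: `range e` is compact (continuous image), non-empty; `ψ 0 = e (φ.symm (φ p)) = e p`.
-/

namespace Pool.Agent.W_MP_d8b8b7_G1

open Pool.Agent.W_MP_d8b8b7_gt
open MeasureTheory Set Filter Topology
open scoped Manifold ContDiff

/-- cutting off a function which is smooth on an open set -/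
theorem embed_cutoff {a b : ℕ} {O : Set (EN a)} (hO : IsOpen O) {f : EN a → EN b}
    (hf : ∀ x ∈ O, ContDiffAt ℝ ∞ f x) {y0 : EN a} (hy0 : y0 ∈ O) :
    ∃ (R : ℝ) (f1 : EN a → EN b), 0 < R ∧ Metric.ball y0 R ⊆ O ∧ ContDiff ℝ ∞ f1 ∧
      ∀ y ∈ Metric.ball y0 R, f1 y = f y := by
  obtain ⟨R, hR, hRO⟩ := Metric.nhds_basis_closedBall.mem_iff.1 (hO.mem_nhds hy0)
  let χ : ContDiffBump y0 := ⟨R / 2, R, by positivity, by linarith⟩
  refine ⟨R / 2, fun y => χ y • f y, by positivity, ?_, ?_, ?_⟩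
  · intro y hy
    apply hRO
    rw [Metric.mem_ball] at hy
    rw [Metric.mem_closedBall]
    linarith
  · rw [contDiff_iff_contDiffAt]
    intro y
    by_cases hy : y ∈ O
    · exact (χ.contDiff.contDiffAt).smul (hf y hy)
    · have h1 : y ∉ tsupport (χ : EN a → ℝ) := by
        rw [χ.tsupport_eq]
        intro h2
        exact hy (hRO h2)
      have h2 : (fun y => χ y • f y) =ᶠ[𝓝 y] fun _ => 0 := by
        have h3 : (χ : EN a → ℝ) =ᶠ[𝓝 y] 0 := notMem_tsupport_iff_eventuallyEq.1 h1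
        filter_upwards [h3] with z hz
        rw [hz]
        simp
      exact contDiffAt_const.congr_of_eventuallyEq h2
  · intro y hy
    have h1 : χ y = 1 := χ.one_of_mem_closedBall (Metric.ball_subset_closedBall hy)
    simp only [h1, one_smul]

theorem embed_local {N : ℕ} {O : Set (EN 4)} (hO : IsOpen O) {f : EN 4 → EN N}
    (hf : ContDiffOn ℝ ∞ f O) {y0 : EN 4} (hy0 : y0 ∈ O)
    (hinj : Function.Injective (fderiv ℝ f y0)) :
    ∃ (r : ℝ) (ψ : EN 4 → EN N) (κ : EN N → EN 4), 0 < r ∧ ContDiff ℝ ∞ ψ ∧ ContDiff ℝ ∞ κ ∧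
      ∀ z ∈ Metric.ball (0 : EN 4) 1, y0 + r • z ∈ O ∧ ψ z = f (y0 + r • z) ∧ κ (ψ z) = z := by
  have hfat : ∀ x ∈ O, ContDiffAt ℝ ∞ f x := fun x hx => hf.contDiffAt (hO.mem_nhds hx)
  obtain ⟨L0, hL0⟩ := (fderiv ℝ f y0 : EN 4 →ₗ[ℝ] EN N).exists_leftInverse_of_injective
    (LinearMap.ker_eq_bot.2 hinj)
  let L : EN N →L[ℝ] EN 4 := LinearMap.toContinuousLinearMap L0
  have hL : ∀ v, L (fderiv ℝ f y0 v) = v := fun v => congrArg (fun A : EN 4 →ₗ[ℝ] EN 4 => A v) hL0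
  let g : EN 4 → EN 4 := fun y => L (f y)
  have hg : ∀ x ∈ O, ContDiffAt ℝ ∞ g x := fun x hx => L.contDiff.contDiffAt.comp x (hfat x hx)
  have hg0 : HasFDerivAt g ((ContinuousLinearEquiv.refl ℝ (EN 4) : EN 4 ≃L[ℝ] EN 4) :
      EN 4 →L[ℝ] EN 4) y0 := by
    have h1 : HasFDerivAt g (L.comp (fderiv ℝ f y0)) y0 :=
      L.hasFDerivAt.comp y0 ((hfat y0 hy0).differentiableAt (by simp)).hasFDerivAt
    have h2 : L.comp (fderiv ℝ f y0) = ((ContinuousLinearEquiv.refl ℝ (EN 4) :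
        EN 4 ≃L[ℝ] EN 4) : EN 4 →L[ℝ] EN 4) := by
      ext1 v
      exact hL v
    rwa [h2] at h1
  let Θ : OpenPartialHomeomorph (EN 4) (EN 4) :=
    (hg y0 hy0).toOpenPartialHomeomorph g hg0 (by simp)
  have hΘ : ∀ y, Θ y = g y := fun y => rfl
  have hΘs : y0 ∈ Θ.source := (hg y0 hy0).mem_toOpenPartialHomeomorph_source hg0 (by simp)
  -- the derivative of g is invertible near y0
  have hcont : ContinuousAt (fderiv ℝ g) y0 := by
    have h1 : ContDiffAt ℝ 1 (fderiv ℝ g) y0 := (hg y0 hy0).fderiv_right (m := 1) (by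
      norm_cast)
    exact h1.continuousAt
  have hev : ∀ᶠ y in 𝓝 y0, fderiv ℝ g y ∈
      Set.range ((↑) : (EN 4 ≃L[ℝ] EN 4) → EN 4 →L[ℝ] EN 4) := by
    apply hcont.eventually
    rw [hg0.fderiv]
    exact ContinuousLinearEquiv.isOpen.mem_nhds ⟨_, rfl⟩
  obtain ⟨S, hS, hSo, hyS⟩ := eventually_nhds_iff.1
    (hev.and ((hO.eventually_mem hy0).and (Θ.open_source.eventually_mem hΘs)))
  have hSs : S ⊆ Θ.source := fun y hy => (hS y hy).2.2
  have hWo : IsOpen (Θ '' S) := Θ.isOpen_image_of_subset_source hSo hSs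
  have hθ : ∀ a ∈ Θ '' S, ContDiffAt ℝ ∞ Θ.symm a := by
    rintro a ⟨y, hy, rfl⟩
    obtain ⟨⟨e, he⟩, hyO, hys⟩ := hS y hy
    have h1 : Θ.symm (Θ y) = y := Θ.left_inv hys
    apply Θ.contDiffAt_symm (f₀' := e) (Θ.map_source hys)
    · rw [h1, he]
      exact ((hg y hyO).differentiableAt (by simp)).hasFDerivAt
    · rw [h1]
      exact hg y hyO
  -- the left inverse
  have hκo : IsOpen (L ⁻¹' (Θ '' S)) := hWo.preimage L.continuous
  have hκat : ∀ x ∈ L ⁻¹' (Θ '' S), ContDiffAt ℝ ∞ (fun x => Θ.symm (L x)) x := by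
    intro x hx
    exact (hθ (L x) hx).comp x L.contDiff.contDiffAt
  have hκ0 : f y0 ∈ L ⁻¹' (Θ '' S) := ⟨y0, hyS, rfl⟩
  obtain ⟨R2, κ1, hR2, hR2s, hκ1, hκ1e⟩ := embed_cutoff hκo hκat hκ0
  obtain ⟨R1, f1, hR1, hR1s, hf1, hf1e⟩ := embed_cutoff hO hfat hy0
  have hfc : ContinuousAt f y0 := (hfat y0 hy0).continuousAt
  have hev2 : ∀ᶠ y in 𝓝 y0, y ∈ S ∧ y ∈ Metric.ball y0 R1 ∧ f y ∈ Metric.ball (f y0) R2 := by
    exact (hSo.eventually_mem hyS).and
      ((Metric.isOpen_ball.eventually_mem (Metric.mem_ball_self hR1)).and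
        (hfc.eventually (Metric.ball_mem_nhds _ hR2)))
  obtain ⟨r, hr, hrb⟩ := Metric.eventually_nhds_iff_ball.1 hev2
  refine ⟨r, fun z => f1 (y0 + r • z), fun x => r⁻¹ • (κ1 x - y0), hr, ?_, ?_, ?_⟩
  · exact hf1.comp (contDiff_const.add (contDiff_id.const_smul r))
  · exact (hκ1.sub contDiff_const).const_smul r⁻¹
  · intro z hz
    have h1 : y0 + r • z ∈ Metric.ball y0 r := by
      rw [Metric.mem_ball, dist_eq_norm, add_sub_cancel_left, norm_smul, Real.norm_eq_abs,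
        abs_of_pos hr]
      rw [mem_ball_zero_iff] at hz
      nlinarith
    obtain ⟨h2, h3, h4⟩ := hrb _ h1
    obtain ⟨-, h5, h6⟩ := hS _ h2
    have h7 : f1 (y0 + r • z) = f (y0 + r • z) := hf1e _ h3
    refine ⟨h5, h7, ?_⟩
    change r⁻¹ • (κ1 (f1 (y0 + r • z)) - y0) = z
    rw [h7, hκ1e _ h4]
    have h8 : Θ.symm (L (f (y0 + r • z))) = y0 + r • z := Θ.left_inv h6
    rw [h8, add_sub_cancel_left, smul_smul, inv_mul_cancel₀ hr.ne', one_smul]

variable {M : Type*} [TopologicalSpace M] [ChartedSpace E4 M] [IsManifold 𝓘(ℝ, E4) ∞ M] {N : ℕ}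

theorem exists_isEmb [CompactSpace M] [T2Space M] : ∃ (N : ℕ) (e : M → EN N), IsEmb e := by
  obtain ⟨N, e, h1, h2, h3⟩ := exists_embedding_euclidean_of_compact (I := 𝓘(ℝ, E4)) (M := M)
  exact ⟨N, e, h1, h2, h3⟩

theorem embed_contDiffOn {e : M → EN N} (he : IsEmb e) (p : M) :
    ContDiffOn ℝ ∞ (e ∘ (extChartAt 𝓘(ℝ, E4) p).symm) (extChartAt 𝓘(ℝ, E4) p).target := by
  rw [← contMDiffOn_iff_contDiffOn]
  exact he.smooth.comp_contMDiffOn (contMDiffOn_extChartAt_symm p)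

theorem embed_fderiv {e : M → EN N} (he : IsEmb e) (p : M) :
    Function.Injective (fderiv ℝ (e ∘ (extChartAt 𝓘(ℝ, E4) p).symm) (extChartAt 𝓘(ℝ, E4) p p)) := by
  have hM1 : IsManifold 𝓘(ℝ, E4) 1 M := IsManifold.of_le (n := ∞) (by exact_mod_cast le_top)
  have ht : extChartAt 𝓘(ℝ, E4) p p ∈ (extChartAt 𝓘(ℝ, E4) p).target := mem_extChartAt_target p
  have h1 : MDifferentiableAt 𝓘(ℝ, E4) 𝓘(ℝ, E4) (extChartAt 𝓘(ℝ, E4) p).symm
      (extChartAt 𝓘(ℝ, E4) p p) := by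
    have h2 := mdifferentiableWithinAt_extChartAt_symm ht
    rwa [modelWithCornersSelf_coe, Set.range_id, mdifferentiableWithinAt_univ] at h2
  have h3 : MDifferentiableAt 𝓘(ℝ, E4) 𝓘(ℝ, EN N) e
      ((extChartAt 𝓘(ℝ, E4) p).symm (extChartAt 𝓘(ℝ, E4) p p)) :=
    he.smooth.mdifferentiableAt (by simp)
  have h4 := mfderiv_comp (extChartAt 𝓘(ℝ, E4) p p) h3 h1
  rw [← mfderiv_eq_fderiv, h4]
  have h5 := isInvertible_mfderivWithin_extChartAt_symm (I := 𝓘(ℝ, E4)) ht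
  rw [modelWithCornersSelf_coe, Set.range_id, mfderivWithin_univ] at h5
  exact (he.inj _).comp h5.injective

theorem exists_mchart {e : M → EN N} (he : IsEmb e) (p : M) :
    ∃ (ψ : EN 4 → EN N) (κ : EN N → EN 4) (V : Set (EN N)) (r : ℝ), IsMChart e p ψ κ V r := by
  have ht : extChartAt 𝓘(ℝ, E4) p p ∈ (extChartAt 𝓘(ℝ, E4) p).target := mem_extChartAt_target p
  obtain ⟨r, ψ, κ, hr, hψ, hκ, hz⟩ := embed_local (isOpen_extChartAt_target p)
    (embed_contDiffOn he p) ht (embed_fderiv he p)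
  have hop : IsOpen ((extChartAt 𝓘(ℝ, E4) p).source ∩
      (extChartAt 𝓘(ℝ, E4) p) ⁻¹' Metric.ball (extChartAt 𝓘(ℝ, E4) p p) r) :=
    isOpen_extChartAt_preimage' p Metric.isOpen_ball
  obtain ⟨V, hV, hVe⟩ := he.emb.isInducing.isOpen_iff.1 hop
  refine ⟨ψ, κ, V, r, ⟨⟨hψ, hκ, hV, ?_, fun z hz' => (hz z hz').2.2⟩, hr, fun z hz' => (hz z hz').1,
    fun z hz' => (hz z hz').2.1⟩⟩
  apply Set.Subset.antisymm
  · rintro x ⟨⟨q, rfl⟩, hq⟩
    have h1 : q ∈ e ⁻¹' V := hq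
    rw [hVe] at h1
    obtain ⟨h2, h3⟩ := h1
    rw [Set.mem_preimage, Metric.mem_ball, dist_eq_norm] at h3
    have h4 : r⁻¹ • (extChartAt 𝓘(ℝ, E4) p q - extChartAt 𝓘(ℝ, E4) p p) ∈
        Metric.ball (0 : EN 4) 1 := by
      rw [mem_ball_zero_iff, norm_smul, norm_inv, Real.norm_eq_abs, abs_of_pos hr,
        inv_mul_lt_iff₀ hr, mul_one]
      exact h3
    refine ⟨_, h4, ?_⟩
    rw [(hz _ h4).2.1, smul_smul, mul_inv_cancel₀ hr.ne', one_smul, add_sub_cancel,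
      Function.comp_apply, (extChartAt 𝓘(ℝ, E4) p).left_inv h2]
  · rintro x ⟨z, hz', rfl⟩
    obtain ⟨h1, h2, -⟩ := hz z hz'
    rw [h2]
    refine ⟨⟨_, rfl⟩, ?_⟩
    have h3 : (extChartAt 𝓘(ℝ, E4) p).symm (extChartAt 𝓘(ℝ, E4) p p + r • z) ∈ e ⁻¹' V := by
      rw [hVe]
      refine ⟨(extChartAt 𝓘(ℝ, E4) p).map_target h1, ?_⟩
      rw [Set.mem_preimage, (extChartAt 𝓘(ℝ, E4) p).right_inv h1, Metric.mem_ball, dist_eq_norm,
        add_sub_cancel_left, norm_smul, Real.norm_eq_abs, abs_of_pos hr]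
      rw [mem_ball_zero_iff] at hz'
      nlinarith
    exact h3

theorem isSub_range [CompactSpace M] [Nonempty M] {e : M → EN N} (he : IsEmb e) :
    IsSub (Set.range e) := by
  refine ⟨isCompact_range he.emb.continuous, Set.range_nonempty e, ?_⟩
  rintro x₀ ⟨p, rfl⟩
  obtain ⟨ψ, κ, V, r, h⟩ := exists_mchart he p
  refine ⟨ψ, κ, V, h.chart, ?_⟩
  rw [h.psi_eq 0 (by simp), smul_zero, add_zero,
    (extChartAt 𝓘(ℝ, E4) p).left_inv (mem_extChartAt_source p)]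

end Pool.Agent.W_MP_d8b8b7_G1
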