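import Pool.Agent.W_MP_d8b8b7_G1.Base

set_option autoImplicit false

/-!
# (G1) Ext: gluing of local fields by convexity

`exists_contMDiffMap_forall_mem_convex_of_local` (Mathlib/Geometry/Manifold/PartitionOfUnity.lean) for the manifold
`EN N` (model `𝓘(ℝ, EN N)`, `contMDiff_iff_contDiff`, `contMDiffOn_iff_contDiffOn`), with the convex sets
`t x = {f | (x ∈ X → P x f) ∧ Q f}`.  For `x₀ ∉ X` (`X` closed) take the constant field `f0`
(`Q f0`) on the complement of `X`.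
-/

namespace Pool.Agent.W_MP_d8b8b7_G1

open Pool.Agent.W_MP_d8b8b7_gt
open MeasureTheory Set Filter Topology
open scoped Manifold ContDiff

theorem exists_smooth_field {N : ℕ} {F : Type*} [NormedAddCommGroup F] [NormedSpace ℝ F]
    {X : Set (EN N)} (hX : IsClosed X) (P : EN N → F → Prop) (Q : F → Prop)
    (hP : ∀ x ∈ X, Convex ℝ {f | P x f}) (hQ : Convex ℝ {f | Q f}) (f0 : F) (h0 : Q f0)
    (hloc : ∀ x₀ ∈ X, ∃ (W : Set (EN N)) (g : EN N → F), IsOpen W ∧ x₀ ∈ W ∧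
      ContDiffOn ℝ ∞ g W ∧ (∀ y ∈ W, Q (g y)) ∧ ∀ x ∈ X ∩ W, P x (g x)) :
    ∃ g : EN N → F, ContDiff ℝ ∞ g ∧ (∀ y, Q (g y)) ∧ ∀ x ∈ X, P x (g x) := by
  have hconv : ∀ x : EN N, Convex ℝ {f : F | (x ∈ X → P x f) ∧ Q f} := by
    intro x
    by_cases hx : x ∈ X
    · have h1 : {f : F | (x ∈ X → P x f) ∧ Q f} = {f | P x f} ∩ {f | Q f} := by
        ext f
        simp [hx]
      rw [h1]
      exact (hP x hx).inter hQ
    · have h1 : {f : F | (x ∈ X → P x f) ∧ Q f} = {f | Q f} := by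
        ext f
        simp [hx]
      rw [h1]
      exact hQ
  obtain ⟨g, hg⟩ := exists_contMDiffMap_forall_mem_convex_of_local (n := (⊤ : ℕ∞)) 𝓘(ℝ, EN N) hconv (by
    intro x₀
    by_cases hx : x₀ ∈ X
    · obtain ⟨W, g, hW, hxW, hg, hQg, hPg⟩ := hloc x₀ hx
      exact ⟨W, hW.mem_nhds hxW, g, contMDiffOn_iff_contDiffOn.2 hg,
        fun y hy => ⟨fun hyX => hPg y ⟨hyX, hy⟩, hQg y hy⟩⟩
    · exact ⟨Xᶜ, hX.isOpen_compl.mem_nhds hx, fun _ => f0, contMDiffOn_const,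
        fun y hy => ⟨fun hyX => absurd hyX hy, h0⟩⟩)
  exact ⟨g, contMDiff_iff_contDiff.1 g.contMDiff, fun y => (hg y).2, fun x hx => (hg x).1 hx⟩

end Pool.Agent.W_MP_d8b8b7_G1
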