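import Pool.Agent.W_MP_d8b8b7_G1.Ext
import Pool.Agent.W_MP_d8b8b7_G1.BilOf
import Pool.Agent.W_MP_d8b8b7_G1.Embed
import Pool.Agent.W_MP_d8b8b7_G1.MFacts

set_option autoImplicit false

/-!
# (G1) ExtForm: extension of smooth forms on `M` to `R^N`

Apply `exists_smooth_field` to `X = range e` (closed), `P x b` = `for all `q` with `e q = x` and all `u v`,
`b (de q u) (de q v) = η q ![u, v]``, `Q b` = ``∀ v, b v v = 0`` (both affine, so convex).
Local solution near `x₀ = e p`: take `IsMChart e p ψ κ V r` (`exists_mchart`; `ψ 0 = e p`), `φ` the chart at `p`,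
`y0 = φ p`, `W = V ∩ κ ⁻¹' ball 0 1` and
`g y = r² • pull (fderiv κ y) (bilOf (locForm η p (y0 + r • κ y)))`,
smooth on `W` because `locForm η p` is `ContDiffOn` on `φ.target ∋ y0 + r • κ y` (`IsMChart.target`).
For `x = e q ∈ W`: `φ q = y0 + r κ (e q)` (`IsMChart.src`), `fderiv κ (e q) (de q u) = r⁻¹ • dext p q u`
(`IsMChart.kap_de`), so `g (e q) (de q u) (de q v) = locForm η p (φ q) ![dext p q u, dext p q v]
= η q ![dsymm (dext u), dsymm (dext v)] = η q ![u, v]` (`dsymm_dext`, `φ.symm (φ q) = q`).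
Same for 1-forms, with `g y = r • (linOf (locForm σ p (y0 + r • κ y))).comp (fderiv κ y)`.
-/

namespace Pool.Agent.W_MP_d8b8b7_G1

open Pool.Agent.W_MP_d8b8b7_gt
open MeasureTheory Set Filter Topology
open scoped Manifold ContDiff

variable {M : Type*} [TopologicalSpace M] [ChartedSpace E4 M] [IsManifold 𝓘(ℝ, E4) ∞ M] {N : ℕ}
  {e : M → EN N}

omit [IsManifold 𝓘(ℝ, E4) ∞ M] in
theorem ExtForm_cast2 (η : Form M 2) {q q' : M} (h : q' = q) (u v : EN 4) :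
    (η q' : EN 4 [⋀^Fin 2]→L[ℝ] ℝ) ![u, v] = (η q : EN 4 [⋀^Fin 2]→L[ℝ] ℝ) ![u, v] := by
  subst h
  rfl

omit [IsManifold 𝓘(ℝ, E4) ∞ M] in
theorem ExtForm_cast1 (η : Form M 1) {q q' : M} (h : q' = q) (u : EN 4) :
    (η q' : EN 4 [⋀^Fin 1]→L[ℝ] ℝ) ![u] = (η q : EN 4 [⋀^Fin 1]→L[ℝ] ℝ) ![u] := by
  subst h
  rfl

omit [IsManifold 𝓘(ℝ, E4) ∞ M] in
theorem ExtForm_loc2 (η : Form M 2) (p : M) (y u v : EN 4) :
    locForm η p y ![u, v] = (η ((extChartAt 𝓘(ℝ, E4) p).symm y) : EN 4 [⋀^Fin 2]→L[ℝ] ℝ)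
      ![dsymm p y u, dsymm p y v] := by
  have h : (fun i => dsymm p y (![u, v] i)) = ![dsymm p y u, dsymm p y v] := by
    ext i
    fin_cases i <;> simp
  have h2 : locForm η p y ![u, v] = (η ((extChartAt 𝓘(ℝ, E4) p).symm y) :
      EN 4 [⋀^Fin 2]→L[ℝ] ℝ) (fun i => dsymm p y (![u, v] i)) := rfl
  exact h2.trans (congrArg (η ((extChartAt 𝓘(ℝ, E4) p).symm y) : EN 4 [⋀^Fin 2]→L[ℝ] ℝ) h)

omit [IsManifold 𝓘(ℝ, E4) ∞ M] in
theorem ExtForm_loc1 (η : Form M 1) (p : M) (y u : EN 4) :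
    locForm η p y ![u] = (η ((extChartAt 𝓘(ℝ, E4) p).symm y) : EN 4 [⋀^Fin 1]→L[ℝ] ℝ)
      ![dsymm p y u] := by
  have h : (fun i => dsymm p y (![u] i)) = ![dsymm p y u] := by
    ext i
    fin_cases i
    simp
  have h2 : locForm η p y ![u] = (η ((extChartAt 𝓘(ℝ, E4) p).symm y) :
      EN 4 [⋀^Fin 1]→L[ℝ] ℝ) (fun i => dsymm p y (![u] i)) := rfl
  exact h2.trans (congrArg (η ((extChartAt 𝓘(ℝ, E4) p).symm y) : EN 4 [⋀^Fin 1]→L[ℝ] ℝ) h)

theorem ExtForm_locForm2 (η : Form M 2) (p q : M)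
    (hq : q ∈ (extChartAt 𝓘(ℝ, E4) p).source) (u v : EN 4) :
    locForm η p (extChartAt 𝓘(ℝ, E4) p q) ![dext p q u, dext p q v] =
      (η q : EN 4 [⋀^Fin 2]→L[ℝ] ℝ) ![u, v] := by
  rw [ExtForm_loc2, dsymm_dext p q hq, dsymm_dext p q hq]
  exact ExtForm_cast2 η ((extChartAt 𝓘(ℝ, E4) p).left_inv hq) u v

theorem ExtForm_locForm1 (η : Form M 1) (p q : M)
    (hq : q ∈ (extChartAt 𝓘(ℝ, E4) p).source) (u : EN 4) :
    locForm η p (extChartAt 𝓘(ℝ, E4) p q) ![dext p q u] =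
      (η q : EN 4 [⋀^Fin 1]→L[ℝ] ℝ) ![u] := by
  rw [ExtForm_loc1, dsymm_dext p q hq]
  exact ExtForm_cast1 η ((extChartAt 𝓘(ℝ, E4) p).left_inv hq) u

omit [IsManifold 𝓘(ℝ, E4) ∞ M] in
/-- smoothness of the coordinate expression on `V ∩ κ ⁻¹' ball 0 1` -/
theorem ExtForm_smooth_comp {k : ℕ} {p : M} {ψ : EN 4 → EN N} {κ : EN N → EN 4} {V : Set (EN N)}
    {r : ℝ} (h : IsMChart e p ψ κ V r) {η : Form M k} (hη : SmoothForm η) :
    ContDiffOn ℝ ∞ (fun y => locForm η p (extChartAt 𝓘(ℝ, E4) p p + r • κ y))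
      (V ∩ κ ⁻¹' Metric.ball 0 1) := by
  have h1 : ContDiffOn ℝ ∞ (fun y => extChartAt 𝓘(ℝ, E4) p p + r • κ y)
      (V ∩ κ ⁻¹' Metric.ball 0 1) :=
    (contDiff_const.add (h.chart.smooth_kap.const_smul r)).contDiffOn
  exact (hη p).comp h1 fun y hy => h.target _ hy.2

theorem ExtForm_fderiv_smooth {ψ : EN 4 → EN N} {κ : EN N → EN 4} {V X : Set (EN N)}
    (h : LChart X ψ κ V) : ContDiff ℝ ∞ (fun y => fderiv ℝ κ y) :=
  h.smooth_kap.fderiv_right (by simp)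

theorem exists_ext2 (he : IsEmb e) {η : Form M 2} (hη : SmoothForm η) :
    ∃ β : EN N → Bil N, IsForm β ∧ ∀ (q : M) (u v : EN 4),
      β (e q) (de e q u) (de e q v) = η q ![u, v] := by
  suffices hmain : ∃ g : EN N → EN N →L[ℝ] EN N →L[ℝ] ℝ, ContDiff ℝ ∞ g ∧ (∀ y v, g y v v = 0) ∧
      ∀ x ∈ range e, ∀ q : M, e q = x → ∀ u v : EN 4,
        g x (de e q u) (de e q v) = (η q : EN 4 [⋀^Fin 2]→L[ℝ] ℝ) ![u, v] by
    obtain ⟨g, hg, hQ, hP⟩ := hmain
    exact ⟨fun x => Bil.toCLM.symm (g x), ⟨Bil.contDiff_toCLM.mpr hg, hQ⟩,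
      fun q u v => hP (e q) ⟨q, rfl⟩ q rfl u v⟩
  refine exists_smooth_field (F := EN N →L[ℝ] EN N →L[ℝ] ℝ) he.emb.isClosed_range
    (fun x b => ∀ q : M, e q = x → ∀ u v : EN 4,
      b (de e q u) (de e q v) = (η q : EN 4 [⋀^Fin 2]→L[ℝ] ℝ) ![u, v])
    (fun b => ∀ v, b v v = 0) ?_ ?_ 0 (by simp) ?_
  · rintro x - b hb c hc s t hs ht hst q hq u v
    have h1 := hb q hq u v
    have h2 := hc q hq u v
    simp only [add_apply, smul_apply, smul_eq_mul, h1, h2]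
    rw [← add_mul, hst, one_mul]
  · rintro b hb c hc s t hs ht hst v
    have h1 := hb v
    have h2 := hc v
    simp only [add_apply, smul_apply, smul_eq_mul, h1, h2,
      mul_zero, add_zero]
  · rintro x₀ ⟨p, rfl⟩
    obtain ⟨ψ, κ, V, r, h⟩ := exists_mchart he p
    have hz0 : (0 : EN 4) ∈ Metric.ball (0 : EN 4) 1 := Metric.mem_ball_self one_pos
    have hψ0 : ψ 0 = e p := by
      rw [h.psi_eq 0 hz0, smul_zero, add_zero, extChartAt_to_inv]
    have hepV : e p ∈ V := by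
      rw [← hψ0]
      exact (h.chart.psi_mem hz0).2
    refine ⟨V ∩ κ ⁻¹' Metric.ball 0 1, fun y => (r ^ 2) •
      (bilOf (locForm η p (extChartAt 𝓘(ℝ, E4) p p + r • κ y))).bilinearComp
        (fderiv ℝ κ y) (fderiv ℝ κ y), ?_, ⟨hepV, ?_⟩, ?_, ?_, ?_⟩
    · exact h.chart.openV.inter (Metric.isOpen_ball.preimage h.chart.smooth_kap.continuous)
    · rw [mem_preimage, ← hψ0, h.chart.kap_psi 0 hz0]
      exact hz0
    · have h1 := contDiffOn_bilOf (ExtForm_smooth_comp h hη)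
      have h2 : ContDiffOn ℝ ∞ (fun y => fderiv ℝ κ y) (V ∩ κ ⁻¹' Metric.ball 0 1) :=
        (ExtForm_fderiv_smooth h.chart).contDiffOn
      rw [contDiffOn_clm_apply]
      intro u
      rw [contDiffOn_clm_apply]
      intro v
      have h3 : ContDiffOn ℝ ∞ (fun y => bilOf (locForm η p (extChartAt 𝓘(ℝ, E4) p p + r • κ y))
          (fderiv ℝ κ y u) (fderiv ℝ κ y v)) (V ∩ κ ⁻¹' Metric.ball 0 1) :=
        (h1.clm_apply (h2.clm_apply contDiffOn_const)).clm_apply (h2.clm_apply contDiffOn_const)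
      exact (contDiffOn_const (c := r ^ 2)).mul h3
    · intro y _ v
      have h1 := bilOf_alt (locForm η p (extChartAt 𝓘(ℝ, E4) p p + r • κ y)) (fderiv ℝ κ y v)
      simp only [smul_apply, ContinuousLinearMap.bilinearComp_apply,
        smul_eq_mul, h1, mul_zero]
    · rintro x ⟨_, hxV, _⟩ q rfl u v
      obtain ⟨hs, hb, hφ, -⟩ := h.src he hxV
      have hr : r ≠ 0 := h.r_pos.ne'
      simp only [smul_apply, ContinuousLinearMap.bilinearComp_apply,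
        smul_eq_mul]
      rw [h.kap_de he hxV, h.kap_de he hxV, ← hφ, map_smul, map_smul, smul_apply,
        bilOf_apply, ExtForm_locForm2 η p q hs]
      simp only [smul_eq_mul]
      field_simp

theorem exists_ext1 (he : IsEmb e) {σ : Form M 1} (hσ : SmoothForm σ) :
    ∃ α : EN N → Cov N, IsOne α ∧ ∀ (q : M) (u : EN 4), α (e q) (de e q u) = σ q ![u] := by
  suffices hmain : ∃ g : EN N → Cov N, ContDiff ℝ ∞ g ∧ (∀ _ : EN N, True) ∧
      ∀ x ∈ range e, ∀ q : M, e q = x → ∀ u : EN 4,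
        g x (de e q u) = (σ q : EN 4 [⋀^Fin 1]→L[ℝ] ℝ) ![u] by
    obtain ⟨g, hg, -, hP⟩ := hmain
    exact ⟨g, hg, fun q u => hP (e q) ⟨q, rfl⟩ q rfl u⟩
  refine exists_smooth_field (F := Cov N) he.emb.isClosed_range
    (fun x b => ∀ q : M, e q = x → ∀ u : EN 4,
      b (de e q u) = (σ q : EN 4 [⋀^Fin 1]→L[ℝ] ℝ) ![u])
    (fun _ => True) ?_ ?_ 0 trivial ?_
  · rintro x - b hb c hc s t hs ht hst q hq u
    have h1 := hb q hq u
    have h2 := hc q hq u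
    simp only [add_apply, smul_apply, smul_eq_mul, h1, h2]
    rw [← add_mul, hst, one_mul]
  · rintro b hb c hc s t hs ht hst
    trivial
  · rintro x₀ ⟨p, rfl⟩
    obtain ⟨ψ, κ, V, r, h⟩ := exists_mchart he p
    have hz0 : (0 : EN 4) ∈ Metric.ball (0 : EN 4) 1 := Metric.mem_ball_self one_pos
    have hψ0 : ψ 0 = e p := by
      rw [h.psi_eq 0 hz0, smul_zero, add_zero, extChartAt_to_inv]
    have hepV : e p ∈ V := by
      rw [← hψ0]
      exact (h.chart.psi_mem hz0).2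
    refine ⟨V ∩ κ ⁻¹' Metric.ball 0 1, fun y => r •
      (linOf (locForm σ p (extChartAt 𝓘(ℝ, E4) p p + r • κ y))).comp (fderiv ℝ κ y),
      ?_, ⟨hepV, ?_⟩, ?_, ?_, ?_⟩
    · exact h.chart.openV.inter (Metric.isOpen_ball.preimage h.chart.smooth_kap.continuous)
    · rw [mem_preimage, ← hψ0, h.chart.kap_psi 0 hz0]
      exact hz0
    · refine ContDiffOn.const_smul _ ?_
      have h1 := contDiffOn_linOf (ExtForm_smooth_comp h hσ)
      have h2 : ContDiffOn ℝ ∞ (fun y => fderiv ℝ κ y) (V ∩ κ ⁻¹' Metric.ball 0 1) :=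
        (ExtForm_fderiv_smooth h.chart).contDiffOn
      exact h1.clm_comp h2
    · intro y _
      trivial
    · rintro x ⟨_, hxV, _⟩ q rfl u
      obtain ⟨hs, hb, hφ, -⟩ := h.src he hxV
      have hr : r ≠ 0 := h.r_pos.ne'
      simp only [smul_apply, ContinuousLinearMap.comp_apply, smul_eq_mul]
      rw [h.kap_de he hxV, ← hφ, map_smul, linOf_apply, ExtForm_locForm1 σ p q hs]
      simp only [smul_eq_mul]
      field_simp

end Pool.Agent.W_MP_d8b8b7_G1
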