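import Pool.Agent.W_MP_d8b8b7_G1.Ext
import Pool.Agent.W_MP_d8b8b7_G1.Embed
import Pool.Agent.W_MP_d8b8b7_G1.MFacts
import Pool.Agent.W_MP_d8b8b7_G1.Tangent

set_option autoImplicit false

/-!
# (G1) ExtJ: extension of an endomorphism field, and the tangent space in terms of `M`

* `D_de`: `ρ ∘ e = e` on `M`, differentiate.  `tan_surj`: with `IsMChart`, `ψ 0 = e q`: a vector `v` with
  `D v = v` is `Dψ(0) w` (`tan_iff`), and `fderiv_psi` shows that it is in the range of `de e q`.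
* `exists_extJ`: `exists_smooth_field` with `P x A` = ``A (D x v) = A v` for all `v`, and for all `q` with
  `e q = x` and all `v`, `A (de q v) = de q (J q v)``, `Q A = True`.
  Local solution near `x₀ = e p`, with `IsMChart e p ψ κ V r`, `W = V ∩ κ ⁻¹' ball 0 1`:
  `g y = (fderiv ψ (κ y)) ∘ (locEndo J p (y0 + r • κ y)) ∘ (fderiv κ y) ∘ (fderiv ρ y)`,
  smooth on `W`.  At `x = e q ∈ W`, `v' = de q v`: `D v' = v'`, `Dκ v' = r⁻¹ dext p q v` (`kap_de`),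
  `locEndo J p (φ q) (r⁻¹ dext v) = r⁻¹ dext (J q (dsymm (dext v))) = r⁻¹ dext (J q v)`, and
  `fderiv ψ (κ (e q)) (r⁻¹ • dext p q (J q v)) = de q (J q v)` (`psi_dext`).  `A (D v) = A v` because
  `D (D v) = D v` (`D_D`, or directly).
-/

namespace Pool.Agent.W_MP_d8b8b7_G1

open Pool.Agent.W_MP_d8b8b7_gt
open MeasureTheory Set Filter Topology
open scoped Manifold ContDiff

variable {M : Type*} [TopologicalSpace M] [ChartedSpace E4 M] [IsManifold 𝓘(ℝ, E4) ∞ M] {N : ℕ}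
  {e : M → EN N} {U : Set (EN N)} {ρ : EN N → EN N}

omit [IsManifold 𝓘(ℝ, E4) ∞ M] in
/-- the chart at `q` covers `e q` -/
theorem ExtJ_mem {p : M} {ψ : EN 4 → EN N} {κ : EN N → EN 4} {V : Set (EN N)} {r : ℝ}
    (h : IsMChart e p ψ κ V r) : e p ∈ V := by
  have h0 : (0 : EN 4) ∈ Metric.ball (0 : EN 4) 1 := Metric.mem_ball_self one_pos
  have h1 := (h.chart.psi_mem h0).2
  rw [h.psi_eq 0 h0, smul_zero, add_zero, extChartAt_to_inv] at h1
  exact h1

theorem D_de (he : IsEmb e) (hρ : IsRetr (Set.range e) U ρ) (q : M) (v : EN 4) :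
    fderiv ℝ ρ (e q) (de e q v) = de e q v := by
  obtain ⟨ψ, κ, V, r, h⟩ := exists_mchart he q
  have hq := ExtJ_mem h
  obtain ⟨-, h2, -, h4⟩ := h.src he hq
  have h5 := h.psi_dext he hq v
  rw [← h5]
  have h6 := D_psi h.chart hρ h2 (r⁻¹ • dext q q v)
  rw [h4] at h6
  exact h6

theorem tan_surj (he : IsEmb e) (hρ : IsRetr (Set.range e) U ρ) (q : M) (v : EN N)
    (hv : fderiv ℝ ρ (e q) v = v) : ∃ w : EN 4, de e q w = v := by
  obtain ⟨ψ, κ, V, r, h⟩ := exists_mchart he q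
  have hq := ExtJ_mem h
  obtain ⟨h1, h2, h3, h4⟩ := h.src he hq
  rw [← h4] at hv
  obtain ⟨w, hw⟩ := (tan_iff h.chart hρ h2 v).1 hv
  have h5 := h.fderiv_psi he h2 w
  rw [← h3, (extChartAt 𝓘(ℝ, E4) q).left_inv h1] at h5
  exact ⟨_, h5.symm.trans hw⟩

/-- `locEndo` in terms of `dext` -/
theorem ExtJ_locEndo (J : EndoField M) (p q : M) (hq : q ∈ (extChartAt 𝓘(ℝ, E4) p).source)
    (v : EN 4) : locEndo J p (extChartAt 𝓘(ℝ, E4) p q) (dext p q v) = dext p q (J q v) := by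
  obtain ⟨y, hy, rfl⟩ : ∃ y ∈ (extChartAt 𝓘(ℝ, E4) p).target,
      (extChartAt 𝓘(ℝ, E4) p).symm y = q :=
    ⟨extChartAt 𝓘(ℝ, E4) p q, (extChartAt 𝓘(ℝ, E4) p).map_source hq,
      (extChartAt 𝓘(ℝ, E4) p).left_inv hq⟩
  have h1 := dsymm_dext p _ hq v
  rw [(extChartAt 𝓘(ℝ, E4) p).right_inv hy] at h1 ⊢
  have h2 : locEndo J p y (dext p ((extChartAt 𝓘(ℝ, E4) p).symm y) v) =
      dext p ((extChartAt 𝓘(ℝ, E4) p).symm y) (J ((extChartAt 𝓘(ℝ, E4) p).symm y)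
        (dsymm p y (dext p ((extChartAt 𝓘(ℝ, E4) p).symm y) v))) := rfl
  rw [h2, h1]

/-- the local solution -/
theorem ExtJ_local (he : IsEmb e) (hρ : IsRetr (Set.range e) U ρ) {J : EndoField M}
    (hJ : SmoothEndo J) (p : M) : ∃ (W : Set (EN N)) (g : EN N → (EN N →L[ℝ] EN N)), IsOpen W ∧
      e p ∈ W ∧ ContDiffOn ℝ ∞ g W ∧ ∀ x ∈ Set.range e ∩ W,
        (∀ v, g x (fderiv ℝ ρ x v) = g x v) ∧
        ∀ (q : M) (v : EN 4), e q = x → g x (de e q v) = de e q (J q v) := by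
  obtain ⟨ψ, κ, V, r, h⟩ := exists_mchart he p
  have hp := ExtJ_mem h
  have hsub : ∀ q : M, e q ∈ V → e q ∈ V ∩ κ ⁻¹' Metric.ball 0 1 := fun q hq =>
    ⟨hq, (h.src he hq).2.1⟩
  refine ⟨V ∩ κ ⁻¹' Metric.ball 0 1, fun y => (fderiv ℝ ψ (κ y)).comp
    ((locEndo J p (extChartAt 𝓘(ℝ, E4) p p + r • κ y)).comp ((fderiv ℝ κ y).comp (fderiv ℝ ρ y))),
    h.chart.openV.inter (Metric.isOpen_ball.preimage h.chart.smooth_kap.continuous),
    hsub p hp, ?_, ?_⟩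
  · have d1 : ContDiff ℝ ∞ (fun y => fderiv ℝ ψ (κ y)) :=
      (h.chart.smooth_psi.fderiv_right (m := ∞) le_rfl).comp h.chart.smooth_kap
    have d2 : ContDiff ℝ ∞ (fun y => fderiv ℝ κ y) :=
      h.chart.smooth_kap.fderiv_right (m := ∞) le_rfl
    have d3 : ContDiff ℝ ∞ (fun y => fderiv ℝ ρ y) := hρ.smooth.fderiv_right (m := ∞) le_rfl
    have d4 : ContDiffOn ℝ ∞ (fun y => locEndo J p (extChartAt 𝓘(ℝ, E4) p p + r • κ y))
        (V ∩ κ ⁻¹' Metric.ball 0 1) := by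
      refine (hJ p).comp ?_ ?_
      · exact (contDiff_const.add (h.chart.smooth_kap.const_smul r)).contDiffOn
      · intro y hy
        exact h.target _ hy.2
    exact d1.contDiffOn.clm_comp (d4.clm_comp (d2.clm_comp d3).contDiffOn)
  · rintro x ⟨⟨q0, rfl⟩, hx⟩
    obtain ⟨-, b2, -, b4⟩ := h.src he hx.1
    constructor
    · intro v
      have c1 := (tan_iff h.chart hρ b2 _).2 ⟨_, psi_kap_D h.chart hρ b2 v⟩
      rw [b4] at c1
      simp only [ContinuousLinearMap.comp_apply]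
      rw [c1]
    · intro q v hq
      have hqV : e q ∈ V := by rw [hq]; exact hx.1
      rw [← hq]
      obtain ⟨a1, a2, a3, a4⟩ := h.src he hqV
      simp only [ContinuousLinearMap.comp_apply]
      rw [D_de he hρ, h.kap_de he hqV, map_smul, ← a3, ExtJ_locEndo J p q a1]
      exact h.psi_dext he hqV _

theorem exists_extJ (he : IsEmb e) (hρ : IsRetr (Set.range e) U ρ) {J : EndoField M}
    (hJ : SmoothEndo J) : ∃ A : EN N → (EN N →L[ℝ] EN N), ContDiff ℝ ∞ A ∧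
      (∀ x ∈ Set.range e, ∀ v, A x (fderiv ℝ ρ x v) = A x v) ∧
      ∀ (q : M) (v : EN 4), A (e q) (de e q v) = de e q (J q v) := by
  obtain ⟨A, hA1, -, hA2⟩ := exists_smooth_field (X := Set.range e) he.emb.isClosed_range
    (fun x (A : EN N →L[ℝ] EN N) => (∀ v, A (fderiv ℝ ρ x v) = A v) ∧
      ∀ (q : M) (v : EN 4), e q = x → A (de e q v) = de e q (J q v)) (fun _ => True)
    (fun x _ => by
      rintro A ⟨hA1, hA2⟩ B ⟨hB1, hB2⟩ a b _ _ hab
      refine ⟨fun v => ?_, fun q v hq => ?_⟩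
      · simp only [add_apply, smul_apply]
        rw [hA1, hB1]
      · simp only [add_apply, smul_apply]
        rw [hA2 q v hq, hB2 q v hq, ← add_smul, hab, one_smul])
    (fun _ _ _ _ _ _ _ _ _ => trivial) 0 trivial
    (by
      rintro x₀ ⟨p, rfl⟩
      obtain ⟨W, g, hW, hpW, hg, hgP⟩ := ExtJ_local he hρ hJ p
      exact ⟨W, g, hW, hpW, hg, fun _ _ => trivial, hgP⟩)
  exact ⟨A, hA1, fun x hx => (hA2 x hx).1, fun q v => (hA2 (e q) ⟨q, rfl⟩).2 q v rfl⟩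

end Pool.Agent.W_MP_d8b8b7_G1
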