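import Pool.Agent.W_MP_d8b8b7_G1.FrameDef

set_option autoImplicit false

/-!
# (G1) FrameEx: existence of a Borel unitary frame

Let `e i = EuclideanSpace.single i 1`, `i : Fin N`.  For `x ∈ X` put `a i x = D x (e i)`.  They span the tangent
space, which has dimension 4.
1. For `x ∈ X` some `a i x ≠ 0`; let `i0 x` be the first such index (`Fin.find`, or define by recursion on a
   list: `f x = if a 0 x ≠ 0 then ... else if a 1 x ≠ 0 ...`; measurability: `Measurable.ite` /
   `measurable_to_countable` for the index function `EN N → Fin N`, with the sets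
   `{x | a i x ≠ 0 ∧ ∀ j < i, a j x = 0}` Borel).  `f0 x = (√ g(a,a))⁻¹ • a (i0 x) x`.
2. `b j x = a j x - g(a j x, f0) • f0 - g(a j x, J f0) • J f0`, measurable in `x`; for `x ∈ X` some `b j x ≠ 0`
   because otherwise the tangent space would be spanned by `f0, J f0`.  Let `j0 x` be the first such index,
   `f2 x = (√ g(b,b))⁻¹ • b (j0 x) x`.  `b j x` is tangent and `g`-orthogonal to `f0` and `J f0` (`g(f0, J f0) = 0`,
   `g(J f0, J f0) = 1`).
3. `fr = ![f0, J f0, f2, J f2]` on `X`; outside `X` put `fr a x = 0` (or the same formula);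
   `orth_of`, `span_of`.
It is convenient to prove first the general selection lemma `first_nonzero`.
-/

namespace Pool.Agent.W_MP_d8b8b7_G1

open Pool.Agent.W_MP_d8b8b7_gt
open MeasureTheory Set Filter Topology
open scoped Manifold ContDiff

variable {N : ℕ}

/-- measurable selection of the first nonzero member of a finite family -/
theorem first_nonzero (X : Set (EN N)) (hX : MeasurableSet X) (n : ℕ) (a : Fin n → EN N → EN N)
    (ha : ∀ i, Measurable (a i)) (h : ∀ x ∈ X, ∃ i, a i x ≠ 0) :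
    ∃ s : EN N → EN N, Measurable s ∧ ∀ x ∈ X, s x ≠ 0 ∧ ∃ i, s x = a i x := by
  induction n generalizing X with
  | zero =>
    refine ⟨fun _ => 0, measurable_const, fun x hx => ?_⟩
    obtain ⟨i, -⟩ := h x hx
    exact i.elim0
  | succ n ih =>
    have hm : MeasurableSet {x | a 0 x = 0} := ha 0 (measurableSet_singleton 0)
    obtain ⟨s, hs, hs'⟩ := ih (X ∩ {x | a 0 x = 0}) (hX.inter hm) (fun i => a i.succ)
      (fun i => ha i.succ) (by
        rintro x ⟨hx, hx0⟩
        obtain ⟨i, hi⟩ := h x hx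
        refine Fin.cases (fun h0 => absurd hx0 h0) (fun j hj => ⟨j, hj⟩) i hi)
    classical
    refine ⟨fun x => if a 0 x = 0 then s x else a 0 x, Measurable.ite hm hs (ha 0), ?_⟩
    intro x hx
    by_cases h0 : a 0 x = 0
    · simp only [h0, if_true]
      obtain ⟨h1, i, h2⟩ := hs' x ⟨hx, h0⟩
      exact ⟨h1, i.succ, h2⟩
    · simp only [h0, if_false]
      exact ⟨h0, 0, rfl⟩

theorem frameEx_J (G : Geom N) {u : EN N → EN N} (hu : Measurable u) :
    Measurable (fun x => G.J x (u x)) := by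
  have hc : Continuous (fun p : EN N × EN N => G.J p.1 p.2) :=
    (G.smooth_J.continuous.comp continuous_fst).clm_apply continuous_snd
  exact hc.measurable.comp (measurable_id.prodMk hu)

theorem frameEx_ev : Continuous (fun p : (EN N →L[ℝ] EN N →L[ℝ] ℝ) × EN N × EN N =>
    p.1 p.2.1 p.2.2) :=
  (continuous_fst.clm_apply (continuous_fst.comp continuous_snd)).clm_apply
    (continuous_snd.comp continuous_snd)

theorem frameEx_F (G : Geom N) {u v : EN N → EN N} (hu : Measurable u) (hv : Measurable v) :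
    Measurable (fun x => G.F x (u x) (v x)) := by
  have h1 : Continuous (fun x => Bil.toCLM (G.F x)) :=
    (Bil.contDiff_toCLM.mp (ga_smooth_F G)).continuous
  have h2 : Continuous (fun p : EN N × EN N × EN N => (Bil.toCLM (G.F p.1), p.2)) :=
    (h1.comp continuous_fst).prodMk continuous_snd
  have hc := frameEx_ev.comp h2
  have hm : Measurable (fun x => (x, u x, v x)) := measurable_id.prodMk (hu.prodMk hv)
  have h3 := hc.measurable.comp hm
  exact h3

/-- normalisation -/
theorem frameEx_normal (G : Geom N) {u : EN N → EN N} (hu : Measurable u)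
    (h0 : ∀ x ∈ G.X, u x ≠ 0) (ht : ∀ x ∈ G.X, G.D x (u x) = u x) :
    ∃ f : EN N → EN N, Measurable f ∧ ∀ x ∈ G.X, G.D x (f x) = f x ∧
      G.F x (f x) (G.J x (f x)) = 1 ∧ ∃ c : ℝ, f x = c • u x := by
  refine ⟨fun x => (√(G.F x (u x) (G.J x (u x))))⁻¹ • u x, ?_, ?_⟩
  · exact (frameEx_F G hu (frameEx_J G hu)).sqrt.inv.smul hu
  · intro x hx
    have hp := ga_g_pos G hx (u x) (ht x hx) (h0 x hx)
    have hs := Real.sqrt_pos.mpr hp
    have hsq := Real.mul_self_sqrt hp.le
    refine ⟨?_, ?_, _, rfl⟩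
    · simp only [map_smul, ht x hx]
    · simp only [map_smul, Bil.smul_left, Bil.smul_right]
      field_simp
      rw [sq, hsq]

theorem frameEx_span (G : Geom N) (hX : IsSub G.X) {x : EN N} (hx : x ∈ G.X) (p q : EN N)
    (h : ∀ j : Fin N, ∃ c d : ℝ, G.D x (EuclideanSpace.single j 1) = c • p + d • q) : False := by
  have h4 := finrank_range_D hX (ga_retr G) hx
  have hle : LinearMap.range (fderiv ℝ G.rho x).toLinearMap ≤ Submodule.span ℝ {p, q} := by
    rintro w ⟨v, rfl⟩
    have hv : v = ∑ j, v j • EuclideanSpace.single j (1 : ℝ) := by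
      ext k
      simp [Pi.single_apply]
    rw [hv, map_sum]
    refine Submodule.sum_mem _ (fun j _ => ?_)
    rw [map_smul]
    refine Submodule.smul_mem _ _ ?_
    obtain ⟨c, d, hcd⟩ := h j
    have e : (fderiv ℝ G.rho x).toLinearMap (EuclideanSpace.single j 1) = c • p + d • q := hcd
    rw [e]
    exact Submodule.add_mem _ (Submodule.smul_mem _ _ (Submodule.subset_span (by simp)))
      (Submodule.smul_mem _ _ (Submodule.subset_span (by simp)))
  have h1 := Submodule.finrank_mono hle
  have h2 : Module.finrank ℝ (Submodule.span ℝ ({p, q} : Set (EN N))) ≤ 2 := by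
    classical
    have h3 := finrank_span_finset_le_card (R := ℝ) ({p, q} : Finset (EN N))
    simp only [Finset.coe_insert, Finset.coe_singleton] at h3
    exact h3.trans Finset.card_le_two
  omega

theorem exists_frame (G : Geom N) (hX : IsSub G.X) : ∃ fr : Fin 4 → EN N → EN N, IsFrame G fr := by
  have hXm : MeasurableSet G.X := G.cptX.isClosed.measurableSet
  have hD : Continuous G.D := (ga_smooth_D G).continuous
  have ha : ∀ j : Fin N, Measurable (fun x => G.D x (EuclideanSpace.single j (1 : ℝ))) :=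
    fun j => (hD.clm_apply continuous_const).measurable
  obtain ⟨s0, hs0, hs0'⟩ := first_nonzero G.X hXm N
    (fun j x => G.D x (EuclideanSpace.single j (1 : ℝ))) ha (by
      intro x hx
      by_contra hcon
      push Not at hcon
      exact frameEx_span G hX hx 0 0 (fun j => ⟨0, 0, by rw [hcon j]; simp⟩))
  obtain ⟨f0, hf0, hf0'⟩ := frameEx_normal G hs0 (fun x hx => (hs0' x hx).1) (by
    intro x hx
    obtain ⟨-, i, hi⟩ := hs0' x hx
    rw [hi, ga_D_D G hx])
  have hJf0 := frameEx_J G hf0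
  have hJJf0 := frameEx_J G hJf0
  obtain ⟨s2, hs2, hs2'⟩ := first_nonzero G.X hXm N
    (fun j x => G.D x (EuclideanSpace.single j (1 : ℝ)) -
      G.F x (G.D x (EuclideanSpace.single j (1 : ℝ))) (G.J x (f0 x)) • f0 x -
      G.F x (G.D x (EuclideanSpace.single j (1 : ℝ))) (G.J x (G.J x (f0 x))) • G.J x (f0 x))
    (fun j => (((ha j).sub ((frameEx_F G (ha j) hJf0).smul hf0)).sub
      ((frameEx_F G (ha j) hJJf0).smul hJf0))) (by
      intro x hx
      by_contra hcon
      push Not at hcon
      refine frameEx_span G hX hx (f0 x) (G.J x (f0 x)) (fun j => ?_)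
      have := hcon j
      rw [sub_sub, sub_eq_zero] at this
      exact ⟨_, _, this⟩)
  have hs2t : ∀ x ∈ G.X, G.D x (s2 x) = s2 x := by
    intro x hx
    obtain ⟨-, i, hi⟩ := hs2' x hx
    rw [hi]
    simp only [map_sub, map_smul, ga_D_D G hx, (hf0' x hx).1, ga_D_J G hx]
  have hs2o : ∀ x ∈ G.X, G.F x (s2 x) (G.J x (f0 x)) = 0 ∧ G.F x (s2 x) (f0 x) = 0 := by
    intro x hx
    obtain ⟨-, i, hi⟩ := hs2' x hx
    obtain ⟨h1, h2, -⟩ := hf0' x hx
    have h3 : G.J x (G.J x (f0 x)) = - f0 x := by rw [ga_J_J G hx, h1]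
    rw [hi]
    simp only [Bil.sub_left, Bil.smul_left, h2, h3, Bil.neg_right, ga_F_alt]
    rw [ga_F_antisymm G x (G.J x (f0 x)) (f0 x), h2]
    constructor <;> ring
  obtain ⟨f2, hf2, hf2'⟩ := frameEx_normal G hs2 (fun x hx => (hs2' x hx).1) hs2t
  refine ⟨fun a x => ![f0 x, G.J x (f0 x), f2 x, G.J x (f2 x)] a, ?_⟩
  have htan : ∀ x ∈ G.X, ∀ a, G.D x (![f0 x, G.J x (f0 x), f2 x, G.J x (f2 x)] a) =
      ![f0 x, G.J x (f0 x), f2 x, G.J x (f2 x)] a := by
    intro x hx a
    fin_cases a
    · exact (hf0' x hx).1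
    · exact ga_D_J G hx _
    · exact (hf2' x hx).1
    · exact ga_D_J G hx _
  have horth : ∀ x ∈ G.X, ∀ a b, G.F x (![f0 x, G.J x (f0 x), f2 x, G.J x (f2 x)] a)
      (G.J x (![f0 x, G.J x (f0 x), f2 x, G.J x (f2 x)] b)) = if a = b then 1 else 0 := by
    intro x hx a b
    obtain ⟨h1, h2⟩ := hs2o x hx
    obtain ⟨h3, h4, c, hc⟩ := hf2' x hx
    have h5 : G.F x (f2 x) (G.J x (f0 x)) = 0 := by rw [hc, Bil.smul_left, h1, mul_zero]
    have h6 : G.F x (f2 x) (f0 x) = 0 := by rw [hc, Bil.smul_left, h2, mul_zero]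
    refine orth_of G hx (f0 x) (f2 x) (hf0' x hx).2.1 h4 ?_ ?_ a b
    · rw [ga_g_symm G hx, h5]
    · rw [ga_g_symm G hx, ga_F_J G hx, h6]
  refine ⟨?_, htan, fun x _ => rfl, fun x _ => rfl, horth, fun x hx v => ?_⟩
  · intro a
    fin_cases a
    · exact hf0
    · exact hJf0
    · exact hf2
    · exact frameEx_J G hf2
  · exact span_of G hX hx _ (htan x hx) (horth x hx) v

end Pool.Agent.W_MP_d8b8b7_G1
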