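import Pool.Agent.W_MP_d8b8b7_G1.Base

set_option autoImplicit false

/-!
# (G1) GeomAlg: the metric `g(v, w) = F(v, J w)` at a point of `X`
-/

namespace Pool.Agent.W_MP_d8b8b7_G1

open Pool.Agent.W_MP_d8b8b7_gt
open MeasureTheory Set Filter Topology
open scoped Manifold ContDiff

variable {N : ℕ} (G : Geom N) {x : EN N}

theorem ga_D_J (hx : x ∈ G.X) (v : EN N) : G.D x (G.J x v) = G.J x v := G.D_J x hx v

theorem ga_J_D (hx : x ∈ G.X) (v : EN N) : G.J x (G.D x v) = G.J x v := G.J_D x hx v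

theorem ga_J_J (hx : x ∈ G.X) (v : EN N) : G.J x (G.J x v) = - G.D x v := G.J_J x hx v

theorem ga_D_D (hx : x ∈ G.X) (v : EN N) : G.D x (G.D x v) = G.D x v := by
  have h1 : G.D x v = - G.J x (G.J x v) := by rw [ga_J_J G hx, neg_neg]
  rw [h1, map_neg, ga_D_J G hx]

theorem ga_om_antisymm (x v w : EN N) : G.om x v w = - G.om x w v := by
  have h1 := G.om_alt x (v + w)
  have h2 := G.om_alt x v
  have h3 := G.om_alt x w
  simp only [Bil.add_left, Bil.add_right] at h1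
  linarith

theorem ga_F_apply (x v w : EN N) : G.F x v w =
    (G.om x (G.D x v) (G.D x w) + G.om x (G.J x v) (G.J x w)) / 2 := by
  have : G.F x v w = (1 / 2 : ℝ) * (G.om x (G.D x v) (G.D x w) + G.om x (G.J x v) (G.J x w)) := rfl
  rw [this]
  ring

theorem ga_F_antisymm (x v w : EN N) : G.F x v w = - G.F x w v := by
  rw [ga_F_apply, ga_F_apply, ga_om_antisymm G x (G.D x v), ga_om_antisymm G x (G.J x v)]
  ring

theorem ga_F_alt (x v : EN N) : G.F x v v = 0 := by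
  have := ga_F_antisymm G x v v
  linarith

theorem ga_F_J (hx : x ∈ G.X) (v w : EN N) : G.F x (G.J x v) (G.J x w) = G.F x v w := by
  rw [ga_F_apply, ga_F_apply, ga_D_J G hx, ga_D_J G hx, ga_J_J G hx, ga_J_J G hx]
  simp
  ring

theorem ga_F_D_right (hx : x ∈ G.X) (v w : EN N) : G.F x v (G.D x w) = G.F x v w := by
  rw [ga_F_apply, ga_F_apply, ga_D_D G hx, ga_J_D G hx]

theorem ga_F_D_left (hx : x ∈ G.X) (v w : EN N) : G.F x (G.D x v) w = G.F x v w := by
  rw [ga_F_apply, ga_F_apply, ga_D_D G hx, ga_J_D G hx]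

/-- symmetry of the metric -/
theorem ga_g_symm (hx : x ∈ G.X) (v w : EN N) : G.F x v (G.J x w) = G.F x w (G.J x v) := by
  rw [← ga_F_J G hx v, ga_J_J G hx, Bil.neg_right, ga_F_D_right G hx, ga_F_antisymm, neg_neg]

theorem ga_g_J (hx : x ∈ G.X) (v w : EN N) :
    G.F x (G.J x v) (G.J x (G.J x w)) = G.F x v (G.J x w) := ga_F_J G hx v (G.J x w)

theorem ga_g_self (hx : x ∈ G.X) (v : EN N) :
    G.F x v (G.J x v) = G.om x (G.D x v) (G.J x v) := by
  rw [ga_F_apply, ga_D_J G hx, ga_J_J G hx, Bil.neg_right, ga_om_antisymm G x (G.J x v)]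
  ring

theorem ga_g_pos (hx : x ∈ G.X) (v : EN N) (hv : G.Tan x v) (h0 : v ≠ 0) :
    0 < G.F x v (G.J x v) := by
  rw [ga_g_self G hx, show G.D x v = v from hv]
  exact G.om_tame x hx v hv h0

theorem ga_g_orth (hx : x ∈ G.X) (v : EN N) : G.F x v (G.J x (G.J x v)) = 0 := by
  rw [ga_J_J G hx, Bil.neg_right, ga_F_D_right G hx, ga_F_alt, neg_zero]

theorem ga_smooth_D : ContDiff ℝ ∞ G.D := G.smooth_rho.fderiv_right (m := ∞) (by simp)

theorem ga_smooth_pull {E F H : Type*} [NormedAddCommGroup E] [NormedSpace ℝ E]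
    [NormedAddCommGroup F] [NormedSpace ℝ F] [FiniteDimensional ℝ F]
    [NormedAddCommGroup H] [NormedSpace ℝ H] {A : H → (F →L[ℝ] E)} {b : H → (E →L[ℝ] E →L[ℝ] ℝ)}
    (hA : ContDiff ℝ ∞ A) (hb : ContDiff ℝ ∞ b) :
    ContDiff ℝ ∞ (fun y => (b y).bilinearComp (A y) (A y)) := by
  rw [contDiff_clm_apply_iff]
  intro u
  rw [contDiff_clm_apply_iff]
  intro v
  change ContDiff ℝ ∞ (fun y => b y (A y u) (A y v))
  exact (hb.clm_apply (hA.clm_apply contDiff_const)).clm_apply (hA.clm_apply contDiff_const)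

theorem ga_smooth_F : ContDiff ℝ ∞ G.F := by
  have h1 := Bil.contDiff_pull G.smooth_om (ga_smooth_D G)
  have h2 := Bil.contDiff_pull G.smooth_om G.smooth_J
  exact (h1.add h2).const_smul (1 / 2 : ℝ)

theorem ga_retr : IsRetr G.X G.U G.rho :=
  ⟨G.openU, G.subU, G.smooth_rho, G.rho_mem, G.rho_fix⟩

end Pool.Agent.W_MP_d8b8b7_G1
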