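import Pool.Agent.W_MP_d8b8b7_G1.Volume

set_option autoImplicit false

/-!
# (G1) VolBall: volumes of small balls

`upper`: finitely many charts `ψ i, κ i, V i` of `X`; it is convenient to use sub-charts `V' i ⊆ V i` covering
`X` on which everything is bounded (`LChart.shrink`: on the closed ball of radius `r < 1` the continuous functions
`|dn G (ψ i)|`, and `κ i` is Lipschitz on bounded convex sets, e.g. on a big ball containing `X`).
`nu (closedBall x ρ) ≤ ∑ i, nu (closedBall x ρ ∩ V' i)`, and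
`nu (closedBall x ρ ∩ V' i) = ∫_{z ∈ ball, ψ z ∈ closedBall x ρ} |dn| dz ≤ C vol {z ∈ ball | ‖ψ z - x‖ ≤ ρ}`;
two points `z, z'` of the last set satisfy `‖z - z'‖ = ‖κ (ψ z) - κ (ψ z')‖ ≤ Λ ‖ψ z - ψ z'‖ ≤ 2 Λ ρ`, so it is
contained in a ball of radius `2 Λ ρ` (`EuclideanSpace.volume_ball` or `Measure.addHaar_closedBall`).

`lower`: near `x₀ = ψ 0 ∈ X`: `|dn| ≥ c` on `closedBall 0 (1/2)` (continuous, nonzero, `dn_ne_zero`) and `ψ` is
`Λ`-Lipschitz there.  For `x = ψ z`, `‖z‖ ≤ 1/4`, `ρ ≤ ρ0`: `ψ (closedBall z (ρ / Λ)) ⊆ closedBall x ρ ∩ V`, so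
`nu (closedBall x ρ) ≥ c vol (closedBall z (ρ / Λ)) = c' ρ^4`.  The sets `ψ (ball 0 (1/4)) = X ∩ V'`
(`κ x ∈ ball 0 (1/4)`, `x ∈ V`) are open in `X`; compactness of `X`, finitely many `x₀`.
-/

namespace Pool.Agent.W_MP_d8b8b7_G1

open Pool.Agent.W_MP_d8b8b7_gt
open MeasureTheory Set Filter Topology
open scoped Manifold ContDiff ENNReal

variable {N : ℕ} {G : Geom N} {nu : Measure (EN N)}

/-- smooth maps are Lipschitz on closed balls -/
theorem VolBall_lip {n m : ℕ} {f : EN n → EN m} (hf : ContDiff ℝ ∞ f) (R : ℝ) :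
    ∃ L : ℝ, 0 < L ∧ ∀ x ∈ Metric.closedBall (0 : EN n) R, ∀ y ∈ Metric.closedBall (0 : EN n) R,
      ‖f x - f y‖ ≤ L * ‖x - y‖ := by
  have hc : ContinuousOn (fun x => ‖fderiv ℝ f x‖) (Metric.closedBall (0 : EN n) R) :=
    ((hf.continuous_fderiv (by simp)).norm).continuousOn
  obtain ⟨C, hC⟩ := (isCompact_closedBall (0 : EN n) R).exists_bound_of_continuousOn hc
  refine ⟨|C| + 1, by positivity, fun x hx y hy => ?_⟩
  have h1 : ∀ z ∈ Metric.closedBall (0 : EN n) R, ‖fderiv ℝ f z‖ ≤ |C| + 1 := by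
    intro z hz
    have := hC z hz
    rw [norm_norm] at this
    exact this.trans ((le_abs_self C).trans (by linarith))
  exact (convex_closedBall (0 : EN n) R).norm_image_sub_le_of_norm_fderiv_le
    (fun z _ => (hf.differentiable (by simp)) z) h1 hy hx

/-- the volume of a ball of `R^4` -/
theorem VolBall_vol (z : EN 4) {r : ℝ} (hr : 0 ≤ r) :
    volume (Metric.closedBall z r) = ENNReal.ofReal (r ^ 4) * volume (Metric.ball (0 : EN 4) 1) := by
  rw [Measure.addHaar_closedBall _ _ hr]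
  simp

theorem VolBall_unit : ∃ v : ℝ, 0 < v ∧ volume (Metric.ball (0 : EN 4) 1) = ENNReal.ofReal v := by
  have h1 : volume (Metric.ball (0 : EN 4) 1) ≠ ⊤ := measure_ball_lt_top.ne
  have h2 : 0 < volume (Metric.ball (0 : EN 4) 1) := Metric.measure_ball_pos _ _ one_pos
  exact ⟨(volume (Metric.ball (0 : EN 4) 1)).toReal, ENNReal.toReal_pos h2.ne' h1,
    (ENNReal.ofReal_toReal h1).symm⟩

/-- the mass of a closed ball in a chart -/
theorem VolBall_chart (hn : IsVol G nu) {ψ : EN 4 → EN N} {κ : EN N → EN 4} {V : Set (EN N)}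
    (h : LChart G.X ψ κ V) (x : EN N) (ρ : ℝ) :
    nu (Metric.closedBall x ρ ∩ V) = ∫⁻ z in Metric.ball (0 : EN 4) 1,
      (Metric.closedBall x ρ).indicator 1 (ψ z) * ENNReal.ofReal |dn G ψ z| := by
  rw [← hn.lint ψ κ V h _ (measurable_one.indicator Metric.isClosed_closedBall.measurableSet),
    lintegral_indicator_one Metric.isClosed_closedBall.measurableSet,
    Measure.restrict_apply Metric.isClosed_closedBall.measurableSet]

theorem VolBall_upper_loc (hX : IsSub G.X) (hn : IsVol G nu) {x₀ : EN N} (hx₀ : x₀ ∈ G.X) :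
    ∃ V ∈ 𝓝 x₀, ∃ C : ℝ, 0 ≤ C ∧ ∀ (x : EN N) (ρ : ℝ), 0 < ρ →
      nu (Metric.closedBall x ρ ∩ V) ≤ ENNReal.ofReal (C * ρ ^ 4) := by
  obtain ⟨ψ, κ, V, h, h0⟩ := hX.chart x₀ hx₀
  obtain ⟨R, hR⟩ := hX.cpt.isBounded.subset_closedBall (0 : EN N)
  obtain ⟨L, hL0, hL⟩ := VolBall_lip h.smooth_kap R
  have hdc : ContinuousOn (dn G ψ) (Metric.closedBall (0 : EN 4) 1) :=
    (dn_smooth G h.smooth_psi).continuous.continuousOn
  obtain ⟨B, hB⟩ := (isCompact_closedBall (0 : EN 4) 1).exists_bound_of_continuousOn hdc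
  obtain ⟨v, hv0, hv⟩ := VolBall_unit
  have hxV : x₀ ∈ V := by
    rw [← h0]
    exact (h.psi_mem (Metric.mem_ball_self one_pos)).2
  refine ⟨V, h.openV.mem_nhds hxV, |B| * (2 * L) ^ 4 * v, by positivity, fun x ρ hρ => ?_⟩
  rw [VolBall_chart hn h]
  set S : Set (EN 4) := Metric.ball (0 : EN 4) 1 ∩ ψ ⁻¹' Metric.closedBall x ρ with hS
  have hSm : MeasurableSet S := Metric.isOpen_ball.measurableSet.inter
    (h.smooth_psi.continuous.measurable Metric.isClosed_closedBall.measurableSet)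
  have e1 : ∫⁻ z in Metric.ball (0 : EN 4) 1,
      (Metric.closedBall x ρ).indicator 1 (ψ z) * ENNReal.ofReal |dn G ψ z|
      ≤ ∫⁻ z in Metric.ball (0 : EN 4) 1, S.indicator (fun _ => ENNReal.ofReal |B|) z := by
    refine setLIntegral_mono' Metric.isOpen_ball.measurableSet fun z hz => ?_
    by_cases hzx : ψ z ∈ Metric.closedBall x ρ
    · rw [indicator_of_mem hzx, indicator_of_mem (show z ∈ S from ⟨hz, hzx⟩)]
      simp only [Pi.one_apply, one_mul]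
      apply ENNReal.ofReal_le_ofReal
      have := hB z (Metric.ball_subset_closedBall hz)
      rw [Real.norm_eq_abs] at this
      exact this.trans (le_abs_self B)
    · rw [indicator_of_notMem hzx]
      simp
  refine e1.trans ?_
  have e2 : ∫⁻ z in Metric.ball (0 : EN 4) 1, S.indicator (fun _ => ENNReal.ofReal |B|) z
      ≤ ENNReal.ofReal |B| * volume S := by
    refine (lintegral_mono' Measure.restrict_le_self le_rfl).trans ?_
    rw [lintegral_indicator_const hSm]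
  refine e2.trans ?_
  rcases S.eq_empty_or_nonempty with hemp | ⟨z₀, hz₀⟩
  · rw [hemp]
    simp
  have hsub : S ⊆ Metric.closedBall z₀ (2 * L * ρ) := by
    intro z hz
    have hzX := (h.psi_mem hz.1).1
    have hz₀X := (h.psi_mem hz₀.1).1
    have e3 := hL _ (hR hzX) _ (hR hz₀X)
    rw [h.kap_psi z hz.1, h.kap_psi z₀ hz₀.1] at e3
    have e4 : ‖ψ z - ψ z₀‖ ≤ 2 * ρ := by
      have e5 : dist (ψ z) (ψ z₀) ≤ dist (ψ z) x + dist (ψ z₀) x := dist_triangle_right _ _ _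
      have e6 : dist (ψ z) x ≤ ρ := hz.2
      have e7 : dist (ψ z₀) x ≤ ρ := hz₀.2
      rw [← dist_eq_norm]
      linarith
    rw [Metric.mem_closedBall, dist_eq_norm]
    calc ‖z - z₀‖ ≤ L * ‖ψ z - ψ z₀‖ := e3
      _ ≤ L * (2 * ρ) := by gcongr
      _ = 2 * L * ρ := by ring
  calc ENNReal.ofReal |B| * volume S
      ≤ ENNReal.ofReal |B| * volume (Metric.closedBall z₀ (2 * L * ρ)) := by gcongr
    _ = ENNReal.ofReal |B| * (ENNReal.ofReal ((2 * L * ρ) ^ 4) * ENNReal.ofReal v) := by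
        rw [VolBall_vol _ (by positivity), hv]
    _ = ENNReal.ofReal (|B| * (2 * L) ^ 4 * v * ρ ^ 4) := by
        rw [← ENNReal.ofReal_mul (by positivity), ← ENNReal.ofReal_mul (by positivity)]
        congr 1
        ring

theorem IsVol.upper (hX : IsSub G.X) (hn : IsVol G nu) : ∃ C : ℝ, 0 ≤ C ∧
    ∀ (x : EN N) (ρ : ℝ), 0 < ρ → nu (Metric.closedBall x ρ) ≤ ENNReal.ofReal (C * ρ ^ 4) := by
  have key : ∃ C : ℝ, 0 ≤ C ∧ ∀ (x : EN N) (ρ : ℝ), 0 < ρ →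
      nu (Metric.closedBall x ρ ∩ G.X) ≤ ENNReal.ofReal (C * ρ ^ 4) := by
    refine hX.cpt.induction_on (p := fun s => ∃ C : ℝ, 0 ≤ C ∧ ∀ (x : EN N) (ρ : ℝ), 0 < ρ →
      nu (Metric.closedBall x ρ ∩ s) ≤ ENNReal.ofReal (C * ρ ^ 4)) ?_ ?_ ?_ ?_
    · exact ⟨0, le_rfl, fun x ρ _ => by simp⟩
    · rintro s t hst ⟨C, hC, h⟩
      exact ⟨C, hC, fun x ρ hρ => (measure_mono (by gcongr)).trans (h x ρ hρ)⟩
    · rintro s t ⟨C, hC, h⟩ ⟨C', hC', h'⟩
      refine ⟨C + C', by positivity, fun x ρ hρ => ?_⟩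
      rw [inter_union_distrib_left, add_mul, ENNReal.ofReal_add (by positivity) (by positivity)]
      exact (measure_union_le _ _).trans (add_le_add (h x ρ hρ) (h' x ρ hρ))
    · intro x₀ hx₀
      obtain ⟨V, hV, C, hC, h⟩ := VolBall_upper_loc hX hn hx₀
      exact ⟨V, mem_nhdsWithin_of_mem_nhds hV, C, hC, h⟩
  obtain ⟨C, hC, h⟩ := key
  refine ⟨C, hC, fun x ρ hρ => ?_⟩
  have e1 : nu (Metric.closedBall x ρ) ≤ nu (Metric.closedBall x ρ ∩ G.X) + nu G.Xᶜ := by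
    refine (measure_mono ?_).trans (measure_union_le _ _)
    intro y hy
    by_cases hyX : y ∈ G.X
    · exact Or.inl ⟨hy, hyX⟩
    · exact Or.inr hyX
  rw [hn.compl, add_zero] at e1
  exact e1.trans (h x ρ hρ)

theorem VolBall_lower_loc (hX : IsSub G.X) (hn : IsVol G nu) {x₀ : EN N} (hx₀ : x₀ ∈ G.X) :
    ∃ V ∈ 𝓝 x₀, ∃ c ρ0 : ℝ, 0 < c ∧ 0 < ρ0 ∧ ∀ x ∈ G.X ∩ V, ∀ ρ : ℝ, 0 < ρ → ρ ≤ ρ0 →
      ENNReal.ofReal (c * ρ ^ 4) ≤ nu (Metric.closedBall x ρ) := by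
  obtain ⟨ψ, κ, V, h, h0⟩ := hX.chart x₀ hx₀
  obtain ⟨L, hL0, hL⟩ := VolBall_lip h.smooth_psi (1 / 2)
  have hsub : Metric.closedBall (0 : EN 4) (1 / 2) ⊆ Metric.ball (0 : EN 4) 1 :=
    Metric.closedBall_subset_ball (by norm_num)
  have hdc : ContinuousOn (fun z => |dn G ψ z|) (Metric.closedBall (0 : EN 4) (1 / 2)) :=
    (dn_smooth G h.smooth_psi).continuous.abs.continuousOn
  obtain ⟨z₁, hz₁, hmin⟩ := (isCompact_closedBall (0 : EN 4) (1 / 2)).exists_isMinOn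
    ⟨0, Metric.mem_closedBall_self (by norm_num)⟩ hdc
  obtain ⟨v, hv0, hv⟩ := VolBall_unit
  set c := |dn G ψ z₁| with hc
  have hc0 : 0 < c := abs_pos.2 (dn_ne_zero hX h (hsub hz₁))
  have hxV : x₀ ∈ V := by
    rw [← h0]
    exact (h.psi_mem (Metric.mem_ball_self one_pos)).2
  have hκ : κ x₀ = 0 := by
    rw [← h0]
    exact h.kap_psi 0 (Metric.mem_ball_self one_pos)
  have hopen : IsOpen (V ∩ κ ⁻¹' Metric.ball (0 : EN 4) (1 / 4)) :=
    h.openV.inter (Metric.isOpen_ball.preimage h.smooth_kap.continuous)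
  refine ⟨V ∩ κ ⁻¹' Metric.ball (0 : EN 4) (1 / 4), hopen.mem_nhds ⟨hxV, ?_⟩,
    c * (L⁻¹) ^ 4 * v, L / 4, by positivity, by positivity, ?_⟩
  · rw [mem_preimage, hκ]
    exact Metric.mem_ball_self (by norm_num)
  rintro x ⟨hxX, hxV', hxκ⟩ ρ hρ hρ0
  obtain ⟨hk1, hk2⟩ := h.kap_mem hxX hxV'
  have hsub2 : Metric.closedBall (κ x) (ρ / L) ⊆ Metric.closedBall (0 : EN 4) (1 / 2) := by
    apply Metric.closedBall_subset_closedBall'
    have e1 : dist (κ x) 0 < 1 / 4 := hxκ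
    have e2 : ρ / L ≤ 1 / 4 := by
      rw [div_le_iff₀ hL0]
      linarith
    linarith
  calc ENNReal.ofReal (c * L⁻¹ ^ 4 * v * ρ ^ 4)
      = ENNReal.ofReal c * volume (Metric.closedBall (κ x) (ρ / L)) := by
        rw [VolBall_vol _ (by positivity), hv, ← ENNReal.ofReal_mul (by positivity),
          ← ENNReal.ofReal_mul (by positivity)]
        congr 1
        field_simp
    _ = ∫⁻ _ in Metric.closedBall (κ x) (ρ / L), ENNReal.ofReal c := by
        rw [setLIntegral_const]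
    _ ≤ ∫⁻ z in Metric.closedBall (κ x) (ρ / L),
          (Metric.closedBall x ρ).indicator 1 (ψ z) * ENNReal.ofReal |dn G ψ z| := by
        refine setLIntegral_mono' Metric.isClosed_closedBall.measurableSet fun z hz => ?_
        have hz2 := hsub2 hz
        have hzx : ψ z ∈ Metric.closedBall x ρ := by
          have e1 := hL z hz2 (κ x) (hsub2 (Metric.mem_closedBall_self (by positivity)))
          rw [hk2] at e1
          rw [Metric.mem_closedBall, dist_eq_norm]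
          have e2 : ‖z - κ x‖ ≤ ρ / L := by
            rw [← dist_eq_norm]
            exact hz
          calc ‖ψ z - x‖ ≤ L * ‖z - κ x‖ := e1
            _ ≤ L * (ρ / L) := by gcongr
            _ = ρ := by field_simp
        rw [indicator_of_mem hzx]
        simp only [Pi.one_apply, one_mul]
        exact ENNReal.ofReal_le_ofReal (hmin hz2)
    _ ≤ ∫⁻ z in Metric.ball (0 : EN 4) 1,
          (Metric.closedBall x ρ).indicator 1 (ψ z) * ENNReal.ofReal |dn G ψ z| :=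
        lintegral_mono_set (hsub2.trans hsub)
    _ = nu (Metric.closedBall x ρ ∩ V) := (VolBall_chart hn h x ρ).symm
    _ ≤ nu (Metric.closedBall x ρ) := measure_mono inter_subset_left

theorem IsVol.lower (hX : IsSub G.X) (hn : IsVol G nu) : ∃ c ρ0 : ℝ, 0 < c ∧ 0 < ρ0 ∧
    ∀ x ∈ G.X, ∀ ρ : ℝ, 0 < ρ → ρ ≤ ρ0 →
      ENNReal.ofReal (c * ρ ^ 4) ≤ nu (Metric.closedBall x ρ) := by
  have key : ∃ c ρ0 : ℝ, 0 < c ∧ 0 < ρ0 ∧ ∀ x ∈ G.X ∩ G.X, ∀ ρ : ℝ, 0 < ρ → ρ ≤ ρ0 →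
      ENNReal.ofReal (c * ρ ^ 4) ≤ nu (Metric.closedBall x ρ) := by
    refine hX.cpt.induction_on (p := fun s => ∃ c ρ0 : ℝ, 0 < c ∧ 0 < ρ0 ∧
      ∀ x ∈ G.X ∩ s, ∀ ρ : ℝ, 0 < ρ → ρ ≤ ρ0 →
      ENNReal.ofReal (c * ρ ^ 4) ≤ nu (Metric.closedBall x ρ)) ?_ ?_ ?_ ?_
    · exact ⟨1, 1, one_pos, one_pos, fun x hx => absurd hx.2 (notMem_empty x)⟩
    · rintro s t hst ⟨c, ρ0, hc, hρ0, h⟩
      exact ⟨c, ρ0, hc, hρ0, fun x hx => h x ⟨hx.1, hst hx.2⟩⟩
    · rintro s t ⟨c, ρ0, hc, hρ0, h⟩ ⟨c', ρ0', hc', hρ0', h'⟩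
      refine ⟨min c c', min ρ0 ρ0', lt_min hc hc', lt_min hρ0 hρ0', fun x hx ρ hρ hρ2 => ?_⟩
      rcases hx.2 with hxs | hxt
      · refine le_trans (ENNReal.ofReal_le_ofReal ?_)
          (h x ⟨hx.1, hxs⟩ ρ hρ (hρ2.trans (min_le_left _ _)))
        gcongr
        exact min_le_left _ _
      · refine le_trans (ENNReal.ofReal_le_ofReal ?_)
          (h' x ⟨hx.1, hxt⟩ ρ hρ (hρ2.trans (min_le_right _ _)))
        gcongr
        exact min_le_right _ _
    · intro x₀ hx₀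
      obtain ⟨V, hV, c, ρ0, hc, hρ0, h⟩ := VolBall_lower_loc hX hn hx₀
      exact ⟨V, mem_nhdsWithin_of_mem_nhds hV, c, ρ0, hc, hρ0, h⟩
  obtain ⟨c, ρ0, hc, hρ0, h⟩ := key
  exact ⟨c, ρ0, hc, hρ0, fun x hx => h x ⟨hx, hx⟩⟩

end Pool.Agent.W_MP_d8b8b7_G1
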