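import Pool.Agent.W_MP_d8b8b7_G1.KerLoc
import Pool.Agent.W_MP_d8b8b7_G1.VolBall

set_option autoImplicit false

/-!
# (G1) KerGlob: global kernel bounds

For every `x₀ ∈ X` take a chart with `ψ 0 = x₀` and `exists_pole`; the balls `ball x₀ (R / 2)` cover the compact
set `X`; take finitely many of them, the smallest `R / 8` and the largest constant.
* `ker_up_glob`: monotone in `C`.
* `tube_glob`: `IsPole.mem`, `IsPole.liprho`.
* `ker_low_glob`: `∫_X ∫_{s} f (ρ (x + δ s)) ds dnu(x) ≥ c δ^{-4} ∫_X ∫_{y ∈ closedBall x (a δ)} f y dnu(y) dnu(x)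
  = c δ^{-4} ∫ f y * nu (closedBall y (a δ)) dnu(y)` (Tonelli, `nu` finite, symmetric set
  `{(x, y) | dist x y ≤ a δ}`) `≥ c' ∫ f dnu` by `IsVol.lower` (for `y ∈ X`, `a δ ≤ ρ0`; `nu Xᶜ = 0`).
-/

namespace Pool.Agent.W_MP_d8b8b7_G1

open Pool.Agent.W_MP_d8b8b7_gt
open MeasureTheory Set Filter Topology
open scoped Manifold ContDiff ENNReal

variable {N : ℕ} {G : Geom N} {nu : Measure (EN N)}

theorem tube_glob (hX : IsSub G.X) : ∃ d C : ℝ, 0 < d ∧ 1 ≤ C ∧ ∀ x ∈ G.X, ∀ s : EN N, ‖s‖ ≤ d →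
    x + s ∈ G.U ∧ ‖G.rho (x + s) - x‖ ≤ C * ‖s‖ := by
  refine hX.cpt.induction_on (p := fun S => ∃ d C : ℝ, 0 < d ∧ 1 ≤ C ∧ ∀ x ∈ S, ∀ s : EN N, ‖s‖ ≤ d →
    x + s ∈ G.U ∧ ‖G.rho (x + s) - x‖ ≤ C * ‖s‖) ?_ ?_ ?_ ?_
  · exact ⟨1, 1, one_pos, le_refl _, fun x hx => absurd hx (notMem_empty x)⟩
  · rintro S T hST ⟨d, C, hd, hC, h⟩
    exact ⟨d, C, hd, hC, fun x hx => h x (hST hx)⟩
  · rintro S T ⟨d, C, hd, hC, h⟩ ⟨d', C', hd', hC', h'⟩
    refine ⟨min d d', max C C', lt_min hd hd', le_trans hC (le_max_left _ _), fun x hx s hs => ?_⟩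
    rcases hx with hx | hx
    · obtain ⟨h1, h2⟩ := h x hx s (hs.trans (min_le_left _ _))
      exact ⟨h1, h2.trans (mul_le_mul_of_nonneg_right (le_max_left _ _) (norm_nonneg _))⟩
    · obtain ⟨h1, h2⟩ := h' x hx s (hs.trans (min_le_right _ _))
      exact ⟨h1, h2.trans (mul_le_mul_of_nonneg_right (le_max_right _ _) (norm_nonneg _))⟩
  · intro x₀ hx₀
    obtain ⟨ψ, κ, V, hch, hψ⟩ := hX.chart x₀ hx₀
    obtain ⟨R, Λ, hp⟩ := exists_pole hX hch
    have hR := hp.R_pos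
    refine ⟨Metric.ball x₀ (R / 2) ∩ G.X, ?_, R / 4, Λ, by positivity, hp.one_le, ?_⟩
    · rw [inter_comm]
      exact inter_mem self_mem_nhdsWithin
        (mem_nhdsWithin_of_mem_nhds (Metric.ball_mem_nhds _ (by positivity)))
    · rintro x ⟨hx, hxX⟩ s hs
      rw [Metric.mem_ball, dist_eq_norm] at hx
      have h1 : x ∈ Metric.ball (ψ 0) R := by
        rw [Metric.mem_ball, dist_eq_norm, hψ]
        linarith
      have h2 : x + s ∈ Metric.ball (ψ 0) R := by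
        rw [Metric.mem_ball, dist_eq_norm, hψ]
        have : x + s - x₀ = (x - x₀) + s := by abel
        rw [this]
        have := norm_add_le (x - x₀) s
        linarith
      refine ⟨(hp.mem _ h2).1, ?_⟩
      have h3 := hp.liprho _ h2 _ h1
      rw [G.rho_fix x hxX, add_sub_cancel_left] at h3
      exact h3

theorem ker_up_glob (hX : IsSub G.X) (hn : IsVol G nu) : ∃ d C : ℝ, 0 < d ∧ 1 ≤ C ∧
    ∀ x ∈ G.X, ∀ δ : ℝ, 0 < δ → δ ≤ d → ∀ f : EN N → ℝ≥0∞, Measurable f →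
      ∫⁻ s in Metric.ball (0 : EN N) 1, f (G.rho (x + δ • s)) ≤
        ENNReal.ofReal (C * δ⁻¹ ^ 4) * ∫⁻ y in Metric.closedBall x (C * δ), f y ∂nu := by
  have key : ∀ (C C' : ℝ), C ≤ C' → ∀ (x : EN N) (δ : ℝ), 0 < δ → ∀ f : EN N → ℝ≥0∞,
      ENNReal.ofReal (C * δ⁻¹ ^ 4) * ∫⁻ y in Metric.closedBall x (C * δ), f y ∂nu ≤
      ENNReal.ofReal (C' * δ⁻¹ ^ 4) * ∫⁻ y in Metric.closedBall x (C' * δ), f y ∂nu := by
    intro C C' h x δ hδ f
    refine mul_le_mul' (ENNReal.ofReal_le_ofReal ?_) (lintegral_mono_set ?_)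
    · exact mul_le_mul_of_nonneg_right h (by positivity)
    · exact Metric.closedBall_subset_closedBall (mul_le_mul_of_nonneg_right h hδ.le)
  refine hX.cpt.induction_on (p := fun S => ∃ d C : ℝ, 0 < d ∧ 1 ≤ C ∧
    ∀ x ∈ S, ∀ δ : ℝ, 0 < δ → δ ≤ d → ∀ f : EN N → ℝ≥0∞, Measurable f →
      ∫⁻ s in Metric.ball (0 : EN N) 1, f (G.rho (x + δ • s)) ≤
        ENNReal.ofReal (C * δ⁻¹ ^ 4) * ∫⁻ y in Metric.closedBall x (C * δ), f y ∂nu) ?_ ?_ ?_ ?_
  · exact ⟨1, 1, one_pos, le_refl _, fun x hx => absurd hx (notMem_empty x)⟩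
  · rintro S T hST ⟨d, C, hd, hC, h⟩
    exact ⟨d, C, hd, hC, fun x hx => h x (hST hx)⟩
  · rintro S T ⟨d, C, hd, hC, h⟩ ⟨d', C', hd', hC', h'⟩
    refine ⟨min d d', max C C', lt_min hd hd', le_trans hC (le_max_left _ _),
      fun x hx δ hδ hδ2 f hf => ?_⟩
    rcases hx with hx | hx
    · exact (h x hx δ hδ (hδ2.trans (min_le_left _ _)) f hf).trans (key _ _ (le_max_left _ _) x δ hδ f)
    · exact (h' x hx δ hδ (hδ2.trans (min_le_right _ _)) f hf).trans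
        (key _ _ (le_max_right _ _) x δ hδ f)
  · intro x₀ hx₀
    obtain ⟨ψ, κ, V, hch, hψ⟩ := hX.chart x₀ hx₀
    obtain ⟨R, Λ, hp⟩ := exists_pole hX hch
    obtain ⟨C, hC, h⟩ := ker_up_local hp hn
    have hR := hp.R_pos
    refine ⟨Metric.ball x₀ (R / 2) ∩ G.X, ?_, R / 8, C, by positivity, hC, ?_⟩
    · rw [inter_comm]
      exact inter_mem self_mem_nhdsWithin
        (mem_nhdsWithin_of_mem_nhds (Metric.ball_mem_nhds _ (by positivity)))
    · rintro x ⟨hx, hxX⟩ δ hδ hδ2 f hf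
      rw [Metric.mem_ball, dist_eq_norm] at hx
      exact h x hxX (by rw [hψ]; exact hx) δ hδ hδ2 f hf

theorem KerGlob_low (hX : IsSub G.X) (hn : IsVol G nu) : ∃ d c a : ℝ, 0 < d ∧ 0 < c ∧ 0 < a ∧
    ∀ x ∈ G.X, ∀ δ : ℝ, 0 < δ → δ ≤ d → ∀ f : EN N → ℝ≥0∞, Measurable f →
      ENNReal.ofReal (c * δ⁻¹ ^ 4) * ∫⁻ y in Metric.closedBall x (a * δ), f y ∂nu ≤
        ∫⁻ s in Metric.ball (0 : EN N) (1 / 2), f (G.rho (x + δ • s)) := by
  have key : ∀ (c c' a a' : ℝ), c ≤ c' → a ≤ a' → ∀ (x : EN N) (δ : ℝ), 0 < δ → ∀ f : EN N → ℝ≥0∞,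
      ENNReal.ofReal (c * δ⁻¹ ^ 4) * ∫⁻ y in Metric.closedBall x (a * δ), f y ∂nu ≤
      ENNReal.ofReal (c' * δ⁻¹ ^ 4) * ∫⁻ y in Metric.closedBall x (a' * δ), f y ∂nu := by
    intro c c' a a' h h' x δ hδ f
    refine mul_le_mul' (ENNReal.ofReal_le_ofReal ?_) (lintegral_mono_set ?_)
    · exact mul_le_mul_of_nonneg_right h (by positivity)
    · exact Metric.closedBall_subset_closedBall (mul_le_mul_of_nonneg_right h' hδ.le)
  refine hX.cpt.induction_on (p := fun S => ∃ d c a : ℝ, 0 < d ∧ 0 < c ∧ 0 < a ∧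
    ∀ x ∈ S, ∀ δ : ℝ, 0 < δ → δ ≤ d → ∀ f : EN N → ℝ≥0∞, Measurable f →
      ENNReal.ofReal (c * δ⁻¹ ^ 4) * ∫⁻ y in Metric.closedBall x (a * δ), f y ∂nu ≤
        ∫⁻ s in Metric.ball (0 : EN N) (1 / 2), f (G.rho (x + δ • s))) ?_ ?_ ?_ ?_
  · exact ⟨1, 1, 1, one_pos, one_pos, one_pos, fun x hx => absurd hx (notMem_empty x)⟩
  · rintro S T hST ⟨d, c, a, hd, hc, ha, h⟩
    exact ⟨d, c, a, hd, hc, ha, fun x hx => h x (hST hx)⟩
  · rintro S T ⟨d, c, a, hd, hc, ha, h⟩ ⟨d', c', a', hd', hc', ha', h'⟩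
    refine ⟨min d d', min c c', min a a', lt_min hd hd', lt_min hc hc', lt_min ha ha',
      fun x hx δ hδ hδ2 f hf => ?_⟩
    rcases hx with hx | hx
    · exact (key _ _ _ _ (min_le_left _ _) (min_le_left _ _) x δ hδ f).trans
        (h x hx δ hδ (hδ2.trans (min_le_left _ _)) f hf)
    · exact (key _ _ _ _ (min_le_right _ _) (min_le_right _ _) x δ hδ f).trans
        (h' x hx δ hδ (hδ2.trans (min_le_right _ _)) f hf)
  · intro x₀ hx₀
    obtain ⟨ψ, κ, V, hch, hψ⟩ := hX.chart x₀ hx₀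
    obtain ⟨R, Λ, hp⟩ := exists_pole hX hch
    obtain ⟨c, a, hc, ha, h⟩ := ker_low_local hp hn
    have hR := hp.R_pos
    refine ⟨Metric.ball x₀ (R / 2) ∩ G.X, ?_, R / 8, c, a, by positivity, hc, ha, ?_⟩
    · rw [inter_comm]
      exact inter_mem self_mem_nhdsWithin
        (mem_nhdsWithin_of_mem_nhds (Metric.ball_mem_nhds _ (by positivity)))
    · rintro x ⟨hx, hxX⟩ δ hδ hδ2 f hf
      rw [Metric.mem_ball, dist_eq_norm] at hx
      exact h x hxX (by rw [hψ]; exact hx) δ hδ hδ2 f hf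

theorem KerGlob_swap [IsFiniteMeasure nu] (r : ℝ) (f : EN N → ℝ≥0∞) (hf : Measurable f) :
    ∫⁻ x, ∫⁻ y in Metric.closedBall x r, f y ∂nu ∂nu =
      ∫⁻ y, f y * nu (Metric.closedBall y r) ∂nu := by
  have hcl : IsClosed {p : EN N × EN N | dist p.2 p.1 ≤ r} :=
    isClosed_le (continuous_snd.dist continuous_fst) continuous_const
  have h1 : ∀ x, ∫⁻ y in Metric.closedBall x r, f y ∂nu =
      ∫⁻ y, (Metric.closedBall x r).indicator f y ∂nu := fun x =>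
    (lintegral_indicator Metric.isClosed_closedBall.measurableSet f).symm
  simp_rw [h1]
  rw [lintegral_lintegral_swap]
  · refine lintegral_congr fun y => ?_
    have h2 : ∀ x, (Metric.closedBall x r).indicator f y =
        (Metric.closedBall y r).indicator (fun _ => f y) x := by
      intro x
      by_cases h : dist y x ≤ r
      · rw [indicator_of_mem (Metric.mem_closedBall.2 h),
          indicator_of_mem (Metric.mem_closedBall.2 (by rw [dist_comm]; exact h))]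
      · rw [indicator_of_notMem (fun h' => h (Metric.mem_closedBall.1 h')),
          indicator_of_notMem (fun h' => h (by rw [dist_comm]; exact Metric.mem_closedBall.1 h'))]
    simp_rw [h2]
    rw [lintegral_indicator Metric.isClosed_closedBall.measurableSet, setLIntegral_const]
  · have h3 : Function.uncurry (fun x y => (Metric.closedBall x r).indicator f y) =
        {p : EN N × EN N | dist p.2 p.1 ≤ r}.indicator (fun p => f p.2) := by
      funext p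
      obtain ⟨x, y⟩ := p
      by_cases h : dist y x ≤ r
      · rw [indicator_of_mem (show (x, y) ∈ {p : EN N × EN N | dist p.2 p.1 ≤ r} from h)]
        exact indicator_of_mem (Metric.mem_closedBall.2 h) f
      · rw [indicator_of_notMem (show (x, y) ∉ {p : EN N × EN N | dist p.2 p.1 ≤ r} from h)]
        exact indicator_of_notMem (fun h' => h (Metric.mem_closedBall.1 h')) f
    rw [h3]
    exact ((hf.comp measurable_snd).indicator hcl.measurableSet).aemeasurable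

theorem ker_low_glob (hX : IsSub G.X) (hn : IsVol G nu) : ∃ d C : ℝ, 0 < d ∧ 1 ≤ C ∧
    ∀ δ : ℝ, 0 < δ → δ ≤ d → ∀ f : EN N → ℝ≥0∞, Measurable f →
      ENNReal.ofReal C⁻¹ * ∫⁻ y, f y ∂nu ≤
        ∫⁻ x, ∫⁻ s in Metric.ball (0 : EN N) (1 / 2), f (G.rho (x + δ • s)) ∂volume ∂nu := by
  have := hn.fin
  obtain ⟨d, c, a, hd, hc, ha, h⟩ := KerGlob_low hX hn
  obtain ⟨c1, ρ0, hc1, hρ0, hlow⟩ := IsVol.lower hX hn
  have hae : ∀ᵐ x ∂nu, x ∈ G.X := by
    have := hn.compl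
    rwa [← mem_ae_iff] at this
  have hpos : 0 < c * c1 * a ^ 4 := by positivity
  refine ⟨min d (ρ0 / a), max 1 (c * c1 * a ^ 4)⁻¹, lt_min hd (by positivity), le_max_left _ _,
    fun δ hδ hδ2 f hf => ?_⟩
  have hδ3 : a * δ ≤ ρ0 := by
    have := hδ2.trans (min_le_right _ _)
    rw [le_div_iff₀ ha] at this
    linarith
  have hC : (max 1 (c * c1 * a ^ 4)⁻¹)⁻¹ ≤ c * c1 * a ^ 4 := by
    have h1 : (c * c1 * a ^ 4)⁻¹ ≤ max 1 (c * c1 * a ^ 4)⁻¹ := le_max_right _ _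
    have h2 := inv_anti₀ (by positivity) h1
    rwa [inv_inv] at h2
  calc ENNReal.ofReal (max 1 (c * c1 * a ^ 4)⁻¹)⁻¹ * ∫⁻ y, f y ∂nu
      ≤ ENNReal.ofReal (c * c1 * a ^ 4) * ∫⁻ y, f y ∂nu :=
        mul_le_mul_left (ENNReal.ofReal_le_ofReal hC) _
    _ = ENNReal.ofReal (c * δ⁻¹ ^ 4) * ∫⁻ y, f y * ENNReal.ofReal (c1 * (a * δ) ^ 4) ∂nu := by
        rw [lintegral_mul_const _ hf, mul_comm (∫⁻ y, f y ∂nu), ← mul_assoc,
          ← ENNReal.ofReal_mul (by positivity)]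
        congr 2
        field_simp
    _ ≤ ENNReal.ofReal (c * δ⁻¹ ^ 4) * ∫⁻ y, f y * nu (Metric.closedBall y (a * δ)) ∂nu := by
        refine mul_le_mul_right (lintegral_mono_ae ?_) _
        filter_upwards [hae] with y hy
        exact mul_le_mul_right (hlow y hy (a * δ) (by positivity) hδ3) _
    _ = ENNReal.ofReal (c * δ⁻¹ ^ 4) * ∫⁻ x, ∫⁻ y in Metric.closedBall x (a * δ), f y ∂nu ∂nu := by
        rw [KerGlob_swap (a * δ) f hf]
    _ ≤ ∫⁻ x, ENNReal.ofReal (c * δ⁻¹ ^ 4) *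
          ∫⁻ y in Metric.closedBall x (a * δ), f y ∂nu ∂nu :=
        lintegral_const_mul_le _ _
    _ ≤ ∫⁻ x, ∫⁻ s in Metric.ball (0 : EN N) (1 / 2), f (G.rho (x + δ • s)) ∂volume ∂nu := by
        refine lintegral_mono_ae ?_
        filter_upwards [hae] with x hx
        exact h x hx δ hδ (hδ2.trans (min_le_left _ _)) f hf

end Pool.Agent.W_MP_d8b8b7_G1
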