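import Pool.Agent.W_MP_d8b8b7_G1.Slice

set_option autoImplicit false

/-!
# (G1) KerLoc: local kernel bounds (averaging over four dimensional slices)

`h : IsPole G ψ κ V R Λ`, `B = fderiv ψ 0`, `η = Λ⁻¹ / 4` (so `‖B t‖ ≤ 1/4` for `‖t‖ < η`), `x ∈ X`,
`‖x - ψ 0‖ < R / 2`, `δ ≤ R / 8` (then `x + δ s ∈ ball (ψ 0) R` for `‖s‖ ≤ 3`).

`ker_up_local`: for `t ∈ ball 0 η`, translation invariance of Lebesgue measure gives
`∫_{s ∈ ball 0 1} F s ds ≤ ∫_{s ∈ ball 0 2} F (s + B t) ds`; average over `t ∈ ball 0 η` and Tonelli: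
`vol (ball 0 η) * ∫_{ball 0 1} F ≤ ∫_{s ∈ ball 0 2} ∫_{t ∈ ball 0 η} F (s + B t) dt ds`; with
`F s = f (ρ (x + δ s))` and `slice_up` (`y0 = x + δ s`, `S = closedBall x (3 Λ δ)`: `‖ρ (x + δ s + δ B t) - x‖ ≤
Λ δ (2 + 1/4)` by `liprho`, `ρ x = x`).

`ker_low_local`: `∫_{s ∈ ball 0 (1/2)} F s ds ≥ ∫_{s ∈ ball 0 σ} F (s + B t) ds` for `t ∈ ball 0 η`, `σ ≤ 1/4`;
average over `t`: `vol (ball 0 η) * ∫_{ball 0 (1/2)} F ≥ ∫_{s ∈ ball 0 σ} ∫_{t ∈ ball 0 η} F (s + B t) dt ds`, and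
`slice_low` with `y0 = x + δ s`, `S = closedBall x (a δ)`: for `x' ∈ X ∩ S` close to `ψ 0`,
`‖κ x' - H y0‖ = ‖H x' - H (x + δ s)‖ ≤ Λ (a + σ) δ < δ η / 2` if `a = σ = Λ⁻¹ η / 8`
(`H x' = κ (ρ x') = κ x'`; `x' ∈ ball (ψ 0) R` and `x' = ρ x' ∈ V` by `IsPole.mem`).
-/

namespace Pool.Agent.W_MP_d8b8b7_G1

open Pool.Agent.W_MP_d8b8b7_gt
open MeasureTheory Set Filter Topology
open scoped Manifold ContDiff ENNReal

variable {N : ℕ} {G : Geom N} {nu : Measure (EN N)} {ψ : EN 4 → EN N} {κ : EN N → EN 4}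
  {V : Set (EN N)} {R Λ : ℝ}

theorem kerLoc_shift {A A' : Set (EN N)} (hA : MeasurableSet A) (hA' : MeasurableSet A')
    (v : EN N) (h : ∀ s, s + v ∈ A → s ∈ A') (F : EN N → ℝ≥0∞) :
    ∫⁻ s in A, F s ≤ ∫⁻ s in A', F (s + v) := by
  rw [← lintegral_indicator hA, ← lintegral_indicator hA',
    ← lintegral_add_right_eq_self (A.indicator fun s => F s) v]
  apply lintegral_mono
  intro s
  change A.indicator (fun s => F s) (s + v) ≤ A'.indicator (fun s => F (s + v)) s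
  by_cases hs : s + v ∈ A
  · rw [Set.indicator_of_mem hs, Set.indicator_of_mem (h s hs)]
  · rw [Set.indicator_of_notMem hs]
    exact zero_le

theorem kerLoc_ofReal {a b c d : ℝ} (ha : 0 ≤ a) (hb : 0 ≤ b) (e : a * (b * c) = d)
    (J : ℝ≥0∞) : ENNReal.ofReal a * (ENNReal.ofReal b * (ENNReal.ofReal c * J)) =
      ENNReal.ofReal d * J := by
  rw [← e, ENNReal.ofReal_mul ha, ENNReal.ofReal_mul hb]
  ring

theorem kerLoc_swap (F : EN N → ℝ≥0∞) (hF : Measurable F) (B : EN 4 →L[ℝ] EN N) (η r : ℝ) :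
    ∫⁻ t in Metric.ball (0 : EN 4) η, ∫⁻ s in Metric.ball (0 : EN N) r, F (s + B t) =
      ∫⁻ s in Metric.ball (0 : EN N) r, ∫⁻ t in Metric.ball (0 : EN 4) η, F (s + B t) := by
  apply lintegral_lintegral_swap
  apply Measurable.aemeasurable
  have h1 : Measurable (fun p : EN 4 × EN N => p.2 + B p.1) :=
    (continuous_snd.add (B.continuous.comp continuous_fst)).measurable
  exact hF.comp h1

theorem kerLoc_vol_ball {n : ℕ} {r : ℝ} (hr : 0 < r) :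
    ∃ a : ℝ, 0 < a ∧ volume (Metric.ball (0 : EN n) r) = ENNReal.ofReal a := by
  have h1 : volume (Metric.ball (0 : EN n) r) ≠ ⊤ := measure_ball_lt_top.ne
  have h2 : 0 < volume (Metric.ball (0 : EN n) r) := Metric.measure_ball_pos _ _ hr
  exact ⟨_, ENNReal.toReal_pos h2.ne' h1, (ENNReal.ofReal_toReal h1).symm⟩

theorem kerLoc_meas (G : Geom N) {f : EN N → ℝ≥0∞} (hf : Measurable f) (x : EN N) (δ : ℝ) :
    Measurable (fun s : EN N => f (G.rho (x + δ • s))) := by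
  have h1 : Continuous (fun s : EN N => G.rho (x + δ • s)) :=
    G.smooth_rho.continuous.comp (continuous_const.add (continuous_id.const_smul δ))
  exact hf.comp h1.measurable

theorem kerLoc_norm (h : IsPole G ψ κ V R Λ) {t : EN 4}
    (ht : t ∈ Metric.ball (0 : EN 4) (Λ⁻¹ / 4)) : ‖fderiv ℝ ψ 0 t‖ ≤ 1 / 4 := by
  have hΛ : 0 < Λ := lt_of_lt_of_le one_pos h.one_le
  rw [mem_ball_zero_iff] at ht
  calc ‖fderiv ℝ ψ 0 t‖ ≤ ‖fderiv ℝ ψ 0‖ * ‖t‖ := ContinuousLinearMap.le_opNorm _ _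
    _ ≤ Λ * (Λ⁻¹ / 4) := mul_le_mul h.normB ht.le (norm_nonneg _) hΛ.le
    _ = 1 / 4 := by field_simp

theorem kerLoc_mem (h : IsPole G ψ κ V R Λ) {x s w : EN N} (hx : ‖x - ψ 0‖ < R / 2) {δ : ℝ}
    (hδ : 0 < δ) (hδR : δ ≤ R / 8) (hs : ‖s‖ ≤ 2) (hw : ‖w‖ ≤ 1 / 4) :
    x + δ • s + δ • w ∈ Metric.ball (ψ 0) R := by
  have hR := h.R_pos
  rw [mem_ball_iff_norm]
  have e : x + δ • s + δ • w - ψ 0 = (x - ψ 0) + (δ • s + δ • w) := by abel
  rw [e]
  have h1 : ‖δ • s + δ • w‖ ≤ δ * 2 + δ * (1 / 4) := by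
    refine (norm_add_le _ _).trans ?_
    rw [norm_smul, norm_smul, Real.norm_eq_abs, abs_of_pos hδ]
    gcongr
  have h2 := norm_add_le (x - ψ 0) (δ • s + δ • w)
  linarith

theorem ker_up_local (h : IsPole G ψ κ V R Λ) (hn : IsVol G nu) :
    ∃ C : ℝ, 1 ≤ C ∧ ∀ x ∈ G.X, ‖x - ψ 0‖ < R / 2 → ∀ δ : ℝ, 0 < δ → δ ≤ R / 8 →
      ∀ f : EN N → ℝ≥0∞, Measurable f →
      ∫⁻ s in Metric.ball (0 : EN N) 1, f (G.rho (x + δ • s)) ≤
        ENNReal.ofReal (C * δ⁻¹ ^ 4) * ∫⁻ y in Metric.closedBall x (C * δ), f y ∂nu := by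
  have hΛ : 0 < Λ := lt_of_lt_of_le one_pos h.one_le
  have hR := h.R_pos
  have hη : 0 < Λ⁻¹ / 4 := by positivity
  obtain ⟨aη, haη, hvη⟩ := kerLoc_vol_ball (n := 4) hη
  obtain ⟨a2, ha2, hv2⟩ := kerLoc_vol_ball (n := N) (r := 2) two_pos
  have hq : 0 < aη⁻¹ * (a2 * (2 * Λ)) := by positivity
  refine ⟨1 + 3 * Λ + aη⁻¹ * (a2 * (2 * Λ)), by linarith, ?_⟩
  intro x hxX hx δ hδ hδR f hf
  have hF := kerLoc_meas G hf x δ
  -- pointwise in `t`
  have h1 : ∀ t ∈ Metric.ball (0 : EN 4) (Λ⁻¹ / 4),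
      ∫⁻ s in Metric.ball (0 : EN N) 1, f (G.rho (x + δ • s)) ≤
        ∫⁻ s in Metric.ball (0 : EN N) 2, f (G.rho (x + δ • (s + fderiv ℝ ψ 0 t))) := by
    intro t ht
    have hB := kerLoc_norm h ht
    apply kerLoc_shift measurableSet_ball measurableSet_ball (fderiv ℝ ψ 0 t) _
      (fun s => f (G.rho (x + δ • s)))
    intro s hs
    rw [mem_ball_zero_iff] at hs ⊢
    have e : s = (s + fderiv ℝ ψ 0 t) - fderiv ℝ ψ 0 t := by abel
    rw [e]
    have h3 := norm_sub_le (s + fderiv ℝ ψ 0 t) (fderiv ℝ ψ 0 t)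
    linarith
  -- average
  have h2 : ENNReal.ofReal aη * ∫⁻ s in Metric.ball (0 : EN N) 1, f (G.rho (x + δ • s)) ≤
      ∫⁻ t in Metric.ball (0 : EN 4) (Λ⁻¹ / 4),
        ∫⁻ s in Metric.ball (0 : EN N) 2, f (G.rho (x + δ • (s + fderiv ℝ ψ 0 t))) := by
    rw [← hvη, mul_comm, ← setLIntegral_const]
    exact setLIntegral_mono' measurableSet_ball h1
  rw [kerLoc_swap (fun s => f (G.rho (x + δ • s))) hF (fderiv ℝ ψ 0)] at h2
  -- inner integral
  have h3 : ∀ s ∈ Metric.ball (0 : EN N) 2,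
      ∫⁻ t in Metric.ball (0 : EN 4) (Λ⁻¹ / 4), f (G.rho (x + δ • (s + fderiv ℝ ψ 0 t))) ≤
        ENNReal.ofReal (2 * Λ * δ⁻¹ ^ 4) *
          ∫⁻ y in Metric.closedBall x (3 * Λ * δ), f y ∂nu := by
    intro s hs
    rw [mem_ball_zero_iff] at hs
    have e : ∀ t, x + δ • (s + fderiv ℝ ψ 0 t) = x + δ • s + δ • fderiv ℝ ψ 0 t := by
      intro t
      rw [smul_add, add_assoc]
    simp only [e]
    apply slice_up h hn (x + δ • s) hδ
    · intro t ht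
      exact kerLoc_mem h hx hδ hδR hs.le (kerLoc_norm h ht)
    · exact measurableSet_closedBall
    · intro t ht
      have hB := kerLoc_norm h ht
      rw [mem_closedBall_iff_norm]
      have hxb : x ∈ Metric.ball (ψ 0) R := by
        rw [mem_ball_iff_norm]
        linarith
      have h4 := h.liprho _ (kerLoc_mem h hx hδ hδR hs.le hB) x hxb
      rw [G.rho_fix x hxX] at h4
      refine h4.trans ?_
      have h5 : ‖x + δ • s + δ • fderiv ℝ ψ 0 t - x‖ ≤ δ * 2 + δ * (1 / 4) := by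
        have e2 : x + δ • s + δ • fderiv ℝ ψ 0 t - x = δ • s + δ • fderiv ℝ ψ 0 t := by abel
        rw [e2]
        refine (norm_add_le _ _).trans ?_
        rw [norm_smul, norm_smul, Real.norm_eq_abs, abs_of_pos hδ]
        gcongr
      have h6 := mul_le_mul_of_nonneg_left h5 hΛ.le
      have h7 : 0 < Λ * δ := by positivity
      nlinarith
    · exact hf
  have h4 : ∫⁻ s in Metric.ball (0 : EN N) 2, ∫⁻ t in Metric.ball (0 : EN 4) (Λ⁻¹ / 4),
      f (G.rho (x + δ • (s + fderiv ℝ ψ 0 t))) ≤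
      ENNReal.ofReal a2 * (ENNReal.ofReal (2 * Λ * δ⁻¹ ^ 4) *
          ∫⁻ y in Metric.closedBall x (3 * Λ * δ), f y ∂nu) := by
    rw [← hv2, mul_comm, ← setLIntegral_const]
    exact setLIntegral_mono' measurableSet_ball h3
  have h5 := h2.trans h4
  have hinv : ENNReal.ofReal aη⁻¹ * ENNReal.ofReal aη = 1 := by
    rw [← ENNReal.ofReal_mul (by positivity), inv_mul_cancel₀ haη.ne', ENNReal.ofReal_one]
  calc ∫⁻ s in Metric.ball (0 : EN N) 1, f (G.rho (x + δ • s))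
      = ENNReal.ofReal aη⁻¹ * (ENNReal.ofReal aη *
          ∫⁻ s in Metric.ball (0 : EN N) 1, f (G.rho (x + δ • s))) := by
        rw [← mul_assoc, hinv, one_mul]
    _ ≤ ENNReal.ofReal aη⁻¹ * (ENNReal.ofReal a2 * (ENNReal.ofReal (2 * Λ * δ⁻¹ ^ 4) *
          ∫⁻ y in Metric.closedBall x (3 * Λ * δ), f y ∂nu)) := mul_le_mul_right h5 _
    _ = ENNReal.ofReal (aη⁻¹ * (a2 * (2 * Λ)) * δ⁻¹ ^ 4) *
          ∫⁻ y in Metric.closedBall x (3 * Λ * δ), f y ∂nu := by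
        exact kerLoc_ofReal (by positivity) ha2.le (by ring) _
    _ ≤ _ := by
        apply mul_le_mul'
        · apply ENNReal.ofReal_le_ofReal
          apply mul_le_mul_of_nonneg_right _ (by positivity)
          linarith
        · apply lintegral_mono_set
          apply Metric.closedBall_subset_closedBall
          apply mul_le_mul_of_nonneg_right _ hδ.le
          linarith

theorem ker_low_local (h : IsPole G ψ κ V R Λ) (hn : IsVol G nu) :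
    ∃ c a : ℝ, 0 < c ∧ 0 < a ∧ ∀ x ∈ G.X, ‖x - ψ 0‖ < R / 2 → ∀ δ : ℝ, 0 < δ → δ ≤ R / 8 →
      ∀ f : EN N → ℝ≥0∞, Measurable f →
      ENNReal.ofReal (c * δ⁻¹ ^ 4) * ∫⁻ y in Metric.closedBall x (a * δ), f y ∂nu ≤
        ∫⁻ s in Metric.ball (0 : EN N) (1 / 2), f (G.rho (x + δ • s)) := by
  have hΛ : 0 < Λ := lt_of_lt_of_le one_pos h.one_le
  have hR := h.R_pos
  obtain ⟨η, hηdef⟩ : ∃ η : ℝ, η = Λ⁻¹ / 4 := ⟨_, rfl⟩
  have hη : 0 < η := by rw [hηdef]; positivity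
  have hΛinv : Λ⁻¹ ≤ 1 := inv_le_one_of_one_le₀ h.one_le
  have hη4 : η ≤ 1 / 4 := by rw [hηdef]; linarith
  obtain ⟨σ, hσdef⟩ : ∃ σ : ℝ, σ = Λ⁻¹ * η / 8 := ⟨_, rfl⟩
  have hσ : 0 < σ := by rw [hσdef]; positivity
  have hΛσ : Λ * σ = η / 8 := by rw [hσdef]; field_simp
  have hσ4 : σ ≤ 1 / 32 := by
    have : σ ≤ Λ * σ := by nlinarith [h.one_le]
    linarith
  obtain ⟨aη, haη, hvη⟩ := kerLoc_vol_ball (n := 4) hη
  obtain ⟨aσ, haσ, hvσ⟩ := kerLoc_vol_ball (n := N) (r := σ) hσ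
  refine ⟨aη⁻¹ * (aσ * (2 * Λ)⁻¹), σ, by positivity, hσ, ?_⟩
  intro x hxX hx δ hδ hδR f hf
  have hF := kerLoc_meas G hf x δ
  have hnorm : ∀ t ∈ Metric.ball (0 : EN 4) η, ‖fderiv ℝ ψ 0 t‖ ≤ 1 / 4 := by
    intro t ht
    rw [hηdef] at ht
    exact kerLoc_norm h ht
  have h1 : ∀ t ∈ Metric.ball (0 : EN 4) η,
      ∫⁻ s in Metric.ball (0 : EN N) σ, f (G.rho (x + δ • (s + fderiv ℝ ψ 0 t))) ≤
        ∫⁻ s in Metric.ball (0 : EN N) (1 / 2), f (G.rho (x + δ • s)) := by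
    intro t ht
    have hB := hnorm t ht
    have h3 := kerLoc_shift (A := Metric.ball (0 : EN N) σ) (A' := Metric.ball (0 : EN N) (1 / 2))
      measurableSet_ball measurableSet_ball (-fderiv ℝ ψ 0 t) (by
        intro s hs
        rw [mem_ball_zero_iff] at hs ⊢
        have e : s = (s + -fderiv ℝ ψ 0 t) + fderiv ℝ ψ 0 t := by abel
        rw [e]
        have h3 := norm_add_le (s + -fderiv ℝ ψ 0 t) (fderiv ℝ ψ 0 t)
        linarith) (fun s => f (G.rho (x + δ • (s + fderiv ℝ ψ 0 t))))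
    simp only [neg_add_cancel_right] at h3
    exact h3
  have h2 : ∫⁻ t in Metric.ball (0 : EN 4) η,
        ∫⁻ s in Metric.ball (0 : EN N) σ, f (G.rho (x + δ • (s + fderiv ℝ ψ 0 t))) ≤
      ENNReal.ofReal aη * ∫⁻ s in Metric.ball (0 : EN N) (1 / 2), f (G.rho (x + δ • s)) := by
    rw [← hvη, mul_comm, ← setLIntegral_const]
    exact setLIntegral_mono' measurableSet_ball h1
  rw [kerLoc_swap (fun s => f (G.rho (x + δ • s))) hF (fderiv ℝ ψ 0)] at h2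
  have h3 : ∀ s ∈ Metric.ball (0 : EN N) σ,
      ENNReal.ofReal ((2 * Λ)⁻¹ * δ⁻¹ ^ 4) *
          ∫⁻ y in Metric.closedBall x (σ * δ), f y ∂nu ≤
      ∫⁻ t in Metric.ball (0 : EN 4) η, f (G.rho (x + δ • (s + fderiv ℝ ψ 0 t))) := by
    intro s hs
    rw [mem_ball_zero_iff] at hs
    have e : ∀ t, x + δ • (s + fderiv ℝ ψ 0 t) = x + δ • s + δ • fderiv ℝ ψ 0 t := by
      intro t
      rw [smul_add, add_assoc]
    simp only [e]
    apply slice_low h hn (x + δ • s) hδ hη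
    · intro t ht
      exact kerLoc_mem h hx hδ hδR (by linarith) (hnorm t ht)
    · exact measurableSet_closedBall
    · rintro x' ⟨hx'X, hx'S⟩
      rw [mem_closedBall_iff_norm] at hx'S
      have hσδ : σ * δ ≤ 1 / 32 * (R / 8) := mul_le_mul hσ4 hδR hδ.le (by norm_num)
      have hx'b : x' ∈ Metric.ball (ψ 0) R := by
        rw [mem_ball_iff_norm]
        have e2 : x' - ψ 0 = (x' - x) + (x - ψ 0) := by abel
        rw [e2]
        have := norm_add_le (x' - x) (x - ψ 0)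
        linarith
      have hmem := h.mem x' hx'b
      rw [G.rho_fix x' hx'X] at hmem
      refine ⟨hmem.2.1, ?_⟩
      have hyb : x + δ • s ∈ Metric.ball (ψ 0) R := by
        have := kerLoc_mem (w := 0) h hx hδ hδR (show ‖s‖ ≤ 2 by linarith) (by simp)
        rwa [smul_zero, add_zero] at this
      have h4 := h.lipH x' hx'b (x + δ • s) hyb
      have e3 : Hk G κ x' = κ x' := by
        unfold Hk
        rw [G.rho_fix x' hx'X]
      rw [e3] at h4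
      refine lt_of_le_of_lt h4 ?_
      have h5 : ‖x' - (x + δ • s)‖ ≤ 2 * σ * δ := by
        have e4 : x' - (x + δ • s) = (x' - x) - δ • s := by abel
        rw [e4]
        refine (norm_sub_le _ _).trans ?_
        rw [norm_smul, Real.norm_eq_abs, abs_of_pos hδ]
        nlinarith
      calc Λ * ‖x' - (x + δ • s)‖ ≤ Λ * (2 * σ * δ) := mul_le_mul_of_nonneg_left h5 hΛ.le
        _ = δ * (2 * (Λ * σ)) := by ring
        _ = δ * η / 4 := by rw [hΛσ]; ring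
        _ < δ * η / 2 := by
          have : 0 < δ * η := by positivity
          linarith
    · exact hf
  have h4 : ENNReal.ofReal aσ * (ENNReal.ofReal ((2 * Λ)⁻¹ * δ⁻¹ ^ 4) *
          ∫⁻ y in Metric.closedBall x (σ * δ), f y ∂nu) ≤
      ∫⁻ s in Metric.ball (0 : EN N) σ, ∫⁻ t in Metric.ball (0 : EN 4) η,
      f (G.rho (x + δ • (s + fderiv ℝ ψ 0 t))) := by
    rw [← hvσ, mul_comm, ← setLIntegral_const]
    exact setLIntegral_mono' measurableSet_ball h3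
  have h5 := h4.trans h2
  have hinv : ENNReal.ofReal aη⁻¹ * ENNReal.ofReal aη = 1 := by
    rw [← ENNReal.ofReal_mul (by positivity), inv_mul_cancel₀ haη.ne', ENNReal.ofReal_one]
  calc ENNReal.ofReal (aη⁻¹ * (aσ * (2 * Λ)⁻¹) * δ⁻¹ ^ 4) *
          ∫⁻ y in Metric.closedBall x (σ * δ), f y ∂nu
      = ENNReal.ofReal aη⁻¹ * (ENNReal.ofReal aσ * (ENNReal.ofReal ((2 * Λ)⁻¹ * δ⁻¹ ^ 4) *
          ∫⁻ y in Metric.closedBall x (σ * δ), f y ∂nu)) := by
        exact (kerLoc_ofReal (by positivity) haσ.le (by ring) _).symm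
    _ ≤ ENNReal.ofReal aη⁻¹ * (ENNReal.ofReal aη *
          ∫⁻ s in Metric.ball (0 : EN N) (1 / 2), f (G.rho (x + δ • s))) :=
        mul_le_mul_right h5 _
    _ = _ := by rw [← mul_assoc, hinv, one_mul]

end Pool.Agent.W_MP_d8b8b7_G1
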