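import Pool.Agent.W_MP_d8b8b7_G1.RetrA

set_option autoImplicit false

/-!
# (G1) RetrB: the nearest point retraction

For `y : EN N` let `ρ0 y ∈ X` be a point of `X` with `dist y (ρ0 y) = infDist y X`
(`IsCompact.exists_infDist_eq_dist`; choice).
* `local_nearest`: for `x0 = ψ 0 ∈ X` there is an open `W' ∋ x0` on which `ρ0 y = ψ (u y)`, `u` of
  `LChart.critical`: if `y` is close to `x0`, then `dist (ρ0 y) x0 ≤ dist (ρ0 y) y + dist y x0 ≤ 2 dist y x0`, so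
  `ρ0 y ∈ X ∩ V`, `ρ0 y = ψ z` with `z = κ (ρ0 y)` close to `κ x0 = 0`, `|z| < η`; `z` is a minimum of
  `|ψ z' - y|²` on the open unit ball (all `ψ z'` are in `X`), so its derivative
  `2 ⟪ψ z - y, Dψ(z) a⟫` vanishes (`IsLocalMin.fderiv_eq_zero`), and `z = u y`.
  Hence `ρ0` is `ContDiffOn ℝ ∞` on `W'`.
* Let `U0` be the union of these `W'` over `x0 ∈ X`: open, contains `X`, `ρ0` is `ContDiffOn ℝ ∞` on `U0`,
  `ρ0 y ∈ X`, `ρ0 x = x` for `x ∈ X`.
* Choose a smooth `χ : EN N → ℝ`, `χ = 1` on a neighbourhood `U` of `X`, `tsupport χ ⊆ U0`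
  (`exists_contMDiff_one_nhds_of_subset_interior`, `exists_contMDiffMap_one_nhds_of_subset_interior` or
  similar in `Mathlib/Geometry/Manifold/PartitionOfUnity.lean`, or `exists_smooth_tsupport_subset` with
  compactness); `ρ = χ • ρ0` is globally smooth.
-/

namespace Pool.Agent.W_MP_d8b8b7_G1

open Pool.Agent.W_MP_d8b8b7_gt
open MeasureTheory Set Filter Topology
open scoped Manifold ContDiff

variable {N : ℕ} {X : Set (EN N)}

theorem LChart.local_nearest {ψ : EN 4 → EN N} {κ : EN N → EN 4} {V : Set (EN N)}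
    (h : LChart X ψ κ V) (ρ0 : EN N → EN N) (h1 : ∀ y, ρ0 y ∈ X)
    (h2 : ∀ y, ∀ x ∈ X, dist y (ρ0 y) ≤ dist y x) :
    ∃ W : Set (EN N), IsOpen W ∧ ψ 0 ∈ W ∧ ContDiffOn ℝ ∞ ρ0 W := by
  obtain ⟨W, η, u, hWo, h0W, hη, hη1, hu, huq⟩ := h.critical
  have h0b : (0 : EN 4) ∈ Metric.ball (0 : EN 4) 1 := Metric.mem_ball_self one_pos
  have hx0 := h.psi_mem h0b
  have hk0 : κ (ψ 0) = 0 := h.kap_psi 0 h0b
  have hkc : Continuous κ := h.smooth_kap.continuous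
  have hS : V ∩ κ ⁻¹' Metric.ball 0 η ∈ 𝓝 (ψ 0) := by
    refine Filter.inter_mem (h.openV.mem_nhds hx0.2) (hkc.continuousAt.preimage_mem_nhds ?_)
    rw [hk0]
    exact Metric.ball_mem_nhds _ hη
  obtain ⟨δ, hδ, hδS⟩ := Metric.mem_nhds_iff.1 hS
  have hkey : ∀ y ∈ W ∩ Metric.ball (ψ 0) (δ / 2), ρ0 y = ψ (u y) := by
    rintro y ⟨hyW, hyb⟩
    rw [Metric.mem_ball] at hyb
    have hd : dist (ρ0 y) (ψ 0) < δ := by
      have e1 := dist_triangle (ρ0 y) y (ψ 0)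
      have e2 := h2 y (ψ 0) hx0.1
      rw [dist_comm y (ρ0 y)] at e2
      linarith
    have hmem := hδS (Metric.mem_ball.2 hd)
    obtain ⟨hz1, hz2⟩ := h.kap_mem (h1 y) hmem.1
    have hzη : ‖κ (ρ0 y)‖ < η := by
      have := hmem.2
      rw [Set.mem_preimage, mem_ball_zero_iff] at this
      exact this
    have hmin : IsLocalMin (fun z' : EN 4 => ‖ψ z' - y‖ ^ 2) (κ (ρ0 y)) := by
      filter_upwards [Metric.isOpen_ball.mem_nhds hz1] with z' hz'
      have e3 := h2 y (ψ z') (h.psi_mem hz').1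
      rw [hz2, ← dist_eq_norm, ← dist_eq_norm, dist_comm (ρ0 y) y, dist_comm (ψ z') y]
      exact pow_le_pow_left₀ dist_nonneg e3 2
    have hcrit : ∀ a : EN 4, inner ℝ (ψ (κ (ρ0 y)) - y) (fderiv ℝ ψ (κ (ρ0 y)) a) = 0 := by
      intro a
      have hd1 : HasFDerivAt (fun z' : EN 4 => ψ z' - y) (fderiv ℝ ψ (κ (ρ0 y))) (κ (ρ0 y)) :=
        (((h.smooth_psi.differentiable (by simp)) (κ (ρ0 y))).hasFDerivAt).sub_const y
      have hd2 := hd1.norm_sq
      have hd3 := hmin.hasFDerivAt_eq_zero hd2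
      have hd4 := congrArg (fun A : EN 4 →L[ℝ] ℝ => A a) hd3
      simp at hd4
      rw [inner_sub_left]
      exact hd4
    have hz3 := huq y hyW (κ (ρ0 y)) hzη hcrit
    rw [← hz3, hz2]
  refine ⟨W ∩ Metric.ball (ψ 0) (δ / 2), hWo.inter Metric.isOpen_ball,
    ⟨h0W, Metric.mem_ball_self (by positivity)⟩, ?_⟩
  have hc : ContDiffOn ℝ ∞ (fun y => ψ (u y)) (W ∩ Metric.ball (ψ 0) (δ / 2)) :=
    h.smooth_psi.comp_contDiffOn (hu.mono Set.inter_subset_left)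
  exact hc.congr hkey

theorem exists_retr (hX : IsSub X) : ∃ (U : Set (EN N)) (ρ : EN N → EN N), IsRetr X U ρ := by
  have hex : ∀ y : EN N, ∃ x ∈ X, Metric.infDist y X = dist y x := fun y =>
    hX.cpt.exists_infDist_eq_dist hX.ne y
  choose ρ0 h1 h1' using hex
  have h2 : ∀ y, ∀ x ∈ X, dist y (ρ0 y) ≤ dist y x := by
    intro y x hx
    rw [← h1' y]
    exact Metric.infDist_le_dist_of_mem hx
  have hW : ∀ x : X, ∃ W : Set (EN N), IsOpen W ∧ (x : EN N) ∈ W ∧ ContDiffOn ℝ ∞ ρ0 W := by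
    rintro ⟨x, hx⟩
    obtain ⟨ψ, κ, V, hc, h0⟩ := hX.chart x hx
    obtain ⟨W, hW1, hW2, hW3⟩ := hc.local_nearest ρ0 h1 h2
    rw [h0] at hW2
    exact ⟨W, hW1, hW2, hW3⟩
  choose W hWo hWm hWs using hW
  have hU0 : IsOpen (⋃ x, W x) := isOpen_iUnion hWo
  have hXU : X ⊆ ⋃ x, W x := fun x hx => Set.mem_iUnion.2 ⟨⟨x, hx⟩, hWm ⟨x, hx⟩⟩
  obtain ⟨f, hf0, hf1, -⟩ := exists_contMDiffMap_zero_one_nhds_of_isClosed (n := ⊤) 𝓘(ℝ, EN N)
    hU0.isClosed_compl hX.cpt.isClosed (Set.disjoint_compl_left_iff_subset.2 hXU)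
  have hfs : ContDiff ℝ ∞ (f : EN N → ℝ) := f.contMDiff.contDiff
  obtain ⟨U, hUo, hXU', hU⟩ := mem_nhdsSet_iff_exists.1 hf1
  have hfix : ∀ x ∈ X, ρ0 x = x := by
    intro x hx
    have := h2 x x hx
    rw [dist_self] at this
    exact (dist_le_zero.1 this).symm
  refine ⟨U, fun y => f y • ρ0 y, hUo, hXU', ?_, ?_, ?_⟩
  · rw [contDiff_iff_contDiffAt]
    intro y
    by_cases hy : y ∈ ⋃ x, W x
    · obtain ⟨x, hx⟩ := Set.mem_iUnion.1 hy
      exact hfs.contDiffAt.smul ((hWs x).contDiffAt ((hWo x).mem_nhds hx))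
    · have h5 : ∀ᶠ z in 𝓝 y, f z = 0 := hf0.filter_mono (nhds_le_nhdsSet hy)
      have h6 : (fun z => f z • ρ0 z) =ᶠ[𝓝 y] fun _ => (0 : EN N) := by
        filter_upwards [h5] with z hz
        rw [hz, zero_smul]
      exact contDiffAt_const.congr_of_eventuallyEq h6
  · intro y hy
    have : f y = 1 := hU hy
    simp only [this, one_smul]
    exact h1 y
  · intro x hx
    have : f x = 1 := hU (hXU' hx)
    simp only [this, one_smul]
    exact hfix x hx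

end Pool.Agent.W_MP_d8b8b7_G1
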