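import Pool.Agent.W_MP_d8b8b7_G1.ExtForm
import Pool.Agent.W_MP_d8b8b7_G1.ExtJ
import Pool.Agent.W_MP_d8b8b7_G1.RetrB
import Pool.Agent.W_MP_d8b8b7_G1.PullSmooth

set_option autoImplicit false

/-!
# (G1) Model: the geometric data of an almost complex manifold tamed by a symplectic form

`exists_model`: `exists_isEmb` gives `e`, `isSub_range` and `exists_retr` give `U`, `ρ`; `exists_ext2` applied to
`Ω` gives `om`, `exists_extJ` gives `J`.
* `D_J`: `J x v = J x (D v)`, `D v = de q w` (`tan_surj`; `D (D v) = D v` by `D_D`), `J (de w) = de (J w)`, `D_de`.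
* `J_J`: the same with `J (J w) = - w`.
* `om_closed`: `pb2 e om = Ω` (`form2_ext`, `pb2_apply`), `closed_pb2`, `tan_surj`.
* `om_tame`: `tan_surj`, `de` injective, `Tame`.
-/

namespace Pool.Agent.W_MP_d8b8b7_G1

open Pool.Agent.W_MP_d8b8b7_gt
open MeasureTheory Set Filter Topology
open scoped Manifold ContDiff

variable {M : Type*} [TopologicalSpace M] [ChartedSpace E4 M] {N : ℕ}

/-- `G` describes `(M, Ω, J)` through the embedding `e` -/
structure IsModel (Ω : Form M 2) (J : EndoField M) (G : Geom N) (e : M → EN N) : Prop where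
  emb : IsEmb e
  range_e : Set.range e = G.X
  sub : IsSub G.X
  tan : ∀ (q : M) (v : EN 4), G.Tan (e q) (de e q v)
  tan_surj : ∀ (q : M) (w : EN N), G.Tan (e q) w → ∃ v : EN 4, de e q v = w
  J_eq : ∀ (q : M) (v : EN 4), G.J (e q) (de e q v) = de e q (J q v)
  om_eq : ∀ (q : M) (u v : EN 4), G.om (e q) (de e q u) (de e q v) = Ω q ![u, v]

variable [IsManifold 𝓘(ℝ, E4) ∞ M]

theorem exists_model [CompactSpace M] [T2Space M] [Nonempty M] {Ω : Form M 2} {J : EndoField M}
    (hΩ : IsSymplectic Ω) (hJ : IsAlmostComplex J) (ht : Tame Ω J) :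
    ∃ (N : ℕ) (G : Geom N) (e : M → EN N), IsModel Ω J G e := by
  obtain ⟨N, e, he⟩ := exists_isEmb (M := M)
  have hX : IsSub (Set.range e) := isSub_range he
  obtain ⟨U, ρ, hρ⟩ := exists_retr hX
  obtain ⟨om, hom, home⟩ := exists_ext2 he hΩ.smooth
  obtain ⟨A, hA, hAD, hAe⟩ := exists_extJ he hρ hJ.smooth
  -- tangent vectors come from `M`
  have hDw : ∀ (q : M) (v : EN N), ∃ w : EN 4, de e q w = fderiv ℝ ρ (e q) v := fun q v =>
    tan_surj he hρ q _ (D_D hX hρ ⟨q, rfl⟩ v)
  have hAw : ∀ (q : M) (v : EN N) (w : EN 4), de e q w = fderiv ℝ ρ (e q) v →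
      A (e q) v = de e q (J q w) := by
    intro q v w hw
    rw [← hAD (e q) ⟨q, rfl⟩ v, ← hw, hAe]
  have hpb : pb2 e om = Ω := by
    apply form2_ext
    intro q u v
    rw [pb2_apply e hom.alt, home]
  have hcl : ∀ (q : M) (u v w : EN 4),
      dTwo om (e q) (de e q u) (de e q v) (de e q w) = 0 :=
    (closed_pb2 he.smooth hom).1 (by rw [hpb]; exact hΩ.closed)
  let G : Geom N :=
    { X := Set.range e
      U := U
      rho := ρ
      J := A
      om := om
      cptX := hX.cpt
      neX := hX.ne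
      openU := hρ.openU
      subU := hρ.subU
      smooth_rho := hρ.smooth
      rho_mem := hρ.mem
      rho_fix := hρ.fix
      smooth_J := hA
      J_D := hAD
      D_J := by
        rintro _ ⟨q, rfl⟩ v
        obtain ⟨w, hw⟩ := hDw q v
        rw [hAw q v w hw]
        exact D_de he hρ q _
      J_J := by
        rintro _ ⟨q, rfl⟩ v
        obtain ⟨w, hw⟩ := hDw q v
        have h1 : J q (J q w) = -w := hJ.sq q w
        rw [hAw q v w hw, hAe, h1, map_neg, hw]
      smooth_om := hom.smooth
      om_alt := hom.alt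
      om_closed := by
        rintro _ ⟨q, rfl⟩ u v w hu hv hw
        obtain ⟨u', rfl⟩ := tan_surj he hρ q u hu
        obtain ⟨v', rfl⟩ := tan_surj he hρ q v hv
        obtain ⟨w', rfl⟩ := tan_surj he hρ q w hw
        exact hcl q u' v' w'
      om_tame := by
        rintro _ ⟨q, rfl⟩ v hv hv0
        obtain ⟨v', rfl⟩ := tan_surj he hρ q v hv
        have hv' : v' ≠ 0 := by
          rintro rfl
          exact hv0 (map_zero _)
        rw [hAe, home]
        exact ht q v' hv' }
  refine ⟨N, G, e, ?_⟩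
  exact
    { emb := he
      range_e := rfl
      sub := hX
      tan := fun q v => D_de he hρ q v
      tan_surj := fun q w hw => tan_surj he hρ q w hw
      J_eq := hAe
      om_eq := home }

end Pool.Agent.W_MP_d8b8b7_G1
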