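import Pool.Agent.W_MP_d8b8b7_G1.Dens

set_option autoImplicit false

/-!
# (G1) Pole: uniform constants near a point of `X`

`x₀ = ψ 0`, `H y = κ (ρ y)` (`ρ = G.rho`), `B = fderiv ψ 0`.  At `x₀`: `H x₀ = κ (ψ 0) = 0` and
`fderiv H x₀ ∘ B = Dκ(x₀) ∘ D x₀ ∘ Dψ(0) = Dκ(x₀) ∘ Dψ(0) = id` (`D_psi`, `LChart.fderiv_kap_psi`).
All the listed properties hold on a small ball by continuity (`H`, `fderiv H`, `det` continuous; `G.U`,
`V` open, `ρ x₀ = x₀ ∈ V`); Lipschitz constants from bounds of the derivative on closed balls (compact, convex: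
`Convex.norm_image_sub_le_of_norm_fderiv_le`); `dn G ψ` is continuous and nonzero on
`closedBall 0 (1/2)` (`dn_ne_zero`).
-/

namespace Pool.Agent.W_MP_d8b8b7_G1

open Pool.Agent.W_MP_d8b8b7_gt
open MeasureTheory Set Filter Topology
open scoped Manifold ContDiff ENNReal

variable {N : ℕ}

/-- the chart coordinates of the retraction -/
noncomputable def Hk (G : Geom N) (κ : EN N → EN 4) (y : EN N) : EN 4 := κ (G.rho y)

/-- uniform constants on the ball `ball (ψ 0) R` -/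
structure IsPole (G : Geom N) (ψ : EN 4 → EN N) (κ : EN N → EN 4) (V : Set (EN N))
    (R Λ : ℝ) : Prop where
  chart : LChart G.X ψ κ V
  R_pos : 0 < R
  R_le : R ≤ 1
  one_le : 1 ≤ Λ
  mem : ∀ y ∈ Metric.ball (ψ 0) R, y ∈ G.U ∧ G.rho y ∈ V ∧
    Hk G κ y ∈ Metric.ball (0 : EN 4) (1 / 2)
  near : ∀ y ∈ Metric.ball (ψ 0) R,
    ‖(fderiv ℝ (Hk G κ) y).comp (fderiv ℝ ψ 0) - ContinuousLinearMap.id ℝ (EN 4)‖ ≤ 1 / 2
  det_ge : ∀ y ∈ Metric.ball (ψ 0) R, 1 / 2 ≤ |((fderiv ℝ (Hk G κ) y).comp (fderiv ℝ ψ 0)).det|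
  det_le : ∀ y ∈ Metric.ball (ψ 0) R, |((fderiv ℝ (Hk G κ) y).comp (fderiv ℝ ψ 0)).det| ≤ 2
  lipH : ∀ y ∈ Metric.ball (ψ 0) R, ∀ y' ∈ Metric.ball (ψ 0) R,
    ‖Hk G κ y - Hk G κ y'‖ ≤ Λ * ‖y - y'‖
  liprho : ∀ y ∈ Metric.ball (ψ 0) R, ∀ y' ∈ Metric.ball (ψ 0) R,
    ‖G.rho y - G.rho y'‖ ≤ Λ * ‖y - y'‖
  lippsi : ∀ z ∈ Metric.ball (0 : EN 4) (1 / 2), ∀ z' ∈ Metric.ball (0 : EN 4) (1 / 2),
    ‖ψ z - ψ z'‖ ≤ Λ * ‖z - z'‖
  normB : ‖fderiv ℝ ψ 0‖ ≤ Λ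
  dn_ge : ∀ z ∈ Metric.ball (0 : EN 4) (1 / 2), Λ⁻¹ ≤ |dn G ψ z|
  dn_le : ∀ z ∈ Metric.ball (0 : EN 4) (1 / 2), |dn G ψ z| ≤ Λ

variable {G : Geom N} {ψ : EN 4 → EN N} {κ : EN N → EN 4} {V : Set (EN N)}

theorem Pole_smooth (h : LChart G.X ψ κ V) : ContDiff ℝ ∞ (Hk G κ) :=
  h.smooth_kap.comp G.smooth_rho

theorem Pole_zero (h : LChart G.X ψ κ V) : Hk G κ (ψ 0) = 0 := by
  have h0 : (0 : EN 4) ∈ Metric.ball (0 : EN 4) 1 := Metric.mem_ball_self one_pos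
  unfold Hk
  rw [G.rho_fix _ (h.psi_mem h0).1, h.kap_psi 0 h0]

theorem Pole_comp (h : LChart G.X ψ κ V) :
    (fderiv ℝ (Hk G κ) (ψ 0)).comp (fderiv ℝ ψ 0) = ContinuousLinearMap.id ℝ (EN 4) := by
  have h0 : (0 : EN 4) ∈ Metric.ball (0 : EN 4) 1 := Metric.mem_ball_self one_pos
  have hψ : HasFDerivAt ψ (fderiv ℝ ψ 0) 0 :=
    ((h.smooth_psi.differentiable (by simp)) 0).hasFDerivAt
  have hH : HasFDerivAt (Hk G κ) (fderiv ℝ (Hk G κ) (ψ 0)) (ψ 0) :=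
    (((Pole_smooth h).differentiable (by simp)) (ψ 0)).hasFDerivAt
  have h1 : HasFDerivAt (fun z => Hk G κ (ψ z))
      ((fderiv ℝ (Hk G κ) (ψ 0)).comp (fderiv ℝ ψ 0)) 0 :=
    HasFDerivAt.comp (g := Hk G κ) (f := ψ) 0 hH hψ
  have h2 : (fun z => Hk G κ (ψ z)) =ᶠ[𝓝 0] id := by
    filter_upwards [Metric.isOpen_ball.mem_nhds h0] with z hz
    unfold Hk
    rw [G.rho_fix _ (h.psi_mem hz).1, h.kap_psi z hz]
    rfl
  exact (h1.congr_of_eventuallyEq h2.symm).unique (hasFDerivAt_id 0)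

/-- a smooth map is Lipschitz on a closed ball -/
theorem Pole_lip {n k : ℕ} {f : EN n → EN k} (hf : ContDiff ℝ ∞ f) (c : EN n) (r : ℝ) :
    ∃ C : ℝ, ∀ y ∈ Metric.closedBall c r, ∀ y' ∈ Metric.closedBall c r,
      ‖f y - f y'‖ ≤ C * ‖y - y'‖ := by
  have h1 : Continuous (fderiv ℝ f) := hf.continuous_fderiv (by simp)
  obtain ⟨C, hC⟩ := (isCompact_closedBall c r).exists_bound_of_continuousOn h1.continuousOn
  refine ⟨C, ?_⟩
  intro y hy y' hy'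
  exact (convex_closedBall c r).norm_image_sub_le_of_norm_fderiv_le
    (fun x _ => (hf.differentiable (by simp)) x) hC hy' hy

theorem exists_pole (hX : IsSub G.X) (h : LChart G.X ψ κ V) :
    ∃ R Λ : ℝ, IsPole G ψ κ V R Λ := by
  have h0 : (0 : EN 4) ∈ Metric.ball (0 : EN 4) 1 := Metric.mem_ball_self one_pos
  obtain ⟨hxX, hxV⟩ := h.psi_mem h0
  have hHs := Pole_smooth h
  have hHc : Continuous (Hk G κ) := hHs.continuous
  have hH' : Continuous (fderiv ℝ (Hk G κ)) := hHs.continuous_fderiv (by simp)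
  have hA : Continuous fun y => (fderiv ℝ (Hk G κ) y).comp (fderiv ℝ ψ 0) :=
    hH'.clm_comp continuous_const
  have hdet : Continuous fun y => |((fderiv ℝ (Hk G κ) y).comp (fderiv ℝ ψ 0)).det| :=
    (ContinuousLinearMap.continuous_det.comp hA).abs
  have e1 : ∀ᶠ y in 𝓝 (ψ 0), y ∈ G.U := G.openU.mem_nhds (G.subU hxX)
  have e2 : ∀ᶠ y in 𝓝 (ψ 0), G.rho y ∈ V := by
    have hc : ContinuousAt G.rho (ψ 0) := G.smooth_rho.continuous.continuousAt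
    apply hc
    rw [G.rho_fix _ hxX]
    exact h.openV.mem_nhds hxV
  have e3 : ∀ᶠ y in 𝓝 (ψ 0), Hk G κ y ∈ Metric.ball (0 : EN 4) (1 / 2) := by
    apply hHc.continuousAt
    rw [Pole_zero h]
    exact Metric.ball_mem_nhds _ (by norm_num)
  have e4 : ∀ᶠ y in 𝓝 (ψ 0), ‖(fderiv ℝ (Hk G κ) y).comp (fderiv ℝ ψ 0) -
      ContinuousLinearMap.id ℝ (EN 4)‖ < 1 / 2 := by
    have hc : Continuous fun y => ‖(fderiv ℝ (Hk G κ) y).comp (fderiv ℝ ψ 0) -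
      ContinuousLinearMap.id ℝ (EN 4)‖ := (hA.sub continuous_const).norm
    refine hc.continuousAt.eventually_lt_const ?_
    beta_reduce
    rw [Pole_comp h, sub_self, norm_zero]
    norm_num
  have hd1 : |((fderiv ℝ (Hk G κ) (ψ 0)).comp (fderiv ℝ ψ 0)).det| = 1 := by
    rw [Pole_comp h]
    have : (ContinuousLinearMap.id ℝ (EN 4)).det = 1 := LinearMap.det_id
    rw [this, abs_one]
  have e5 : ∀ᶠ y in 𝓝 (ψ 0), 1 / 2 < |((fderiv ℝ (Hk G κ) y).comp (fderiv ℝ ψ 0)).det| := by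
    refine hdet.continuousAt.eventually_const_lt ?_
    beta_reduce
    rw [hd1]
    norm_num
  have e6 : ∀ᶠ y in 𝓝 (ψ 0), |((fderiv ℝ (Hk G κ) y).comp (fderiv ℝ ψ 0)).det| < 2 := by
    refine hdet.continuousAt.eventually_lt_const ?_
    beta_reduce
    rw [hd1]
    norm_num
  obtain ⟨R₀, hR₀, hR⟩ := Metric.eventually_nhds_iff_ball.1
    (e1.and (e2.and (e3.and (e4.and (e5.and e6)))))
  obtain ⟨C1, hC1⟩ := Pole_lip hHs (ψ 0) 1
  obtain ⟨C2, hC2⟩ := Pole_lip G.smooth_rho (ψ 0) 1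
  obtain ⟨C3, hC3⟩ := Pole_lip h.smooth_psi (0 : EN 4) 1
  have hdc : Continuous fun z => |dn G ψ z| := (dn_smooth G h.smooth_psi).continuous.abs
  have hK : IsCompact (Metric.closedBall (0 : EN 4) (1 / 2)) := isCompact_closedBall _ _
  have hKne : (Metric.closedBall (0 : EN 4) (1 / 2)).Nonempty :=
    ⟨0, Metric.mem_closedBall_self (by norm_num)⟩
  obtain ⟨zm, hzm, hmin⟩ := hK.exists_isMinOn hKne hdc.continuousOn
  obtain ⟨zM, hzM, hmax⟩ := hK.exists_isMaxOn hKne hdc.continuousOn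
  have hcpos : 0 < |dn G ψ zm| := by
    apply abs_pos.2
    apply dn_ne_zero hX h
    exact Metric.closedBall_subset_ball (by norm_num) hzm
  obtain ⟨c, hc, hcpos⟩ : ∃ c, c = |dn G ψ zm| ∧ 0 < c := ⟨_, rfl, hcpos⟩
  obtain ⟨C4, hC4⟩ : ∃ C4, C4 = |dn G ψ zM| := ⟨_, rfl⟩
  obtain ⟨Λ, l0, l1, l2, l3, l4, l5, l6⟩ : ∃ Λ : ℝ, 1 ≤ Λ ∧ C1 ≤ Λ ∧ C2 ≤ Λ ∧ C3 ≤ Λ ∧
      ‖fderiv ℝ ψ 0‖ ≤ Λ ∧ c⁻¹ ≤ Λ ∧ C4 ≤ Λ := by
    refine ⟨1 + |C1| + |C2| + |C3| + ‖fderiv ℝ ψ 0‖ + c⁻¹ + |C4|, ?_, ?_, ?_, ?_, ?_, ?_, ?_⟩ <;>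
    · have a1 := abs_nonneg C1
      have a2 := abs_nonneg C2
      have a3 := abs_nonneg C3
      have a4 := abs_nonneg C4
      have b1 := le_abs_self C1
      have b2 := le_abs_self C2
      have b3 := le_abs_self C3
      have b4 := le_abs_self C4
      have c1 := norm_nonneg (fderiv ℝ ψ 0)
      have c2 : 0 < c⁻¹ := inv_pos.2 hcpos
      linarith
  have hsub : Metric.ball (ψ 0) (min R₀ 1) ⊆ Metric.closedBall (ψ 0) 1 :=
    (Metric.ball_subset_ball (min_le_right _ _)).trans Metric.ball_subset_closedBall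
  have hsub' : Metric.ball (0 : EN 4) (1 / 2) ⊆ Metric.closedBall (0 : EN 4) 1 :=
    (Metric.ball_subset_ball (by norm_num)).trans Metric.ball_subset_closedBall
  have hsub2 : Metric.ball (0 : EN 4) (1 / 2) ⊆ Metric.closedBall (0 : EN 4) (1 / 2) :=
    Metric.ball_subset_closedBall
  have hin : ∀ y ∈ Metric.ball (ψ 0) (min R₀ 1), y ∈ Metric.ball (ψ 0) R₀ := fun y hy =>
    Metric.ball_subset_ball (min_le_left _ _) hy
  refine ⟨min R₀ 1, Λ, ?_⟩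
  constructor
  · exact h
  · exact lt_min hR₀ one_pos
  · exact min_le_right _ _
  · exact l0
  · intro y hy
    have := hR y (hin y hy)
    exact ⟨this.1, this.2.1, this.2.2.1⟩
  · intro y hy
    exact (hR y (hin y hy)).2.2.2.1.le
  · intro y hy
    exact (hR y (hin y hy)).2.2.2.2.1.le
  · intro y hy
    exact (hR y (hin y hy)).2.2.2.2.2.le
  · intro y hy y' hy'
    exact (hC1 y (hsub hy) y' (hsub hy')).trans
      (mul_le_mul_of_nonneg_right l1 (norm_nonneg _))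
  · intro y hy y' hy'
    exact (hC2 y (hsub hy) y' (hsub hy')).trans
      (mul_le_mul_of_nonneg_right l2 (norm_nonneg _))
  · intro z hz z' hz'
    exact (hC3 z (hsub' hz) z' (hsub' hz')).trans
      (mul_le_mul_of_nonneg_right l3 (norm_nonneg _))
  · exact l4
  · intro z hz
    have h1 : |dn G ψ zm| ≤ |dn G ψ z| := hmin (hsub2 hz)
    rw [← hc] at h1
    refine le_trans ?_ h1
    exact inv_le_of_inv_le₀ hcpos l5
  · intro z hz
    have h1 : |dn G ψ z| ≤ |dn G ψ zM| := hmax (hsub2 hz)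
    rw [← hC4] at h1
    exact h1.trans l6

theorem IsPole.psi_Hk {R Λ : ℝ} (h : IsPole G ψ κ V R Λ) {y : EN N}
    (hy : y ∈ Metric.ball (ψ 0) R) : ψ (Hk G κ y) = G.rho y :=
  (h.chart.kap_mem (G.rho_mem y (h.mem y hy).1) (h.mem y hy).2.1).2

end Pool.Agent.W_MP_d8b8b7_G1
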