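import Pool.Agent.W_MP_d8b8b7_G1.MFacts

set_option autoImplicit false

/-!
# (G1) PullDefs: alternating maps from bilinear maps, pull back to `M`

* `altOf b` is the alternating map `v ↦ (b (v 0) (v 1) - b (v 1) (v 0)) / 2`; `altOf_apply` for `b` alternating.
* `locForm_pb1`, `locForm_pb2`: by definition of `locForm`,
  `(η (φ.symm y)).compContinuousLinearMap (mfderiv φ.symm y)` with
  `η q = (covOf (α (e q))).compContinuousLinearMap (de e q)`; the composition of the two linear maps is
  `fderiv (e ∘ φ.symm) y` (`fderiv_comp` of `MFacts`, also for all `y ∈ target`).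
-/

namespace Pool.Agent.W_MP_d8b8b7_G1

open Pool.Agent.W_MP_d8b8b7_gt
open MeasureTheory Set Filter Topology
open scoped Manifold ContDiff

section Alt

variable {E : Type*} [NormedAddCommGroup E] [NormedSpace ℝ E]

/-- pull back of a bilinear map by a linear map (arbitrary normed spaces) -/
noncomputable def pull {E' : Type*} [NormedAddCommGroup E'] [NormedSpace ℝ E'] (A : E' →L[ℝ] E)
    (b : E →L[ℝ] E →L[ℝ] ℝ) : E' →L[ℝ] E' →L[ℝ] ℝ :=
  b.bilinearComp A A

/-- the alternating 1-form of a covector -/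
noncomputable def covOf (f : E →L[ℝ] ℝ) : E [⋀^Fin 1]→L[ℝ] ℝ where
  toFun v := f (v 0)
  map_update_add' v i x y := by
    have : i = 0 := Subsingleton.elim _ _
    subst this
    simp
  map_update_smul' v i c x := by
    have : i = 0 := Subsingleton.elim _ _
    subst this
    simp
  cont := f.continuous.comp (continuous_apply 0)
  map_eq_zero_of_eq' v i j _ hij := absurd (Subsingleton.elim i j) hij

theorem covOf_apply (f : E →L[ℝ] ℝ) (v : Fin 1 → E) : covOf f v = f (v 0) := rfl

/-- the alternating 2-form of a bilinear map (its alternating part) -/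
noncomputable def altOf (b : E →L[ℝ] E →L[ℝ] ℝ) : E [⋀^Fin 2]→L[ℝ] ℝ where
  toFun v := (b (v 0) (v 1) - b (v 1) (v 0)) / 2
  map_update_add' v i x y := by
    fin_cases i <;> simp <;> ring
  map_update_smul' v i c x := by
    fin_cases i <;> simp <;> ring
  cont := by
    have h0 : Continuous fun v : Fin 2 → E => v 0 := continuous_apply 0
    have h1 : Continuous fun v : Fin 2 → E => v 1 := continuous_apply 1
    exact (((b.continuous.comp h0).clm_apply h1).sub ((b.continuous.comp h1).clm_apply h0)).div_const 2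
  map_eq_zero_of_eq' v i j h hij := by
    have h1 : v 0 = v 1 := by
      fin_cases i <;> fin_cases j <;> simp_all
    rw [h1]
    simp

theorem altOf_apply' (b : E →L[ℝ] E →L[ℝ] ℝ) (v : Fin 2 → E) :
    altOf b v = (b (v 0) (v 1) - b (v 1) (v 0)) / 2 := rfl

theorem altOf_apply (b : E →L[ℝ] E →L[ℝ] ℝ) (hb : ∀ v, b v v = 0) (u v : E) :
    altOf b ![u, v] = b u v := by
  rw [altOf_apply']
  have h := hb (u + v)
  simp only [map_add, add_apply, hb, zero_add, add_zero] at h
  simp only [Matrix.cons_val_zero, Matrix.cons_val_one]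
  linarith

theorem covOf_comp {E' : Type*} [NormedAddCommGroup E'] [NormedSpace ℝ E'] (A : E' →L[ℝ] E)
    (f : E →L[ℝ] ℝ) : (covOf f).compContinuousLinearMap A = covOf (f.comp A) := by
  ext v
  rfl

theorem altOf_comp {E' : Type*} [NormedAddCommGroup E'] [NormedSpace ℝ E'] (A : E' →L[ℝ] E)
    (b : E →L[ℝ] E →L[ℝ] ℝ) : (altOf b).compContinuousLinearMap A = altOf (pull A b) := by
  ext v
  rfl

/-- `covOf` as a continuous linear map (finite dimension) -/
noncomputable def covOfL [FiniteDimensional ℝ E] : (E →L[ℝ] ℝ) →L[ℝ] (E [⋀^Fin 1]→L[ℝ] ℝ) :=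
  LinearMap.toContinuousLinearMap
    { toFun := covOf
      map_add' := fun _ _ => by ext v; rfl
      map_smul' := fun _ _ => by ext v; rfl }

theorem covOfL_apply [FiniteDimensional ℝ E] (f : E →L[ℝ] ℝ) : covOfL f = covOf f := rfl

/-- `altOf` as a continuous linear map (finite dimension) -/
noncomputable def altOfL [FiniteDimensional ℝ E] :
    (E →L[ℝ] E →L[ℝ] ℝ) →L[ℝ] (E [⋀^Fin 2]→L[ℝ] ℝ) :=
  LinearMap.toContinuousLinearMap
    { toFun := altOf
      map_add' := fun b c => by
        ext v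
        change ((b (v 0) (v 1) + c (v 0) (v 1)) - (b (v 1) (v 0) + c (v 1) (v 0))) / 2 =
          (b (v 0) (v 1) - b (v 1) (v 0)) / 2 + (c (v 0) (v 1) - c (v 1) (v 0)) / 2
        ring
      map_smul' := fun r b => by
        ext v
        change (r * b (v 0) (v 1) - r * b (v 1) (v 0)) / 2 =
          r * ((b (v 0) (v 1) - b (v 1) (v 0)) / 2)
        ring }

theorem altOfL_apply [FiniteDimensional ℝ E] (b : E →L[ℝ] E →L[ℝ] ℝ) : altOfL b = altOf b := rfl

end Alt

variable {M : Type*} [TopologicalSpace M] [ChartedSpace E4 M] {N : ℕ}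

/-- pull back of a field of covectors -/
noncomputable def pb1 (e : M → EN N) (α : EN N → Cov N) : Form M 1 := fun q =>
  (covOf (α (e q))).compContinuousLinearMap (de e q)

/-- pull back of a field of bilinear forms -/
noncomputable def pb2 (e : M → EN N) (β : EN N → Bil N) : Form M 2 := fun q =>
  (altOf (β (e q))).compContinuousLinearMap (de e q)

theorem pb1_apply (e : M → EN N) (α : EN N → Cov N) (q : M) (v : EN 4) :
    pb1 e α q ![v] = α (e q) (de e q v) := by
  rfl

theorem pb2_apply (e : M → EN N) {β : EN N → Bil N} (hβ : ∀ x v, β x v v = 0) (q : M)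
    (u v : EN 4) : pb2 e β q ![u, v] = β (e q) (de e q u) (de e q v) := by
  have h : pb2 e β q ![u, v] = altOf (β (e q)) ![de e q u, de e q v] := by
    rfl
  rw [h, altOf_apply _ (hβ (e q))]
  rfl

/-- a 1-form is determined by its values -/
theorem form1_ext {η θ : Form M 1} (h : ∀ (q : M) (v : EN 4), η q ![v] = θ q ![v]) : η = θ := by
  funext q
  ext v
  have hv : v = ![v 0] := by
    funext i
    have : i = 0 := Subsingleton.elim _ _
    subst this
    rfl
  rw [hv]
  exact h q (v 0)

/-- a 2-form is determined by its values -/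
theorem form2_ext {η θ : Form M 2} (h : ∀ (q : M) (u v : EN 4), η q ![u, v] = θ q ![u, v]) :
    η = θ := by
  funext q
  ext v
  have hv : v = ![v 0, v 1] := by
    funext i
    fin_cases i <;> rfl
  rw [hv]
  exact h q (v 0) (v 1)

variable [IsManifold 𝓘(ℝ, E4) ∞ M]

/-- the derivative of `e ∘ φ.symm` as a composition -/
theorem PullDefs_comp {e : M → EN N} (he : ContMDiff 𝓘(ℝ, E4) 𝓘(ℝ, EN N) ∞ e) (p : M) {y : EN 4}
    (hy : y ∈ (extChartAt 𝓘(ℝ, E4) p).target) :
    fderiv ℝ (fun y => e ((extChartAt 𝓘(ℝ, E4) p).symm y)) y =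
      (de e ((extChartAt 𝓘(ℝ, E4) p).symm y)).comp (dsymm p y) := by
  refine ContinuousLinearMap.ext fun a => ?_
  exact fderiv_comp he p hy a

theorem locForm_pb1 {e : M → EN N} (he : ContMDiff 𝓘(ℝ, E4) 𝓘(ℝ, EN N) ∞ e)
    (α : EN N → Cov N) (p : M) {y : EN 4} (hy : y ∈ (extChartAt 𝓘(ℝ, E4) p).target) :
    locForm (pb1 e α) p y = (covOf (α (e ((extChartAt 𝓘(ℝ, E4) p).symm y)))).compContinuousLinearMap
      (fderiv ℝ (fun y => e ((extChartAt 𝓘(ℝ, E4) p).symm y)) y) := by
  rw [PullDefs_comp he p hy]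
  rfl

theorem locForm_pb2 {e : M → EN N} (he : ContMDiff 𝓘(ℝ, E4) 𝓘(ℝ, EN N) ∞ e)
    (β : EN N → Bil N) (p : M) {y : EN 4} (hy : y ∈ (extChartAt 𝓘(ℝ, E4) p).target) :
    locForm (pb2 e β) p y = (altOf (β (e ((extChartAt 𝓘(ℝ, E4) p).symm y)))).compContinuousLinearMap
      (fderiv ℝ (fun y => e ((extChartAt 𝓘(ℝ, E4) p).symm y)) y) := by
  rw [PullDefs_comp he p hy]
  rfl

end Pool.Agent.W_MP_d8b8b7_G1
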