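import Pool.Agent.W_MP_d8b8b7_G1.Base

set_option autoImplicit false

/-!
# (G1) RetrA: critical points of the distance, implicit function theorem

`h : LChart X ψ κ V`, `x0 = ψ 0`.  Let `F (y, z) = fun i => ⟪ψ z - y, fderiv ψ z (e i)⟫` (value in `EN 4`,
`e i = EuclideanSpace.single i 1`), smooth on `EN N × EN 4`, `F (x0, 0) = 0`.  Since `ψ 0 - x0 = 0`, the partial
derivative in `z` at `(x0, 0)` is `a ↦ fun i => ⟪Dψ(0) a, Dψ(0) (e i)⟫`; it is injective (if it kills `a` then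
`⟪Dψ(0) a, Dψ(0) a⟫ = 0`, and `Dψ(0)` is injective, `LChart.fderiv_psi_injective`), hence invertible
(`EN 4` finite-dimensional).  The implicit function theorem `ContDiffAt.implicitFunction`,
`ContDiffAt.eventually_apply_eq_iff_implicitFunction`, `ContDiffAt.contDiffAt_implicitFunction` (file
`Mathlib/Analysis/Calculus/ImplicitContDiff.lean`) gives `u` smooth at `x0` (`ContDiffAt ℝ ∞`) with:
for `(y, z)` near `(x0, 0)`, `F (y, z) = 0 ↔ u y = z`.
`ContDiffAt ℝ ∞ u x0` gives `ContDiffOn ℝ ∞ u W` for a neighbourhood `W` only for finite order; to avoid this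
problem prove: `F` is globally smooth, and the inverse function theorem `OpenPartialHomeomorph` of the map
`(y, z) ↦ (y, F (y, z))`; at every point `(y', z')` near `(x0, 0)` the partial derivative in `z` is still invertible
(open condition), so `u` is `ContDiffAt ℝ ∞` at every `y'` near `x0`
(`OpenPartialHomeomorph.contDiffAt_symm`).
-/

namespace Pool.Agent.W_MP_d8b8b7_G1

open Pool.Agent.W_MP_d8b8b7_gt
open MeasureTheory Set Filter Topology
open scoped Manifold ContDiff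

variable {N : ℕ} {X : Set (EN N)} {ψ : EN 4 → EN N} {κ : EN N → EN 4} {V : Set (EN N)}

/-- the equations of a critical point, componentwise -/
noncomputable def retrA_F {N : ℕ} (ψ : EN 4 → EN N) (q : EN N × EN 4) : Fin 4 → ℝ :=
  fun i => inner ℝ (ψ q.2 - q.1) (fderiv ℝ ψ q.2 (EuclideanSpace.single i (1 : ℝ)))

/-- the map to be inverted -/
noncomputable def retrA_G {N : ℕ} (ψ : EN 4 → EN N) (q : EN N × EN 4) :
    EN N × (Fin 4 → ℝ) := (q.1, retrA_F ψ q)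

theorem retrA_contDiff_comp (hψ : ContDiff ℝ ∞ ψ) (i : Fin 4) :
    ContDiff ℝ ∞ (fun z : EN 4 => fderiv ℝ ψ z (EuclideanSpace.single i (1 : ℝ))) :=
  (hψ.fderiv_right (m := ∞) (by simp)).clm_apply contDiff_const

theorem retrA_contDiff_F (hψ : ContDiff ℝ ∞ ψ) : ContDiff ℝ ∞ (retrA_F ψ) := by
  rw [contDiff_pi]
  intro i
  exact ContDiff.inner ℝ ((hψ.comp contDiff_snd).sub contDiff_fst)
    ((retrA_contDiff_comp hψ i).comp contDiff_snd)

theorem retrA_contDiff_G (hψ : ContDiff ℝ ∞ ψ) : ContDiff ℝ ∞ (retrA_G ψ) :=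
  contDiff_fst.prodMk (retrA_contDiff_F hψ)

theorem retrA_fderiv_F (hψ : ContDiff ℝ ∞ ψ) (v : EN N × EN 4) (i : Fin 4) :
    fderiv ℝ (retrA_F ψ) (ψ 0, 0) v i =
      inner ℝ (fderiv ℝ ψ 0 v.2 - v.1) (fderiv ℝ ψ 0 (EuclideanSpace.single i (1 : ℝ))) := by
  have hd : DifferentiableAt ℝ (retrA_F ψ) (ψ 0, 0) :=
    (retrA_contDiff_F hψ).differentiable (by simp) _
  have h1 : fderiv ℝ (retrA_F ψ) (ψ 0, 0) v i =
      fderiv ℝ (fun q => retrA_F ψ q i) (ψ 0, 0) v := by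
    have h := (hasFDerivAt_pi'.1 hd.hasFDerivAt) i
    rw [h.fderiv]
    rfl
  rw [h1]
  have hA : HasFDerivAt (fun q : EN N × EN 4 => ψ q.2 - q.1)
      ((fderiv ℝ ψ 0).comp (ContinuousLinearMap.snd ℝ (EN N) (EN 4)) -
        ContinuousLinearMap.fst ℝ (EN N) (EN 4)) (ψ 0, 0) := by
    refine HasFDerivAt.sub ?_ hasFDerivAt_fst
    have h2 : HasFDerivAt ψ (fderiv ℝ ψ 0) ((ψ 0, (0 : EN 4)) : EN N × EN 4).2 :=
      ((hψ.differentiable (by simp)) 0).hasFDerivAt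
    exact h2.comp (ψ 0, (0 : EN 4)) hasFDerivAt_snd
  have hB : HasFDerivAt
      (fun q : EN N × EN 4 => fderiv ℝ ψ q.2 (EuclideanSpace.single i (1 : ℝ)))
      ((fderiv ℝ (fun z : EN 4 => fderiv ℝ ψ z (EuclideanSpace.single i (1 : ℝ))) 0).comp
        (ContinuousLinearMap.snd ℝ (EN N) (EN 4))) (ψ 0, 0) := by
    have h2 : HasFDerivAt (fun z : EN 4 => fderiv ℝ ψ z (EuclideanSpace.single i (1 : ℝ)))
        (fderiv ℝ (fun z : EN 4 => fderiv ℝ ψ z (EuclideanSpace.single i (1 : ℝ))) 0)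
        ((ψ 0, (0 : EN 4)) : EN N × EN 4).2 :=
      (((retrA_contDiff_comp hψ i).differentiable (by simp)) 0).hasFDerivAt
    exact h2.comp (ψ 0, (0 : EN 4)) hasFDerivAt_snd
  have hC := hA.inner ℝ hB
  have hC' : HasFDerivAt (fun q => retrA_F ψ q i) _ (ψ 0, 0) := hC
  rw [hC'.fderiv]
  simp

theorem retrA_fderiv_G (hψ : ContDiff ℝ ∞ ψ) (q v : EN N × EN 4) :
    fderiv ℝ (retrA_G ψ) q v = (v.1, fderiv ℝ (retrA_F ψ) q v) := by
  have hd : DifferentiableAt ℝ (retrA_F ψ) q :=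
    (retrA_contDiff_F hψ).differentiable (by simp) _
  have h : HasFDerivAt (retrA_G ψ) ((ContinuousLinearMap.fst ℝ (EN N) (EN 4)).prod
      (fderiv ℝ (retrA_F ψ) q)) q := hasFDerivAt_fst.prodMk hd.hasFDerivAt
  rw [h.fderiv]
  rfl

theorem LChart.retrA_inj (h : LChart X ψ κ V) :
    Function.Injective (fderiv ℝ (retrA_G ψ) (ψ 0, 0)) := by
  rw [injective_iff_map_eq_zero]
  intro v hv
  rw [retrA_fderiv_G h.smooth_psi, Prod.mk_eq_zero] at hv
  obtain ⟨h1, h2⟩ := hv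
  have h3 : ∀ i : Fin 4, inner ℝ (fderiv ℝ ψ 0 v.2)
      (fderiv ℝ ψ 0 (EuclideanSpace.single i (1 : ℝ))) = 0 := by
    intro i
    have := congrFun h2 i
    rw [retrA_fderiv_F h.smooth_psi, h1, sub_zero] at this
    exact this
  have h4 : v.2 = ∑ i : Fin 4, v.2 i • EuclideanSpace.single i (1 : ℝ) := by
    ext j
    simp [Finset.sum_apply, Pi.single_apply]
  have h5 : inner ℝ (fderiv ℝ ψ 0 v.2) (fderiv ℝ ψ 0 v.2) = 0 := by
    conv_lhs => rw [show fderiv ℝ ψ 0 v.2 = fderiv ℝ ψ 0 v.2 from rfl]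
    have h6 : fderiv ℝ ψ 0 v.2 =
        ∑ i : Fin 4, v.2 i • fderiv ℝ ψ 0 (EuclideanSpace.single i (1 : ℝ)) := by
      conv_lhs => rw [h4]
      simp [map_sum]
    calc inner ℝ (fderiv ℝ ψ 0 v.2) (fderiv ℝ ψ 0 v.2)
        = inner ℝ (fderiv ℝ ψ 0 v.2)
          (∑ i : Fin 4, v.2 i • fderiv ℝ ψ 0 (EuclideanSpace.single i (1 : ℝ))) := by
          rw [← h6]
      _ = 0 := by
          rw [inner_sum]
          refine Finset.sum_eq_zero fun i _ => ?_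
          rw [inner_smul_right, h3 i, mul_zero]
  have h7 : fderiv ℝ ψ 0 v.2 = 0 := inner_self_eq_zero.1 h5
  have h8 : v.2 = 0 := h.fderiv_psi_injective (z := 0) (by simp) (by rw [h7, map_zero])
  exact Prod.ext h1 h8

theorem LChart.retrA_equiv (h : LChart X ψ κ V) :
    ∃ e : (EN N × EN 4) ≃L[ℝ] (EN N × (Fin 4 → ℝ)),
      HasFDerivAt (retrA_G ψ) (e : (EN N × EN 4) →L[ℝ] (EN N × (Fin 4 → ℝ))) (ψ 0, 0) := by
  have hd : DifferentiableAt ℝ (retrA_G ψ) (ψ 0, 0) :=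
    (retrA_contDiff_G h.smooth_psi).differentiable (by simp) _
  have hfr : Module.finrank ℝ (EN N × EN 4) = Module.finrank ℝ (EN N × (Fin 4 → ℝ)) := by
    simp
  let e0 : (EN N × EN 4) ≃ₗ[ℝ] (EN N × (Fin 4 → ℝ)) :=
    LinearEquiv.ofInjectiveOfFinrankEq
      (fderiv ℝ (retrA_G ψ) (ψ 0, 0) : (EN N × EN 4) →ₗ[ℝ] (EN N × (Fin 4 → ℝ)))
      h.retrA_inj hfr
  refine ⟨e0.toContinuousLinearEquiv, ?_⟩
  have : (e0.toContinuousLinearEquiv : (EN N × EN 4) →L[ℝ] (EN N × (Fin 4 → ℝ))) =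
      fderiv ℝ (retrA_G ψ) (ψ 0, 0) := by
    refine ContinuousLinearMap.ext fun v => ?_
    rfl
  rw [this]
  exact hd.hasFDerivAt

theorem LChart.critical (h : LChart X ψ κ V) :
    ∃ (W : Set (EN N)) (η : ℝ) (u : EN N → EN 4), IsOpen W ∧ ψ 0 ∈ W ∧ 0 < η ∧ η < 1 ∧
      ContDiffOn ℝ ∞ u W ∧
      ∀ y ∈ W, ∀ z : EN 4, ‖z‖ < η → (∀ a : EN 4, inner ℝ (ψ z - y) (fderiv ℝ ψ z a) = 0) →
        z = u y := by
  have hψ := h.smooth_psi
  obtain ⟨e, he⟩ := h.retrA_equiv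
  have hG : ContDiff ℝ ∞ (retrA_G ψ) := retrA_contDiff_G hψ
  have hne : (∞ : WithTop ℕ∞) ≠ 0 := by simp
  let Φ := (hG.contDiffAt (x := (ψ 0, (0 : EN 4)))).toOpenPartialHomeomorph (retrA_G ψ) he hne
  have hΦ : ∀ q, Φ q = retrA_G ψ q := fun q => rfl
  have hsrc : (ψ 0, (0 : EN 4)) ∈ Φ.source :=
    (hG.contDiffAt (x := (ψ 0, (0 : EN 4)))).mem_toOpenPartialHomeomorph_source he hne
  have hG0 : retrA_G ψ (ψ 0, 0) = (ψ 0, 0) := by
    refine Prod.ext rfl ?_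
    funext i
    simp [retrA_G, retrA_F]
  -- invertible derivatives nearby
  have hev : ∀ᶠ q in 𝓝 (ψ 0, (0 : EN 4)), ∃ f' : (EN N × EN 4) ≃L[ℝ] (EN N × (Fin 4 → ℝ)),
      HasFDerivAt (retrA_G ψ) (f' : (EN N × EN 4) →L[ℝ] (EN N × (Fin 4 → ℝ))) q := by
    have hc : ContinuousAt (fderiv ℝ (retrA_G ψ)) (ψ 0, (0 : EN 4)) :=
      (hG.continuous_fderiv (by simp)).continuousAt
    have hn := ContinuousLinearEquiv.nhds e
    rw [← he.fderiv] at hn
    filter_upwards [hc.preimage_mem_nhds hn] with q hq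
    obtain ⟨f', hf'⟩ := hq
    refine ⟨f', ?_⟩
    rw [hf']
    exact ((hG.differentiable (by simp)) q).hasFDerivAt
  obtain ⟨P, hPsub, hPo, hP0⟩ := eventually_nhds_iff.1 hev
  obtain ⟨ε, hε, hεsub⟩ := Metric.isOpen_iff.1 Φ.open_source _ hsrc
  have hT' : IsOpen (Φ.target ∩ Φ.symm ⁻¹' P) := Φ.isOpen_inter_preimage_symm hPo
  have hcont : Continuous (fun y : EN N => (y, (0 : Fin 4 → ℝ))) := by fun_prop
  refine ⟨(fun y : EN N => (y, (0 : Fin 4 → ℝ))) ⁻¹' (Φ.target ∩ Φ.symm ⁻¹' P) ∩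
    Metric.ball (ψ 0) ε, min ε (1 / 2), fun y => (Φ.symm (y, (0 : Fin 4 → ℝ))).2,
    (hT'.preimage hcont).inter Metric.isOpen_ball, ?_, lt_min hε (by norm_num),
    lt_of_le_of_lt (min_le_right _ _) (by norm_num), ?_, ?_⟩
  · refine ⟨⟨?_, ?_⟩, Metric.mem_ball_self hε⟩
    · have := Φ.map_source hsrc
      rw [hΦ, hG0] at this
      exact this
    · have := Φ.left_inv hsrc
      rw [hΦ, hG0] at this
      show Φ.symm (ψ 0, 0) ∈ P
      rw [this]
      exact hP0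
  · intro y hy
    obtain ⟨⟨hyT, hyP⟩, -⟩ := hy
    obtain ⟨f', hf'⟩ := hPsub _ hyP
    have h1 : ContDiffAt ℝ ∞ Φ.symm (y, (0 : Fin 4 → ℝ)) :=
      Φ.contDiffAt_symm hyT hf' hG.contDiffAt
    have h2 : ContDiffAt ℝ ∞ (fun y : EN N => Φ.symm (y, (0 : Fin 4 → ℝ))) y :=
      ContDiffAt.comp (f := fun y : EN N => (y, (0 : Fin 4 → ℝ))) y h1
        (contDiffAt_id.prodMk contDiffAt_const)
    exact (contDiffAt_snd.comp y h2).contDiffWithinAt
  · intro y hy z hz hin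
    obtain ⟨-, hyε⟩ := hy
    have hmem : (y, z) ∈ Φ.source := by
      apply hεsub
      rw [Metric.mem_ball, Prod.dist_eq, max_lt_iff]
      refine ⟨hyε, ?_⟩
      rw [dist_zero_right]
      exact lt_of_lt_of_le hz (min_le_left _ _)
    have hGyz : retrA_G ψ (y, z) = (y, 0) := by
      refine Prod.ext rfl ?_
      funext i
      exact hin _
    have := Φ.left_inv hmem
    rw [hΦ, hGyz] at this
    show z = (Φ.symm (y, (0 : Fin 4 → ℝ))).2
    rw [this]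

end Pool.Agent.W_MP_d8b8b7_G1
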