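import Pool.Agent.W_MP_d8b8b7_G1.Volume
import Pool.Agent.W_MP_d8b8b7_G1.Stokes4
import Pool.Agent.W_MP_d8b8b7_G1.AltD

set_option autoImplicit false

/-!
# (G1) StokesX: Stokes theorem on `X`

`stokes_local`: `tsupport α ⊆ V`.  Write `w x = wedge (comp6 (dOne α x) fr) (comp6 (β x) fr)`; measurable, `w = 0`
outside `V`.  `∫ w dnu = ∫_V w dnu = ∫_{ball} w (ψ z) |dn z| dz` (`IsVol.integral_chart`), and `|dn| = σ dn`
(`dn_sign`), `w (ψ z) dn z = wedge (comp6 (pull Dψ (dOne α (ψ z))) std4) (comp6 (pull Dψ (β (ψ z))) std4)`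
(`dn_orient`, `dOne` is alternating).  Let `K = κ '' (X ∩ tsupport α)`, a compact subset of the open unit ball,
and `a z = (α (ψ z)).comp (Dψ z)` for `z` in the ball, `a z = 0` otherwise: `a` is smooth with support in `K` (it is
smooth in the ball and vanishes on the open complement of `K`).  `b z = pull (Dψ z) (β (ψ z))` is smooth,
alternating, and `dTwo b z = 0` for `z` in the ball (`dTwo_pull`, `G.Closed β`, `D_psi`).
`dOne a = pull Dψ (dOne α ∘ ψ)` in the ball (`dOne_pull`).  Conclude with `stokes4`.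

`stokes_X`: finite cover of `X` by chart domains `V i`, `i : Fin n`, together with `Xᶜ` an open cover of `EN N`;
smooth partition of unity `χ` subordinate to it (`SmoothPartitionOfUnity.exists_isSubordinate` with finite
index type `Option (Fin n)`), `α = ∑ χ i • α` everywhere, `dOne α = ∑ dOne (χ i • α)`; the part subordinate to
`Xᶜ` vanishes near `X`, the others are treated by `stokes_local`.  Integrability of each term: bounded measurable
on `X` (`IsFrame.bound`, continuity on the compact `X`), `nu` finite, `nu Xᶜ = 0`.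
-/

namespace Pool.Agent.W_MP_d8b8b7_G1

open Pool.Agent.W_MP_d8b8b7_gt
open MeasureTheory Set Filter Topology
open scoped Manifold ContDiff

variable {N : ℕ} {G : Geom N} {fr : Fin 4 → EN N → EN N} {nu : Measure (EN N)}

theorem StokesX_continuous_eval :
    Continuous (fun p : Bil N × EN N × EN N => p.1 p.2.1 p.2.2) := by
  have h : Continuous (fun p : Bil N × EN N × EN N => Bil.toCLM p.1 p.2.1 p.2.2) :=
    (((Bil.toCLM (N := N)).continuous.comp continuous_fst).clm_apply
      (continuous_fst.comp continuous_snd)).clm_apply (continuous_snd.comp continuous_snd)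
  exact h

theorem StokesX_measurable_eval {B : EN N → Bil N} (hB : Continuous B) {f g : EN N → EN N}
    (hf : Measurable f) (hg : Measurable g) : Measurable (fun x => B x (f x) (g x)) := by
  exact StokesX_continuous_eval.measurable.comp (hB.measurable.prodMk (hf.prodMk hg))

theorem StokesX_measurable_wedge (hf : IsFrame G fr) (β γ : EN N → Bil N) (hβ : Continuous β)
    (hγ : Continuous γ) : Measurable (fun x =>
      wedge (comp6 (β x) (fun a => fr a x)) (comp6 (γ x) (fun a => fr a x))) := by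
  have hb : ∀ i j : Fin 4, Measurable (fun x => β x (fr i x) (fr j x)) := fun i j =>
    StokesX_measurable_eval hβ (hf.meas i) (hf.meas j)
  have hc : ∀ i j : Fin 4, Measurable (fun x => γ x (fr i x) (fr j x)) := fun i j =>
    StokesX_measurable_eval hγ (hf.meas i) (hf.meas j)
  unfold wedge
  exact ((((((hb 0 1).mul (hc 2 3)).sub ((hb 0 2).mul (hc 1 3))).add
    ((hb 0 3).mul (hc 1 2))).add ((hb 1 2).mul (hc 0 3))).sub
    ((hb 1 3).mul (hc 0 2))).add ((hb 2 3).mul (hc 0 1))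

theorem StokesX_continuous_dOne {α : EN N → Cov N} (hα : IsOne α) : Continuous (dOne α) := by
  have h1 : Continuous (fun x => (Bil.toCLM (N := N)).symm (fderiv ℝ α x)) :=
    (Bil.toCLM (N := N)).symm.continuous.comp (hα.continuous_fderiv (by simp))
  have h2 : Continuous (fun x => Bil.flipL ((Bil.toCLM (N := N)).symm (fderiv ℝ α x))) :=
    (Bil.flipL (N := N)).continuous.comp h1
  exact h1.sub h2

theorem StokesX_dOne_eq_zero {α : EN N → Cov N} {x : EN N} (h : α =ᶠ[𝓝 x] fun _ => 0) :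
    dOne α x = 0 := by
  refine Bil.ext fun u v => ?_
  rw [dOne_apply, h.fderiv_eq]
  simp

theorem StokesX_dOne_congr {α α' : EN N → Cov N} {x : EN N} (h : α =ᶠ[𝓝 x] α') :
    dOne α x = dOne α' x := by
  refine Bil.ext fun u v => ?_
  rw [dOne_apply, dOne_apply, h.fderiv_eq]

theorem StokesX_comp6_zero (f : Fin 4 → EN N) : comp6 (0 : Bil N) f = 0 := by
  ext i
  fin_cases i <;> rfl

theorem StokesX_wedge_zero (b : C6) : wedge 0 b = 0 := by
  unfold wedge
  simp


/-- pull back of the 1-form, cut off outside the ball -/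
noncomputable def StokesX_a (ψ : EN 4 → EN N) (α : EN N → Cov N) : EN 4 → Cov 4 :=
  (Metric.ball (0 : EN 4) 1).indicator fun z => (α (ψ z)).comp (fderiv ℝ ψ z)

theorem StokesX_a_ball (ψ : EN 4 → EN N) (α : EN N → Cov N) {z : EN 4}
    (hz : z ∈ Metric.ball (0 : EN 4) 1) :
    StokesX_a ψ α z = (α (ψ z)).comp (fderiv ℝ ψ z) :=
  indicator_of_mem hz _

theorem StokesX_a_out (ψ : EN 4 → EN N) (α : EN N → Cov N) {z : EN 4}
    (hz : z ∉ Metric.ball (0 : EN 4) 1) : StokesX_a ψ α z = 0 :=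
  indicator_of_notMem hz _

theorem StokesX_K {X : Set (EN N)} (hX : IsCompact X) {ψ : EN 4 → EN N}
    {κ : EN N → EN 4} {V : Set (EN N)} (h : LChart X ψ κ V) (α : EN N → Cov N)
    (hs : tsupport α ⊆ V) : ∃ K : Set (EN 4), IsCompact K ∧ K ⊆ Metric.ball (0 : EN 4) 1 ∧
      ∀ z, z ∉ K → StokesX_a ψ α z = 0 := by
  refine ⟨κ '' (X ∩ tsupport α), (hX.inter_right (isClosed_tsupport α)).image
    h.smooth_kap.continuous, ?_, ?_⟩
  · rintro _ ⟨x, ⟨hx, hxs⟩, rfl⟩
    exact (h.kap_mem hx (hs hxs)).1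
  · intro z hz
    by_cases hb : z ∈ Metric.ball (0 : EN 4) 1
    · rw [StokesX_a_ball ψ α hb]
      have h0 : α (ψ z) = 0 := by
        by_contra hne
        exact hz ⟨ψ z, ⟨(h.psi_mem hb).1, subset_tsupport α hne⟩, h.kap_psi z hb⟩
      rw [h0, ContinuousLinearMap.zero_comp]
    · exact StokesX_a_out ψ α hb

theorem StokesX_a_near (ψ : EN 4 → EN N) (α : EN N → Cov N) {z : EN 4}
    (hz : z ∈ Metric.ball (0 : EN 4) 1) :
    StokesX_a ψ α =ᶠ[𝓝 z] fun y => (α (ψ y)).comp (fderiv ℝ ψ y) := by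
  filter_upwards [Metric.isOpen_ball.mem_nhds hz] with y hy
  exact StokesX_a_ball ψ α hy

theorem stokes_local (hX : IsSub G.X) (hf : IsFrame G fr) (hn : IsVol G nu) {ψ : EN 4 → EN N}
    {κ : EN N → EN 4} {V : Set (EN N)} (h : LChart G.X ψ κ V) (α : EN N → Cov N)
    (β : EN N → Bil N) (hα : IsOne α) (hβ : IsForm β) (hcl : G.Closed β) (hs : tsupport α ⊆ V) :
    ∫ x, wedge (comp6 (dOne α x) (fun a => fr a x)) (comp6 (β x) (fun a => fr a x)) ∂nu = 0 := by
  have hdα : Continuous (dOne α) := StokesX_continuous_dOne hα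
  have hmeas := StokesX_measurable_wedge hf (dOne α) β hdα hβ.smooth.continuous
  -- restriction to the chart
  have e1 : ∫ x in V, wedge (comp6 (dOne α x) (fun a => fr a x))
      (comp6 (β x) (fun a => fr a x)) ∂nu =
      ∫ x, wedge (comp6 (dOne α x) (fun a => fr a x)) (comp6 (β x) (fun a => fr a x)) ∂nu := by
    apply setIntegral_eq_integral_of_forall_compl_eq_zero
    intro x hx
    have h0 : α =ᶠ[𝓝 x] fun _ => 0 := notMem_tsupport_iff_eventuallyEq.1 fun hx' => hx (hs hx')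
    rw [StokesX_dOne_eq_zero h0, StokesX_comp6_zero, StokesX_wedge_zero]
  rw [← e1, hn.integral_chart h _ hmeas]
  obtain ⟨σ, hσ, hσp⟩ := dn_sign hX h
  obtain ⟨K, hKc, hKb, hK0⟩ := StokesX_K hX.cpt h α hs
  set a := StokesX_a ψ α with ha
  set b : EN 4 → Bil 4 := fun z => Bil.pull (fderiv ℝ ψ z) (β (ψ z)) with hb
  have hKo : IsOpen Kᶜ := hKc.isClosed.isOpen_compl
  have haK : ∀ z, z ∉ K → a =ᶠ[𝓝 z] fun _ => 0 := by
    intro z hz
    filter_upwards [hKo.mem_nhds hz] with y hy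
    exact hK0 y hy
  have hψ' : ContDiff ℝ ∞ (fderiv ℝ ψ) := h.smooth_psi.fderiv_right (m := ∞) (by simp)
  have hasm : ContDiff ℝ ∞ a := by
    rw [contDiff_iff_contDiffAt]
    intro z
    by_cases hz : z ∈ Metric.ball (0 : EN 4) 1
    · refine ContDiffAt.congr_of_eventuallyEq ?_ (StokesX_a_near ψ α hz)
      exact ((ContDiff.comp hα h.smooth_psi).clm_comp hψ').contDiffAt
    · exact contDiffAt_const.congr_of_eventuallyEq (haK z fun hzK => hz (hKb hzK))
  have hbsm : ContDiff ℝ ∞ b := Bil.contDiff_pull (hβ.smooth.comp h.smooth_psi) hψ'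
  have hst := stokes4 a b hasm hbsm (HasCompactSupport.intro hKc hK0)
    (fun y v => by rw [hb]; exact hβ.alt _ _) (by
      intro y hy u v w
      have hyb : y ∈ Metric.ball (0 : EN 4) 1 := by
        by_contra hyb
        exact hy (StokesX_a_out ψ α hyb)
      have hd := dTwo_pull ψ β hβ.alt y h.smooth_psi.contDiffAt
        (hβ.smooth.differentiable (by simp) _) u v w
      have hd' : dTwo b y u v w = dTwo β (ψ y) (fderiv ℝ ψ y u) (fderiv ℝ ψ y v)
        (fderiv ℝ ψ y w) := hd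
      rw [hd']
      exact hcl (ψ y) (h.psi_mem hyb).1 _ _ _ (D_psi h (ga_retr G) hyb u)
        (D_psi h (ga_retr G) hyb v) (D_psi h (ga_retr G) hyb w))
  -- comparison of the integrands
  have e2 : ∀ z ∈ Metric.ball (0 : EN 4) 1,
      wedge (comp6 (dOne α (ψ z)) (fun a => fr a (ψ z))) (comp6 (β (ψ z)) (fun a => fr a (ψ z))) *
        |dn G ψ z| = σ * wedge (comp6 (dOne a z) std4) (comp6 (b z) std4) := by
    intro z hz
    have habs : |dn G ψ z| = σ * dn G ψ z := by
      have hp := hσp z hz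
      rcases hσ with hσ | hσ
      · rw [hσ, one_mul] at hp ⊢
        exact abs_of_pos hp
      · rw [hσ, neg_one_mul] at hp ⊢
        exact abs_of_neg (by linarith)
    have ho := dn_orient hf h hz (dOne α (ψ z)) (β (ψ z)) (fun v => AltD_dOne_self _ _ _)
      (hβ.alt _)
    have hda : dOne a z = Bil.pull (fderiv ℝ ψ z) (dOne α (ψ z)) := by
      rw [StokesX_dOne_congr (StokesX_a_near ψ α hz)]
      exact dOne_pull ψ α z h.smooth_psi.contDiffAt (hα.differentiable (by simp) _)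
    rw [habs, hda]
    calc wedge (comp6 (dOne α (ψ z)) (fun a => fr a (ψ z)))
          (comp6 (β (ψ z)) (fun a => fr a (ψ z))) * (σ * dn G ψ z)
        = σ * (wedge (comp6 (dOne α (ψ z)) (fun a => fr a (ψ z)))
          (comp6 (β (ψ z)) (fun a => fr a (ψ z))) * dn G ψ z) := by ring
      _ = _ := by rw [ho]
  rw [setIntegral_congr_fun Metric.isOpen_ball.measurableSet e2]
  have e3 : ∫ z in Metric.ball (0 : EN 4) 1,
      σ * wedge (comp6 (dOne a z) std4) (comp6 (b z) std4) =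
      ∫ z, σ * wedge (comp6 (dOne a z) std4) (comp6 (b z) std4) := by
    apply setIntegral_eq_integral_of_forall_compl_eq_zero
    intro z hz
    rw [StokesX_dOne_eq_zero (haK z fun hzK => hz (hKb hzK)), StokesX_comp6_zero,
      StokesX_wedge_zero, mul_zero]
  rw [e3, integral_const_mul, hst, mul_zero]

theorem StokesX_wedge_le (a b : C6) {A B : ℝ} (hA : 0 ≤ A) (ha : ∀ i, |a i| ≤ A)
    (hb : ∀ i, |b i| ≤ B) : |wedge a b| ≤ 6 * (A * B) := by
  have hm : ∀ i j, |a i * b j| ≤ A * B := by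
    intro i j
    rw [abs_mul]
    exact mul_le_mul (ha i) (hb j) (abs_nonneg _) hA
  unfold wedge
  have h1 := abs_le.1 (hm 0 5)
  have h2 := abs_le.1 (hm 1 4)
  have h3 := abs_le.1 (hm 2 3)
  have h4 := abs_le.1 (hm 3 2)
  have h5 := abs_le.1 (hm 4 1)
  have h6 := abs_le.1 (hm 5 0)
  rw [abs_le]
  constructor <;> linarith [h1.1, h1.2, h2.1, h2.2, h3.1, h3.2, h4.1, h4.2, h5.1, h5.2, h6.1, h6.2]

theorem StokesX_comp6_le (β : Bil N) (f : Fin 4 → EN N) {B C : ℝ} (hB : ‖β‖ ≤ B) (hC : 0 ≤ C)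
    (hf : ∀ i, ‖f i‖ ≤ C) (i : Fin 6) : |comp6 β f i| ≤ B * C * C := by
  have h : ∀ j k, |β (f j) (f k)| ≤ B * C * C := by
    intro j k
    have hB0 : 0 ≤ B := (norm_nonneg β).trans hB
    calc |β (f j) (f k)| ≤ ‖β‖ * ‖f j‖ * ‖f k‖ := β.abs_apply_le _ _
      _ ≤ B * C * C := by
        apply mul_le_mul (mul_le_mul hB (hf j) (norm_nonneg _) hB0) (hf k) (norm_nonneg _)
        positivity
  fin_cases i
  · exact h 0 1
  · exact h 0 2
  · exact h 0 3
  · exact h 1 2
  · exact h 1 3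
  · exact h 2 3

/-- the integrand is integrable -/
theorem integrable_wedge (hX : IsSub G.X) (hf : IsFrame G fr) (hn : IsVol G nu)
    (β γ : EN N → Bil N) (hβ : Continuous β) (hγ : Continuous γ) :
    Integrable (fun x => wedge (comp6 (β x) (fun a => fr a x)) (comp6 (γ x) (fun a => fr a x)))
      nu := by
  have hfin := hn.fin
  obtain ⟨C, hC, hfC⟩ := hf.bound
  obtain ⟨B, hB⟩ := hX.cpt.exists_bound_of_continuousOn hβ.continuousOn
  obtain ⟨B', hB'⟩ := hX.cpt.exists_bound_of_continuousOn hγ.continuousOn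
  refine Integrable.of_bound (StokesX_measurable_wedge hf β γ hβ hγ).aestronglyMeasurable
    (6 * ((|B| * C * C) * (B' * C * C))) ?_
  have hae : ∀ᵐ x ∂nu, x ∈ G.X := by
    rw [ae_iff]
    exact hn.compl
  filter_upwards [hae] with x hx
  rw [Real.norm_eq_abs]
  exact StokesX_wedge_le _ _ (by positivity)
    (StokesX_comp6_le _ _ ((hB x hx).trans (le_abs_self B)) hC (hfC x hx))
    (StokesX_comp6_le _ _ (hB' x hx) hC (hfC x hx))

theorem StokesX_cover (hX : IsSub G.X) : ∃ (ι : Type) (_ : Fintype ι) (V : ι → Set (EN N)),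
    (∀ i, IsOpen (V i)) ∧ G.X ⊆ ⋃ i, V i ∧
      ∀ i, ∃ (ψ : EN 4 → EN N) (κ : EN N → EN 4), LChart G.X ψ κ (V i) := by
  have hc : ∀ x : G.X, ∃ V : Set (EN N), (x : EN N) ∈ V ∧
      ∃ (ψ : EN 4 → EN N) (κ : EN N → EN 4), LChart G.X ψ κ V := by
    intro x
    obtain ⟨ψ, κ, V, h, h0⟩ := hX.chart x x.2
    refine ⟨V, ?_, ψ, κ, h⟩
    rw [← h0]
    exact (h.psi_mem (Metric.mem_ball_self one_pos)).2
  choose V hV ψ κ h using hc
  obtain ⟨t, ht⟩ := hX.cpt.elim_finite_subcover V (fun x => (h x).openV)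
    (fun x hx => mem_iUnion.2 ⟨⟨x, hx⟩, hV ⟨x, hx⟩⟩)
  refine ⟨Fin t.card, inferInstance, fun i => V (t.equivFin.symm i), fun i => (h _).openV, ?_,
    fun i => ⟨_, _, h _⟩⟩
  intro x hx
  obtain ⟨y, hy, hxy⟩ := mem_iUnion₂.1 (ht hx)
  refine mem_iUnion.2 ⟨t.equivFin ⟨y, hy⟩, ?_⟩
  rw [Equiv.symm_apply_apply]
  exact hxy

theorem StokesX_dOne_sum {ι : Type} [Fintype ι] (f : ι → EN N → Cov N) (hf : ∀ i, IsOne (f i))
    (x : EN N) : dOne (fun y => ∑ i, f i y) x = ∑ i, dOne (f i) x := by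
  refine Bil.ext fun u v => ?_
  have h1 : fderiv ℝ (fun y => ∑ i, f i y) x = ∑ i, fderiv ℝ (f i) x := by
    rw [fderiv_fun_sum]
    intro i _
    exact (hf i).differentiable (by simp) _
  rw [Bil.sum_apply, dOne_apply, h1]
  simp only [dOne_apply, Finset.sum_sub_distrib]
  simp

theorem StokesX_wedge_sum {ι : Type} [Fintype ι] (B : ι → Bil N) (f : Fin 4 → EN N) (c : C6) :
    wedge (comp6 (∑ i, B i) f) c = ∑ i, wedge (comp6 (B i) f) c := by
  have e : ∀ j k, (∑ i, B i) (f j) (f k) = ∑ i, B i (f j) (f k) := fun j k =>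
    Bil.sum_apply _ _ _ _
  have e' : wedge (comp6 (∑ i, B i) f) c = (∑ i, B i) (f 0) (f 1) * c 5 -
      (∑ i, B i) (f 0) (f 2) * c 4 + (∑ i, B i) (f 0) (f 3) * c 3 +
      (∑ i, B i) (f 1) (f 2) * c 2 - (∑ i, B i) (f 1) (f 3) * c 1 +
      (∑ i, B i) (f 2) (f 3) * c 0 := rfl
  have e'' : ∀ i, wedge (comp6 (B i) f) c = B i (f 0) (f 1) * c 5 -
      B i (f 0) (f 2) * c 4 + B i (f 0) (f 3) * c 3 +
      B i (f 1) (f 2) * c 2 - B i (f 1) (f 3) * c 1 +
      B i (f 2) (f 3) * c 0 := fun i => rfl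
  rw [e', e, e, e, e, e, e]
  simp only [e'', Finset.sum_add_distrib, Finset.sum_sub_distrib, Finset.sum_mul]

theorem stokes_X (hX : IsSub G.X) (hf : IsFrame G fr) (hn : IsVol G nu) (α : EN N → Cov N)
    (β : EN N → Bil N) (hα : IsOne α) (hβ : IsForm β) (hcl : G.Closed β) :
    ∫ x, wedge (comp6 (dOne α x) (fun a => fr a x)) (comp6 (β x) (fun a => fr a x)) ∂nu = 0 := by
  obtain ⟨ι, hι, V, hVo, hVc, hch⟩ := StokesX_cover hX
  let U : Option ι → Set (EN N) := fun o => o.elim G.Xᶜ V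
  have hUo : ∀ o, IsOpen (U o) := by
    intro o
    cases o with
    | none => exact hX.cpt.isClosed.isOpen_compl
    | some i => exact hVo i
  have hUc : (univ : Set (EN N)) ⊆ ⋃ o, U o := by
    intro x _
    by_cases hx : x ∈ G.X
    · obtain ⟨i, hi⟩ := mem_iUnion.1 (hVc hx)
      exact mem_iUnion.2 ⟨some i, hi⟩
    · exact mem_iUnion.2 ⟨none, hx⟩
  obtain ⟨χ, hχ⟩ := SmoothPartitionOfUnity.exists_isSubordinate 𝓘(ℝ, EN N) isClosed_univ U hUo hUc
  have hχs : ∀ o, ContDiff ℝ ∞ (fun x => χ o x) := fun o => (χ o).contMDiff.contDiff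
  have hsum : ∀ x, ∑ o, χ o x = 1 := by
    intro x
    have := χ.sum_eq_one (mem_univ x)
    rwa [finsum_eq_sum_of_fintype] at this
  have hone : ∀ o, IsOne (fun x => χ o x • α x) := fun o => (hχs o).smul hα
  have hαs : α = fun x => ∑ o, χ o x • α x := by
    funext x
    rw [← Finset.sum_smul, hsum, one_smul]
  have hd : ∀ x, dOne α x = ∑ o, dOne (fun x => χ o x • α x) x := by
    intro x
    conv_lhs => rw [hαs]
    exact StokesX_dOne_sum _ hone x
  have e1 : (fun x => wedge (comp6 (dOne α x) (fun a => fr a x)) (comp6 (β x) (fun a => fr a x))) =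
      fun x => ∑ o, wedge (comp6 (dOne (fun x => χ o x • α x) x) (fun a => fr a x))
        (comp6 (β x) (fun a => fr a x)) := by
    funext x
    rw [hd, StokesX_wedge_sum]
  rw [e1, integral_finsetSum _ fun o _ => integrable_wedge hX hf hn _ β
    (StokesX_continuous_dOne (hone o)) hβ.smooth.continuous]
  refine Finset.sum_eq_zero fun o _ => ?_
  have htsub : tsupport (fun x => χ o x • α x) ⊆ U o :=
    (tsupport_smul_subset_left (fun x => χ o x) α).trans (hχ o)
  cases o with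
  | none =>
    apply integral_eq_zero_of_ae
    have hae : ∀ᵐ x ∂nu, x ∈ G.X := by
      rw [ae_iff]
      exact hn.compl
    filter_upwards [hae] with x hx
    have h0 : (fun x => χ none x • α x) =ᶠ[𝓝 x] fun _ => 0 :=
      notMem_tsupport_iff_eventuallyEq.1 fun hx' => (htsub hx') hx
    rw [StokesX_dOne_eq_zero h0, StokesX_comp6_zero, StokesX_wedge_zero]
    rfl
  | some i =>
    obtain ⟨ψ, κ, h⟩ := hch i
    exact stokes_local hX hf hn h _ β (hone _) hβ hcl htsub

end Pool.Agent.W_MP_d8b8b7_G1
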