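import Pool.Agent.W_MP_d8b8b7_G1.KerGlob
import Pool.Agent.W_MP_d8b8b7_G1.StokesX
import Pool.Agent.W_MP_d8b8b7_G1.Model

set_option autoImplicit false

/-!
# (G1) SetupOf: the `Setup` of the geometric data

`exists_setup`: `exists_frame`, `exists_vol`, `stokes_X`, `tube_glob`, `ker_up_glob`, `ker_low_glob`,
`IsVol.upper`; `C1` = maximum of all the constants, `d0` = minimum of all the `d` and 1.
`charts`: for `x₀ ∈ X` take `LChart G.X ψ κ V`, `ψ 0 = x₀`, `σ` from `dn_sign`, `h = σ * dn G ψ`: smooth by
`dn_smooth`, positive on the ball, `lint` from `IsVol.lint` (`σ * dn = |dn|` on the ball), `orient` from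
`dn_orient`.
-/

namespace Pool.Agent.W_MP_d8b8b7_G1

open Pool.Agent.W_MP_d8b8b7_gt
open MeasureTheory Set Filter Topology
open scoped Manifold ContDiff ENNReal

theorem exists_setup {N : ℕ} (G : Geom N) (hX : IsSub G.X) : ∃ S : Setup N, S.toGeom = G := by
  obtain ⟨fr, hf⟩ := exists_frame G hX
  obtain ⟨nu, hn⟩ := exists_vol G hX
  obtain ⟨d1, K1, hd1, hK1, h1⟩ := tube_glob (G := G) hX
  obtain ⟨d2, K2, hd2, hK2, h2⟩ := ker_up_glob hX hn
  obtain ⟨d3, K3, hd3, hK3, h3⟩ := ker_low_glob hX hn
  obtain ⟨K4, hK4, h4⟩ := hn.upper hX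
  set C : ℝ := max (max K1 K2) (max K3 K4) with hC
  set d : ℝ := min (min d1 d2) (min d3 1) with hd
  have c1 : K1 ≤ C := (le_max_left _ _).trans (le_max_left _ _)
  have c2 : K2 ≤ C := (le_max_right _ _).trans (le_max_left _ _)
  have c3 : K3 ≤ C := (le_max_left _ _).trans (le_max_right _ _)
  have c4 : K4 ≤ C := (le_max_right _ _).trans (le_max_right _ _)
  have e1 : d ≤ d1 := (min_le_left _ _).trans (min_le_left _ _)
  have e2 : d ≤ d2 := (min_le_left _ _).trans (min_le_right _ _)
  have e3 : d ≤ d3 := (min_le_right _ _).trans (min_le_left _ _)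
  have e4 : d ≤ 1 := (min_le_right _ _).trans (min_le_right _ _)
  have d0 : 0 < d := lt_min (lt_min hd1 hd2) (lt_min hd3 one_pos)
  have C1 : 1 ≤ C := hK1.trans c1
  refine ⟨{ toGeom := G
            nu := nu
            fr := fr
            fin_nu := hn.fin
            nu_compl := hn.compl
            meas_fr := hf.meas
            fr_tan := hf.tan
            fr_J0 := hf.J0
            fr_J2 := hf.J2
            fr_orth := hf.orth
            fr_span := hf.span
            stokes := fun α β hα hβ hcl => stokes_X hX hf hn α β hα hβ hcl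
            C1 := C
            d0 := d
            one_le_C1 := C1
            d0_pos := d0
            d0_le := e4
            tube := fun x hx s hs => (h1 x hx s (hs.trans e1)).1
            near := fun x hx s hs => (h1 x hx s (hs.trans e1)).2.trans
              (mul_le_mul_of_nonneg_right c1 (norm_nonneg s))
            ker_up := ?_
            ker_low := ?_
            vol_ball := ?_
            charts := ?_ }, rfl⟩
  · intro x hx δ hδ hδd f hfm
    refine (h2 x hx δ hδ (hδd.trans e2) f hfm).trans ?_
    have hδ4 : 0 ≤ δ⁻¹ ^ 4 := by positivity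
    exact mul_le_mul' (ENNReal.ofReal_le_ofReal (mul_le_mul_of_nonneg_right c2 hδ4))
      (lintegral_mono_set (Metric.closedBall_subset_closedBall
        (mul_le_mul_of_nonneg_right c2 hδ.le)))
  · intro δ hδ hδd f hfm
    refine le_trans ?_ (h3 δ hδ (hδd.trans e3) f hfm)
    exact mul_le_mul_left (ENNReal.ofReal_le_ofReal
      (inv_anti₀ (one_pos.trans_le hK3) c3)) _
  · intro x r hr
    refine (h4 x r hr).trans (ENNReal.ofReal_le_ofReal
      (mul_le_mul_of_nonneg_right c4 (by positivity)))
  · intro x₀ hx₀
    obtain ⟨ψ, κ, V, hch, h0⟩ := hX.chart x₀ hx₀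
    obtain ⟨σ, hσ, hpos⟩ := dn_sign hX hch
    refine ⟨ψ, κ, V, fun z => σ * dn G ψ z, σ, ?_, h0⟩
    refine { smooth_psi := hch.smooth_psi
             smooth_kap := hch.smooth_kap
             openV := hch.openV
             smooth_h := contDiff_const.mul (dn_smooth G hch.smooth_psi)
             h_pos := hpos
             sgn := hσ
             image := hch.image
             kap_psi := hch.kap_psi
             lint := ?_
             orient := ?_ }
    · intro f hfm
      rw [hn.lint ψ κ V hch f hfm]
      refine setLIntegral_congr_fun measurableSet_ball ?_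
      intro z hz
      have hp := hpos z hz
      have : |dn G ψ z| = σ * dn G ψ z := by
        rcases hσ with rfl | rfl
        · rw [one_mul] at hp ⊢
          exact abs_of_pos hp
        · rw [neg_one_mul] at hp ⊢
          exact abs_of_neg (neg_pos.1 hp)
      simp only [this]
    · intro z hz b c hb hc
      have h := dn_orient hf hch hz b c hb hc
      calc wedge (comp6 b (fun a => fr a (ψ z))) (comp6 c (fun a => fr a (ψ z))) * (σ * dn G ψ z)
          = σ * (wedge (comp6 b (fun a => fr a (ψ z))) (comp6 c (fun a => fr a (ψ z))) *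
            dn G ψ z) := by ring
        _ = _ := by rw [h]

/-- every closed tamed almost complex manifold has a `Setup` -/
theorem exists_setup_model {M : Type*} [TopologicalSpace M] [ChartedSpace E4 M]
    [IsManifold 𝓘(ℝ, E4) ∞ M] [CompactSpace M] [T2Space M] [Nonempty M] {Ω : Form M 2}
    {J : EndoField M} (hΩ : IsSymplectic Ω) (hJ : IsAlmostComplex J) (ht : Tame Ω J) :
    ∃ (N : ℕ) (S : Setup N) (e : M → EN N), IsModel Ω J S.toGeom e := by
  obtain ⟨N, G, e, h⟩ := exists_model hΩ hJ ht
  obtain ⟨S, rfl⟩ := exists_setup G h.sub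
  exact ⟨N, S, e, h⟩

end Pool.Agent.W_MP_d8b8b7_G1
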