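import Pool.Agent.W_MP_d8b8b7_G1.Base

set_option autoImplicit false

/-!
# (G1) Shrink: small charts

Let `ψ, κ, V` be a chart of `X`, `W` open, `ψ 0 ∈ W`.  Choose `0 < r < 1` with
`ψ (closedBall 0 r) ⊆ W` (continuity of `ψ`) and put
`V' = V ∩ W ∩ {y | κ y ∈ ball 0 r}`, `ψ' z = ψ (r • z)`, `κ' y = r⁻¹ • κ y`.  Then
`X ∩ V' = ψ (ball 0 r)`: if `x ∈ X ∩ V` then `x = ψ (κ x)`, `κ x ∈ ball 0 1` (`LChart.kap_mem`).

`exists_closed`: for `ε > 0` one can also get `closure V' ⊆ W` (first shrink `W` to a ball `ball (ψ 0) ε`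
with `closedBall (ψ 0) ε ⊆ W`).
-/

namespace Pool.Agent.W_MP_d8b8b7_G1

open Pool.Agent.W_MP_d8b8b7_gt
open MeasureTheory Set Filter Topology
open scoped Manifold ContDiff

variable {N : ℕ} {X : Set (EN N)} {ψ : EN 4 → EN N} {κ : EN N → EN 4} {V : Set (EN N)}

theorem LChart.shrink (h : LChart X ψ κ V) {W : Set (EN N)} (hW : IsOpen W) (h0 : ψ 0 ∈ W) :
    ∃ r : ℝ, 0 < r ∧ r < 1 ∧ ∃ V' : Set (EN N), V' ⊆ V ∩ W ∧
      (∀ y ∈ V', κ y ∈ Metric.ball (0 : EN 4) r) ∧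
      LChart X (fun z => ψ (r • z)) (fun y => r⁻¹ • κ y) V' := by
  have hc : Continuous ψ := h.smooth_psi.continuous
  have hnhds : ψ ⁻¹' W ∈ 𝓝 (0 : EN 4) := (hW.preimage hc).mem_nhds h0
  obtain ⟨r₀, hr₀, hsub⟩ := Metric.mem_nhds_iff.mp hnhds
  have hr : 0 < min r₀ (1 / 2) := lt_min hr₀ (by norm_num)
  set r : ℝ := min r₀ (1 / 2) with hrdef
  have hr1 : r < 1 := lt_of_le_of_lt (min_le_right _ _) (by norm_num)
  have hrr : r ≤ r₀ := min_le_left _ _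
  have hscale : ∀ z ∈ Metric.ball (0 : EN 4) 1, r • z ∈ Metric.ball (0 : EN 4) r := by
    intro z hz
    rw [mem_ball_zero_iff] at hz ⊢
    rw [norm_smul, Real.norm_eq_abs, abs_of_pos hr]
    nlinarith
  refine ⟨r, hr, hr1, V ∩ W ∩ κ ⁻¹' Metric.ball (0 : EN 4) r, fun y hy => hy.1,
    fun y hy => hy.2, ?_⟩
  refine ⟨?_, ?_, ?_, ?_, ?_⟩
  · exact h.smooth_psi.comp (contDiff_const_smul r)
  · exact h.smooth_kap.const_smul r⁻¹
  · exact (h.openV.inter hW).inter (Metric.isOpen_ball.preimage h.smooth_kap.continuous)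
  · ext x
    constructor
    · rintro ⟨hxX, ⟨hxV, -⟩, hxk⟩
      obtain ⟨-, hx2⟩ := h.kap_mem hxX hxV
      have hxk' : ‖κ x‖ < r := by simpa using hxk
      refine ⟨r⁻¹ • κ x, ?_, ?_⟩
      · rw [mem_ball_zero_iff, norm_smul, Real.norm_eq_abs, abs_of_pos (inv_pos.mpr hr),
          inv_mul_lt_iff₀ hr, mul_one]
        exact hxk'
      · change ψ (r • (r⁻¹ • κ x)) = x
        rw [smul_inv_smul₀ hr.ne', hx2]
    · rintro ⟨z, hz, rfl⟩
      have hz' := hscale z hz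
      have hz1 : r • z ∈ Metric.ball (0 : EN 4) 1 := Metric.ball_subset_ball hr1.le hz'
      obtain ⟨a, b⟩ := h.psi_mem hz1
      refine ⟨a, ⟨b, hsub (Metric.ball_subset_ball hrr hz')⟩, ?_⟩
      change κ (ψ (r • z)) ∈ Metric.ball (0 : EN 4) r
      rw [h.kap_psi _ hz1]
      exact hz'
  · intro z hz
    have hz1 : r • z ∈ Metric.ball (0 : EN 4) 1 := Metric.ball_subset_ball hr1.le (hscale z hz)
    change r⁻¹ • κ (ψ (r • z)) = z
    rw [h.kap_psi _ hz1, inv_smul_smul₀ hr.ne']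

theorem LChart.exists_closed (h : LChart X ψ κ V) {W : Set (EN N)} (hW : IsOpen W)
    (h0 : ψ 0 ∈ W) : ∃ (ψ' : EN 4 → EN N) (κ' : EN N → EN 4) (V' : Set (EN N)),
      LChart X ψ' κ' V' ∧ ψ' 0 = ψ 0 ∧ closure V' ⊆ W ∧ Bornology.IsBounded V' := by
  obtain ⟨ε, hε, hsub⟩ := Metric.nhds_basis_closedBall.mem_iff.mp (hW.mem_nhds h0)
  obtain ⟨r, -, -, V', hV', -, hch⟩ := h.shrink (W := Metric.ball (ψ 0) ε) Metric.isOpen_ball
    (Metric.mem_ball_self hε)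
  refine ⟨_, _, V', hch, ?_, ?_, ?_⟩
  · change ψ (r • (0 : EN 4)) = ψ 0
    rw [smul_zero]
  · exact (closure_minimal ((hV'.trans inter_subset_right).trans Metric.ball_subset_closedBall)
      Metric.isClosed_closedBall).trans hsub
  · exact Metric.isBounded_ball.subset (hV'.trans inter_subset_right)

end Pool.Agent.W_MP_d8b8b7_G1
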