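import Pool.Agent.W_MP_d8b8b7_G1.ChartChange

set_option autoImplicit false

/-!
# (G1) Volume: the Riemannian volume of `X` as a measure on `R^N`

`volume_part G W`: there is a finite measure on `X` which in every chart `ψ` has density
`|dn G ψ|` on the part `ψ z ∈ W`.  This holds for chart domains (`volume_img`, `chart_change`), is stable
under unions (`nu₁ + nu₂.restrict W₁ᶜ`), hence holds for some `W ⊇ X` by compactness (`IsCompact.induction_on`).

`integral_chart`: `nu.restrict V = Measure.map ψ ((volume.restrict ball).withDensity (ofReal |dn G ψ|))` by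
`lint` with indicator functions; `integral_map`, `integral_withDensity_eq_integral_smul`.
-/

namespace Pool.Agent.W_MP_d8b8b7_G1

open Pool.Agent.W_MP_d8b8b7_gt
open MeasureTheory Set Filter Topology
open scoped Manifold ContDiff ENNReal

variable {N : ℕ}

/-- `nu` is the Riemannian volume of `X` -/
structure IsVol (G : Geom N) (nu : Measure (EN N)) : Prop where
  fin : IsFiniteMeasure nu
  compl : nu G.Xᶜ = 0
  lint : ∀ (ψ : EN 4 → EN N) (κ : EN N → EN 4) (V : Set (EN N)), LChart G.X ψ κ V →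
    ∀ f : EN N → ℝ≥0∞, Measurable f → ∫⁻ x in V, f x ∂nu =
      ∫⁻ z in Metric.ball (0 : EN 4) 1, f (ψ z) * ENNReal.ofReal |dn G ψ z|

/-- `nu` is the Riemannian volume of `X ∩ W` -/
def volume_part (G : Geom N) (W : Set (EN N)) : Prop :=
  ∃ nu : Measure (EN N), IsFiniteMeasure nu ∧ nu G.Xᶜ = 0 ∧
    ∀ (ψ : EN 4 → EN N) (κ : EN N → EN 4) (V : Set (EN N)), LChart G.X ψ κ V →
      ∀ f : EN N → ℝ≥0∞, Measurable f → ∫⁻ x in V, f x ∂nu =
        ∫⁻ z in Metric.ball (0 : EN 4) 1, W.indicator f (ψ z) * ENNReal.ofReal |dn G ψ z|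

/-- the image of the density `|dn G ψ|` on the unit ball -/
noncomputable def volume_img (G : Geom N) (ψ : EN 4 → EN N) : Measure (EN N) :=
  Measure.map ψ ((volume.restrict (Metric.ball (0 : EN 4) 1)).withDensity
    (fun z => ENNReal.ofReal |dn G ψ z|))

theorem volume_dn_meas (G : Geom N) {ψ : EN 4 → EN N} (hψ : ContDiff ℝ ∞ ψ) :
    Measurable fun z => ENNReal.ofReal |dn G ψ z| :=
  ENNReal.measurable_ofReal.comp (dn_smooth G hψ).continuous.abs.measurable

theorem volume_img_lint (G : Geom N) {ψ : EN 4 → EN N} (hψ : ContDiff ℝ ∞ ψ)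
    {f : EN N → ℝ≥0∞} (hf : Measurable f) : ∫⁻ x, f x ∂(volume_img G ψ) =
      ∫⁻ z in Metric.ball (0 : EN 4) 1, f (ψ z) * ENNReal.ofReal |dn G ψ z| := by
  rw [volume_img, lintegral_map hf hψ.continuous.measurable]
  refine (lintegral_withDensity_eq_lintegral_mul _ (volume_dn_meas G hψ)
      (hf.comp hψ.continuous.measurable)).trans ?_
  refine lintegral_congr fun z => ?_
  rw [Pi.mul_apply, mul_comm]
  rfl

theorem volume_img_fin (G : Geom N) {ψ : EN 4 → EN N} (hψ : ContDiff ℝ ∞ ψ) :
    IsFiniteMeasure (volume_img G ψ) := by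
  constructor
  have h1 := volume_img_lint G hψ (f := fun _ => 1) measurable_const
  rw [lintegral_one] at h1
  rw [h1]
  obtain ⟨C, hC⟩ := (isCompact_closedBall (0 : EN 4) 1).bddAbove_image
    (dn_smooth G hψ).continuous.abs.continuousOn
  calc ∫⁻ z in Metric.ball (0 : EN 4) 1, 1 * ENNReal.ofReal |dn G ψ z|
      ≤ ∫⁻ z in Metric.ball (0 : EN 4) 1, ENNReal.ofReal C := by
        refine setLIntegral_mono' measurableSet_ball fun z hz => ?_
        rw [one_mul]
        exact ENNReal.ofReal_le_ofReal (hC ⟨z, Metric.ball_subset_closedBall hz, rfl⟩)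
    _ < ⊤ := by
        rw [setLIntegral_const]
        exact ENNReal.mul_lt_top ENNReal.ofReal_lt_top measure_ball_lt_top

theorem volume_part_chart {G : Geom N} {ψ₀ : EN 4 → EN N} {κ₀ : EN N → EN 4} {V₀ : Set (EN N)}
    (h₀ : LChart G.X ψ₀ κ₀ V₀) : volume_part G V₀ := by
  refine ⟨volume_img G ψ₀, volume_img_fin G h₀.smooth_psi, ?_, ?_⟩
  · have hm : MeasurableSet G.Xᶜ := G.cptX.isClosed.measurableSet.compl
    rw [← lintegral_indicator_one hm, volume_img_lint G h₀.smooth_psi (measurable_one.indicator hm)]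
    rw [← lintegral_zero (μ := volume.restrict (Metric.ball (0 : EN 4) 1))]
    refine setLIntegral_congr_fun measurableSet_ball fun z hz => ?_
    have h1 : ψ₀ z ∉ G.Xᶜ := fun h => h (h₀.psi_mem hz).1
    simp only [Set.indicator_of_notMem h1, zero_mul]
  · intro ψ κ V h f hf
    rw [← lintegral_indicator h.openV.measurableSet,
      volume_img_lint G h₀.smooth_psi (hf.indicator h.openV.measurableSet)]
    have h1 := chart_change h₀ h (h₀.openV.measurableSet.inter h.openV.measurableSet)
      Set.Subset.rfl f hf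
    have h2 : ∫⁻ z in Metric.ball (0 : EN 4) 1, V.indicator f (ψ₀ z) *
        ENNReal.ofReal |dn G ψ₀ z| = ∫⁻ z in Metric.ball (0 : EN 4) 1,
          (V₀ ∩ V).indicator f (ψ₀ z) * ENNReal.ofReal |dn G ψ₀ z| := by
      refine setLIntegral_congr_fun measurableSet_ball fun z hz => ?_
      have h3 := (h₀.psi_mem hz).2
      have h4 : (V₀ ∩ V).indicator f (ψ₀ z) = V.indicator f (ψ₀ z) := by
        by_cases h5 : ψ₀ z ∈ V
        · rw [Set.indicator_of_mem h5, Set.indicator_of_mem (Set.mem_inter h3 h5)]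
        · rw [Set.indicator_of_notMem h5, Set.indicator_of_notMem fun h6 => h5 h6.2]
      simp only [h4]
    rw [h2, h1]
    refine setLIntegral_congr_fun measurableSet_ball fun z hz => ?_
    have h3 := (h.psi_mem hz).2
    have h4 : (V₀ ∩ V).indicator f (ψ z) = V₀.indicator f (ψ z) := by
      by_cases h5 : ψ z ∈ V₀
      · rw [Set.indicator_of_mem h5, Set.indicator_of_mem (Set.mem_inter h5 h3)]
      · rw [Set.indicator_of_notMem h5, Set.indicator_of_notMem fun h6 => h5 h6.1]
    simp only [h4]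

theorem volume_part_union {G : Geom N} {W₁ W₂ : Set (EN N)} (hm : MeasurableSet W₁)
    (h₁ : volume_part G W₁) (h₂ : volume_part G W₂) : volume_part G (W₁ ∪ W₂) := by
  obtain ⟨nu₁, hf₁, hc₁, hl₁⟩ := h₁
  obtain ⟨nu₂, hf₂, hc₂, hl₂⟩ := h₂
  refine ⟨nu₁ + nu₂.restrict W₁ᶜ, inferInstance, ?_, ?_⟩
  · rw [Measure.add_apply, hc₁, zero_add]
    exact le_antisymm ((Measure.restrict_apply_le _ _).trans hc₂.le) bot_le
  · intro ψ κ V h f hf
    rw [Measure.restrict_add, lintegral_add_measure, hl₁ ψ κ V h f hf]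
    have h1 : ∫⁻ x in V, f x ∂(nu₂.restrict W₁ᶜ) = ∫⁻ x in V, W₁ᶜ.indicator f x ∂nu₂ := by
      rw [Measure.restrict_comm h.openV.measurableSet, lintegral_indicator hm.compl]
    rw [h1, hl₂ ψ κ V h _ (hf.indicator hm.compl), ← lintegral_add_left]
    · refine lintegral_congr fun z => ?_
      rw [← add_mul]
      congr 1
      by_cases h2 : ψ z ∈ W₁
      · have h3 : ψ z ∉ W₁ᶜ := fun h => h h2
        rw [Set.indicator_of_mem h2, Set.indicator_of_mem (Set.mem_union_left W₂ h2)]
        by_cases h4 : ψ z ∈ W₂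
        · rw [Set.indicator_of_mem h4, Set.indicator_of_notMem h3, add_zero]
        · rw [Set.indicator_of_notMem h4, add_zero]
      · have h3 : ψ z ∈ W₁ᶜ := h2
        rw [Set.indicator_of_notMem h2, zero_add]
        by_cases h4 : ψ z ∈ W₂
        · rw [Set.indicator_of_mem h4, Set.indicator_of_mem h3,
            Set.indicator_of_mem (Set.mem_union_right W₁ h4)]
        · rw [Set.indicator_of_notMem h4, Set.indicator_of_notMem fun h => h.elim h2 h4]
    · exact ((hf.indicator hm).comp h.smooth_psi.continuous.measurable).mul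
        (volume_dn_meas G h.smooth_psi)

theorem volume_part_empty (G : Geom N) : volume_part G (∅ : Set (EN N)) := by
  refine ⟨0, inferInstance, rfl, ?_⟩
  intro ψ κ V h f hf
  simp

theorem volume_exists_part (G : Geom N) (hX : IsSub G.X) :
    ∃ W : Set (EN N), MeasurableSet W ∧ G.X ⊆ W ∧ volume_part G W := by
  refine G.cptX.induction_on (p := fun s => ∃ W : Set (EN N), MeasurableSet W ∧ s ⊆ W ∧
    volume_part G W) ?_ ?_ ?_ ?_
  · exact ⟨∅, MeasurableSet.empty, Set.Subset.rfl, volume_part_empty G⟩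
  · rintro s t hst ⟨W, hm, hW, hp⟩
    exact ⟨W, hm, hst.trans hW, hp⟩
  · rintro s t ⟨W₁, hm₁, hW₁, hp₁⟩ ⟨W₂, hm₂, hW₂, hp₂⟩
    exact ⟨W₁ ∪ W₂, hm₁.union hm₂, Set.union_subset_union hW₁ hW₂,
      volume_part_union hm₁ hp₁ hp₂⟩
  · intro x hx
    obtain ⟨ψ, κ, V, h, h0⟩ := hX.chart x hx
    have hxV : x ∈ V := by
      rw [← h0]
      exact (h.psi_mem (Metric.mem_ball_self one_pos)).2
    exact ⟨V, mem_nhdsWithin_of_mem_nhds (h.openV.mem_nhds hxV), V, h.openV.measurableSet,
      Set.Subset.rfl, volume_part_chart h⟩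

theorem exists_vol (G : Geom N) (hX : IsSub G.X) : ∃ nu : Measure (EN N), IsVol G nu := by
  obtain ⟨W, -, hXW, nu, hf, hc, hl⟩ := volume_exists_part G hX
  refine ⟨nu, hf, hc, ?_⟩
  intro ψ κ V h f hm
  rw [hl ψ κ V h f hm]
  refine setLIntegral_congr_fun measurableSet_ball fun z hz => ?_
  have h1 : ψ z ∈ W := hXW (h.psi_mem hz).1
  simp only [Set.indicator_of_mem h1]

theorem IsVol.integral_chart {G : Geom N} {nu : Measure (EN N)} (hn : IsVol G nu)
    {ψ : EN 4 → EN N} {κ : EN N → EN 4} {V : Set (EN N)} (h : LChart G.X ψ κ V)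
    (f : EN N → ℝ) (hf : Measurable f) :
    ∫ x in V, f x ∂nu = ∫ z in Metric.ball (0 : EN 4) 1, f (ψ z) * |dn G ψ z| := by
  have h1 : nu.restrict V = volume_img G ψ := by
    ext s hs
    have h2 := hn.lint ψ κ V h (s.indicator 1) (measurable_one.indicator hs)
    rw [← volume_img_lint G h.smooth_psi (measurable_one.indicator hs),
      lintegral_indicator_one hs, lintegral_indicator_one hs] at h2
    exact h2
  have h3 : Measurable fun z => Real.toNNReal |dn G ψ z| :=
    (dn_smooth G h.smooth_psi).continuous.abs.measurable.real_toNNReal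
  rw [h1, volume_img, integral_map h.smooth_psi.continuous.measurable.aemeasurable
    hf.aestronglyMeasurable]
  have h4 := integral_withDensity_eq_integral_smul
    (μ := volume.restrict (Metric.ball (0 : EN 4) 1)) h3 (fun z => f (ψ z))
  refine h4.trans ?_
  refine integral_congr_ae (Filter.Eventually.of_forall fun z => ?_)
  change Real.toNNReal |dn G ψ z| • f (ψ z) = f (ψ z) * |dn G ψ z|
  rw [NNReal.smul_def, Real.coe_toNNReal _ (abs_nonneg _), smul_eq_mul, mul_comm]

end Pool.Agent.W_MP_d8b8b7_G1
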