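import Pool.Agent.W_MP_d8b8b7_G1.Pole
import Pool.Agent.W_MP_d8b8b7_G1.Volume

set_option autoImplicit false

/-!
# (G1) Slice: the retraction on four dimensional slices

`h : IsPole G ψ κ V R Λ`, `B = fderiv ψ 0`, `H = Hk G κ`, `y0` a point, `δ, η > 0` with
`y0 + δ • B t ∈ ball (ψ 0) R` for all `t ∈ ball 0 η`.  `Φ t = H (y0 + δ • B t)`; `ψ (Φ t) = ρ (y0 + δ • B t)`.
* `HasFDerivAt Φ (δ • (DH ∘ B)) t`; `‖DΦ(t) - δ • id‖ ≤ δ / 2` on the convex ball, so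
  `‖Φ t - Φ t' - δ • (t - t')‖ ≤ (δ / 2) ‖t - t'‖` (`slice_approx`), `Φ` is injective on the ball.
* `slice_up`: `∫_{t ∈ ball 0 η} f (ρ (y0 + δ B t)) dt ≤ 2 δ^{-4} ∫_{ball} f (ψ (Φ t)) |det DΦ| dt
  = 2 δ^{-4} ∫_{Φ (ball)} f (ψ z) dz ≤ 2 Λ δ^{-4} ∫_{z ∈ Φ (ball)} f (ψ z) |dn z| dz
  ≤ 2 Λ δ^{-4} ∫_S f dnu` for every measurable `S` containing all the points `ρ (y0 + δ B t)`
  (`lintegral_image_eq_lintegral_abs_det_fderiv_mul`, `det (δ • A) = δ^4 det A`, `IsVol.lint` with the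
  function `S.indicator f`).
* `slice_low`: by `slice_approx` and `ApproximatesLinearOn.surjOn_closedBall_of_nonlinearRightInverse` (or a direct
  Banach fixed point / the inverse function theorem file
  `Mathlib/Analysis/Calculus/InverseFunctionTheorem/ApproximatesLinearOn.lean`), `Φ (ball 0 η)` contains
  `ball (Φ 0) (δ η / 2)`.  Hence
  `∫_{t ∈ ball 0 η} f (ρ (y0 + δ B t)) dt ≥ (1/2) δ^{-4} ∫_{Φ (ball)} f (ψ z) dz
  ≥ (1/2) δ^{-4} Λ^{-1} ∫_{z ∈ ball (Φ 0) (δ η / 2)} f (ψ z) |dn z| dz ≥ (1/2) δ^{-4} Λ^{-1} ∫_S f dnu`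
  for every measurable `S` such that every `x ∈ X ∩ S` lies in `V` and `κ x ∈ ball (Φ 0) (δ η / 2)`.
-/

namespace Pool.Agent.W_MP_d8b8b7_G1

open Pool.Agent.W_MP_d8b8b7_gt
open MeasureTheory Set Filter Topology
open scoped Manifold ContDiff ENNReal

variable {N : ℕ} {G : Geom N} {nu : Measure (EN N)} {ψ : EN 4 → EN N} {κ : EN N → EN 4}
  {V : Set (EN N)} {R Λ : ℝ}

theorem slice_differentiable (h : IsPole G ψ κ V R Λ) : Differentiable ℝ (Hk G κ) := by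
  have h1 : Differentiable ℝ κ := h.chart.smooth_kap.differentiable (by simp)
  have h2 : Differentiable ℝ G.rho := G.smooth_rho.differentiable (by simp)
  exact h1.comp h2

theorem slice_hasFDerivAt (h : IsPole G ψ κ V R Λ) (y0 : EN N) (δ : ℝ) (t : EN 4) :
    HasFDerivAt (fun t : EN 4 => Hk G κ (y0 + δ • fderiv ℝ ψ 0 t))
      (δ • ((fderiv ℝ (Hk G κ) (y0 + δ • fderiv ℝ ψ 0 t)).comp (fderiv ℝ ψ 0))) t := by
  have h1 : HasFDerivAt (fun t : EN 4 => y0 + δ • fderiv ℝ ψ 0 t) (δ • fderiv ℝ ψ 0) t :=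
    ((fderiv ℝ ψ 0).hasFDerivAt.const_smul δ).const_add y0
  have h2 := (slice_differentiable h (y0 + δ • fderiv ℝ ψ 0 t)).hasFDerivAt.comp t h1
  have h3 : δ • ((fderiv ℝ (Hk G κ) (y0 + δ • fderiv ℝ ψ 0 t)).comp (fderiv ℝ ψ 0)) =
      (fderiv ℝ (Hk G κ) (y0 + δ • fderiv ℝ ψ 0 t)).comp (δ • fderiv ℝ ψ 0) := by
    ext v
    simp
  rw [h3]
  exact h2

theorem slice_approx (h : IsPole G ψ κ V R Λ) (y0 : EN N) {δ η : ℝ} (hδ : 0 < δ)
    (hB : ∀ t ∈ Metric.ball (0 : EN 4) η, y0 + δ • fderiv ℝ ψ 0 t ∈ Metric.ball (ψ 0) R)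
    {t t' : EN 4} (ht : t ∈ Metric.ball (0 : EN 4) η) (ht' : t' ∈ Metric.ball (0 : EN 4) η) :
    ‖Hk G κ (y0 + δ • fderiv ℝ ψ 0 t) - Hk G κ (y0 + δ • fderiv ℝ ψ 0 t') - δ • (t - t')‖ ≤
      δ / 2 * ‖t - t'‖ := by
  have h1 : ∀ x ∈ Metric.ball (0 : EN 4) η,
      HasFDerivWithinAt (fun t : EN 4 => Hk G κ (y0 + δ • fderiv ℝ ψ 0 t) - δ • t)
        (δ • ((fderiv ℝ (Hk G κ) (y0 + δ • fderiv ℝ ψ 0 x)).comp (fderiv ℝ ψ 0)) -
          δ • ContinuousLinearMap.id ℝ (EN 4)) (Metric.ball (0 : EN 4) η) x := by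
    intro x _
    exact ((slice_hasFDerivAt h y0 δ x).sub
      ((hasFDerivAt_id x).const_smul δ)).hasFDerivWithinAt
  have h2 : ∀ x ∈ Metric.ball (0 : EN 4) η,
      ‖δ • ((fderiv ℝ (Hk G κ) (y0 + δ • fderiv ℝ ψ 0 x)).comp (fderiv ℝ ψ 0)) -
          δ • ContinuousLinearMap.id ℝ (EN 4)‖ ≤ δ / 2 := by
    intro x hx
    have e : δ • ((fderiv ℝ (Hk G κ) (y0 + δ • fderiv ℝ ψ 0 x)).comp (fderiv ℝ ψ 0)) -
          δ • ContinuousLinearMap.id ℝ (EN 4) =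
        δ • ((fderiv ℝ (Hk G κ) (y0 + δ • fderiv ℝ ψ 0 x)).comp (fderiv ℝ ψ 0) -
          ContinuousLinearMap.id ℝ (EN 4)) := (smul_sub _ _ _).symm
    rw [e, norm_smul, Real.norm_eq_abs, abs_of_pos hδ]
    have := h.near _ (hB x hx)
    nlinarith
  have h3 := (convex_ball (0 : EN 4) η).norm_image_sub_le_of_norm_hasFDerivWithin_le h1 h2 ht' ht
  have h4 : Hk G κ (y0 + δ • fderiv ℝ ψ 0 t) - Hk G κ (y0 + δ • fderiv ℝ ψ 0 t') - δ • (t - t') =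
      Hk G κ (y0 + δ • fderiv ℝ ψ 0 t) - δ • t -
        (Hk G κ (y0 + δ • fderiv ℝ ψ 0 t') - δ • t') := by
    rw [smul_sub]
    abel
  rw [h4]
  exact h3

theorem slice_injOn (h : IsPole G ψ κ V R Λ) (y0 : EN N) {δ η : ℝ} (hδ : 0 < δ)
    (hB : ∀ t ∈ Metric.ball (0 : EN 4) η, y0 + δ • fderiv ℝ ψ 0 t ∈ Metric.ball (ψ 0) R) :
    Set.InjOn (fun t : EN 4 => Hk G κ (y0 + δ • fderiv ℝ ψ 0 t)) (Metric.ball (0 : EN 4) η) := by
  intro t ht t' ht' he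
  have h1 := slice_approx h y0 hδ hB ht ht'
  have he' : Hk G κ (y0 + δ • fderiv ℝ ψ 0 t) = Hk G κ (y0 + δ • fderiv ℝ ψ 0 t') := he
  rw [he', sub_self, zero_sub, norm_neg, norm_smul, Real.norm_eq_abs, abs_of_pos hδ] at h1
  have h2 : ‖t - t'‖ = 0 := by
    have := norm_nonneg (t - t')
    nlinarith
  exact sub_eq_zero.mp (norm_eq_zero.mp h2)

theorem slice_surj (h : IsPole G ψ κ V R Λ) (y0 : EN N) {δ η : ℝ} (hδ : 0 < δ) (hη : 0 < η)
    (hB : ∀ t ∈ Metric.ball (0 : EN 4) η, y0 + δ • fderiv ℝ ψ 0 t ∈ Metric.ball (ψ 0) R)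
    {z : EN 4} (hz : ‖z - Hk G κ y0‖ < δ * η / 2) :
    z ∈ (fun t : EN 4 => Hk G κ (y0 + δ • fderiv ℝ ψ 0 t)) '' Metric.ball (0 : EN 4) η := by
  set ε : ℝ := 2 * ‖z - Hk G κ y0‖ / δ with hε
  have hε0 : 0 ≤ ε := by positivity
  have hεη : ε < η := by
    rw [hε, div_lt_iff₀ hδ]
    linarith
  have happ : ApproximatesLinearOn (fun t : EN 4 => Hk G κ (y0 + δ • fderiv ℝ ψ 0 t))
      (δ • ContinuousLinearMap.id ℝ (EN 4)) (Metric.ball (0 : EN 4) η)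
      (Real.toNNReal (δ / 2)) := by
    intro x hx y hy
    rw [Real.coe_toNNReal _ (by positivity)]
    exact slice_approx h y0 hδ hB hx hy
  let inv : (δ • ContinuousLinearMap.id ℝ (EN 4)).NonlinearRightInverse :=
    { toFun := fun y => δ⁻¹ • y
      nnnorm := Real.toNNReal δ⁻¹
      bound' := by
        intro y
        rw [Real.coe_toNNReal _ (by positivity), norm_smul, Real.norm_eq_abs,
          abs_of_pos (by positivity)]
      right_inv' := by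
        intro y
        simp [smul_smul, hδ.ne'] }
  have hsub : Metric.closedBall (0 : EN 4) ε ⊆ Metric.ball (0 : EN 4) η :=
    Metric.closedBall_subset_ball hεη
  have hs := happ.surjOn_closedBall_of_nonlinearRightInverse inv hε0 hsub
  have hr : (((inv.nnnorm : ℝ))⁻¹ - (Real.toNNReal (δ / 2) : ℝ)) * ε = ‖z - Hk G κ y0‖ := by
    have h1 : (inv.nnnorm : ℝ) = δ⁻¹ := Real.coe_toNNReal _ (by positivity)
    rw [h1, Real.coe_toNNReal _ (by positivity), inv_inv, hε]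
    field_simp
    ring
  have hz'' : z ∈ Metric.closedBall ((fun t : EN 4 => Hk G κ (y0 + δ • fderiv ℝ ψ 0 t)) 0)
      ((((inv.nnnorm : ℝ))⁻¹ - (Real.toNNReal (δ / 2) : ℝ)) * ε) := by
    rw [hr]
    simp [dist_eq_norm]
  obtain ⟨t, ht, hte⟩ := hs hz''
  exact ⟨t, hsub ht, hte⟩

theorem slice_det (A : EN 4 →L[ℝ] EN 4) {δ : ℝ} (hδ : 0 < δ) :
    |(δ • A).det| = δ ^ 4 * |A.det| := by
  have h1 : (δ • A).det = δ ^ 4 * A.det := by
    rw [ContinuousLinearMap.det, ContinuousLinearMap.det, ContinuousLinearMap.toLinearMap_smul,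
      LinearMap.det_smul]
    simp
  rw [h1, abs_mul, abs_of_pos (by positivity)]

theorem slice_change (h : IsPole G ψ κ V R Λ) (y0 : EN N) {δ η : ℝ} (hδ : 0 < δ)
    (hB : ∀ t ∈ Metric.ball (0 : EN 4) η, y0 + δ • fderiv ℝ ψ 0 t ∈ Metric.ball (ψ 0) R)
    (g : EN 4 → ℝ≥0∞) :
    ∫⁻ z in (fun t : EN 4 => Hk G κ (y0 + δ • fderiv ℝ ψ 0 t)) '' Metric.ball (0 : EN 4) η,
        g z =
      ∫⁻ t in Metric.ball (0 : EN 4) η,
        ENNReal.ofReal (δ ^ 4 * |((fderiv ℝ (Hk G κ) (y0 + δ • fderiv ℝ ψ 0 t)).comp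
          (fderiv ℝ ψ 0)).det|) * g (Hk G κ (y0 + δ • fderiv ℝ ψ 0 t)) := by
  have h1 := lintegral_image_eq_lintegral_abs_det_fderiv_mul (volume : Measure (EN 4))
    (s := Metric.ball (0 : EN 4) η) measurableSet_ball
    (fun t _ => (slice_hasFDerivAt h y0 δ t).hasFDerivWithinAt) (slice_injOn h y0 hδ hB) g
  rw [h1]
  refine setLIntegral_congr_fun measurableSet_ball ?_
  intro t _
  simp only
  rw [slice_det _ hδ]

theorem slice_measImage (h : IsPole G ψ κ V R Λ) (y0 : EN N) {δ η : ℝ} (hδ : 0 < δ)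
    (hB : ∀ t ∈ Metric.ball (0 : EN 4) η, y0 + δ • fderiv ℝ ψ 0 t ∈ Metric.ball (ψ 0) R) :
    MeasurableSet
      ((fun t : EN 4 => Hk G κ (y0 + δ • fderiv ℝ ψ 0 t)) '' Metric.ball (0 : EN 4) η) :=
  measurable_image_of_fderivWithin measurableSet_ball
    (fun t _ => (slice_hasFDerivAt h y0 δ t).hasFDerivWithinAt) (slice_injOn h y0 hδ hB)

theorem slice_image_subset (h : IsPole G ψ κ V R Λ) (y0 : EN N) {δ η : ℝ}
    (hB : ∀ t ∈ Metric.ball (0 : EN 4) η, y0 + δ • fderiv ℝ ψ 0 t ∈ Metric.ball (ψ 0) R) :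
    (fun t : EN 4 => Hk G κ (y0 + δ • fderiv ℝ ψ 0 t)) '' Metric.ball (0 : EN 4) η ⊆
      Metric.ball (0 : EN 4) (1 / 2) := by
  rintro _ ⟨t, ht, rfl⟩
  exact (h.mem _ (hB t ht)).2.2

theorem slice_up (h : IsPole G ψ κ V R Λ) (hn : IsVol G nu) (y0 : EN N) {δ η : ℝ} (hδ : 0 < δ)
    (hB : ∀ t ∈ Metric.ball (0 : EN 4) η, y0 + δ • fderiv ℝ ψ 0 t ∈ Metric.ball (ψ 0) R)
    {S : Set (EN N)} (hS : MeasurableSet S)
    (hS' : ∀ t ∈ Metric.ball (0 : EN 4) η, G.rho (y0 + δ • fderiv ℝ ψ 0 t) ∈ S)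
    (f : EN N → ℝ≥0∞) (hf : Measurable f) :
    ∫⁻ t in Metric.ball (0 : EN 4) η, f (G.rho (y0 + δ • fderiv ℝ ψ 0 t)) ≤
      ENNReal.ofReal (2 * Λ * δ⁻¹ ^ 4) * ∫⁻ x in S, f x ∂nu := by
  have hΛ : 0 < Λ := lt_of_lt_of_le one_pos h.one_le
  set F : EN N → ℝ≥0∞ := S.indicator f with hF
  have hFm : Measurable F := hf.indicator hS
  -- the measure side
  have e1 : ∫⁻ z in Metric.ball (0 : EN 4) 1, F (ψ z) * ENNReal.ofReal |dn G ψ z| ≤
      ∫⁻ x in S, f x ∂nu := by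
    rw [← hn.lint ψ κ V h.chart F hFm, ← lintegral_indicator hS]
    exact setLIntegral_le_lintegral _ _
  -- the image side
  have e2 : ∫⁻ z in (fun t : EN 4 => Hk G κ (y0 + δ • fderiv ℝ ψ 0 t)) ''
        Metric.ball (0 : EN 4) η, F (ψ z) ≤
      ENNReal.ofReal Λ *
        ∫⁻ z in Metric.ball (0 : EN 4) 1, F (ψ z) * ENNReal.ofReal |dn G ψ z| := by
    rw [← lintegral_const_mul' _ _ ENNReal.ofReal_ne_top]
    calc ∫⁻ z in (fun t : EN 4 => Hk G κ (y0 + δ • fderiv ℝ ψ 0 t)) ''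
          Metric.ball (0 : EN 4) η, F (ψ z)
        ≤ ∫⁻ z in (fun t : EN 4 => Hk G κ (y0 + δ • fderiv ℝ ψ 0 t)) ''
          Metric.ball (0 : EN 4) η,
            ENNReal.ofReal Λ * (F (ψ z) * ENNReal.ofReal |dn G ψ z|) := by
          refine setLIntegral_mono' (slice_measImage h y0 hδ hB) ?_
          intro z hz
          have hz2 := slice_image_subset h y0 hB hz
          have h1 : (1 : ℝ≥0∞) ≤ ENNReal.ofReal Λ * ENNReal.ofReal |dn G ψ z| := by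
            rw [← ENNReal.ofReal_mul hΛ.le, ← ENNReal.ofReal_one]
            apply ENNReal.ofReal_le_ofReal
            have h2 := h.dn_ge z hz2
            rw [inv_le_iff_one_le_mul₀ hΛ] at h2
            linarith
          calc F (ψ z) = F (ψ z) * 1 := (mul_one _).symm
            _ ≤ F (ψ z) * (ENNReal.ofReal Λ * ENNReal.ofReal |dn G ψ z|) := by gcongr
            _ = ENNReal.ofReal Λ * (F (ψ z) * ENNReal.ofReal |dn G ψ z|) := by ring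
      _ ≤ ∫⁻ z in Metric.ball (0 : EN 4) 1,
            ENNReal.ofReal Λ * (F (ψ z) * ENNReal.ofReal |dn G ψ z|) := by
          apply lintegral_mono_set
          exact (slice_image_subset h y0 hB).trans (Metric.ball_subset_ball (by norm_num))
  rw [slice_change h y0 hδ hB] at e2
  -- the source side
  have e3 : ∫⁻ t in Metric.ball (0 : EN 4) η, f (G.rho (y0 + δ • fderiv ℝ ψ 0 t)) ≤
      ENNReal.ofReal (2 * δ⁻¹ ^ 4) * ∫⁻ t in Metric.ball (0 : EN 4) η,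
        ENNReal.ofReal (δ ^ 4 * |((fderiv ℝ (Hk G κ) (y0 + δ • fderiv ℝ ψ 0 t)).comp
          (fderiv ℝ ψ 0)).det|) * F (ψ (Hk G κ (y0 + δ • fderiv ℝ ψ 0 t))) := by
    rw [← lintegral_const_mul' _ _ ENNReal.ofReal_ne_top]
    refine setLIntegral_mono' measurableSet_ball ?_
    intro t ht
    have h1 : F (ψ (Hk G κ (y0 + δ • fderiv ℝ ψ 0 t))) =
        f (G.rho (y0 + δ • fderiv ℝ ψ 0 t)) := by
      rw [h.psi_Hk (hB t ht), hF, Set.indicator_of_mem (hS' t ht)]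
    rw [h1]
    have h2 : (1 : ℝ≥0∞) ≤ ENNReal.ofReal (2 * δ⁻¹ ^ 4) *
        ENNReal.ofReal (δ ^ 4 * |((fderiv ℝ (Hk G κ) (y0 + δ • fderiv ℝ ψ 0 t)).comp
          (fderiv ℝ ψ 0)).det|) := by
      rw [← ENNReal.ofReal_mul (by positivity), ← ENNReal.ofReal_one]
      apply ENNReal.ofReal_le_ofReal
      have h3 := h.det_ge _ (hB t ht)
      have h4 : 2 * δ⁻¹ ^ 4 * (δ ^ 4 * |((fderiv ℝ (Hk G κ)
          (y0 + δ • fderiv ℝ ψ 0 t)).comp (fderiv ℝ ψ 0)).det|) =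
          2 * |((fderiv ℝ (Hk G κ) (y0 + δ • fderiv ℝ ψ 0 t)).comp (fderiv ℝ ψ 0)).det| := by
        field_simp
      rw [h4]
      linarith
    calc f (G.rho (y0 + δ • fderiv ℝ ψ 0 t))
        = 1 * f (G.rho (y0 + δ • fderiv ℝ ψ 0 t)) := (one_mul _).symm
      _ ≤ (ENNReal.ofReal (2 * δ⁻¹ ^ 4) *
        ENNReal.ofReal (δ ^ 4 * |((fderiv ℝ (Hk G κ) (y0 + δ • fderiv ℝ ψ 0 t)).comp
          (fderiv ℝ ψ 0)).det|)) * f (G.rho (y0 + δ • fderiv ℝ ψ 0 t)) := by gcongr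
      _ = _ := by rw [mul_assoc]
  calc ∫⁻ t in Metric.ball (0 : EN 4) η, f (G.rho (y0 + δ • fderiv ℝ ψ 0 t))
      ≤ ENNReal.ofReal (2 * δ⁻¹ ^ 4) * ∫⁻ t in Metric.ball (0 : EN 4) η,
        ENNReal.ofReal (δ ^ 4 * |((fderiv ℝ (Hk G κ) (y0 + δ • fderiv ℝ ψ 0 t)).comp
          (fderiv ℝ ψ 0)).det|) * F (ψ (Hk G κ (y0 + δ • fderiv ℝ ψ 0 t))) := e3
    _ ≤ ENNReal.ofReal (2 * δ⁻¹ ^ 4) * (ENNReal.ofReal Λ *
        ∫⁻ z in Metric.ball (0 : EN 4) 1, F (ψ z) * ENNReal.ofReal |dn G ψ z|) := by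
        gcongr
    _ ≤ ENNReal.ofReal (2 * δ⁻¹ ^ 4) * (ENNReal.ofReal Λ * ∫⁻ x in S, f x ∂nu) := by
        gcongr
    _ = ENNReal.ofReal (2 * Λ * δ⁻¹ ^ 4) * ∫⁻ x in S, f x ∂nu := by
        rw [← mul_assoc, ← ENNReal.ofReal_mul (by positivity)]
        congr 2
        ring

theorem slice_low (h : IsPole G ψ κ V R Λ) (hn : IsVol G nu) (y0 : EN N) {δ η : ℝ} (hδ : 0 < δ)
    (hη : 0 < η)
    (hB : ∀ t ∈ Metric.ball (0 : EN 4) η, y0 + δ • fderiv ℝ ψ 0 t ∈ Metric.ball (ψ 0) R)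
    {S : Set (EN N)} (hS : MeasurableSet S)
    (hS' : ∀ x ∈ G.X ∩ S, x ∈ V ∧ ‖κ x - Hk G κ y0‖ < δ * η / 2)
    (f : EN N → ℝ≥0∞) (hf : Measurable f) :
    ENNReal.ofReal ((2 * Λ)⁻¹ * δ⁻¹ ^ 4) * ∫⁻ x in S, f x ∂nu ≤
      ∫⁻ t in Metric.ball (0 : EN 4) η, f (G.rho (y0 + δ • fderiv ℝ ψ 0 t)) := by
  have hΛ : 0 < Λ := lt_of_lt_of_le one_pos h.one_le
  set F : EN N → ℝ≥0∞ := S.indicator f with hF
  have hFm : Measurable F := hf.indicator hS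
  have hX : ∀ᵐ x ∂nu, x ∈ G.X := by
    rw [ae_iff]
    exact hn.compl
  have e1 : ∫⁻ x in S, f x ∂nu =
      ∫⁻ z in Metric.ball (0 : EN 4) 1, F (ψ z) * ENNReal.ofReal |dn G ψ z| := by
    rw [← hn.lint ψ κ V h.chart F hFm, ← lintegral_indicator hS,
      ← lintegral_indicator h.chart.openV.measurableSet]
    apply lintegral_congr_ae
    filter_upwards [hX] with x hx
    by_cases hxS : x ∈ S
    · rw [Set.indicator_of_mem (hS' x ⟨hx, hxS⟩).1]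
    · rw [Set.indicator_of_notMem hxS]
      by_cases hxV : x ∈ V
      · rw [Set.indicator_of_mem hxV, hF, Set.indicator_of_notMem hxS]
      · rw [Set.indicator_of_notMem hxV]
  have e2 : ∫⁻ z in Metric.ball (0 : EN 4) 1, F (ψ z) * ENNReal.ofReal |dn G ψ z| ≤
      ENNReal.ofReal Λ * ∫⁻ z in (fun t : EN 4 => Hk G κ (y0 + δ • fderiv ℝ ψ 0 t)) ''
        Metric.ball (0 : EN 4) η, F (ψ z) := by
    rw [← lintegral_const_mul' _ _ ENNReal.ofReal_ne_top,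
      ← lintegral_indicator measurableSet_ball,
      ← lintegral_indicator (slice_measImage h y0 hδ hB)]
    apply lintegral_mono
    intro z
    by_cases hz : z ∈ Metric.ball (0 : EN 4) 1
    · simp only
      rw [Set.indicator_of_mem hz]
      by_cases hzS : ψ z ∈ S
      · have hz1 := h.chart.psi_mem hz
        have hz2 := (hS' (ψ z) ⟨hz1.1, hzS⟩).2
        rw [h.chart.kap_psi z hz] at hz2
        have hz3 := slice_surj h y0 hδ hη hB hz2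
        rw [Set.indicator_of_mem hz3, mul_comm]
        have := h.dn_le z (slice_image_subset h y0 hB hz3)
        gcongr
      · rw [hF, Set.indicator_of_notMem hzS, zero_mul]
        exact zero_le
    · simp only
      rw [Set.indicator_of_notMem hz]
      exact zero_le
  rw [slice_change h y0 hδ hB] at e2
  have e3 : ∫⁻ t in Metric.ball (0 : EN 4) η,
        ENNReal.ofReal (δ ^ 4 * |((fderiv ℝ (Hk G κ) (y0 + δ • fderiv ℝ ψ 0 t)).comp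
          (fderiv ℝ ψ 0)).det|) * F (ψ (Hk G κ (y0 + δ • fderiv ℝ ψ 0 t))) ≤
      ENNReal.ofReal (2 * δ ^ 4) *
        ∫⁻ t in Metric.ball (0 : EN 4) η, f (G.rho (y0 + δ • fderiv ℝ ψ 0 t)) := by
    rw [← lintegral_const_mul' _ _ ENNReal.ofReal_ne_top]
    refine setLIntegral_mono' measurableSet_ball ?_
    intro t ht
    have h1 : F (ψ (Hk G κ (y0 + δ • fderiv ℝ ψ 0 t))) ≤
        f (G.rho (y0 + δ • fderiv ℝ ψ 0 t)) := by
      rw [h.psi_Hk (hB t ht), hF]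
      exact Set.indicator_le_self _ _ _
    have h3 := h.det_le _ (hB t ht)
    have h4 : δ ^ 4 * |((fderiv ℝ (Hk G κ) (y0 + δ • fderiv ℝ ψ 0 t)).comp
          (fderiv ℝ ψ 0)).det| ≤ 2 * δ ^ 4 := by
      have : 0 < δ ^ 4 := by positivity
      nlinarith
    gcongr
  calc ENNReal.ofReal ((2 * Λ)⁻¹ * δ⁻¹ ^ 4) * ∫⁻ x in S, f x ∂nu
      = ENNReal.ofReal ((2 * Λ)⁻¹ * δ⁻¹ ^ 4) *
        ∫⁻ z in Metric.ball (0 : EN 4) 1, F (ψ z) * ENNReal.ofReal |dn G ψ z| := by rw [e1]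
    _ ≤ ENNReal.ofReal ((2 * Λ)⁻¹ * δ⁻¹ ^ 4) * (ENNReal.ofReal Λ *
        (ENNReal.ofReal (2 * δ ^ 4) *
        ∫⁻ t in Metric.ball (0 : EN 4) η, f (G.rho (y0 + δ • fderiv ℝ ψ 0 t)))) := by
        gcongr
        exact e2.trans (by gcongr)
    _ = ∫⁻ t in Metric.ball (0 : EN 4) η, f (G.rho (y0 + δ • fderiv ℝ ψ 0 t)) := by
        rw [← mul_assoc, ← mul_assoc, ← ENNReal.ofReal_mul (by positivity),
          ← ENNReal.ofReal_mul (by positivity)]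
        have : (2 * Λ)⁻¹ * δ⁻¹ ^ 4 * Λ * (2 * δ ^ 4) = 1 := by
          field_simp
        rw [this, ENNReal.ofReal_one, one_mul]

end Pool.Agent.W_MP_d8b8b7_G1
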